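import Pool.Agent.Helper30.SC.Step

set_option autoImplicit false

/-!
# SC-4 Stage: one stage of the inside-out induction, with numbers

PROOF. `step` with `k = ⌈(1 - f - 4 δ) q s0⌉₊`. Let `W, X, U, Y` be as in `hcut`. By `hlow`
`1 - δ ≤ |X| / q s0 + |W_{s1}| / q s1` and by `hup` `1 - δ ≤ |Y| / q s0 + |U_{N-s1}| / q s1`.
Let `J = {j : d j = s1}`. `j ↦ c j s1` is injective from `J` into `P_{s1}` and `j ↦ c j (N - s1)`
from `J` into `P_{N-s1}` (`IsFam`). So
`|W_{s1}| ≤ |P_{s1}| - #{j ∈ J : c j s1 ∉ W}`, `|U_{N-s1}| ≤ |P_{N-s1}| - #{j ∈ J : c j (N-s1) ∉ U}`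
and every `j ∈ J` is counted at least once, hence
`|W_{s1}| + |U_{N-s1}| ≤ |P_{s1}| + |P_{N-s1}| - |J| ≤ (2 (1 + δ) - (1 - f)) q s1
= (1 + 2 δ + f) q s1`.
Adding, `(|X| + |Y|) / q s0 ≥ 2 - 2 δ - (1 + 2 δ + f) = 1 - f - 4 δ`.
-/

namespace Pool.Agent.Helper30.SC

open Finset

theorem stage {α : Type} [DecidableEq α] {rk : α → ℕ} {cov : α → α → Prop} {N : ℕ}
    {P : Finset α} (hcov : ∀ x ∈ P, ∀ y ∈ P, cov x y → rk y = rk x + 1)
    {l : ℕ} {c : Fin l → ℕ → α} {d : Fin l → ℕ} (h : IsFam rk cov N P l c d)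
    {q : ℕ → ℝ} {δ f : ℝ} {s0 s1 : ℕ} (hs : s0 < s1) (hs1 : 2 * s1 ≤ N) (hd : ∀ j, s1 ≤ d j)
    (hq0 : 0 < q s0) (hq1 : 0 < q s1)
    (hlow : CutLow rk cov P q δ s0 s1) (hup : CutUp rk cov N P q δ s0 s1)
    (hP1 : ((P.filter (fun x => rk x = s1)).card : ℝ) ≤ (1 + δ) * q s1)
    (hP2 : ((P.filter (fun x => rk x = N - s1)).card : ℝ) ≤ (1 + δ) * q s1)
    (hJ : (1 - f) * q s1 ≤ ((univ.filter (fun j => d j = s1)).card : ℝ)) :
    ∃ (c' : Fin l → ℕ → α) (d' : Fin l → ℕ), IsFam rk cov N P l c' d' ∧ (∀ j, d' j ≤ d j) ∧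
      (∀ j, s0 ≤ d' j) ∧
      (1 - f - 4 * δ) * q s0 ≤ ((univ.filter (fun j => d' j = s0)).card : ℝ) := by
  classical
  obtain ⟨c', d', h1, h2, h3, h4⟩ := step (k := ⌈(1 - f - 4 * δ) * q s0⌉₊) hcov h hs hs1 hd (by
    intro W X U Y hW hX hU hY a1 a2 a3 a4 a5
    have b1 := hlow W X hW hX a1 a2
    have b2 := hup U Y hU hY a3 a4
    rw [Nat.ceil_le]
    push_cast
    have hJ1 : ((univ.filter (fun j => d j = s1)).filter (fun j => c j s1 ∉ W)).card +
        (W.filter (fun x => rk x = s1)).card ≤ (P.filter (fun x => rk x = s1)).card := by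
      rw [← card_image_of_injOn (f := fun j => c j s1)
        (s := (univ.filter (fun j => d j = s1)).filter (fun j => c j s1 ∉ W)), ← card_union_of_disjoint]
      · apply card_le_card
        intro x hx
        rw [mem_union] at hx
        rw [mem_filter]
        rcases hx with hx | hx
        · rw [mem_image] at hx
          obtain ⟨j, hj, rfl⟩ := hx
          rw [mem_filter, mem_filter] at hj
          exact h.2.1 j s1 (by omega) (by omega)
        · rw [mem_filter] at hx
          exact ⟨hW hx.1, hx.2⟩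
      · rw [disjoint_left]
        intro x hx hx'
        rw [mem_image] at hx
        obtain ⟨j, hj, rfl⟩ := hx
        rw [mem_filter] at hj hx'
        exact hj.2 hx'.1
      · intro j hj j' hj' hjj
        have hj1 := (mem_filter.1 (mem_filter.1 (mem_coe.1 hj)).1).2
        have hj2 := (mem_filter.1 (mem_filter.1 (mem_coe.1 hj')).1).2
        exact h.2.2.2 j j' s1 (by omega) (by omega) (by omega) (by omega) hjj
    have hJ2 : ((univ.filter (fun j => d j = s1)).filter (fun j => c j (N - s1) ∉ U)).card +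
        (U.filter (fun x => rk x = N - s1)).card ≤ (P.filter (fun x => rk x = N - s1)).card := by
      rw [← card_image_of_injOn (f := fun j => c j (N - s1))
        (s := (univ.filter (fun j => d j = s1)).filter (fun j => c j (N - s1) ∉ U)),
        ← card_union_of_disjoint]
      · apply card_le_card
        intro x hx
        rw [mem_union] at hx
        rw [mem_filter]
        rcases hx with hx | hx
        · rw [mem_image] at hx
          obtain ⟨j, hj, rfl⟩ := hx
          rw [mem_filter, mem_filter] at hj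
          exact h.2.1 j (N - s1) (by omega) (by omega)
        · rw [mem_filter] at hx
          exact ⟨hU hx.1, hx.2⟩
      · rw [disjoint_left]
        intro x hx hx'
        rw [mem_image] at hx
        obtain ⟨j, hj, rfl⟩ := hx
        rw [mem_filter] at hj hx'
        exact hj.2 hx'.1
      · intro j hj j' hj' hjj
        have hj1 := (mem_filter.1 (mem_filter.1 (mem_coe.1 hj)).1).2
        have hj2 := (mem_filter.1 (mem_filter.1 (mem_coe.1 hj')).1).2
        exact h.2.2.2 j j' (N - s1) (by omega) (by omega) (by omega) (by omega) hjj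
    have hJ3 : (univ.filter (fun j => d j = s1)).card ≤
        ((univ.filter (fun j => d j = s1)).filter (fun j => c j s1 ∉ W)).card +
        ((univ.filter (fun j => d j = s1)).filter (fun j => c j (N - s1) ∉ U)).card := by
      refine le_trans (card_le_card ?_) (card_union_le _ _)
      intro j hj
      rw [mem_union]
      by_cases hjW : c j s1 ∈ W
      · exact Or.inr (mem_filter.2 ⟨hj, a5 j (mem_filter.1 hj).2 hjW⟩)
      · exact Or.inl (mem_filter.2 ⟨hj, hjW⟩)
    have hJ4 : ((univ.filter (fun j => d j = s1)).card : ℝ) +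
        ((W.filter (fun x => rk x = s1)).card : ℝ) + ((U.filter (fun x => rk x = N - s1)).card : ℝ) ≤
        ((P.filter (fun x => rk x = s1)).card : ℝ) + ((P.filter (fun x => rk x = N - s1)).card : ℝ) := by
      have := add_le_add hJ1 hJ2
      have h5 : (univ.filter (fun j => d j = s1)).card + (W.filter (fun x => rk x = s1)).card +
          (U.filter (fun x => rk x = N - s1)).card ≤
          (P.filter (fun x => rk x = s1)).card + (P.filter (fun x => rk x = N - s1)).card := by omega
      exact_mod_cast h5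
    have e1 : ((W.filter (fun x => rk x = s1)).card : ℝ) + ((U.filter (fun x => rk x = N - s1)).card : ℝ)
        ≤ (1 + 2 * δ + f) * q s1 := by nlinarith
    have e2 : ((W.filter (fun x => rk x = s1)).card : ℝ) / q s1 +
        ((U.filter (fun x => rk x = N - s1)).card : ℝ) / q s1 ≤ 1 + 2 * δ + f := by
      rw [← add_div, div_le_iff₀ hq1]
      exact e1
    have e3 : 1 - f - 4 * δ ≤ ((X.card : ℝ) + (Y.card : ℝ)) / q s0 := by
      rw [add_div]
      linarith
    rw [le_div_iff₀ hq0] at e3
    exact e3)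
  refine ⟨c', d', h1, h2, h3, ?_⟩
  exact (Nat.le_ceil _).trans (by exact_mod_cast h4)

end Pool.Agent.Helper30.SC
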