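import Pool.Agent.Helper30.SC.Base
import Pool.Agent.Helper30.SC.Stage

set_option autoImplicit false

/-!
# SC-5 AT: the abstract theorem

PROOF. If `(4K+1) δ ≥ 1` the left side is `≤ 0` (the empty family will do). Otherwise induct on
`k ≤ K`: there are `s` with `s ∈ G`, `sst ≤ s ≤ r0`, `(1-θ)^k q r0 ≤ q s`,
`∀ r ∈ G, sst ≤ r → r < s → q r ≤ (1-θ)^k q r0` (for `k ≥ 1` even `<`), and a family
(`IsFam`) with `s ≤ d j` for all `j`, `(1 - (4k+1) δ) q s ≤ #{j : d j = s}`, and
`(1-θ) (1 - (4k+1) δ) |P_r| ≤ (1+δ) #{j : d j ≤ r}` and the same with `|P_{N-r}|` for all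
`r ∈ G`, `s ≤ r ≤ r0`.
`k = 0`: `s = r0`, `base_fam`. Step: `s'` = least `r ∈ G` with `sst ≤ r` and
`(1-θ)^(k+1) q r0 ≤ q r`; `s' ≤ s`. If `s' = s` keep the family. Otherwise `stage` with
`s0 = s'`, `s1 = s`. For `r ∈ G`, `s' ≤ r < s`: `#{j : d' j ≤ r} ≥ #{j : d' j = s'} ≥
(1 - (4k+5) δ) q s' ≥ (1 - (4k+5) δ) (1-θ)^(k+1) q r0 ≥ (1 - (4k+5) δ) (1-θ) q r` and
`|P_r| ≤ (1+δ) q r`.
For `k = K ≥ 1` there is no `r ∈ G` with `sst ≤ r < s` (`(1-θ)^K q r0 ≤ q sst ≤ q r`).
Finally `tot N d = ∑_{r ≤ N} #{j : d j ≤ r ∧ r + d j ≤ N} = ∑_{r ≤ N} #{j : d j ≤ min r (N-r)}`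
(double counting, `2 d j ≤ N`), and for each `r ≤ N` with `t = min r (N-r)` in `G ∩ [sst, r0]` the
level `P_r` is `P_t` or `P_{N-t}`.
-/

namespace Pool.Agent.Helper30.SC

open Finset

theorem tot_eq {l N : ℕ} (d : Fin l → ℕ) (hd : ∀ j, 2 * d j ≤ N) :
    tot N d = ∑ r ∈ range (N + 1), (univ.filter (fun j => d j ≤ min r (N - r))).card := by
  unfold tot
  have h1 : ∀ r ∈ range (N + 1), (univ.filter (fun j : Fin l => d j ≤ min r (N - r))).card =
      ∑ j : Fin l, if d j ≤ min r (N - r) then 1 else 0 := by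
    intro r _
    rw [Finset.card_filter]
  rw [Finset.sum_congr rfl h1, Finset.sum_comm]
  refine Finset.sum_congr rfl fun j _ => ?_
  rw [← Finset.card_filter]
  have h2 : (range (N + 1)).filter (fun r => d j ≤ min r (N - r)) = Finset.Icc (d j) (N - d j) := by
    ext r
    have := hd j
    rw [Finset.mem_filter, Finset.mem_range, Finset.mem_Icc]
    omega
  rw [h2, Nat.card_Icc]
  have := hd j
  omega

theorem AT {α : Type} [DecidableEq α] {rk : α → ℕ} {cov : α → α → Prop} {N : ℕ}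
    {P : Finset α} (hcov : ∀ x ∈ P, ∀ y ∈ P, cov x y → rk y = rk x + 1)
    (hN : ∀ x ∈ P, rk x ≤ N) {q : ℕ → ℝ} {G : Finset ℕ} {sst r0 K : ℕ} {δ θ : ℝ}
    (hr0 : 2 * r0 ≤ N) (hG : r0 ∈ G) (hsr : sst ≤ r0) (hδ : 0 ≤ δ) (hθ : 0 < θ) (hθ1 : θ < 1)
    (hq : 0 < q sst) (hmono : ∀ r r', sst ≤ r → r ≤ r' → r' ≤ r0 → q r ≤ q r')
    (hK1 : 1 ≤ K) (hK : (1 - θ) ^ K * q r0 ≤ q sst)
    (hsize : ∀ r ∈ G, sst ≤ r → r ≤ r0 →
      ((P.filter (fun x => rk x = r)).card : ℝ) ≤ (1 + δ) * q r ∧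
      ((P.filter (fun x => rk x = N - r)).card : ℝ) ≤ (1 + δ) * q r)
    (hlow : ∀ s0 ∈ G, ∀ s1 ∈ G, sst ≤ s0 → s0 < s1 → s1 ≤ r0 → CutLow rk cov P q δ s0 s1)
    (hup : ∀ s0 ∈ G, ∀ s1 ∈ G, sst ≤ s0 → s0 < s1 → s1 ≤ r0 → CutUp rk cov N P q δ s0 s1)
    (hmid : CutMid rk cov N P q δ r0) :
    ∃ (l : ℕ) (c : Fin l → ℕ → α) (d : Fin l → ℕ), IsFam rk cov N P l c d ∧
      (1 - θ) * (1 - (4 * (K : ℝ) + 1) * δ) *
        ((P.filter (fun x => min (rk x) (N - rk x) ∈ G ∧ sst ≤ min (rk x) (N - rk x) ∧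
          min (rk x) (N - rk x) ≤ r0)).card : ℝ) ≤
      (1 + δ) * (tot N d : ℝ) := by
  have h1θ : 0 < 1 - θ := by linarith
  have hqpos : ∀ r, sst ≤ r → r ≤ r0 → 0 < q r := fun r h1 h2 =>
    lt_of_lt_of_le hq (hmono sst r le_rfl h1 h2)
  have hqr0 : 0 < q r0 := hqpos r0 hsr le_rfl
  by_cases hbig : 1 ≤ (4 * (K : ℝ) + 1) * δ
  · refine ⟨0, fun j => j.elim0, fun j => j.elim0, ⟨fun j => j.elim0, fun j => j.elim0,
      fun j => j.elim0, fun j => j.elim0⟩, ?_⟩
    have h2 : (1 - θ) * (1 - (4 * (K : ℝ) + 1) * δ) ≤ 0 :=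
      mul_nonpos_of_nonneg_of_nonpos h1θ.le (by linarith)
    have h3 := mul_nonpos_of_nonpos_of_nonneg h2
      (Nat.cast_nonneg (α := ℝ) (P.filter (fun x => min (rk x) (N - rk x) ∈ G ∧
        sst ≤ min (rk x) (N - rk x) ∧ min (rk x) (N - rk x) ≤ r0)).card)
    refine h3.trans ?_
    positivity
  rw [not_le] at hbig
  -- the invariant
  have hind : ∀ k : ℕ, k ≤ K → ∃ s ∈ G, sst ≤ s ∧ s ≤ r0 ∧ (1 - θ) ^ k * q r0 ≤ q s ∧
      (∀ r ∈ G, sst ≤ r → r < s → q r ≤ (1 - θ) ^ k * q r0) ∧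
      (1 ≤ k → ∀ r ∈ G, sst ≤ r → r < s → q r < (1 - θ) ^ k * q r0) ∧
      ∃ (l : ℕ) (c : Fin l → ℕ → α) (d : Fin l → ℕ), IsFam rk cov N P l c d ∧ (∀ j, s ≤ d j) ∧
        (1 - (4 * (k : ℝ) + 1) * δ) * q s ≤ ((univ.filter (fun j => d j = s)).card : ℝ) ∧
        ∀ r ∈ G, s ≤ r → r ≤ r0 →
          (1 - θ) * (1 - (4 * (k : ℝ) + 1) * δ) * ((P.filter (fun x => rk x = r)).card : ℝ) ≤
            (1 + δ) * ((univ.filter (fun j => d j ≤ r)).card : ℝ) ∧
          (1 - θ) * (1 - (4 * (k : ℝ) + 1) * δ) * ((P.filter (fun x => rk x = N - r)).card : ℝ) ≤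
            (1 + δ) * ((univ.filter (fun j => d j ≤ r)).card : ℝ) := by
    intro k
    induction k with
    | zero =>
      intro _
      refine ⟨r0, hG, hsr, le_rfl, by simp, ?_, fun h => absurd h (by omega), ?_⟩
      · intro r _ h1 h2
        rw [pow_zero, one_mul]
        exact hmono r r0 h1 h2.le le_rfl
      · obtain ⟨l, c, d, hfam, hd, hl⟩ := base_fam hcov hr0 hmid
        have hδ1 : δ < 1 := by
          have hK0 : (0 : ℝ) ≤ K := Nat.cast_nonneg K
          nlinarith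
        have hc : ((univ.filter (fun j => d j = r0)).card : ℝ) = l := by
          rw [Finset.filter_true_of_mem (fun j _ => hd j), Finset.card_univ, Fintype.card_fin]
        refine ⟨l, c, d, hfam, fun j => (hd j).ge, ?_, ?_⟩
        · rw [hc]
          simpa using hl
        · intro r hrG h1 h2
          obtain rfl : r = r0 := le_antisymm h2 h1
          have hc' : ((univ.filter (fun j => d j ≤ r)).card : ℝ) = l := by
            rw [Finset.filter_true_of_mem (fun j _ => (hd j).le), Finset.card_univ,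
              Fintype.card_fin]
          rw [hc']
          have aux : ∀ a : ℝ, a ≤ (1 + δ) * q r →
              (1 - θ) * (1 - (4 * ((0 : ℕ) : ℝ) + 1) * δ) * a ≤ (1 + δ) * l := by
            intro a ha
            have e0 : (1 - θ) * (1 - (4 * ((0 : ℕ) : ℝ) + 1) * δ) = (1 - θ) * (1 - δ) := by
              push_cast
              ring
            rw [e0]
            have e1 : (1 - θ) * (1 - δ) * a ≤ (1 - θ) * (1 - δ) * ((1 + δ) * q r) :=
              mul_le_mul_of_nonneg_left ha (mul_nonneg h1θ.le (by linarith))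
            have e2 : (1 - θ) * (1 - δ) * ((1 + δ) * q r) ≤ (1 - δ) * ((1 + δ) * q r) := by
              have e3 : 0 ≤ (1 - δ) * ((1 + δ) * q r) :=
                mul_nonneg (by linarith) (mul_nonneg (by linarith) hqr0.le)
              nlinarith
            have e4 : (1 - δ) * ((1 + δ) * q r) ≤ (1 + δ) * l := by
              have e5 := mul_le_mul_of_nonneg_left hl (by linarith : (0 : ℝ) ≤ 1 + δ)
              linarith
            linarith
          exact ⟨aux _ (hsize r hrG hsr le_rfl).1, aux _ (hsize r hrG hsr le_rfl).2⟩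
    | succ k ih =>
      intro hkK
      obtain ⟨s, hsG, hs1, hs2, hs3, hs4, hs5, l, c, d, hfam, hd, hcount, hall⟩ := ih (by omega)
      have hcastk : (((k + 1 : ℕ) : ℝ)) = (k : ℝ) + 1 := by push_cast; ring
      have hsmall : (4 * (((k + 1 : ℕ) : ℝ)) + 1) * δ < 1 := by
        refine lt_of_le_of_lt (mul_le_mul_of_nonneg_right ?_ hδ) hbig
        have : (((k + 1 : ℕ) : ℝ)) ≤ (K : ℝ) := by exact_mod_cast hkK
        linarith
      rw [hcastk] at hsmall ⊢
      have hpowpos : 0 < (1 - θ) ^ k := pow_pos h1θ k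
      have hex : ∃ r, r ∈ G ∧ sst ≤ r ∧ (1 - θ) ^ (k + 1) * q r0 ≤ q r := by
        refine ⟨s, hsG, hs1, le_trans ?_ hs3⟩
        rw [pow_succ]
        have : 0 < (1 - θ) ^ k * q r0 := mul_pos hpowpos hqr0
        nlinarith
      classical
      obtain ⟨hs'G, hs'1, hs'3⟩ := Nat.find_spec hex
      have hmin : ∀ r ∈ G, sst ≤ r → r < Nat.find hex → q r < (1 - θ) ^ (k + 1) * q r0 := by
        intro r hr h1 h2
        have h3 := Nat.find_min hex h2
        by_contra h4
        exact h3 ⟨hr, h1, not_lt.1 h4⟩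
      have hs's : Nat.find hex ≤ s := by
        refine Nat.find_min' hex ⟨hsG, hs1, le_trans ?_ hs3⟩
        rw [pow_succ]
        have : 0 < (1 - θ) ^ k * q r0 := mul_pos hpowpos hqr0
        nlinarith
      set s' := Nat.find hex with hs'def
      have hqs : 0 < q s := hqpos s hs1 hs2
      have hqs' : 0 < q s' := hqpos s' hs'1 (hs's.trans hs2)
      refine ⟨s', hs'G, hs'1, hs's.trans hs2, hs'3, fun r hr h1 h2 => (hmin r hr h1 h2).le,
        fun _ => hmin, ?_⟩
      have hcoef : 1 - (4 * ((k : ℝ) + 1) + 1) * δ ≤ 1 - (4 * (k : ℝ) + 1) * δ := by linarith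
      have hcoef0 : 0 ≤ 1 - (4 * ((k : ℝ) + 1) + 1) * δ := by linarith
      have hmul : ∀ a b : ℝ, 0 ≤ a → (1 - θ) * (1 - (4 * (k : ℝ) + 1) * δ) * a ≤ b →
          (1 - θ) * (1 - (4 * ((k : ℝ) + 1) + 1) * δ) * a ≤ b := by
        intro a b ha hab
        refine le_trans ?_ hab
        exact mul_le_mul_of_nonneg_right (mul_le_mul_of_nonneg_left hcoef h1θ.le) ha
      rcases hs's.eq_or_lt with heq | hlt
      · rw [heq]
        refine ⟨l, c, d, hfam, hd, ?_, ?_⟩
        · refine le_trans ?_ hcount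
          exact mul_le_mul_of_nonneg_right hcoef hqs.le
        · intro r hr h1 h2
          obtain ⟨h3, h4⟩ := hall r hr h1 h2
          exact ⟨hmul _ _ (Nat.cast_nonneg _) h3, hmul _ _ (Nat.cast_nonneg _) h4⟩
      · obtain ⟨c', d', hfam', hd'1, hd'2, hcount'⟩ := stage hcov hfam (q := q) (δ := δ)
          (f := (4 * (k : ℝ) + 1) * δ) (s0 := s') (s1 := s) hlt (by omega) hd hqs' hqs
          (hlow s' hs'G s hsG hs'1 hlt hs2) (hup s' hs'G s hsG hs'1 hlt hs2)
          (hsize s hsG hs1 hs2).1 (hsize s hsG hs1 hs2).2 hcount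
        have hcount2 : (1 - (4 * ((k : ℝ) + 1) + 1) * δ) * q s' ≤
            ((univ.filter (fun j => d' j = s')).card : ℝ) := by
          refine le_trans (le_of_eq ?_) hcount'
          ring
        refine ⟨l, c', d', hfam', hd'2, hcount2, ?_⟩
        intro r hr h1 h2
        rcases Nat.lt_or_ge r s with hrs | hrs
        · have hqr : 0 < q r := hqpos r (hs'1.trans h1) h2
          have e1 : ((univ.filter (fun j => d' j = s')).card : ℝ) ≤
              ((univ.filter (fun j => d' j ≤ r)).card : ℝ) := by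
            refine Nat.cast_le.2 (Finset.card_le_card ?_)
            intro j hj
            rw [Finset.mem_filter] at hj ⊢
            exact ⟨hj.1, by rw [hj.2]; exact h1⟩
          have e2 : (1 - (4 * ((k : ℝ) + 1) + 1) * δ) * ((1 - θ) * q r) ≤
              (1 - (4 * ((k : ℝ) + 1) + 1) * δ) * q s' := by
            refine mul_le_mul_of_nonneg_left ?_ hcoef0
            refine le_trans ?_ hs'3
            have e3 := hs4 r hr (hs'1.trans h1) hrs
            rw [pow_succ]
            have e4 := mul_le_mul_of_nonneg_left e3 h1θ.le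
            linarith
          have e5 : (1 - (4 * ((k : ℝ) + 1) + 1) * δ) * ((1 - θ) * q r) ≤
              ((univ.filter (fun j => d' j ≤ r)).card : ℝ) := e2.trans (hcount2.trans e1)
          have aux : ∀ a : ℝ, a ≤ (1 + δ) * q r →
              (1 - θ) * (1 - (4 * ((k : ℝ) + 1) + 1) * δ) * a ≤
                (1 + δ) * ((univ.filter (fun j => d' j ≤ r)).card : ℝ) := by
            intro a ha
            have e6 := mul_le_mul_of_nonneg_left ha (mul_nonneg h1θ.le hcoef0)
            have e7 := mul_le_mul_of_nonneg_left e5 (by linarith : (0 : ℝ) ≤ 1 + δ)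
            refine e6.trans (le_trans (le_of_eq ?_) e7)
            ring
          exact ⟨aux _ (hsize r hr (hs'1.trans h1) h2).1, aux _ (hsize r hr (hs'1.trans h1) h2).2⟩
        · obtain ⟨h3, h4⟩ := hall r hr hrs h2
          have e1 : (1 + δ) * ((univ.filter (fun j => d j ≤ r)).card : ℝ) ≤
              (1 + δ) * ((univ.filter (fun j => d' j ≤ r)).card : ℝ) := by
            refine mul_le_mul_of_nonneg_left (Nat.cast_le.2 (Finset.card_le_card ?_))
              (by linarith)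
            intro j hj
            rw [Finset.mem_filter] at hj ⊢
            exact ⟨hj.1, (hd'1 j).trans hj.2⟩
          exact ⟨(hmul _ _ (Nat.cast_nonneg _) h3).trans e1,
            (hmul _ _ (Nat.cast_nonneg _) h4).trans e1⟩
  obtain ⟨s, hsG, hs1, hs2, hs3, -, hs5, l, c, d, hfam, hd, hcount, hall⟩ := hind K le_rfl
  refine ⟨l, c, d, hfam, ?_⟩
  have hno : ∀ r ∈ G, sst ≤ r → s ≤ r := by
    intro r hr h1
    by_contra h2
    rw [not_le] at h2
    have h3 := hs5 hK1 r hr h1 h2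
    have h4 := hmono sst r le_rfl h1 (h2.le.trans hs2)
    linarith
  rw [tot_eq d hfam.1]
  set S := P.filter (fun x => min (rk x) (N - rk x) ∈ G ∧ sst ≤ min (rk x) (N - rk x) ∧
    min (rk x) (N - rk x) ≤ r0) with hS
  have hcardS : S.card = ∑ r ∈ range (N + 1), (S.filter (fun x => rk x = r)).card := by
    refine Finset.card_eq_sum_card_fiberwise ?_
    intro x hx
    have hx' : x ∈ S := hx
    rw [hS, Finset.mem_filter] at hx'
    have := hN x hx'.1
    simp only [Finset.coe_range, Set.mem_Iio]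
    omega
  rw [hcardS]
  push_cast
  rw [Finset.mul_sum, Finset.mul_sum]
  refine Finset.sum_le_sum fun r hr => ?_
  have hrN : r ≤ N := by
    have := Finset.mem_range.1 hr
    omega
  by_cases ht : min r (N - r) ∈ G ∧ sst ≤ min r (N - r) ∧ min r (N - r) ≤ r0
  · obtain ⟨t1, t2, t3⟩ := ht
    obtain ⟨h3, h4⟩ := hall _ t1 (hno _ t1 t2) t3
    have hsub : S.filter (fun x => rk x = r) ⊆ P.filter (fun x => rk x = r) :=
      Finset.filter_subset_filter _ (Finset.filter_subset _ _)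
    have hle : ((S.filter (fun x => rk x = r)).card : ℝ) ≤
        ((P.filter (fun x => rk x = r)).card : ℝ) := Nat.cast_le.2 (Finset.card_le_card hsub)
    refine (mul_le_mul_of_nonneg_left hle (mul_nonneg h1θ.le (by linarith))).trans ?_
    rcases le_total r (N - r) with h5 | h5
    · rw [min_eq_left h5] at h3 ⊢
      exact h3
    · rw [min_eq_right h5] at h4 ⊢
      have h6 : N - (N - r) = r := by omega
      rw [h6] at h4
      exact h4
  · have hemp : S.filter (fun x => rk x = r) = ∅ := by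
      rw [Finset.filter_eq_empty_iff]
      intro x hx hxr
      rw [hS, Finset.mem_filter, hxr] at hx
      exact ht hx.2
    rw [hemp, Finset.card_empty, Nat.cast_zero, mul_zero]
    positivity

end Pool.Agent.Helper30.SC
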