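import Pool.Agent.Helper30.SC.FlowA

set_option autoImplicit false

/-!
# SC-9 FlowD: size of the maximal flow and the tails

`Φ = |P|`, `β = #{x ∈ P : |out x - μ| > δ μ}` (`bad`), `Ω = ∑ out`, `c = N / 2`.
PROOF of `flow_bounds`. From `β (√μ + 1) ≤ Φ / 4`, `√μ ≥ 1`: `β ≤ Φ / 8`.
`Ω ≥ (3/4) μ (Φ - β) ≥ μ Φ / 2` and `Ω ≤ (5/4) μ Φ + 3 μ β ≤ 2 μ Φ`.
Upper bound: `F c ≤ ∑ |N - 2 rk| ≤ √(Φ ∑ (N - 2 rk)^2) = √(2 Φ Ω) ≤ 2 √μ Φ` (`F_mid_le`,
Cauchy-Schwarz, `second_moment`).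
Lower bound: let `D = √(24 μ)`. `∑_{|N - 2 r| > D} F r = ∑_{x : |N - 2 rk x| > D} out x ≤
3 μ #{x : |N - 2 rk x| > D} ≤ 3 μ (2 Ω / D²) = Ω / 4` (Chebyshev from `second_moment`). The number
of integers `r` with `|N - 2 r| ≤ D` is `≤ D + 1` and `F r ≤ F c`. So `(3/4) Ω ≤ (D + 1) F c`,
`F c ≥ 3 Ω / (4 (D + 1)) ≥ 3 μ Φ / (8 (D + 1))` and `D + 1 ≤ 5 √μ + 1 ≤ 6 √μ`.
PROOF of `flow_tail`. The `x` of the set with `|N - 2 rk x| > T √μ` are at most
`2 Ω / (T² μ) ≤ 4 Φ / T²` in number. The others have rank `r` with `0 ≤ N - 2 r ≤ T √μ` and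
`F r < η F c`; there are at most `T √μ / 2 + 1` such `r`; the not bad elements of rank `r` have
`out ≥ (3/4) μ`, so their number is `≤ F r / ((3/4) μ) ≤ (4/3) η F c / μ ≤ (8/3) η Φ / √μ`; and
`(T √μ / 2 + 1) / √μ ≤ T / 2 + 1`. At most `β ≤ ρ Φ` are bad.
-/

namespace Pool.Agent.Helper30.SC

open Finset

variable {α : Type} {P : Finset α} {rk : α → ℕ} {cov : α → α → Prop} {N : ℕ} {w : α → α → ℝ}

private theorem card_le_length (s : Finset ℕ) (a b : ℝ) (hab : a ≤ b + 1)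
    (hs : ∀ r ∈ s, a ≤ (r : ℝ) ∧ (r : ℝ) ≤ b) : (s.card : ℝ) ≤ b - a + 1 := by
  have h1 : s.card ≤ (Finset.Icc ⌈a⌉ ⌊b⌋).card := by
    apply Finset.card_le_card_of_injOn (fun r : ℕ => (r : ℤ))
    · intro r hr
      have := hs r hr
      simp only [Finset.coe_Icc, Set.mem_Icc]
      constructor
      · exact Int.ceil_le.mpr (by exact_mod_cast this.1)
      · exact Int.le_floor.mpr (by exact_mod_cast this.2)
    · intro r _ r' _ h
      exact Int.ofNat.inj h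
  rw [Int.card_Icc] at h1
  have h2 : (s.card : ℝ) ≤ ((⌊b⌋ + 1 - ⌈a⌉).toNat : ℝ) := by exact_mod_cast h1
  refine h2.trans ?_
  rcases le_total 0 (⌊b⌋ + 1 - ⌈a⌉) with h | h
  · have h3 : (((⌊b⌋ + 1 - ⌈a⌉).toNat : ℤ) : ℝ) = ((⌊b⌋ + 1 - ⌈a⌉ : ℤ) : ℝ) := by
      rw [Int.toNat_of_nonneg h]
    have h4 : (((⌊b⌋ + 1 - ⌈a⌉).toNat : ℕ) : ℝ) = ((⌊b⌋ + 1 - ⌈a⌉ : ℤ) : ℝ) := by
      exact_mod_cast h3
    rw [h4]
    push_cast
    have := Int.floor_le b
    have := Int.le_ceil a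
    linarith
  · rw [Int.toNat_of_nonpos h]
    push_cast
    linarith

private theorem out_nonneg (h : IsFlow P rk cov N w) (x : α) : 0 ≤ out P w x :=
  Finset.sum_nonneg fun y _ => h.1 x y

private theorem omega_bounds (h : IsFlow P rk cov N w) {μ δ : ℝ} (hμ : 1 ≤ μ)
    (hδ : δ ≤ 1 / 4) (h3 : ∀ x ∈ P, out P w x ≤ 3 * μ)
    (hβ : ((P.filter (fun x => δ * μ < |out P w x - μ|)).card : ℝ) * (Real.sqrt μ + 1) ≤
      1 / 4 * (P.card : ℝ)) :
    21 / 32 * (μ * (P.card : ℝ)) ≤ ∑ x ∈ P, out P w x ∧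
      ∑ x ∈ P, out P w x ≤ 2 * (μ * (P.card : ℝ)) := by
  classical
  have hs1 : 1 ≤ Real.sqrt μ := Real.one_le_sqrt.mpr hμ
  set B := P.filter (fun x => δ * μ < |out P w x - μ|) with hB
  set C := P.filter (fun x => ¬ (δ * μ < |out P w x - μ|)) with hC
  have hcard : (B.card : ℝ) + (C.card : ℝ) = (P.card : ℝ) := by
    have := Finset.card_filter_add_card_filter_not (s := P)
      (fun x => δ * μ < |out P w x - μ|)
    exact_mod_cast this
  have hsum : ∑ x ∈ B, out P w x + ∑ x ∈ C, out P w x = ∑ x ∈ P, out P w x :=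
    Finset.sum_filter_add_sum_filter_not P _ _
  have hB0 : (0 : ℝ) ≤ B.card := Nat.cast_nonneg _
  have hB8 : (B.card : ℝ) ≤ 1 / 8 * (P.card : ℝ) := by nlinarith
  have hBlow : 0 ≤ ∑ x ∈ B, out P w x := Finset.sum_nonneg fun x _ => out_nonneg h x
  have hBup : ∑ x ∈ B, out P w x ≤ (B.card : ℝ) * (3 * μ) := by
    have := Finset.sum_le_card_nsmul B (fun x => out P w x) (3 * μ)
      (fun x hx => h3 x (Finset.mem_filter.mp hx).1)
    simpa [nsmul_eq_mul] using this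
  have hCx : ∀ x ∈ C, 3 / 4 * μ ≤ out P w x ∧ out P w x ≤ 5 / 4 * μ := by
    intro x hx
    have h1 := (Finset.mem_filter.mp hx).2
    have h2 : |out P w x - μ| ≤ δ * μ := not_lt.mp h1
    have h4 := abs_le.mp h2
    have h5 : δ * μ ≤ 1 / 4 * μ := mul_le_mul_of_nonneg_right hδ (by linarith)
    constructor <;> linarith [h4.1, h4.2]
  have hClow : (C.card : ℝ) * (3 / 4 * μ) ≤ ∑ x ∈ C, out P w x := by
    have := Finset.card_nsmul_le_sum C (fun x => out P w x) (3 / 4 * μ)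
      (fun x hx => (hCx x hx).1)
    simpa [nsmul_eq_mul] using this
  have hCup : ∑ x ∈ C, out P w x ≤ (C.card : ℝ) * (5 / 4 * μ) := by
    have := Finset.sum_le_card_nsmul C (fun x => out P w x) (5 / 4 * μ)
      (fun x hx => (hCx x hx).2)
    simpa [nsmul_eq_mul] using this
  have hPc : (C.card : ℝ) = (P.card : ℝ) - B.card := by linarith
  rw [hPc] at hClow hCup
  have hμ0 : 0 ≤ μ := by linarith
  have hBμ : (B.card : ℝ) * μ ≤ 1 / 8 * (P.card : ℝ) * μ :=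
    mul_le_mul_of_nonneg_right hB8 hμ0
  have hBμ0 : 0 ≤ (B.card : ℝ) * μ := mul_nonneg hB0 hμ0
  constructor
  · nlinarith
  · nlinarith

/-- the weight out of a set of elements is at most the flow through their levels -/
private theorem sum_out_le (h : IsFlow P rk cov N w) (A : Finset α) (hA : A ⊆ P) (R : Finset ℕ)
    (hR : ∀ x ∈ A, rk x ∈ R) (K : ℝ) (hK : ∀ r ∈ R, F P rk w r ≤ K) :
    ∑ x ∈ A, out P w x ≤ (R.card : ℝ) * K := by
  classical
  have h1 : ∑ r ∈ R, ∑ x ∈ A.filter (fun x => rk x = r), out P w x = ∑ x ∈ A, out P w x :=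
    Finset.sum_fiberwise_of_maps_to hR _
  rw [← h1]
  have h2 : ∑ r ∈ R, ∑ x ∈ A.filter (fun x => rk x = r), out P w x ≤ ∑ r ∈ R, K := by
    refine Finset.sum_le_sum fun r hr => le_trans ?_ (hK r hr)
    unfold F
    refine Finset.sum_le_sum_of_subset_of_nonneg ?_ fun x _ _ => out_nonneg h x
    exact Finset.filter_subset_filter _ hA
  refine h2.trans ?_
  rw [Finset.sum_const, nsmul_eq_mul]

theorem flow_bounds (h : IsFlow P rk cov N w) {μ δ : ℝ} (hμ : 1 ≤ μ) (hδ0 : 0 < δ)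
    (hδ : δ ≤ 1 / 4) (h3 : ∀ x ∈ P, out P w x ≤ 3 * μ)
    (hβ : ((P.filter (fun x => δ * μ < |out P w x - μ|)).card : ℝ) * (Real.sqrt μ + 1) ≤
      1 / 4 * (P.card : ℝ)) :
    Real.sqrt μ * (P.card : ℝ) / 16 ≤ F P rk w (N / 2) ∧
      F P rk w (N / 2) ≤ 2 * Real.sqrt μ * (P.card : ℝ) := by
  classical
  obtain ⟨hΩ1, hΩ2⟩ := omega_bounds h hμ hδ h3 hβ
  have hsm := second_moment h
  set Ω := ∑ x ∈ P, out P w x with hΩ
  set s := Real.sqrt μ with hs
  have hμ0 : 0 ≤ μ := by linarith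
  have hs2 : s * s = μ := Real.mul_self_sqrt hμ0
  have hs1 : 1 ≤ s := Real.one_le_sqrt.mpr hμ
  have hΦ : (0 : ℝ) ≤ P.card := Nat.cast_nonneg _
  have hF0 : 0 ≤ F P rk w (N / 2) := F_nonneg h _
  constructor
  · -- lower bound
    set A := P.filter (fun x => |(N : ℝ) - 2 * (rk x : ℝ)| ≤ 5 * s) with hA
    set A' := P.filter (fun x => ¬ (|(N : ℝ) - 2 * (rk x : ℝ)| ≤ 5 * s)) with hA'
    have hsplit : ∑ x ∈ A, out P w x + ∑ x ∈ A', out P w x = Ω :=
      Finset.sum_filter_add_sum_filter_not P _ _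
    have hfar : ∑ x ∈ A', out P w x ≤ 6 / 25 * Ω := by
      have h1 : ∑ x ∈ A', out P w x ≤
          ∑ x ∈ A', 3 / 25 * ((N : ℝ) - 2 * (rk x : ℝ)) ^ 2 := by
        refine Finset.sum_le_sum fun x hx => ?_
        have hx1 := (Finset.mem_filter.mp hx).1
        have hx2 := not_le.mp (Finset.mem_filter.mp hx).2
        have hx3 : (5 * s) ^ 2 ≤ ((N : ℝ) - 2 * (rk x : ℝ)) ^ 2 := by
          rw [← sq_abs ((N : ℝ) - 2 * (rk x : ℝ))]
          exact pow_le_pow_left₀ (by linarith) hx2.le 2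
        have hx4 := h3 x hx1
        nlinarith
      have h2 : ∑ x ∈ A', 3 / 25 * ((N : ℝ) - 2 * (rk x : ℝ)) ^ 2 ≤
          ∑ x ∈ P, 3 / 25 * ((N : ℝ) - 2 * (rk x : ℝ)) ^ 2 :=
        Finset.sum_le_sum_of_subset_of_nonneg (Finset.filter_subset _ _)
          fun x _ _ => by positivity
      have h2' : ∑ x ∈ P, 3 / 25 * ((N : ℝ) - 2 * (rk x : ℝ)) ^ 2 = 3 / 25 * (2 * Ω) := by
        rw [← Finset.mul_sum, hsm]
      linarith
    have hnear : ∑ x ∈ A, out P w x ≤ (6 * s) * F P rk w (N / 2) := by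
      set R := (range (N + 1)).filter (fun r : ℕ => |(N : ℝ) - 2 * (r : ℝ)| ≤ 5 * s) with hR
      have h1 : ∑ x ∈ A, out P w x ≤ (R.card : ℝ) * F P rk w (N / 2) := by
        refine sum_out_le h A (Finset.filter_subset _ _) R ?_ _ fun r _ => F_le_mid h r
        intro x hx
        have hx1 := Finset.mem_filter.mp hx
        refine Finset.mem_filter.mpr ⟨Finset.mem_range.mpr ?_, hx1.2⟩
        have := h.2.2.2.1 x hx1.1
        omega
      have h2 : (R.card : ℝ) ≤ ((N : ℝ) + 5 * s) / 2 - ((N : ℝ) - 5 * s) / 2 + 1 := by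
        refine card_le_length R _ _ (by linarith) fun r hr => ?_
        have hr1 := abs_le.mp (Finset.mem_filter.mp hr).2
        constructor <;> linarith [hr1.1, hr1.2]
      have h3' : (R.card : ℝ) ≤ 6 * s := by linarith
      exact h1.trans (mul_le_mul_of_nonneg_right h3' hF0)
    have h5 : 19 / 25 * Ω ≤ 6 * s * F P rk w (N / 2) := by linarith
    have h6 : 19 / 25 * (21 / 32 * (s * s * (P.card : ℝ))) ≤ 6 * s * F P rk w (N / 2) := by
      rw [hs2]; linarith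
    have h7 : s * (19 / 25 * (21 / 32) * (s * (P.card : ℝ))) ≤ s * (6 * F P rk w (N / 2)) := by
      nlinarith
    have h8 := le_of_mul_le_mul_left h7 (by linarith)
    have h9 : 0 ≤ s * (P.card : ℝ) := mul_nonneg (by linarith) hΦ
    nlinarith
  · -- upper bound
    have h1 := F_mid_le h
    have h2 : (∑ x ∈ P, |(N : ℝ) - 2 * (rk x : ℝ)|) ^ 2 ≤
        (P.card : ℝ) * ∑ x ∈ P, |(N : ℝ) - 2 * (rk x : ℝ)| ^ 2 :=
      sq_sum_le_card_mul_sum_sq
    simp only [sq_abs] at h2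
    rw [hsm] at h2
    have h3' : (∑ x ∈ P, |(N : ℝ) - 2 * (rk x : ℝ)|) ^ 2 ≤ (2 * s * (P.card : ℝ)) ^ 2 := by
      refine h2.trans ?_
      have : (P.card : ℝ) * (2 * Ω) ≤ (P.card : ℝ) * (2 * (2 * (μ * (P.card : ℝ)))) :=
        mul_le_mul_of_nonneg_left (by linarith) hΦ
      refine this.trans (le_of_eq ?_)
      rw [← hs2]; ring
    exact h1.trans (le_of_sq_le_sq h3' (by positivity))

theorem flow_tail (h : IsFlow P rk cov N w) {μ δ ρ η T : ℝ} (hμ : 1 ≤ μ) (hδ0 : 0 < δ)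
    (hδ : δ ≤ 1 / 4) (h3 : ∀ x ∈ P, out P w x ≤ 3 * μ) (hρ0 : 0 ≤ ρ) (hρ : ρ ≤ 1 / 4)
    (hβ : ((P.filter (fun x => δ * μ < |out P w x - μ|)).card : ℝ) * (Real.sqrt μ + 1) ≤
      ρ * (P.card : ℝ)) (hη : 0 ≤ η) (hT : 0 < T) :
    ((P.filter (fun x => 2 * rk x ≤ N ∧ F P rk w (rk x) < η * F P rk w (N / 2))).card : ℝ) ≤
      (4 / T ^ 2 + 8 / 3 * (T / 2 + 1) * η + ρ) * (P.card : ℝ) := by
  classical
  have hΦ : (0 : ℝ) ≤ P.card := Nat.cast_nonneg _
  have hβ' : ((P.filter (fun x => δ * μ < |out P w x - μ|)).card : ℝ) * (Real.sqrt μ + 1) ≤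
      1 / 4 * (P.card : ℝ) := hβ.trans (mul_le_mul_of_nonneg_right hρ hΦ)
  obtain ⟨hΩ1, hΩ2⟩ := omega_bounds h hμ hδ h3 hβ'
  obtain ⟨-, hFup⟩ := flow_bounds h hμ hδ0 hδ h3 hβ'
  have hsm := second_moment h
  set Ω := ∑ x ∈ P, out P w x with hΩ
  set s := Real.sqrt μ with hs
  have hμ0 : 0 ≤ μ := by linarith
  have hs2 : s * s = μ := Real.mul_self_sqrt hμ0
  have hs1 : 1 ≤ s := Real.one_le_sqrt.mpr hμ
  have hF0 : 0 ≤ F P rk w (N / 2) := F_nonneg h _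
  set B := P.filter (fun x => δ * μ < |out P w x - μ|) with hB
  set S := P.filter (fun x => 2 * rk x ≤ N ∧ F P rk w (rk x) < η * F P rk w (N / 2)) with hS
  set S1 := P.filter (fun x => T * s < |(N : ℝ) - 2 * (rk x : ℝ)|) with hS1
  set S2 := S.filter (fun x => |(N : ℝ) - 2 * (rk x : ℝ)| ≤ T * s ∧
    ¬ (δ * μ < |out P w x - μ|)) with hS2
  have hsub : S ⊆ (S1 ∪ S2) ∪ B := by
    intro x hx
    have hx1 := Finset.mem_filter.mp hx
    by_cases h1 : T * s < |(N : ℝ) - 2 * (rk x : ℝ)|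
    · exact Finset.mem_union_left _ (Finset.mem_union_left _
        (Finset.mem_filter.mpr ⟨hx1.1, h1⟩))
    · by_cases h2 : δ * μ < |out P w x - μ|
      · exact Finset.mem_union_right _ (Finset.mem_filter.mpr ⟨hx1.1, h2⟩)
      · exact Finset.mem_union_left _ (Finset.mem_union_right _
          (Finset.mem_filter.mpr ⟨hx, not_lt.mp h1, h2⟩))
  have hcard : (S.card : ℝ) ≤ S1.card + S2.card + B.card := by
    have h1 := Finset.card_le_card hsub
    have h2 := Finset.card_union_le (S1 ∪ S2) B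
    have h4 := Finset.card_union_le S1 S2
    exact_mod_cast h1.trans (h2.trans (Nat.add_le_add_right h4 _))
  have hBc : (B.card : ℝ) ≤ ρ * (P.card : ℝ) := by
    have hB0 : (0 : ℝ) ≤ B.card := Nat.cast_nonneg _
    nlinarith
  have hTs : 0 < T * s := mul_pos hT (by linarith)
  have hS1c : (S1.card : ℝ) ≤ 4 / T ^ 2 * (P.card : ℝ) := by
    have h1 : ∑ x ∈ S1, (T * s) ^ 2 ≤ ∑ x ∈ S1, ((N : ℝ) - 2 * (rk x : ℝ)) ^ 2 := by
      refine Finset.sum_le_sum fun x hx => ?_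
      rw [← sq_abs ((N : ℝ) - 2 * (rk x : ℝ))]
      exact pow_le_pow_left₀ hTs.le (Finset.mem_filter.mp hx).2.le 2
    have h2 : ∑ x ∈ S1, ((N : ℝ) - 2 * (rk x : ℝ)) ^ 2 ≤
        ∑ x ∈ P, ((N : ℝ) - 2 * (rk x : ℝ)) ^ 2 :=
      Finset.sum_le_sum_of_subset_of_nonneg (Finset.filter_subset _ _) fun x _ _ => sq_nonneg _
    rw [Finset.sum_const, nsmul_eq_mul] at h1
    rw [hsm] at h2
    have h4 : (S1.card : ℝ) * (T * s) ^ 2 ≤ 4 * (μ * (P.card : ℝ)) := by linarith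
    have h5 : (S1.card : ℝ) * T ^ 2 * μ ≤ 4 * (P.card : ℝ) * μ := by
      rw [← hs2]; rw [← hs2] at h4; nlinarith
    have h6 : (S1.card : ℝ) * T ^ 2 ≤ 4 * (P.card : ℝ) :=
      le_of_mul_le_mul_right h5 (by linarith)
    have hT2 : 0 < T ^ 2 := by positivity
    rw [div_mul_eq_mul_div, le_div_iff₀ hT2]
    exact h6
  have hS2c : (S2.card : ℝ) ≤ 8 / 3 * (T / 2 + 1) * η * (P.card : ℝ) := by
    set R := (range (N + 1)).filter (fun r : ℕ => |(N : ℝ) - 2 * (r : ℝ)| ≤ T * s ∧ 2 * r ≤ N ∧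
      F P rk w r < η * F P rk w (N / 2)) with hR
    have h1 : ∑ x ∈ S2, out P w x ≤ (R.card : ℝ) * (η * F P rk w (N / 2)) := by
      refine sum_out_le h S2 ?_ R ?_ _ fun r hr => (Finset.mem_filter.mp hr).2.2.2.le
      · exact (Finset.filter_subset _ _).trans (Finset.filter_subset _ _)
      · intro x hx
        have hx1 := Finset.mem_filter.mp hx
        have hx2 := Finset.mem_filter.mp hx1.1
        refine Finset.mem_filter.mpr ⟨Finset.mem_range.mpr ?_, hx1.2.1, hx2.2.1, hx2.2.2⟩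
        have := h.2.2.2.1 x hx2.1
        omega
    have h2 : (R.card : ℝ) ≤ (N : ℝ) / 2 - ((N : ℝ) - T * s) / 2 + 1 := by
      refine card_le_length R _ _ (by linarith) fun r hr => ?_
      have hr1 := (Finset.mem_filter.mp hr).2
      have hr2 := abs_le.mp hr1.1
      have hr3 : (2 : ℝ) * (r : ℝ) ≤ (N : ℝ) := by exact_mod_cast hr1.2.1
      constructor <;> linarith [hr2.1, hr2.2]
    have h2' : (R.card : ℝ) ≤ T * s / 2 + 1 := by linarith
    have h4 : (S2.card : ℝ) * (3 / 4 * μ) ≤ ∑ x ∈ S2, out P w x := by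
      have := Finset.card_nsmul_le_sum S2 (fun x => out P w x) (3 / 4 * μ) ?_
      · simpa [nsmul_eq_mul] using this
      · intro x hx
        have hx1 := not_lt.mp (Finset.mem_filter.mp hx).2.2
        have hx2 := abs_le.mp hx1
        have h5 : δ * μ ≤ 1 / 4 * μ := mul_le_mul_of_nonneg_right hδ (by linarith)
        linarith [hx2.1]
    have h5 : (R.card : ℝ) * (η * F P rk w (N / 2)) ≤
        (T * s / 2 + 1) * (η * (2 * s * (P.card : ℝ))) := by
      have h6 : η * F P rk w (N / 2) ≤ η * (2 * s * (P.card : ℝ)) :=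
        mul_le_mul_of_nonneg_left hFup hη
      have h7 : 0 ≤ η * F P rk w (N / 2) := mul_nonneg hη hF0
      have h8 : 0 ≤ T * s / 2 + 1 := by linarith
      exact mul_le_mul h2' h6 h7 h8
    have h9 : (T * s / 2 + 1) * s ≤ (T / 2 + 1) * μ := by
      rw [← hs2]; nlinarith
    have h10 : 0 ≤ η * (P.card : ℝ) := mul_nonneg hη hΦ
    have h11 : (T * s / 2 + 1) * (η * (2 * s * (P.card : ℝ))) ≤
        (T / 2 + 1) * μ * (2 * (η * (P.card : ℝ))) := by
      have := mul_le_mul_of_nonneg_right h9 (by linarith : 0 ≤ 2 * (η * (P.card : ℝ)))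
      calc (T * s / 2 + 1) * (η * (2 * s * (P.card : ℝ)))
          = (T * s / 2 + 1) * s * (2 * (η * (P.card : ℝ))) := by ring
        _ ≤ _ := this
    have h12 : (S2.card : ℝ) * μ ≤ 8 / 3 * (T / 2 + 1) * η * (P.card : ℝ) * μ := by
      nlinarith
    exact le_of_mul_le_mul_right h12 (by linarith)
  have : (4 / T ^ 2 + 8 / 3 * (T / 2 + 1) * η + ρ) * (P.card : ℝ) =
      4 / T ^ 2 * (P.card : ℝ) + 8 / 3 * (T / 2 + 1) * η * (P.card : ℝ) +
        ρ * (P.card : ℝ) := by ring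
  rw [this]
  linarith

end Pool.Agent.Helper30.SC
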