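import Pool.Agent.Helper30.SC.FlowC
import Pool.Agent.Helper30.SC.FlowD
import Pool.Agent.Helper30.SC.AT

set_option autoImplicit false

/-!
# SC-10 AbsB: self-dual flows with concentrated out-degree have asymptotic symmetric chain
decompositions

PROOF. For `ε ≥ 1` the empty family works; let `ε < 1`. Constants (depending on `ε` only):
`T = 8 / √ε` (so `4 / T² = ε / 16`), `η = ε / (16 · (8/3) (T/2 + 1))` (`< 1`), `θ = ε / 8`,
`K ≥ 1` with `(1-θ)^K ≤ η`, `δ1 = ε / (16 (4 K + 1))`, then `δ ≤ 1/4` and `ρ ≤ 1/4`, `ρ ≤ ε/32` so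
small that `(4 δ + 32 ρ / η) / η + 192 ρ / η ≤ δ1`, `4 δ ≤ δ1`.
Let `Φ = |P|`, `c = N / 2`, `Fc = F P rk w c`, `β = #{x ∈ P : δ μ < |out - μ|}`. `flow_bounds`:
`√μ Φ / 16 ≤ Fc ≤ 2 √μ Φ`. Let
`B = {x ∈ P : (2 rk x ≤ N ∧ δ μ < |out x - μ|) ∨ (N ≤ 2 rk x ∧ δ μ < |inn x - μ|)}`.
`B` is closed under `star` (`inn_eq_out_star` and `rk (star x) = N - rk x`), `|B| ≤ 2 β`, and
`e := 6 μ β ≥ ∑_{x ∈ P ∩ B} out x`. With `a = (1 + δ) μ`: `out x ≤ a` for `x ∈ P \ B`,
`2 rk x ≤ N`. `κ := 4 δ + 32 ρ / η`: if `2 r ≤ N` and `η Fc ≤ F r` then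
`F r ≥ (1 - δ) μ (|P_r| - β)`, so `a |P_r| ≤ F r (1+δ)/(1-δ) + a β`, `(1+δ)/(1-δ) ≤ 1 + 4 δ`
and `a β ≤ 2 μ β ≤ 2 μ ρ Φ / (√μ + 1) ≤ 2 √μ ρ Φ ≤ 32 ρ Fc ≤ (32 ρ / η) F r`.
`e ≤ 6 √μ ρ Φ ≤ 96 ρ Fc`, so `e / (η Fc) ≤ 96 ρ / η` and `κ / η + e / (η Fc) ≤ δ1`,
`2 e / Fc ≤ 192 ρ ≤ δ1`.
Let `sst` be the least `r` with `η Fc ≤ F r` (`sst ≤ c`). `AT` for `P \ B`, `q r = F r / a`,
`G = range (N+1)`, `r0 = c` (`cutLow_flow`, `cutUp_flow`, `cutMid_flow` with error `δ1`;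
`hmono` = `F_mono`; `hK`: `(1-θ)^K Fc ≤ η Fc ≤ F sst`; `hsize`: for `sst ≤ r ≤ c`, the elements of
`P \ B` of rank `r` have `out ≥ (1-δ) μ`, so their number is
`≤ F r / ((1-δ) μ) = q r (1+δ)/(1-δ) ≤ (1 + δ1) q r`; the level `N - r` by `card_dual`).
The set in the conclusion of `AT` contains all `x ∈ P` except: `B` (`≤ 2 β ≤ ρ Φ`... `β ≤ ρ Φ / 2`),
the `x` with `2 rk x ≤ N`, `F (rk x) < η Fc` (`flow_tail`: `≤ (ε/16 + ε/16 + ρ) Φ`; note that
`rk x < sst` implies this), and the `star` images of those (rank `≥ N/2`). So it has at least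
`(1 - ρ - 2 (ε/8 + ρ)) Φ ≥ (1 - ε/4 - 3 ρ) Φ ≥ (1 - 3 ε / 8) Φ` elements. Then
`(1-θ) (1 - (4K+1) δ1) (1 - 3ε/8) Φ ≤ (1 + δ1) tot` with `θ = ε/8`, `(4K+1) δ1 = ε/16`,
`δ1 ≤ ε/16`, hence `(1 - ε) Φ ≤ tot`. A family inside `P \ B` is a family inside `P`.
-/

namespace Pool.Agent.Helper30.SC

open Finset

private theorem good_of_one_le {α : Type} {P : Finset α} {rk : α → ℕ} {cov : α → α → Prop} {N : ℕ}
    {ε : ℝ} (hε : 1 ≤ ε) : Good rk cov N P ε := by
  refine ⟨0, fun j => j.elim0, fun j => j.elim0, ⟨fun j => j.elim0, fun j => j.elim0,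
    fun j => j.elim0, fun j => j.elim0⟩, ?_⟩
  have h1 : (1 - ε) * (P.card : ℝ) ≤ 0 :=
    mul_nonpos_of_nonpos_of_nonneg (by linarith) (Nat.cast_nonneg _)
  exact h1.trans (Nat.cast_nonneg _)

private theorem isFam_mono {α : Type} {P P' : Finset α} {rk : α → ℕ} {cov : α → α → Prop} {N : ℕ}
    {l : ℕ} {c : Fin l → ℕ → α} {d : Fin l → ℕ} (h : IsFam rk cov N P' l c d) (hP : P' ⊆ P) :
    IsFam rk cov N P l c d :=
  ⟨h.1, fun j r h1 h2 => ⟨hP (h.2.1 j r h1 h2).1, (h.2.1 j r h1 h2).2⟩, h.2.2.1, h.2.2.2⟩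

/-- choice of the constants -/
private theorem consts {ε : ℝ} (hε : 0 < ε) (hε1 : ε < 1) :
    ∃ (T η δ1 δ ρ : ℝ) (K : ℕ), 0 < T ∧ 4 / T ^ 2 = ε / 16 ∧ 0 < η ∧ η < 1 ∧
      8 / 3 * (T / 2 + 1) * η = ε / 16 ∧ 1 ≤ K ∧ (1 - ε / 8) ^ K ≤ η ∧
      (4 * (K : ℝ) + 1) * δ1 = ε / 16 ∧ 0 < δ1 ∧ δ1 ≤ ε / 16 ∧
      0 < δ ∧ δ ≤ 1 / 4 ∧ 4 * δ ≤ δ1 ∧ 0 < ρ ∧ ρ ≤ 1 / 4 ∧ ρ ≤ ε / 32 ∧
      (4 * δ + 32 * ρ / η) / η + 96 * ρ / η ≤ δ1 ∧ 192 * ρ ≤ δ1 := by
  have hs : 0 < Real.sqrt ε := Real.sqrt_pos.2 hε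
  have hs2 : Real.sqrt ε ^ 2 = ε := Real.sq_sqrt hε.le
  set T := 8 / Real.sqrt ε with hT
  have hT0 : 0 < T := by positivity
  have hT2 : 4 / T ^ 2 = ε / 16 := by
    rw [hT, div_pow, hs2]
    field_simp
    norm_num
  set D := 8 / 3 * (T / 2 + 1) with hD
  have hD0 : 8 / 3 < D := by
    rw [hD]
    nlinarith
  have hD1 : 0 < D := by linarith
  set η := ε / 16 / D with hη
  have hη0 : 0 < η := by positivity
  have hηD : D * η = ε / 16 := by
    rw [hη]
    field_simp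
  have hη1 : η < 1 := by
    rw [hη, div_lt_one hD1]
    linarith
  obtain ⟨K0, hK0⟩ := exists_pow_lt_of_lt_one hη0 (show 1 - ε / 8 < 1 by linarith)
  have hK : (1 - ε / 8) ^ (K0 + 1) ≤ η := by
    refine le_trans ?_ hK0.le
    rw [pow_succ]
    exact mul_le_of_le_one_right (pow_nonneg (by linarith) _) (by linarith)
  set K := K0 + 1 with hKdef
  have hKc : (0 : ℝ) ≤ (K : ℝ) := Nat.cast_nonneg _
  set δ1 := ε / 16 / (4 * (K : ℝ) + 1) with hδ1
  have hKp : 0 < 4 * (K : ℝ) + 1 := by linarith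
  have hδ10 : 0 < δ1 := by positivity
  have hKδ : (4 * (K : ℝ) + 1) * δ1 = ε / 16 := by
    rw [hδ1]
    field_simp
  have hδ1e : δ1 ≤ ε / 16 := by
    rw [← hKδ]
    nlinarith
  have hδη : δ1 * η ≤ δ1 := by nlinarith
  have hδη0 : 0 < δ1 * η := mul_pos hδ10 hη0
  have hδηη : δ1 * η * η ≤ δ1 * η := by nlinarith
  have hδηη0 : 0 < δ1 * η * η := mul_pos hδη0 hη0
  refine ⟨T, η, δ1, δ1 * η / 8, δ1 * η * η / 448, K, hT0, hT2, hη0, hη1, hηD, by omega, hK, hKδ,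
    hδ10, hδ1e, by positivity, by linarith, by linarith, by positivity, by linarith, by linarith,
    ?_, by linarith⟩
  have e1 : (4 * (δ1 * η / 8) + 32 * (δ1 * η * η / 448) / η) / η + 96 * (δ1 * η * η / 448) / η =
      δ1 / 2 + δ1 / 14 + 3 * (δ1 * η) / 14 := by
    field_simp
    ring
  rw [e1]
  linarith

theorem absB (ε : ℝ) (hε : 0 < ε) : ∃ δ : ℝ, 0 < δ ∧ δ ≤ 1 / 4 ∧ ∃ ρ : ℝ, 0 < ρ ∧
    ∀ (α : Type) [DecidableEq α] (P : Finset α) (rk : α → ℕ) (cov : α → α → Prop) (N : ℕ)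
      (w : α → α → ℝ) (star : α → α) (μ : ℝ), IsFlow P rk cov N w → IsDual P rk cov N w star →
      1 ≤ μ → (∀ x ∈ P, out P w x ≤ 3 * μ) → P.Nonempty →
      ((P.filter (fun x => δ * μ < |out P w x - μ|)).card : ℝ) * (Real.sqrt μ + 1) ≤
        ρ * (P.card : ℝ) →
      Good rk cov N P ε := by
  rcases le_or_gt 1 ε with hε1 | hε1
  · exact ⟨1 / 4, by norm_num, le_rfl, 1, one_pos, fun α _ P rk cov N w star μ _ _ _ _ _ _ =>
      good_of_one_le hε1⟩
  obtain ⟨T, η, δ1, δ, ρ, K, hT0, hT2, hη0, hη1, hTη, hK1, hKη, hKδ, hδ10, hδ1e, hδ0, hδ4, hδδ1,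
    hρ0, hρ4, hρe, hκδ, hρδ⟩ := consts hε hε1
  refine ⟨δ, hδ0, hδ4, ρ, hρ0, ?_⟩
  intro α _ P rk cov N w star μ hf hd hμ h3 hne hβ
  have hΦ0 : (0 : ℝ) < (P.card : ℝ) := by exact_mod_cast Finset.card_pos.2 hne
  set Φ : ℝ := (P.card : ℝ) with hΦ
  set A := P.filter (fun x => δ * μ < |out P w x - μ|) with hA
  set β : ℝ := (A.card : ℝ) with hβd
  have hβ0 : 0 ≤ β := Nat.cast_nonneg _
  set s := Real.sqrt μ with hs
  have hs1 : 1 ≤ s := Real.one_le_sqrt.mpr hμ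
  have hμ0 : 0 < μ := by linarith
  have hs2 : s * s = μ := Real.mul_self_sqrt hμ0.le
  obtain ⟨hFlo, hFup⟩ := flow_bounds hf hμ hδ0 hδ4 h3
    (hβ.trans (mul_le_mul_of_nonneg_right hρ4 hΦ0.le))
  rw [← hs, ← hΦ] at hFlo
  set Fc := F P rk w (N / 2) with hFc
  have hsΦ : 0 < s * Φ := mul_pos (by linarith) hΦ0
  have hmid : 0 < Fc := by linarith
  -- the exceptional set
  set B := P.filter (fun x => (2 * rk x ≤ N ∧ δ * μ < |out P w x - μ|) ∨
    (N ≤ 2 * rk x ∧ δ * μ < |inn P w x - μ|)) with hBd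
  obtain ⟨hst1, hst2, hst3, hst4, hst5⟩ := id hd
  have hrk : ∀ x ∈ P, rk x ≤ N := hf.2.2.2.1
  have hB : ∀ x ∈ P, x ∈ B → star x ∈ B := by
    intro x hx hxB
    have hx2 := (Finset.mem_filter.1 hxB).2
    have hr := hst3 x hx
    have hrx := hrk x hx
    refine Finset.mem_filter.2 ⟨hst1 x hx, ?_⟩
    rcases hx2 with ⟨h1, h2⟩ | ⟨h1, h2⟩
    · refine Or.inr ⟨by omega, ?_⟩
      rw [inn_eq_out_star hf hd (hst1 x hx), hst2 x hx]
      exact h2
    · refine Or.inl ⟨by omega, ?_⟩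
      rw [← inn_eq_out_star hf hd hx]
      exact h2
  have hBc : (B.card : ℝ) ≤ 2 * β := by
    have hsub : B ⊆ A ∪ A.image star := by
      intro x hxB
      obtain ⟨hx, hx2⟩ := Finset.mem_filter.1 hxB
      rcases hx2 with ⟨h1, h2⟩ | ⟨h1, h2⟩
      · exact Finset.mem_union_left _ (Finset.mem_filter.2 ⟨hx, h2⟩)
      · refine Finset.mem_union_right _ (Finset.mem_image.2 ⟨star x, ?_, hst2 x hx⟩)
        refine Finset.mem_filter.2 ⟨hst1 x hx, ?_⟩
        rw [← inn_eq_out_star hf hd hx]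
        exact h2
    have h1 := Finset.card_le_card hsub
    have h2 := Finset.card_union_le A (A.image star)
    have h4 : (A.image star).card ≤ A.card := Finset.card_image_le
    have h5 : B.card ≤ 2 * A.card := by omega
    rw [hβd]
    exact_mod_cast h5
  have hout0 : ∀ x, 0 ≤ out P w x := fun x => Finset.sum_nonneg fun y _ => hf.1 x y
  -- the error term
  have hkey : μ * β ≤ 16 * ρ * Fc := by
    have h1 : μ * β ≤ s * (β * (s + 1)) := by
      rw [← hs2]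
      have : 0 ≤ s * β := mul_nonneg (by linarith) hβ0
      nlinarith
    have h2 : s * (β * (s + 1)) ≤ s * (ρ * Φ) := mul_le_mul_of_nonneg_left hβ (by linarith)
    have h4 : s * (ρ * Φ) = 16 * ρ * (s * Φ / 16) := by ring
    have h5 : 16 * ρ * (s * Φ / 16) ≤ 16 * ρ * Fc :=
      mul_le_mul_of_nonneg_left hFlo (by linarith)
    linarith
  have hμβ0 : 0 ≤ μ * β := mul_nonneg hμ0.le hβ0
  have he0 : 0 ≤ 6 * (μ * β) := by linarith
  have he : ∑ x ∈ P ∩ B, out P w x ≤ 6 * (μ * β) := by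
    have h1 : ∑ x ∈ P ∩ B, out P w x ≤ ((P ∩ B).card : ℝ) * (3 * μ) := by
      have := Finset.sum_le_card_nsmul (P ∩ B) (fun x => out P w x) (3 * μ)
        (fun x hx => h3 x (Finset.mem_inter.1 hx).1)
      simpa [nsmul_eq_mul] using this
    have h2 : ((P ∩ B).card : ℝ) ≤ 2 * β := by
      refine le_trans ?_ hBc
      exact_mod_cast Finset.card_le_card Finset.inter_subset_right
    have h4 : ((P ∩ B).card : ℝ) * (3 * μ) ≤ 2 * β * (3 * μ) :=
      mul_le_mul_of_nonneg_right h2 (by linarith)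
    refine h1.trans (h4.trans (le_of_eq ?_))
    ring
  set a := (1 + δ) * μ with ha
  have ha0 : 0 < a := mul_pos (by linarith) hμ0
  have hnB : ∀ x ∈ P \ B, 2 * rk x ≤ N → |out P w x - μ| ≤ δ * μ := by
    intro x hx hxr
    obtain ⟨hxP, hxB⟩ := Finset.mem_sdiff.1 hx
    by_contra hcon
    exact hxB (Finset.mem_filter.2 ⟨hxP, Or.inl ⟨hxr, not_le.1 hcon⟩⟩)
  have hout : ∀ x ∈ P \ B, 2 * rk x ≤ N → out P w x ≤ a := by
    intro x hx hxr
    have := (abs_le.1 (hnB x hx hxr)).2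
    rw [ha]
    linarith
  set κ := 4 * δ + 32 * ρ / η with hκd
  have hκ0 : 0 ≤ κ := by positivity
  have h14 : (1 + δ) ≤ (1 + 4 * δ) * (1 - δ) := by nlinarith
  have hκ : ∀ r, 2 * r ≤ N → η * Fc ≤ F P rk w r →
      a * ((P.filter (fun x => rk x = r)).card : ℝ) ≤ (1 + κ) * F P rk w r := by
    intro r hr hFr
    set p : ℝ := ((P.filter (fun x => rk x = r)).card : ℝ) with hp
    have hF0 : 0 ≤ F P rk w r := F_nonneg hf r
    have h1 : (1 - δ) * μ * (p - β) ≤ F P rk w r := by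
      set C := (P.filter (fun x => rk x = r)).filter
        (fun x => ¬ (δ * μ < |out P w x - μ|)) with hC
      have hc1 : p ≤ (C.card : ℝ) + β := by
        have h4 : (P.filter (fun x => rk x = r)) ⊆ C ∪ A := by
          intro x hx
          by_cases h5 : δ * μ < |out P w x - μ|
          · exact Finset.mem_union_right _ (Finset.mem_filter.2 ⟨(Finset.mem_filter.1 hx).1, h5⟩)
          · exact Finset.mem_union_left _ (Finset.mem_filter.2 ⟨hx, h5⟩)
        have h6 := (Finset.card_le_card h4).trans (Finset.card_union_le C A)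
        rw [hp, hβd]
        exact_mod_cast h6
      have hc2 : (C.card : ℝ) * ((1 - δ) * μ) ≤ ∑ x ∈ C, out P w x := by
        have := Finset.card_nsmul_le_sum C (fun x => out P w x) ((1 - δ) * μ) ?_
        · simpa [nsmul_eq_mul] using this
        · intro x hx
          have h5 := not_lt.1 (Finset.mem_filter.1 hx).2
          have h6 := (abs_le.1 h5).1
          linarith
      have hc3 : ∑ x ∈ C, out P w x ≤ F P rk w r := by
        unfold F
        exact Finset.sum_le_sum_of_subset_of_nonneg (Finset.filter_subset _ _)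
          fun x _ _ => hout0 x
      have hc4 : (p - β) * ((1 - δ) * μ) ≤ (C.card : ℝ) * ((1 - δ) * μ) :=
        mul_le_mul_of_nonneg_right (by linarith) (mul_nonneg (by linarith) hμ0.le)
      have hc5 : (1 - δ) * μ * (p - β) = (p - β) * ((1 - δ) * μ) := by ring
      rw [hc5]
      linarith
    have h2 : a * β ≤ 32 * ρ / η * F P rk w r := by
      have h4 : a * β ≤ 2 * (μ * β) := by
        rw [ha]
        nlinarith
      have h5 : 32 * ρ / η * (η * Fc) ≤ 32 * ρ / η * F P rk w r :=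
        mul_le_mul_of_nonneg_left hFr (by positivity)
      have h6 : 32 * ρ / η * (η * Fc) = 2 * (16 * ρ * Fc) := by
        field_simp
        ring
      linarith
    have h4 : a * (p - β) ≤ (1 + 4 * δ) * F P rk w r := by
      rcases le_or_gt p β with h5 | h5
      · have h6 : a * (p - β) ≤ 0 := mul_nonpos_of_nonneg_of_nonpos ha0.le (by linarith)
        have h7 : 0 ≤ (1 + 4 * δ) * F P rk w r := mul_nonneg (by linarith) hF0
        linarith
      · have h6 : a * (p - β) ≤ (1 + 4 * δ) * ((1 - δ) * μ * (p - β)) := by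
          rw [ha]
          have h7 := mul_le_mul_of_nonneg_right h14 (mul_nonneg hμ0.le (by linarith : 0 ≤ p - β))
          linarith
        have h7 := mul_le_mul_of_nonneg_left h1 (by linarith : 0 ≤ 1 + 4 * δ)
        linarith
    rw [hκd]
    linarith
  have hδ' : κ / η + 6 * (μ * β) / (η * Fc) ≤ δ1 := by
    refine le_trans ?_ hκδ
    have h1 : 6 * (μ * β) / (η * Fc) ≤ 96 * ρ / η := by
      rw [div_le_div_iff₀ (mul_pos hη0 hmid) hη0]
      have h2 := mul_le_mul_of_nonneg_left hkey (by linarith : 0 ≤ 6 * η)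
      linarith
    linarith
  have hδ2 : 2 * (6 * (μ * β)) / Fc ≤ δ1 := by
    rw [div_le_iff₀ hmid]
    have h1 := mul_le_mul_of_nonneg_right hρδ hmid.le
    linarith
  -- the lowest level
  have hex : ∃ r, η * Fc ≤ F P rk w r := ⟨N / 2, by
    rw [← hFc]
    nlinarith⟩
  classical
  have hsst := Nat.find_spec hex
  have hsmin : ∀ r, r < Nat.find hex → F P rk w r < η * Fc := fun r hr =>
    not_le.1 (Nat.find_min hex hr)
  have hsle : Nat.find hex ≤ N / 2 := Nat.find_min' hex (by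
    rw [← hFc]
    nlinarith)
  set sst := Nat.find hex with hsstd
  have hup : ∀ r, sst ≤ r → 2 * r ≤ N → η * Fc ≤ F P rk w r := fun r h1 h2 =>
    hsst.trans (F_mono hf h1 h2)
  have hηF : 0 < η * Fc := mul_pos hη0 hmid
  have hcov' : ∀ x ∈ P \ B, ∀ y ∈ P \ B, cov x y → rk y = rk x + 1 := fun x hx y hy =>
    hf.2.2.1 x (Finset.mem_sdiff.1 hx).1 y (Finset.mem_sdiff.1 hy).1
  have hN' : ∀ x ∈ P \ B, rk x ≤ N := fun x hx => hrk x (Finset.mem_sdiff.1 hx).1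
  have hsize : ∀ r, sst ≤ r → r ≤ N / 2 →
      (((P \ B).filter (fun x => rk x = r)).card : ℝ) ≤ (1 + δ1) * (F P rk w r / a) := by
    intro r h1 h2
    set C := (P \ B).filter (fun x => rk x = r) with hC
    have hc2 : (C.card : ℝ) * ((1 - δ) * μ) ≤ ∑ x ∈ C, out P w x := by
      have := Finset.card_nsmul_le_sum C (fun x => out P w x) ((1 - δ) * μ) ?_
      · simpa [nsmul_eq_mul] using this
      · intro x hx
        obtain ⟨hx1, hx2⟩ := Finset.mem_filter.1 hx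
        have h5 := (abs_le.1 (hnB x hx1 (by omega))).1
        linarith
    have hc3 : ∑ x ∈ C, out P w x ≤ F P rk w r := by
      unfold F
      refine Finset.sum_le_sum_of_subset_of_nonneg ?_ fun x _ _ => hout0 x
      exact Finset.filter_subset_filter _ Finset.sdiff_subset
    have hc4 : (C.card : ℝ) * ((1 - δ) * μ) ≤ F P rk w r := hc2.trans hc3
    rw [← mul_div_assoc, le_div_iff₀ ha0, ha]
    have hC0 : 0 ≤ (C.card : ℝ) * μ := mul_nonneg (Nat.cast_nonneg _) hμ0.le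
    have h5 : (C.card : ℝ) * ((1 + δ) * μ) ≤ (1 + 4 * δ) * ((C.card : ℝ) * ((1 - δ) * μ)) := by
      have := mul_le_mul_of_nonneg_right h14 hC0
      linarith
    have h6 := mul_le_mul_of_nonneg_left hc4 (by linarith : 0 ≤ 1 + 4 * δ)
    have h7 : (1 + 4 * δ) * F P rk w r ≤ (1 + δ1) * F P rk w r :=
      mul_le_mul_of_nonneg_right (by linarith) (F_nonneg hf r)
    linarith
  obtain ⟨l, c, d, hfam, hfin⟩ := AT (P := P \ B) (rk := rk) (cov := cov) (N := N) hcov' hN'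
    (q := fun r => F P rk w r / a) (G := range (N + 1)) (sst := sst) (r0 := N / 2) (K := K)
    (δ := δ1) (θ := ε / 8) (by omega) (Finset.mem_range.2 (by omega)) hsle hδ10.le (by linarith)
    (by linarith) (div_pos (lt_of_lt_of_le hηF hsst) ha0)
    (fun r r' _ h2 h4 => div_le_div_of_nonneg_right (F_mono hf h2 (by omega)) ha0.le) hK1
    (by
      show (1 - ε / 8) ^ K * (F P rk w (N / 2) / a) ≤ F P rk w sst / a
      rw [← hFc, ← mul_div_assoc]
      refine div_le_div_of_nonneg_right ?_ ha0.le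
      exact (mul_le_mul_of_nonneg_right hKη hmid.le).trans hsst)
    (by
      intro r _ h1 h2
      refine ⟨hsize r h1 h2, ?_⟩
      rw [card_dual hf hd hB (by omega)]
      exact hsize r h1 h2)
    (fun s0 _ s1 _ h1 h2 h4 => cutLow_flow hf ha0 hκ0 hη0 he0 hout he hmid hκ hδ' h2 (by omega)
      (hup s0 h1 (by omega)))
    (fun s0 _ s1 _ h1 h2 h4 => cutUp_flow hf hd hB ha0 hκ0 hη0 he0 hout he hmid hκ hδ' h2
      (by omega) (hup s0 h1 (by omega)))
    (cutMid_flow hf hd hB ha0 he0 hout he hmid hδ2)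
  refine ⟨l, c, d, isFam_mono hfam Finset.sdiff_subset, ?_⟩
  set S := (P \ B).filter (fun x => min (rk x) (N - rk x) ∈ range (N + 1) ∧
    sst ≤ min (rk x) (N - rk x) ∧ min (rk x) (N - rk x) ≤ N / 2) with hS
  set Tl := P.filter (fun x => 2 * rk x ≤ N ∧ F P rk w (rk x) < η * Fc) with hTl
  have hTlc : (Tl.card : ℝ) ≤ (4 / T ^ 2 + 8 / 3 * (T / 2 + 1) * η + ρ) * Φ :=
    flow_tail hf hμ hδ0 hδ4 h3 hρ0.le hρ4 hβ hη0.le hT0
  rw [hT2, hTη] at hTlc
  have hcover : Φ ≤ (S.card : ℝ) + (B.card : ℝ) + 2 * (Tl.card : ℝ) := by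
    have hsub : P ⊆ ((S ∪ B) ∪ Tl) ∪ Tl.image star := by
      intro x hx
      have hrx := hrk x hx
      by_cases hxB : x ∈ B
      · exact Finset.mem_union_left _ (Finset.mem_union_left _ (Finset.mem_union_right _ hxB))
      have hxPB : x ∈ P \ B := Finset.mem_sdiff.2 ⟨hx, hxB⟩
      by_cases hlow : sst ≤ min (rk x) (N - rk x)
      · refine Finset.mem_union_left _ (Finset.mem_union_left _ (Finset.mem_union_left _ ?_))
        refine Finset.mem_filter.2 ⟨hxPB, Finset.mem_range.2 (by omega), hlow, by omega⟩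
      · rw [not_le] at hlow
        rcases le_or_gt (2 * rk x) N with h1 | h1
        · refine Finset.mem_union_left _ (Finset.mem_union_right _ ?_)
          rw [min_eq_left (by omega)] at hlow
          exact Finset.mem_filter.2 ⟨hx, h1, hsmin _ hlow⟩
        · refine Finset.mem_union_right _ (Finset.mem_image.2 ⟨star x, ?_, hst2 x hx⟩)
          rw [min_eq_right (by omega)] at hlow
          have hr := hst3 x hx
          refine Finset.mem_filter.2 ⟨hst1 x hx, by omega, ?_⟩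
          rw [hr]
          exact hsmin _ hlow
    have h1 := Finset.card_le_card hsub
    have h2 := Finset.card_union_le ((S ∪ B) ∪ Tl) (Tl.image star)
    have h4 := Finset.card_union_le (S ∪ B) Tl
    have h5 := Finset.card_union_le S B
    have h6 : (Tl.image star).card ≤ Tl.card := Finset.card_image_le
    have h7 : P.card ≤ S.card + B.card + 2 * Tl.card := by omega
    rw [hΦ]
    exact_mod_cast h7
  have hβρ : 2 * β ≤ ρ * Φ := by
    refine le_trans ?_ hβ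
    nlinarith
  have hSc : (1 - 3 * ε / 8) * Φ ≤ (S.card : ℝ) := by
    have h1 : (Tl.card : ℝ) ≤ (ε / 8 + ρ) * Φ := by
      refine hTlc.trans (le_of_eq ?_)
      ring
    have h2 : (3 * ρ) * Φ ≤ (ε / 8) * Φ := mul_le_mul_of_nonneg_right (by linarith) hΦ0.le
    have h4 : (1 - 3 * ε / 8) * Φ = Φ - ε / 4 * Φ - ε / 8 * Φ := by ring
    have h5 : (ε / 8 + ρ) * Φ = ε / 8 * Φ + ρ * Φ := by ring
    rw [h4]
    rw [h5] at h1
    linarith
  rw [hKδ] at hfin
  have hS0 : (0 : ℝ) ≤ S.card := Nat.cast_nonneg _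
  have hco0 : 0 ≤ (1 - ε / 8) * (1 - ε / 16) := mul_nonneg (by linarith) (by linarith)
  have h1 : (1 - ε / 8) * (1 - ε / 16) * ((1 - 3 * ε / 8) * Φ) ≤ (1 + δ1) * (tot N d : ℝ) :=
    (mul_le_mul_of_nonneg_left hSc hco0).trans hfin
  have h2 : (1 - ε) * (1 + ε / 16) ≤ (1 - ε / 8) * (1 - ε / 16) * (1 - 3 * ε / 8) := by
    nlinarith [mul_pos hε hε, mul_pos (mul_pos hε hε) (sub_pos.2 hε1)]
  have h4 : (1 - ε) * (1 + δ1) ≤ (1 - ε) * (1 + ε / 16) :=
    mul_le_mul_of_nonneg_left (by linarith) (by linarith)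
  have h5 : (1 + δ1) * ((1 - ε) * Φ) ≤ (1 + δ1) * (tot N d : ℝ) := by
    have h6 := mul_le_mul_of_nonneg_right (h4.trans h2) hΦ0.le
    have h7 : (1 + δ1) * ((1 - ε) * Φ) = (1 - ε) * (1 + δ1) * Φ := by ring
    have h8 : (1 - ε / 8) * (1 - ε / 16) * ((1 - 3 * ε / 8) * Φ) =
      (1 - ε / 8) * (1 - ε / 16) * (1 - 3 * ε / 8) * Φ := by ring
    rw [h7]
    rw [h8] at h1
    linarith
  exact le_of_mul_le_mul_left h5 (by linarith)

end Pool.Agent.Helper30.SC
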