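import Pool.Agent.Helper30.SC.Layer

set_option autoImplicit false

/-!
# SC-2 Base: the first family of symmetric chains (around the middle)

PROOF. `layered` for `V = {x // x ∈ P ∧ r0 ≤ rk x ∧ rk x ≤ N - r0}`, `lay x = rk x - r0`,
`L = N - 2 r0`, `E x y = cov x y` (classical decidability), `k = ⌈(1 - δ) q r0⌉₊`. For a set `W` of
vertices of layers `< L` apply `CutMid` to the images in `α` of `W` and of
`X = (layer 0 \ W) ∪ (N(W) \ W)` (disjoint union: `N(W)` has layers `≥ 1`); so
`(1 - δ) q r0 ≤ |X|`, hence `k ≤ |X|`. Put `c j r = p j (r - r0)`, `d j = r0`.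
-/

namespace Pool.Agent.Helper30.SC

open Finset

theorem base_fam {α : Type} [DecidableEq α] {rk : α → ℕ} {cov : α → α → Prop} {N : ℕ}
    {P : Finset α} {q : ℕ → ℝ} {δ : ℝ} {r0 : ℕ}
    (hcov : ∀ x ∈ P, ∀ y ∈ P, cov x y → rk y = rk x + 1) (h2 : 2 * r0 ≤ N)
    (h : CutMid rk cov N P q δ r0) :
    ∃ (l : ℕ) (c : Fin l → ℕ → α) (d : Fin l → ℕ), IsFam rk cov N P l c d ∧ (∀ j, d j = r0) ∧
      (1 - δ) * q r0 ≤ (l : ℝ) := by
  classical
  let V : Type := {x : α // x ∈ P.filter (fun x => r0 ≤ rk x ∧ rk x ≤ N - r0)}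
  have hV : ∀ v : V, v.1 ∈ P ∧ r0 ≤ rk v.1 ∧ rk v.1 ≤ N - r0 := by
    intro v
    have := v.2
    rw [Finset.mem_filter] at this
    exact ⟨this.1, this.2.1, this.2.2⟩
  have mkV : ∀ x ∈ P, r0 ≤ rk x → rk x ≤ N - r0 → ∃ v : V, v.1 = x := by
    intro x hx h0 h1
    exact ⟨⟨x, by rw [Finset.mem_filter]; exact ⟨hx, h0, h1⟩⟩, rfl⟩
  obtain ⟨p, hp1, hp2, hp3⟩ := layered (V := V) (fun v => rk v.1 - r0) (N - 2 * r0)
    (fun v w => cov v.1 w.1) (by
      intro v w hvw
      have h1 := hcov v.1 (hV v).1 w.1 (hV w).1 hvw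
      have h3 := (hV v).2.1
      show rk w.1 - r0 = rk v.1 - r0 + 1
      omega) ⌈(1 - δ) * q r0⌉₊ (by
      intro W hW
      set A : Finset V := (univ.filter (fun v : V => rk v.1 - r0 = 0)) \ W with hA
      set B : Finset V := (univ.filter (fun w : V => ∃ v ∈ W, cov v.1 w.1)) \ W with hB
      have key := h (W.image Subtype.val) (A.image Subtype.val ∪ B.image Subtype.val) (by
          intro x hx
          rw [Finset.mem_image] at hx
          obtain ⟨v, _, rfl⟩ := hx
          exact (hV v).1) (by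
          intro x hx
          rw [Finset.mem_union, Finset.mem_image, Finset.mem_image] at hx
          rcases hx with ⟨v, _, rfl⟩ | ⟨v, _, rfl⟩
          · exact (hV v).1
          · exact (hV v).1) (by
          intro x hx hr
          obtain ⟨v, rfl⟩ := mkV x hx (by omega) (by omega)
          by_cases hv : v ∈ W
          · exact Finset.mem_union_left _ (Finset.mem_image_of_mem _ hv)
          · refine Finset.mem_union_right _ (Finset.mem_union_left _ (Finset.mem_image_of_mem _ ?_))
            rw [hA, Finset.mem_sdiff, Finset.mem_filter]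
            exact ⟨⟨Finset.mem_univ _, by omega⟩, hv⟩) (by
          intro x hx h0 h1 y hy hxy
          rw [Finset.mem_image] at hx
          obtain ⟨v, hv, rfl⟩ := hx
          have h3 := hcov v.1 (hV v).1 y hy hxy
          obtain ⟨w, rfl⟩ := mkV y hy (by omega) (by omega)
          by_cases hw : w ∈ W
          · exact Finset.mem_union_left _ (Finset.mem_image_of_mem _ hw)
          · refine Finset.mem_union_right _ (Finset.mem_union_right _ (Finset.mem_image_of_mem _ ?_))
            rw [hB, Finset.mem_sdiff, Finset.mem_filter]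
            exact ⟨⟨Finset.mem_univ _, v, hv, hxy⟩, hw⟩) (by
          intro x hx
          rw [Finset.mem_image] at hx
          obtain ⟨v, hv, rfl⟩ := hx
          have h3 := hW v hv
          have h4 := (hV v).2.1
          show rk v.1 ≠ N - r0
          have h5 : rk v.1 - r0 < N - 2 * r0 := h3
          omega)
      rw [Nat.ceil_le]
      refine key.trans ?_
      have h6 : (A.image Subtype.val ∪ B.image Subtype.val : Finset α).card ≤ A.card + B.card :=
        (Finset.card_union_le _ _).trans
          (Nat.add_le_add Finset.card_image_le Finset.card_image_le)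
      exact_mod_cast h6)
  refine ⟨⌈(1 - δ) * q r0⌉₊, fun j r => (p j (r - r0)).1, fun _ => r0, ⟨fun _ => h2, ?_, ?_, ?_⟩,
    fun _ => rfl, Nat.le_ceil _⟩
  · intro j r h0 h1
    have h7 : r0 ≤ r := h0
    have h8 : r + r0 ≤ N := h1
    have h3 := hp1 j (r - r0) (by omega)
    have h4 := (hV (p j (r - r0))).2.1
    refine ⟨(hV _).1, ?_⟩
    show rk (p j (r - r0)).1 = r
    have h5 : rk (p j (r - r0)).1 - r0 = r - r0 := h3
    have h6 : r0 ≤ r := h0
    omega
  · intro j r h0 h1
    have h6 : r0 ≤ r := h0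
    have h3 := hp2 j (r - r0) (by show r - r0 < N - 2 * r0; have : r + 1 + r0 ≤ N := h1; omega)
    have h4 : r + 1 - r0 = r - r0 + 1 := by omega
    show cov (p j (r - r0)).1 (p j (r + 1 - r0)).1
    rw [h4]
    exact h3
  · intro j j' r h0 h1 _ _ he
    have h6 : r0 ≤ r := h0
    have h7 : r + r0 ≤ N := h1
    exact hp3 j j' (r - r0) (by omega) (Subtype.ext he)

end Pool.Agent.Helper30.SC
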