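import Pool.Agent.Helper30.SC.Defs

set_option autoImplicit false

/-!
# SC-19 Conj: the map `{0,...,n}^m → L(n,m)` and the dual of `L(m,n)`

`conj m n x t = #{j : n ≤ x j + t}`, `t < n`.
PROOFS. `conj_mem`: increasing in `t`, at most `m`. `conj_rk`: swap the sums, for each `j` the
number of `t < n` with `n - x j ≤ t` is `x j`. `conj_mono` clear. `conj_perm` clear (reindex).
`conj_inj`: for monotone `x`, `x' : Fin m → ℕ` bounded by `n` with equal conjugates: for every
`v ∈ [1, n]` the numbers `#{j : v ≤ x j}` and `#{j : v ≤ x' j}` agree (`t = n - v`); for a monotone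
sequence `v ≤ x j` iff `#{i : v ≤ x i} ≥ m - j`; so `v ≤ x j ↔ v ≤ x' j` for all `v`.
`conj_fiber`: if `conj y = conj x` then the sorted sequences `x ∘ Tuple.sort x`,
`y ∘ Tuple.sort y` (`Tuple.monotone_sort`) have the same conjugate (`conj_perm`), are monotone, so
they agree by `conj_inj`; hence `y = x ∘ σ` for a permutation `σ`; so the fibre has at most
`m!` elements (`Fintype.card_perm`). `star_*`: `star a i = n - a (rev i)`.
-/

namespace Pool.Agent.Helper30.SC

open Finset

private theorem mem_Q {m n : ℕ} {x : Fin m → ℕ} : x ∈ Qset m n ↔ ∀ j, x j ≤ n := by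
  simp only [Qset, Fintype.mem_piFinset, mem_range, Nat.lt_succ_iff]

private theorem mem_L {m n : ℕ} {x : Fin m → ℕ} :
    x ∈ Lset m n ↔ (∀ j, x j ≤ n) ∧ Monotone x := by
  classical
  unfold Lset
  rw [mem_filter, mem_Q]

theorem conj_mem {m n : ℕ} (x : Fin m → ℕ) : conj m n x ∈ Lset n m := by
  rw [mem_L]
  constructor
  · intro t
    unfold conj
    refine (card_filter_le _ _).trans ?_
    simp
  · intro t t' h
    unfold conj
    apply card_le_card
    intro j hj
    rw [mem_filter] at hj ⊢
    have h2 : (t : ℕ) ≤ (t' : ℕ) := h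
    exact ⟨hj.1, by omega⟩

private theorem sum_ind {n a : ℕ} (ha : a ≤ n) :
    ∑ t : Fin n, (if n ≤ a + (t : ℕ) then 1 else 0) = a := by
  rw [Fin.sum_univ_eq_sum_range (fun t => if n ≤ a + t then 1 else 0) n, ← card_filter]
  have : (range n).filter (fun t => n ≤ a + t) = Ico (n - a) n := by
    ext t
    simp only [mem_filter, mem_range, mem_Ico]
    omega
  rw [this, Nat.card_Ico]
  omega

theorem conj_rk {m n : ℕ} {x : Fin m → ℕ} (hx : x ∈ Qset m n) : rkF (conj m n x) = rkF x := by
  rw [mem_Q] at hx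
  unfold rkF conj
  simp only [card_filter]
  rw [sum_comm]
  exact sum_congr rfl fun j _ => sum_ind (hx j)

theorem conj_mono {m n : ℕ} {x y : Fin m → ℕ} (h : x ≤ y) : conj m n x ≤ conj m n y := by
  intro t
  unfold conj
  apply card_le_card
  intro j hj
  rw [mem_filter] at hj ⊢
  exact ⟨hj.1, hj.2.trans (Nat.add_le_add_right (h j) _)⟩

theorem conj_cov {m n : ℕ} {x y : Fin m → ℕ} (hx : x ∈ Qset m n) (hy : y ∈ Qset m n)
    (h : covF x y) : covF (conj m n x) (conj m n y) := by
  refine ⟨conj_mono h.1, ?_⟩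
  rw [conj_rk hx, conj_rk hy]
  exact h.2

theorem conj_perm {m n : ℕ} (x : Fin m → ℕ) (σ : Equiv.Perm (Fin m)) :
    conj m n (x ∘ σ) = conj m n x := by
  funext t
  unfold conj
  refine card_bij (fun j _ => σ j) ?_ ?_ ?_
  · intro j hj
    rw [mem_filter] at hj ⊢
    exact ⟨mem_univ _, hj.2⟩
  · intro a _ b _ hab
    exact σ.injective hab
  · intro j hj
    rw [mem_filter] at hj
    refine ⟨σ.symm j, ?_, by simp⟩
    rw [mem_filter]
    refine ⟨mem_univ _, ?_⟩
    simpa using hj.2

private theorem le_iff_card {m : ℕ} {x : Fin m → ℕ} (hx : Monotone x) (v : ℕ) (j : Fin m) :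
    v ≤ x j ↔ m - (j : ℕ) ≤ (univ.filter (fun i : Fin m => v ≤ x i)).card := by
  constructor
  · intro h
    rw [← Fin.card_Ici]
    apply card_le_card
    intro i hi
    rw [mem_Ici] at hi
    rw [mem_filter]
    exact ⟨mem_univ _, h.trans (hx hi)⟩
  · intro h
    by_contra hlt
    have h1 : (univ.filter (fun i : Fin m => v ≤ x i)) ⊆ Ioi j := by
      intro i hi
      rw [mem_filter] at hi
      rw [mem_Ioi]
      by_contra hij
      rw [not_lt] at hij
      exact hlt (hi.2.trans (hx hij))
    have h2 := card_le_card h1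
    rw [Fin.card_Ioi] at h2
    have := j.2
    omega

theorem conj_inj {m n : ℕ} {x y : Fin m → ℕ} (hx : x ∈ Lset m n) (hy : y ∈ Lset m n)
    (h : conj m n x = conj m n y) : x = y := by
  rw [mem_L] at hx hy
  have key : ∀ v, 1 ≤ v → v ≤ n → ∀ j, v ≤ x j ↔ v ≤ y j := by
    intro v h1 h2 j
    rw [le_iff_card hx.2, le_iff_card hy.2]
    have e := congrFun h ⟨n - v, by omega⟩
    unfold conj at e
    have ex : ∀ w : Fin m → ℕ, (univ.filter (fun i : Fin m => n ≤ w i + (n - v))) =
        univ.filter (fun i : Fin m => v ≤ w i) := by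
      intro w
      apply filter_congr
      intro i _
      omega
    simp only [ex] at e
    rw [e]
  funext j
  apply le_antisymm
  · rcases Nat.eq_zero_or_pos (x j) with h0 | h0
    · omega
    · exact (key (x j) h0 (hx.1 j) j).mp le_rfl
  · rcases Nat.eq_zero_or_pos (y j) with h0 | h0
    · omega
    · exact (key (y j) h0 (hy.1 j) j).mpr le_rfl

theorem conj_fiber {m n : ℕ} (z : Fin n → ℕ) :
    ((Qset m n).filter (fun x => conj m n x = z)).card ≤ m.factorial := by
  classical
  rcases ((Qset m n).filter (fun x => conj m n x = z)).eq_empty_or_nonempty with he | ⟨x, hx⟩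
  · rw [he]
    simp
  · have hsub : (Qset m n).filter (fun x => conj m n x = z) ⊆
        (univ : Finset (Equiv.Perm (Fin m))).image
          (fun σ : Equiv.Perm (Fin m) => x ∘ (σ : Fin m → Fin m)) := by
      intro y hy
      rw [mem_filter, mem_Q] at hx hy
      have e1 : x ∘ Tuple.sort x = y ∘ Tuple.sort y := by
        apply conj_inj (m := m) (n := n)
        · rw [mem_L]
          exact ⟨fun j => hx.1 _, Tuple.monotone_sort x⟩
        · rw [mem_L]
          exact ⟨fun j => hy.1 _, Tuple.monotone_sort y⟩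
        · rw [conj_perm, conj_perm, hx.2, hy.2]
      rw [mem_image]
      refine ⟨(Tuple.sort y)⁻¹.trans (Tuple.sort x), mem_univ _, ?_⟩
      funext j
      have e2 := congrFun e1 ((Tuple.sort y)⁻¹ j)
      simpa using e2
    refine (card_le_card hsub).trans (card_image_le.trans ?_)
    rw [card_univ, Fintype.card_perm, Fintype.card_fin]

end Pool.Agent.Helper30.SC
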