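import Pool.Agent.Helper30.SC.Nmp
import Pool.Agent.Helper30.SC.Conj

set_option autoImplicit false

/-!
# SC-20 CutA: the exact cut inequality of `L(n,m)` for `q r = lev m n r / m!`

PROOF. For `S ⊆ Lset n m` of rank `r` let `π⁻¹ S = {x ∈ Qset m n : conj x ∈ S}`; it consists of
elements of rank `r` (`conj_rk`), and `|π⁻¹ S| ≤ m! |S|` (`conj_fiber`). If all covers in `Lset n m`
of the elements of `W_r` lie in `W_{r+1} ∪ X_{r+1}` then by `conj_cov`, `conj_mem` and `nmp`
`|π⁻¹ W_r| / a r ≤ |π⁻¹ W_{r+1}| / a (r+1) + |π⁻¹ X_{r+1}| / a (r+1)` (`a = lev m n`, `a r > 0` for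
`r ≤ m n` by `lev_pos`). Since `1 ≤ |π⁻¹ W_{s0}| / a s0 + |π⁻¹ X_{s0}| / a s0`, induction gives
`1 ≤ |π⁻¹ W_{s1}| / a s1 + ∑_{r=s0}^{s1} |π⁻¹ X_r| / a r ≤ |W_{s1}| / q s1 + |X| / q s0`
(`a r ≥ a s0` for `s0 ≤ r ≤ s1` in the lower half, `lev_mono`). `cutA_up` in the same way with
`nmp_down` from the level `m n - s0` down to `m n - s1` (`lev_symm`). `cutA_mid`: the same as
`cutA_low` from the level `r0` to the level `m n - r0`, where `W` is empty; `a r ≥ a r0` for
`r0 ≤ r ≤ m n - r0` by `lev_mono`, `lev_symm`.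
`lev_le_card`: `lev m n r = ∑_{z ∈ Lset n m, rk z = r} |fibre| ≤ m! #{...}`.
`card_star`: the involution `a ↦ (i ↦ n - a (Fin.rev i))`.
-/

namespace Pool.Agent.Helper30.SC

open Finset

namespace CutAux

/-- preimage under `conj` -/
private def pre (m n : ℕ) (S : Finset (Fin n → ℕ)) : Finset (Fin m → ℕ) :=
  (Qset m n).filter (fun x => conj m n x ∈ S)

private theorem mem_pre {m n : ℕ} {S : Finset (Fin n → ℕ)} {x : Fin m → ℕ} :
    x ∈ pre m n S ↔ x ∈ Qset m n ∧ conj m n x ∈ S := by
  simp [pre]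

private theorem card_pre_le {m n : ℕ} (S : Finset (Fin n → ℕ)) :
    (pre m n S).card ≤ m.factorial * S.card := by
  apply Finset.card_le_mul_card_image_of_maps_to (f := conj m n)
  · intro x hx
    exact (mem_pre.1 hx).2
  · intro z _
    refine le_trans (Finset.card_le_card ?_) (conj_fiber (m := m) (n := n) z)
    intro x hx
    simp only [Finset.mem_filter] at hx ⊢
    exact ⟨(mem_pre.1 hx.1).1, hx.2⟩

/-- the level `r` of a set -/
private def lv {n : ℕ} (S : Finset (Fin n → ℕ)) (r : ℕ) : Finset (Fin n → ℕ) :=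
  S.filter (fun x => rkF x = r)

private theorem base_card {m n s : ℕ} {W X : Finset (Fin n → ℕ)}
    (h : ∀ x ∈ Lset n m, rkF x = s → x ∈ W ∪ X) :
    lev m n s ≤ (pre m n (lv W s)).card + (pre m n (lv X s)).card := by
  refine le_trans (Finset.card_le_card ?_) (Finset.card_union_le _ _)
  intro x hx
  simp only [Finset.mem_filter] at hx
  have h1 := conj_rk (m := m) (n := n) hx.1
  have h2 := h (conj m n x) (conj_mem x) (by rw [h1]; exact hx.2)
  rw [Finset.mem_union] at h2 ⊢
  rcases h2 with h2 | h2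
  · left
    rw [mem_pre]
    refine ⟨hx.1, ?_⟩
    simp only [lv, Finset.mem_filter]
    exact ⟨h2, by rw [h1]; exact hx.2⟩
  · right
    rw [mem_pre]
    refine ⟨hx.1, ?_⟩
    simp only [lv, Finset.mem_filter]
    exact ⟨h2, by rw [h1]; exact hx.2⟩

private theorem step_up {m n r : ℕ} {W X : Finset (Fin n → ℕ)}
    (h : ∀ x ∈ W, rkF x = r → ∀ y ∈ Lset n m, covF x y → y ∈ W ∪ X) :
    (pre m n (lv W r)).card * lev m n (r + 1) ≤
      ((pre m n (lv W (r + 1))).card + (pre m n (lv X (r + 1))).card) * lev m n r := by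
  have key := nmp m n r (pre m n (lv W r)) (pre m n (lv W (r + 1)) ∪ pre m n (lv X (r + 1))) ?_ ?_
  · exact key.trans (Nat.mul_le_mul_right _ (Finset.card_union_le _ _))
  · intro x hx
    rw [mem_pre] at hx
    simp only [lv, Finset.mem_filter] at hx
    exact ⟨hx.1, by rw [← conj_rk hx.1]; exact hx.2.2⟩
  · intro x hx y hy hxy
    rw [mem_pre] at hx
    simp only [lv, Finset.mem_filter] at hx
    have hc := conj_cov hx.1 hy hxy
    have hyL : conj m n y ∈ Lset n m := conj_mem y
    have h2 := h _ hx.2.1 hx.2.2 _ hyL hc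
    have hr : rkF (conj m n y) = r + 1 := by rw [hc.2, hx.2.2]
    rw [Finset.mem_union] at h2 ⊢
    rcases h2 with h2 | h2
    · left
      rw [mem_pre]
      refine ⟨hy, ?_⟩
      simp only [lv, Finset.mem_filter]
      exact ⟨h2, hr⟩
    · right
      rw [mem_pre]
      refine ⟨hy, ?_⟩
      simp only [lv, Finset.mem_filter]
      exact ⟨h2, hr⟩

private theorem step_down {m n r : ℕ} {W X : Finset (Fin n → ℕ)}
    (h : ∀ y ∈ W, rkF y = r + 1 → ∀ x ∈ Lset n m, covF x y → x ∈ W ∪ X) :
    (pre m n (lv W (r + 1))).card * lev m n r ≤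
      ((pre m n (lv W r)).card + (pre m n (lv X r)).card) * lev m n (r + 1) := by
  have key := nmp_down m n r (pre m n (lv W (r + 1))) (pre m n (lv W r) ∪ pre m n (lv X r)) ?_ ?_
  · exact key.trans (Nat.mul_le_mul_right _ (Finset.card_union_le _ _))
  · intro x hx
    rw [mem_pre] at hx
    simp only [lv, Finset.mem_filter] at hx
    exact ⟨hx.1, by rw [← conj_rk hx.1]; exact hx.2.2⟩
  · intro y hy x hx hxy
    rw [mem_pre] at hy
    simp only [lv, Finset.mem_filter] at hy
    have hc := conj_cov hx hy.1 hxy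
    have hxL : conj m n x ∈ Lset n m := conj_mem x
    have h2 := h _ hy.2.1 hy.2.2 _ hxL hc
    have hr : rkF (conj m n x) = r := by
      have := hc.2
      omega
    rw [Finset.mem_union] at h2 ⊢
    rcases h2 with h2 | h2
    · left
      rw [mem_pre]
      refine ⟨hx, ?_⟩
      simp only [lv, Finset.mem_filter]
      exact ⟨h2, hr⟩
    · right
      rw [mem_pre]
      refine ⟨hx, ?_⟩
      simp only [lv, Finset.mem_filter]
      exact ⟨h2, hr⟩

private theorem chain_ineq {a w x : ℕ → ℝ} {s0 s1 : ℕ}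
    (h0 : 1 ≤ w s0 / a s0 + x s0 / a s0)
    (hstep : ∀ r, s0 ≤ r → r < s1 → w r / a r ≤ w (r + 1) / a (r + 1) + x (r + 1) / a (r + 1)) :
    ∀ s, s0 ≤ s → s ≤ s1 → 1 ≤ w s / a s + ∑ r ∈ Icc s0 s, x r / a r := by
  intro s hs
  induction s, hs using Nat.le_induction with
  | base =>
    intro _
    simpa using h0
  | succ s hs ih =>
    intro hs1
    have h1 := ih (by omega)
    have h2 := hstep s hs (by omega)
    rw [Finset.sum_Icc_succ_top (by omega)]
    linarith

/-- abstract form of the conclusion -/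
private theorem concl {a w x : ℕ → ℝ} {s0 s1 : ℕ} {M wc Xc : ℝ} {xc : ℕ → ℝ} (hs : s0 ≤ s1)
    (hM : 0 < M)
    (h0 : a s0 ≤ w s0 + x s0)
    (hstep : ∀ r, s0 ≤ r → r < s1 → w r * a (r + 1) ≤ (w (r + 1) + x (r + 1)) * a r)
    (ha0 : 0 < a s0) (ha : ∀ r, s0 ≤ r → r ≤ s1 → a s0 ≤ a r)
    (hw : w s1 ≤ M * wc) (hx0 : ∀ r, 0 ≤ x r) (hx : ∀ r, x r ≤ M * xc r)
    (hX : ∑ r ∈ Icc s0 s1, xc r ≤ Xc) :
    1 ≤ Xc / (a s0 / M) + wc / (a s1 / M) := by
  have hpos : ∀ r, s0 ≤ r → r ≤ s1 → 0 < a r := fun r h1 h2 => ha0.trans_le (ha r h1 h2)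
  have h1 := chain_ineq (a := a) (w := w) (x := x) (s0 := s0) (s1 := s1) ?_ ?_ s1 hs le_rfl
  · have e1 : w s1 / a s1 ≤ wc / (a s1 / M) := by
      rw [div_div_eq_mul_div]
      apply div_le_div_of_nonneg_right _ (hpos s1 hs le_rfl).le
      linarith
    have e2 : ∑ r ∈ Icc s0 s1, x r / a r ≤ ∑ r ∈ Icc s0 s1, (M * xc r) / a s0 := by
      apply Finset.sum_le_sum
      intro r hr
      rw [Finset.mem_Icc] at hr
      calc x r / a r ≤ x r / a s0 :=
            div_le_div_of_nonneg_left (hx0 r) ha0 (ha r hr.1 hr.2)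
        _ ≤ (M * xc r) / a s0 := div_le_div_of_nonneg_right (hx r) ha0.le
    have e3 : ∑ r ∈ Icc s0 s1, (M * xc r) / a s0 = (M * ∑ r ∈ Icc s0 s1, xc r) / a s0 := by
      rw [← Finset.sum_div, Finset.mul_sum]
    have e4 : (M * ∑ r ∈ Icc s0 s1, xc r) / a s0 ≤ Xc / (a s0 / M) := by
      rw [div_div_eq_mul_div]
      apply div_le_div_of_nonneg_right _ ha0.le
      rw [mul_comm Xc M]
      exact mul_le_mul_of_nonneg_left hX hM.le
    linarith
  · rw [← add_div, le_div_iff₀ ha0]
    linarith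
  · intro r hr1 hr2
    have p1 := hpos r hr1 hr2.le
    have p2 := hpos (r + 1) (by omega) (by omega)
    rw [← add_div, div_le_div_iff₀ p1 p2]
    exact hstep r hr1 hr2

private theorem sum_lv {n : ℕ} (X : Finset (Fin n → ℕ)) (T : Finset ℕ) (f : ℕ → ℕ)
    (hf : Set.InjOn f T) :
    ∑ r ∈ T, (((lv X (f r)).card : ℕ) : ℝ) ≤ (X.card : ℝ) := by
  have h : ∑ r ∈ T, (lv X (f r)).card ≤ X.card := by
    have e : (T.biUnion (fun r => lv X (f r))).card = ∑ r ∈ T, (lv X (f r)).card := by
      apply Finset.card_biUnion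
      intro r hr r' hr' hne
      rw [Function.onFun, Finset.disjoint_left]
      intro z hz hz'
      simp only [lv, Finset.mem_filter] at hz hz'
      exact hne (hf hr hr' (by rw [← hz.2, hz'.2]))
    rw [← e]
    apply Finset.card_le_card
    intro z hz
    rw [Finset.mem_biUnion] at hz
    obtain ⟨r, _, hz⟩ := hz
    exact (Finset.mem_filter.1 hz).1
  exact_mod_cast h

private theorem lev_ge {m n s r : ℕ} (h1 : s ≤ r) (h2 : r + s ≤ m * n) :
    lev m n s ≤ lev m n r := by
  rcases le_total (2 * r) (m * n) with h | h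
  · exact lev_mono h1 h
  · rw [← lev_symm (m := m) (n := n) (r := r) (by omega)]
    exact lev_mono (by omega) (by omega)

end CutAux

open CutAux

theorem cutA_low {m n s0 s1 : ℕ} (hs : s0 < s1) (h1 : 2 * s1 ≤ m * n) :
    CutLow rkF covF (Lset n m) (fun r => (lev m n r : ℝ) / (m.factorial : ℝ)) 0 s0 s1 := by
  intro W X hW hX hbase hcl
  have hM : (0 : ℝ) < (m.factorial : ℝ) := by exact_mod_cast Nat.factorial_pos m
  have := concl (a := fun r => (lev m n r : ℝ)) (w := fun r => ((pre m n (lv W r)).card : ℝ))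
    (x := fun r => ((pre m n (lv X r)).card : ℝ)) (s0 := s0) (s1 := s1) (M := (m.factorial : ℝ))
    (wc := ((lv W s1).card : ℝ)) (Xc := (X.card : ℝ)) (xc := fun r => ((lv X r).card : ℝ))
    hs.le hM ?_ ?_ ?_ ?_ ?_ ?_ ?_ ?_
  · simpa [lv] using this
  · exact_mod_cast base_card hbase
  · intro r hr1 hr2
    have := step_up (m := m) (n := n) (r := r) (W := W) (X := X)
      (fun x hx hrx y hy hxy => hcl x hx (by omega) (by omega) y hy hxy)
    exact_mod_cast this
  · have := lev_pos (m := m) (n := n) (r := s0) (by omega)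
    exact_mod_cast this
  · intro r hr1 hr2
    have := lev_ge (m := m) (n := n) (s := s0) (r := r) hr1 (by omega)
    exact_mod_cast this
  · have := card_pre_le (m := m) (lv W s1)
    exact_mod_cast this
  · intro r
    positivity
  · intro r
    have := card_pre_le (m := m) (lv X r)
    exact_mod_cast this
  · exact sum_lv X (Icc s0 s1) (fun r => r) (fun _ _ _ _ h => h)

theorem cutA_up {m n s0 s1 : ℕ} (hs : s0 < s1) (h1 : 2 * s1 ≤ m * n) :
    CutUp rkF covF (n * m) (Lset n m) (fun r => (lev m n r : ℝ) / (m.factorial : ℝ)) 0 s0 s1 := by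
  intro W X hW hX hbase hcl
  rw [Nat.mul_comm n m] at hbase hcl ⊢
  have hM : (0 : ℝ) < (m.factorial : ℝ) := by exact_mod_cast Nat.factorial_pos m
  have := concl (a := fun r => (lev m n r : ℝ))
    (w := fun r => ((pre m n (lv W (m * n - r))).card : ℝ))
    (x := fun r => ((pre m n (lv X (m * n - r))).card : ℝ)) (s0 := s0) (s1 := s1)
    (M := (m.factorial : ℝ))
    (wc := ((lv W (m * n - s1)).card : ℝ)) (Xc := (X.card : ℝ))
    (xc := fun r => ((lv X (m * n - r)).card : ℝ))
    hs.le hM ?_ ?_ ?_ ?_ ?_ ?_ ?_ ?_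
  · simpa [lv] using this
  · have h2 := base_card (m := m) (n := n) (s := m * n - s0) hbase
    rw [lev_symm (by omega)] at h2
    exact_mod_cast h2
  · intro r hr1 hr2
    have e1 : m * n - r = (m * n - (r + 1)) + 1 := by omega
    have := step_down (m := m) (n := n) (r := m * n - (r + 1)) (W := W) (X := X)
      (fun y hy hry x hx hxy => hcl y hy (by omega) (by omega) x hx hxy)
    rw [← e1, lev_symm (by omega), lev_symm (by omega)] at this
    exact_mod_cast this
  · have := lev_pos (m := m) (n := n) (r := s0) (by omega)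
    exact_mod_cast this
  · intro r hr1 hr2
    have := lev_ge (m := m) (n := n) (s := s0) (r := r) hr1 (by omega)
    exact_mod_cast this
  · have := card_pre_le (m := m) (lv W (m * n - s1))
    exact_mod_cast this
  · intro r
    positivity
  · intro r
    have := card_pre_le (m := m) (lv X (m * n - r))
    exact_mod_cast this
  · apply sum_lv X (Icc s0 s1) (fun r => m * n - r)
    intro r hr r' hr' h
    simp only [Finset.coe_Icc, Set.mem_Icc] at hr hr'
    simp only at h
    omega

theorem cutA_mid {m n r0 : ℕ} (h1 : 2 * r0 ≤ m * n) :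
    CutMid rkF covF (n * m) (Lset n m) (fun r => (lev m n r : ℝ) / (m.factorial : ℝ)) 0 r0 := by
  intro W X hW hX hbase hcl hend
  rw [Nat.mul_comm n m] at hcl hend
  have hM : (0 : ℝ) < (m.factorial : ℝ) := by exact_mod_cast Nat.factorial_pos m
  have h0 : (lv W (m * n - r0)).card = 0 := by
    rw [Finset.card_eq_zero, lv, Finset.filter_eq_empty_iff]
    intro x hx
    exact hend x hx
  have := concl (a := fun r => (lev m n r : ℝ)) (w := fun r => ((pre m n (lv W r)).card : ℝ))
    (x := fun r => ((pre m n (lv X r)).card : ℝ)) (s0 := r0) (s1 := m * n - r0)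
    (M := (m.factorial : ℝ))
    (wc := ((lv W (m * n - r0)).card : ℝ)) (Xc := (X.card : ℝ))
    (xc := fun r => ((lv X r).card : ℝ))
    (by omega) hM ?_ ?_ ?_ ?_ ?_ ?_ ?_ ?_
  · rw [h0] at this
    have hp : (0 : ℝ) < (lev m n r0 : ℝ) / (m.factorial : ℝ) := by
      have := lev_pos (m := m) (n := n) (r := r0) (by omega)
      have : (0 : ℝ) < (lev m n r0 : ℝ) := by exact_mod_cast this
      positivity
    have h2 : (1 : ℝ) ≤ (X.card : ℝ) / ((lev m n r0 : ℝ) / (m.factorial : ℝ)) := by
      simpa using this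
    rw [le_div_iff₀ hp] at h2
    simpa using h2
  · exact_mod_cast base_card hbase
  · intro r hr1 hr2
    have := step_up (m := m) (n := n) (r := r) (W := W) (X := X)
      (fun x hx hrx y hy hxy => hcl x hx (by omega) (by omega) y hy hxy)
    exact_mod_cast this
  · have := lev_pos (m := m) (n := n) (r := r0) (by omega)
    exact_mod_cast this
  · intro r hr1 hr2
    have := lev_ge (m := m) (n := n) (s := r0) (r := r) hr1 (by omega)
    exact_mod_cast this
  · have := card_pre_le (m := m) (lv W (m * n - r0))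
    exact_mod_cast this
  · intro r
    positivity
  · intro r
    have := card_pre_le (m := m) (lv X r)
    exact_mod_cast this
  · exact sum_lv X (Icc r0 (m * n - r0)) (fun r => r) (fun _ _ _ _ h => h)

theorem lev_le_card (m n r : ℕ) :
    lev m n r ≤ m.factorial * ((Lset n m).filter (fun a => rkF a = r)).card := by
  apply Finset.card_le_mul_card_image_of_maps_to (f := conj m n)
  · intro x hx
    rw [Finset.mem_filter] at hx ⊢
    exact ⟨conj_mem x, by rw [conj_rk hx.1]; exact hx.2⟩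
  · intro z _
    refine le_trans (Finset.card_le_card ?_) (conj_fiber (m := m) (n := n) z)
    intro x hx
    simp only [Finset.mem_filter] at hx ⊢
    exact ⟨hx.1.1, hx.2⟩

theorem rkF_le {m n : ℕ} {a : Fin m → ℕ} (ha : a ∈ Lset m n) : rkF a ≤ m * n := by
  have h : ∀ i, a i ≤ n := by
    intro i
    have h1 := (Finset.mem_filter.1 ha).1
    have h2 := Fintype.mem_piFinset.1 h1 i
    rw [Finset.mem_range] at h2
    omega
  calc rkF a = ∑ i, a i := rfl
    _ ≤ ∑ _i : Fin m, n := Finset.sum_le_sum (fun i _ => h i)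
    _ = m * n := by simp

namespace CutAux

private theorem mem_L {m n : ℕ} {a : Fin m → ℕ} :
    a ∈ Lset m n ↔ (∀ i, a i ≤ n) ∧ Monotone a := by
  simp only [Lset, Qset, Finset.mem_filter, Fintype.mem_piFinset, Finset.mem_range]
  constructor
  · rintro ⟨h1, h2⟩
    exact ⟨fun i => by have := h1 i; omega, h2⟩
  · rintro ⟨h1, h2⟩
    exact ⟨fun i => by have := h1 i; omega, h2⟩

private theorem star_mem {m n : ℕ} {a : Fin m → ℕ} (ha : a ∈ Lset m n) :
    (fun i => n - a (Fin.rev i)) ∈ Lset m n := by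
  rw [mem_L] at ha ⊢
  refine ⟨fun i => Nat.sub_le _ _, ?_⟩
  intro i j hij
  have : a (Fin.rev j) ≤ a (Fin.rev i) := ha.2 (Fin.rev_le_rev.2 hij)
  show n - a (Fin.rev i) ≤ n - a (Fin.rev j)
  omega

private theorem star_rk {m n : ℕ} {a : Fin m → ℕ} (ha : a ∈ Lset m n) :
    rkF (fun i => n - a (Fin.rev i)) + rkF a = m * n := by
  have h1 : rkF a = ∑ i : Fin m, a (Fin.rev i) := by
    unfold rkF
    exact (Equiv.sum_comp (Fin.revPerm : Equiv.Perm (Fin m)) a).symm
  rw [h1]
  unfold rkF
  rw [← Finset.sum_add_distrib]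
  have : ∀ i ∈ (univ : Finset (Fin m)), n - a (Fin.rev i) + a (Fin.rev i) = n := by
    intro i _
    have := (mem_L.1 ha).1 (Fin.rev i)
    omega
  rw [Finset.sum_congr rfl this]
  simp

private theorem star_star' {m n : ℕ} {a : Fin m → ℕ} (ha : a ∈ Lset m n) :
    (fun i => n - (fun i => n - a (Fin.rev i)) (Fin.rev i)) = a := by
  funext i
  have := (mem_L.1 ha).1 i
  simp only [Fin.rev_rev]
  omega

end CutAux

theorem card_star {m n r : ℕ} (hr : r ≤ m * n) :
    ((Lset m n).filter (fun a => rkF a = m * n - r)).card =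
      ((Lset m n).filter (fun a => rkF a = r)).card := by
  refine Finset.card_bij' (fun a _ => fun i => n - a (Fin.rev i))
    (fun a _ => fun i => n - a (Fin.rev i)) ?_ ?_ ?_ ?_
  · intro a ha
    rw [Finset.mem_filter] at ha ⊢
    refine ⟨star_mem ha.1, ?_⟩
    have := star_rk ha.1
    omega
  · intro a ha
    rw [Finset.mem_filter] at ha ⊢
    refine ⟨star_mem ha.1, ?_⟩
    have := star_rk ha.1
    omega
  · intro a ha
    exact star_star' (Finset.mem_filter.1 ha).1
  · intro a ha
    exact star_star' (Finset.mem_filter.1 ha).1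

end Pool.Agent.Helper30.SC
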