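import Mathlib

set_option autoImplicit false

/-!
# Project SC (MP_b31059): definitions

Asymptotic form of the conjecture of Stanley on symmetric chain decompositions of `L(m,n)`.
-/

namespace Pool.Agent.Helper30.SC

open Finset

/-! ## Abstract graded sets -/

/-- Disjoint symmetric chains: the `j`-th chain is `c j r`, `d j ≤ r ≤ N - d j`, inside `P`. -/
def IsFam {α : Type} (rk : α → ℕ) (cov : α → α → Prop) (N : ℕ) (P : Finset α)
    (l : ℕ) (c : Fin l → ℕ → α) (d : Fin l → ℕ) : Prop :=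
  (∀ j, 2 * d j ≤ N) ∧
  (∀ j r, d j ≤ r → r + d j ≤ N → c j r ∈ P ∧ rk (c j r) = r) ∧
  (∀ j r, d j ≤ r → r + 1 + d j ≤ N → cov (c j r) (c j (r + 1))) ∧
  (∀ j j' r, d j ≤ r → r + d j ≤ N → d j' ≤ r → r + d j' ≤ N → c j r = c j' r → j = j')

/-- The number of elements of a family of disjoint symmetric chains. -/
def tot {l : ℕ} (N : ℕ) (d : Fin l → ℕ) : ℕ := ∑ j, (N + 1 - 2 * d j)

/-- Disjoint symmetric chains cover a proportion of at least `1 - e` of `P`. -/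
def Good {α : Type} (rk : α → ℕ) (cov : α → α → Prop) (N : ℕ) (P : Finset α) (e : ℝ) : Prop :=
  ∃ (l : ℕ) (c : Fin l → ℕ → α) (d : Fin l → ℕ), IsFam rk cov N P l c d ∧
    (1 - e) * (P.card : ℝ) ≤ (tot N d : ℝ)

/-- The cut inequality between the levels `s0` and `s1` of the lower half: `W` is closed upwards
up to `X`. -/
def CutLow {α : Type} [DecidableEq α] (rk : α → ℕ) (cov : α → α → Prop) (P : Finset α)
    (q : ℕ → ℝ) (δ : ℝ) (s0 s1 : ℕ) : Prop :=
  ∀ W X : Finset α, W ⊆ P → X ⊆ P → (∀ x ∈ P, rk x = s0 → x ∈ W ∪ X) →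
    (∀ x ∈ W, s0 ≤ rk x → rk x < s1 → ∀ y ∈ P, cov x y → y ∈ W ∪ X) →
    1 - δ ≤ (X.card : ℝ) / q s0 + ((W.filter (fun x => rk x = s1)).card : ℝ) / q s1

/-- The cut inequality between the levels `N - s1` and `N - s0` of the upper half: `W` is closed
downwards up to `X`. -/
def CutUp {α : Type} [DecidableEq α] (rk : α → ℕ) (cov : α → α → Prop) (N : ℕ) (P : Finset α)
    (q : ℕ → ℝ) (δ : ℝ) (s0 s1 : ℕ) : Prop :=
  ∀ W X : Finset α, W ⊆ P → X ⊆ P → (∀ x ∈ P, rk x = N - s0 → x ∈ W ∪ X) →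
    (∀ y ∈ W, N - s1 < rk y → rk y ≤ N - s0 → ∀ x ∈ P, cov x y → x ∈ W ∪ X) →
    1 - δ ≤ (X.card : ℝ) / q s0 + ((W.filter (fun x => rk x = N - s1)).card : ℝ) / q s1

/-- The cut inequality between the levels `r0` and `N - r0`. -/
def CutMid {α : Type} [DecidableEq α] (rk : α → ℕ) (cov : α → α → Prop) (N : ℕ) (P : Finset α)
    (q : ℕ → ℝ) (δ : ℝ) (r0 : ℕ) : Prop :=
  ∀ W X : Finset α, W ⊆ P → X ⊆ P → (∀ x ∈ P, rk x = r0 → x ∈ W ∪ X) →
    (∀ x ∈ W, r0 ≤ rk x → rk x < N - r0 → ∀ y ∈ P, cov x y → y ∈ W ∪ X) →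
    (∀ x ∈ W, rk x ≠ N - r0) → (1 - δ) * q r0 ≤ (X.card : ℝ)

/-- Flow of total weight out of `x`. -/
noncomputable def out {α : Type} (P : Finset α) (w : α → α → ℝ) (x : α) : ℝ := ∑ y ∈ P, w x y

/-- Flow of total weight into `y`. -/
noncomputable def inn {α : Type} (P : Finset α) (w : α → α → ℝ) (y : α) : ℝ := ∑ x ∈ P, w x y

/-- A nonnegative weight on the covers of `P` with `out x - inn x = N - 2 rk x`. -/
def IsFlow {α : Type} (P : Finset α) (rk : α → ℕ) (cov : α → α → Prop) (N : ℕ)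
    (w : α → α → ℝ) : Prop :=
  (∀ x y, 0 ≤ w x y) ∧
  (∀ x ∈ P, ∀ y ∈ P, w x y ≠ 0 → cov x y) ∧
  (∀ x ∈ P, ∀ y ∈ P, cov x y → rk y = rk x + 1) ∧
  (∀ x ∈ P, rk x ≤ N) ∧
  (∀ x ∈ P, out P w x - inn P w x = (N : ℝ) - 2 * (rk x : ℝ))

/-- An order reversing involution of `P` which preserves the weights. -/
def IsDual {α : Type} (P : Finset α) (rk : α → ℕ) (cov : α → α → Prop) (N : ℕ)
    (w : α → α → ℝ) (star : α → α) : Prop :=
  (∀ x ∈ P, star x ∈ P) ∧ (∀ x ∈ P, star (star x) = x) ∧ (∀ x ∈ P, rk (star x) = N - rk x) ∧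
  (∀ x ∈ P, ∀ y ∈ P, cov x y → cov (star y) (star x)) ∧
  (∀ x ∈ P, ∀ y ∈ P, w (star y) (star x) = w x y)

/-- Total weight out of the level `r`. -/
noncomputable def F {α : Type} (P : Finset α) (rk : α → ℕ) (w : α → α → ℝ) (r : ℕ) : ℝ :=
  ∑ x ∈ P.filter (fun x => rk x = r), out P w x

/-! ## The subset model of `L(m,n)` -/

/-- `m`-element subsets of `{0, ..., m + n - 1}` -/
def Sub (m n : ℕ) : Finset (Finset ℕ) := powersetCard m (range (m + n))

/-- rank of a subset -/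
def rkS (m : ℕ) (S : Finset ℕ) : ℕ := (∑ b ∈ S, b) - m * (m - 1) / 2

/-- `T` is obtained from `S` by moving an element `b` to `b + 1` -/
def covS (S T : Finset ℕ) : Prop := ∃ b ∈ S, b + 1 ∉ S ∧ T = insert (b + 1) (S.erase b)

/-- the weight `(b + 1) (m + n - 1 - b)` of moving `b` to `b + 1` -/
noncomputable def wS (m n : ℕ) (S T : Finset ℕ) : ℝ :=
  ∑ b ∈ S.filter (fun b => b + 1 ∉ S),
    if T = insert (b + 1) (S.erase b) then (((b + 1) * (m + n - 1 - b) : ℕ) : ℝ) else 0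

/-- the statistic `out` of the subset model -/
noncomputable def outS (m n : ℕ) (S : Finset ℕ) : ℝ :=
  ∑ b ∈ S.filter (fun b => b + 1 ∉ S), (((b + 1) * (m + n - 1 - b) : ℕ) : ℝ)

/-- the mean `m n (m + n + 1) / 6` of `outS` -/
noncomputable def muS (m n : ℕ) : ℝ := (m : ℝ) * n * (m + n + 1) / 6

/-! ## Sequences -/

/-- the product of chains `{0,...,n}^m` -/
def Qset (m n : ℕ) : Finset (Fin m → ℕ) := Fintype.piFinset (fun _ => range (n + 1))

/-- `L(m,n)` -/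
noncomputable def Lset (m n : ℕ) : Finset (Fin m → ℕ) :=
  open Classical in (Qset m n).filter (fun a => Monotone a)

/-- rank of a sequence -/
def rkF {m : ℕ} (a : Fin m → ℕ) : ℕ := ∑ i, a i

/-- covering relation of sequences -/
def covF {m : ℕ} (a b : Fin m → ℕ) : Prop := a ≤ b ∧ rkF b = rkF a + 1

/-- number of elements of rank `r` in `{0,...,n}^m` -/
def lev (m n r : ℕ) : ℕ := ((Qset m n).filter (fun a => rkF a = r)).card

/-- conjugation `{0,...,n}^m → L(n,m)` -/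
def conj (m n : ℕ) (x : Fin m → ℕ) : Fin n → ℕ :=
  fun t => (univ.filter (fun j : Fin m => n ≤ x j + (t : ℕ))).card

end Pool.Agent.Helper30.SC
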