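import Pool.Agent.Helper30.SC.Defs

set_option autoImplicit false

/-!
# SC-11 SubA: the flow of the subset model of `L(m,n)`

`M = m + n`, `h b = (b + 1) (M - 1 - b)`.
PROOF of `out_sub`. For `S ∈ Sub m n` and `b ∈ S`, `b + 1 ∉ S` the set
`insert (b+1) (S.erase b)` is in `Sub m n` unless `b = M - 1`, and then `h b = 0`; the sets for
different `b` are different (`b` is the only element of `S` missing in it); swap the sums.
`inn_sub`: the sets `S` with `T = insert (b+1) (S.erase b)`, `b ∈ S`, `b+1 ∉ S`, correspond to the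
elements `b + 1 ∈ T` with `b ∉ T` (`S = insert b (T.erase (b+1))`), weight `h b = b' (M - b')` for
`b' = b + 1`.
`flow_sub`: `out - inn = ∑_{b ∈ S} h b - ∑_{b ∈ S, b+1 ∈ S} h b - ∑_{b ∈ S} h' b +
∑_{b ∈ S, b ≥ 1, b-1 ∈ S} h' b`, where `h' b = b (M - b)` is `h (b-1)` for `b ≥ 1` and `0` for
`b = 0`; the second and the fourth sum cancel, and `h b - h' b = M - 1 - 2 b`, so the difference is
`m (M - 1) - 2 ∑ b = m (M - 1) - m (m - 1) - 2 rk = m n - 2 rk`. For this `m (m-1)/2 ≤ ∑ b`
(`m` different naturals; `∑_{i < m} i ≤ ∑_{b ∈ S} b`) is needed (natural subtraction in `rkS`), and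
`rk ≤ m n` (replace `b` by `M - 1 - b`, or `∑ b ≤ ∑_{i<m} (M - 1 - i)`).
-/

namespace Pool.Agent.Helper30.SC

open Finset

private theorem sum_ge_aux : ∀ (m : ℕ) (S : Finset ℕ), S.card = m →
    ∑ i ∈ range m, i ≤ ∑ b ∈ S, b := by
  intro m
  induction m with
  | zero => intro S _; simp
  | succ k ih =>
    intro S hS
    have hne : S.Nonempty := by
      rw [← Finset.card_pos]; omega
    have hM : S.max' hne ∈ S := S.max'_mem hne
    have hsub : S ⊆ range (S.max' hne + 1) := by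
      intro x hx
      have := S.le_max' x hx
      simp only [mem_range]; omega
    have hc := Finset.card_le_card hsub
    rw [card_range, hS] at hc
    have h1 : (S.erase (S.max' hne)).card = k := by
      rw [card_erase_of_mem hM, hS]; rfl
    have h2 := ih _ h1
    have h3 : ∑ b ∈ S.erase (S.max' hne), b + S.max' hne = ∑ b ∈ S, b :=
      Finset.sum_erase_add S (fun b => b) hM
    rw [sum_range_succ]
    omega

theorem sum_ge (m : ℕ) (S : Finset ℕ) (hS : S.card = m) : m * (m - 1) / 2 ≤ ∑ b ∈ S, b := by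
  rw [← Finset.sum_range_id]
  exact sum_ge_aux m S hS

private theorem tri_two (m : ℕ) : 2 * (m * (m - 1) / 2) = m * (m - 1) := by
  rw [← Finset.sum_range_id, mul_comm]
  exact Finset.sum_range_id_mul_two m

private theorem mem_Sub {m n : ℕ} {S : Finset ℕ} :
    S ∈ Sub m n ↔ (∀ b ∈ S, b < m + n) ∧ S.card = m := by
  unfold Sub
  rw [mem_powersetCard]
  constructor
  · rintro ⟨h1, h2⟩
    exact ⟨fun b hb => mem_range.1 (h1 hb), h2⟩
  · rintro ⟨h1, h2⟩
    exact ⟨fun b hb => mem_range.2 (h1 b hb), h2⟩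

theorem rkS_le {m n : ℕ} {S : Finset ℕ} (hS : S ∈ Sub m n) : rkS m S ≤ m * n := by
  obtain ⟨h1, h2⟩ := mem_Sub.1 hS
  have hinj : Set.InjOn (fun b => m + n - 1 - b) (S : Set ℕ) := by
    intro x hx y hy hxy
    have hx' := h1 x hx
    have hy' := h1 y hy
    simp only at hxy
    omega
  have hc : (S.image (fun b => m + n - 1 - b)).card = m := by
    rw [Finset.card_image_of_injOn hinj, h2]
  have h3 := sum_ge m _ hc
  rw [Finset.sum_image (fun x hx y hy h => hinj hx hy h)] at h3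
  have h4 : ∑ b ∈ S, (m + n - 1 - b) + ∑ b ∈ S, b = m * (m + n - 1) := by
    rw [← Finset.sum_add_distrib, ← h2, ← smul_eq_mul, ← Finset.sum_const]
    apply Finset.sum_congr rfl
    intro b hb
    have := h1 b hb
    rw [h2]
    omega
  have h5 := tri_two m
  unfold rkS
  rcases Nat.eq_zero_or_pos m with hm | hm
  · subst hm
    have : S = ∅ := Finset.card_eq_zero.1 h2
    subst this
    simp
  · have h6 : m * (m + n - 1) = m * (m - 1) + m * n := by
      rw [← Nat.mul_add]
      congr 1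
      omega
    omega

private theorem step_card {S : Finset ℕ} {b : ℕ} (hb : b ∈ S) (hb1 : b + 1 ∉ S) :
    (insert (b + 1) (S.erase b)).card = S.card := by
  have h1 : b + 1 ∉ S.erase b := fun h => hb1 (mem_of_mem_erase h)
  rw [card_insert_of_notMem h1, card_erase_of_mem hb]
  have : 0 < S.card := card_pos.2 ⟨b, hb⟩
  omega

private theorem step_mem {m n : ℕ} {S : Finset ℕ} (hS : S ∈ Sub m n) {b : ℕ} (hb : b ∈ S)
    (hb1 : b + 1 ∉ S) (hlt : b + 1 < m + n) : insert (b + 1) (S.erase b) ∈ Sub m n := by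
  obtain ⟨h1, h2⟩ := mem_Sub.1 hS
  refine mem_Sub.2 ⟨?_, by rw [step_card hb hb1, h2]⟩
  intro x hx
  rcases mem_insert.1 hx with h | h
  · omega
  · exact h1 x (mem_of_mem_erase h)

theorem out_sub {m n : ℕ} {S : Finset ℕ} (hS : S ∈ Sub m n) :
    out (Sub m n) (wS m n) S = outS m n S := by
  unfold out wS outS
  rw [Finset.sum_comm]
  apply Finset.sum_congr rfl
  intro b hb
  obtain ⟨hb0, hb1⟩ := mem_filter.1 hb
  rw [Finset.sum_ite_eq' (Sub m n) (insert (b + 1) (S.erase b))]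
  split_ifs with h
  · rfl
  · have hlt : ¬ (b + 1 < m + n) := fun h' => h (step_mem hS hb0 hb1 h')
    have : m + n - 1 - b = 0 := by omega
    rw [this]
    simp

private theorem back_iff {S T : Finset ℕ} {b : ℕ} :
    (b ∈ S ∧ b + 1 ∉ S ∧ T = insert (b + 1) (S.erase b)) ↔
      (b + 1 ∈ T ∧ b ∉ T ∧ S = insert b (T.erase (b + 1))) := by
  constructor
  · rintro ⟨h1, h2, rfl⟩
    refine ⟨mem_insert_self _ _, ?_, ?_⟩
    · intro h
      rcases mem_insert.1 h with h | h
      · omega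
      · exact (mem_erase.1 h).1 rfl
    · ext x
      simp only [mem_insert, mem_erase]
      constructor
      · intro hx
        by_cases hxb : x = b
        · exact Or.inl hxb
        · refine Or.inr ⟨?_, Or.inr ⟨hxb, hx⟩⟩
          rintro rfl
          exact h2 hx
      · rintro (rfl | ⟨h3, h4 | ⟨_, h5⟩⟩)
        · exact h1
        · exact absurd h4 h3
        · exact h5
  · rintro ⟨h1, h2, rfl⟩
    refine ⟨mem_insert_self _ _, ?_, ?_⟩
    · intro h
      rcases mem_insert.1 h with h | h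
      · omega
      · exact (mem_erase.1 h).1 rfl
    · ext x
      simp only [mem_insert, mem_erase]
      constructor
      · intro hx
        by_cases hxb : x = b + 1
        · exact Or.inl hxb
        · refine Or.inr ⟨?_, Or.inr ⟨hxb, hx⟩⟩
          rintro rfl
          exact h2 hx
      · rintro (rfl | ⟨h3, h4 | ⟨_, h5⟩⟩)
        · exact h1
        · exact absurd h4 h3
        · exact h5

private theorem back_mem {m n : ℕ} {T : Finset ℕ} (hT : T ∈ Sub m n) {b : ℕ}
    (hb : b + 1 ∈ T) (hb1 : b ∉ T) : insert b (T.erase (b + 1)) ∈ Sub m n := by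
  obtain ⟨h1, h2⟩ := mem_Sub.1 hT
  refine mem_Sub.2 ⟨?_, ?_⟩
  · intro x hx
    rcases mem_insert.1 hx with h | h
    · have := h1 _ hb
      omega
    · exact h1 x (mem_of_mem_erase h)
  · have h3 : b ∉ T.erase (b + 1) := fun h => hb1 (mem_of_mem_erase h)
    rw [card_insert_of_notMem h3, card_erase_of_mem hb]
    have : 0 < T.card := card_pos.2 ⟨_, hb⟩
    omega

theorem inn_sub {m n : ℕ} {T : Finset ℕ} (hT : T ∈ Sub m n) :
    inn (Sub m n) (wS m n) T =
      ∑ b ∈ T.filter (fun b => 1 ≤ b ∧ b - 1 ∉ T), (((b * (m + n - b) : ℕ)) : ℝ) := by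
  obtain ⟨hT1, hT2⟩ := mem_Sub.1 hT
  unfold inn
  have e1 : ∀ S ∈ Sub m n, wS m n S T = ∑ b ∈ range (m + n),
      if (b + 1 ∈ T ∧ b ∉ T ∧ S = insert b (T.erase (b + 1))) then
        (((b + 1) * (m + n - 1 - b) : ℕ) : ℝ) else 0 := by
    intro S hS
    obtain ⟨hS1, hS2⟩ := mem_Sub.1 hS
    unfold wS
    rw [← Finset.sum_filter, ← Finset.sum_filter]
    apply Finset.sum_congr _ (fun _ _ => rfl)
    ext b
    simp only [mem_filter, mem_range]
    rw [← back_iff]
    constructor
    · rintro ⟨⟨h1, h2⟩, h3⟩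
      exact ⟨hS1 b h1, h1, h2, h3⟩
    · rintro ⟨_, h1, h2, h3⟩
      exact ⟨⟨h1, h2⟩, h3⟩
  rw [Finset.sum_congr rfl e1, Finset.sum_comm]
  have e2 : ∀ b ∈ range (m + n), (∑ S ∈ Sub m n,
      if (b + 1 ∈ T ∧ b ∉ T ∧ S = insert b (T.erase (b + 1))) then
        (((b + 1) * (m + n - 1 - b) : ℕ) : ℝ) else 0) =
      if (b + 1 ∈ T ∧ b ∉ T) then (((b + 1) * (m + n - 1 - b) : ℕ) : ℝ) else 0 := by
    intro b _
    by_cases h : b + 1 ∈ T ∧ b ∉ T
    · rw [if_pos h]
      have hc : ∀ S ∈ Sub m n, (if (b + 1 ∈ T ∧ b ∉ T ∧ S = insert b (T.erase (b + 1))) then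
          (((b + 1) * (m + n - 1 - b) : ℕ) : ℝ) else 0) =
          if S = insert b (T.erase (b + 1)) then
            (((b + 1) * (m + n - 1 - b) : ℕ) : ℝ) else 0 := by
        intro S _
        by_cases h' : S = insert b (T.erase (b + 1))
        · rw [if_pos ⟨h.1, h.2, h'⟩, if_pos h']
        · rw [if_neg (fun h'' => h' h''.2.2), if_neg h']
      rw [Finset.sum_congr rfl hc, Finset.sum_ite_eq' (Sub m n) (insert b (T.erase (b + 1))),
        if_pos (back_mem hT h.1 h.2)]
    · rw [if_neg h]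
      apply Finset.sum_eq_zero
      intro S _
      rw [if_neg (fun h'' => h ⟨h''.1, h''.2.1⟩)]
  rw [Finset.sum_congr rfl e2, ← Finset.sum_filter]
  symm
  apply Finset.sum_nbij' (fun b => b - 1) (fun b => b + 1)
  · intro b hb
    obtain ⟨h1, h2, h3⟩ := mem_filter.1 hb
    have h4 := hT1 b h1
    rw [mem_filter, mem_range]
    refine ⟨by omega, ?_, h3⟩
    rw [Nat.sub_add_cancel h2]
    exact h1
  · intro b hb
    obtain ⟨h1, h2, h3⟩ := mem_filter.1 hb
    rw [mem_filter]
    refine ⟨h2, by omega, ?_⟩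
    rw [Nat.add_sub_cancel]
    exact h3
  · intro b hb
    obtain ⟨h1, h2, h3⟩ := mem_filter.1 hb
    exact Nat.sub_add_cancel h2
  · intro b hb
    exact Nat.add_sub_cancel b 1
  · intro b hb
    obtain ⟨h1, h2, h3⟩ := mem_filter.1 hb
    have h4 : m + n - 1 - (b - 1) = m + n - b := by omega
    rw [Nat.sub_add_cancel h2, h4]

private theorem rkS_step {m n : ℕ} {S T : Finset ℕ} (hS : S ∈ Sub m n) (hT : T ∈ Sub m n)
    (h : covS S T) : rkS m T = rkS m S + 1 := by
  obtain ⟨b, hb, hb1, rfl⟩ := h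
  obtain ⟨h1, h2⟩ := mem_Sub.1 hS
  have h3 : b + 1 ∉ S.erase b := fun h => hb1 (mem_of_mem_erase h)
  have h4 := sum_ge m S h2
  have h5 : ∑ x ∈ S.erase b, x + b = ∑ x ∈ S, x := Finset.sum_erase_add S (fun b => b) hb
  unfold rkS
  rw [sum_insert h3]
  omega

private theorem rkS_real {m n : ℕ} {S : Finset ℕ} (hS : S ∈ Sub m n) :
    2 * (rkS m S : ℝ) = 2 * (∑ b ∈ S, (b : ℝ)) - m * (m - 1) := by
  obtain ⟨h1, h2⟩ := mem_Sub.1 hS
  have h4 := sum_ge m S h2
  have h5 := tri_two m
  have h6 : 2 * rkS m S + m * (m - 1) = 2 * ∑ b ∈ S, b := by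
    unfold rkS
    omega
  have h7 : ((m * (m - 1) : ℕ) : ℝ) = (m : ℝ) * (m - 1) := by
    rcases Nat.eq_zero_or_pos m with hm | hm
    · subst hm; simp
    · push_cast [Nat.cast_sub hm]
      ring
  have h8 := congrArg (fun t : ℕ => (t : ℝ)) h6
  simp only [Nat.cast_add, Nat.cast_mul, Nat.cast_ofNat, Nat.cast_sum] at h8
  rw [Nat.cast_mul] at h7
  linarith

theorem flow_sub (m n : ℕ) : IsFlow (Sub m n) (rkS m) covS (m * n) (wS m n) := by
  refine ⟨?_, ?_, ?_, ?_, ?_⟩
  · intro S T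
    unfold wS
    apply Finset.sum_nonneg
    intro b _
    split_ifs
    · exact Nat.cast_nonneg _
    · exact le_rfl
  · intro S _ T _ h
    unfold wS at h
    obtain ⟨b, hb, hne⟩ := Finset.exists_ne_zero_of_sum_ne_zero h
    obtain ⟨hb0, hb1⟩ := mem_filter.1 hb
    refine ⟨b, hb0, hb1, ?_⟩
    by_contra hc
    exact hne (if_neg hc)
  · intro S hS T hT h
    exact rkS_step hS hT h
  · intro S hS
    exact rkS_le hS
  · intro S hS
    obtain ⟨hS1, hS2⟩ := mem_Sub.1 hS
    rw [out_sub hS, inn_sub hS]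
    unfold outS
    set H : ℕ → ℝ := fun b => ((b : ℝ) + 1) * ((m : ℝ) + n - 1 - b) with hH
    set H' : ℕ → ℝ := fun b => (b : ℝ) * ((m : ℝ) + n - b) with hH'
    have e1 : ∑ b ∈ S.filter (fun b => b + 1 ∉ S), (((b + 1) * (m + n - 1 - b) : ℕ) : ℝ) =
        ∑ b ∈ S.filter (fun b => b + 1 ∉ S), H b := by
      apply Finset.sum_congr rfl
      intro b hb
      have hb0 := hS1 b (mem_filter.1 hb).1
      have hc : ((m + n - 1 - b : ℕ) : ℝ) = (m : ℝ) + n - 1 - b := by
        have : ((m + n - 1 - b : ℕ) : ℝ) + 1 + b = (m : ℝ) + n := by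
          have h' : (m + n - 1 - b) + 1 + b = m + n := by omega
          exact_mod_cast h'
        linarith
      rw [Nat.cast_mul, hc]
      push_cast
      rfl
    have e2 : ∑ b ∈ S.filter (fun b => 1 ≤ b ∧ b - 1 ∉ S), (((b * (m + n - b) : ℕ)) : ℝ) =
        ∑ b ∈ S.filter (fun b => 1 ≤ b ∧ b - 1 ∉ S), H' b := by
      apply Finset.sum_congr rfl
      intro b hb
      have hb0 := hS1 b (mem_filter.1 hb).1
      have hc : ((m + n - b : ℕ) : ℝ) = (m : ℝ) + n - b := by
        have : ((m + n - b : ℕ) : ℝ) + b = (m : ℝ) + n := by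
          have h' : (m + n - b) + b = m + n := by omega
          exact_mod_cast h'
        linarith
      rw [Nat.cast_mul, hc]
    rw [e1, e2]
    have f1 : ∑ b ∈ S, H b = ∑ b ∈ S.filter (fun b => b + 1 ∉ S), H b +
        ∑ b ∈ S.filter (fun b => ¬ (b + 1 ∉ S)), H b :=
      (Finset.sum_filter_add_sum_filter_not S _ _).symm
    have f2 : ∑ b ∈ S, H' b = ∑ b ∈ S.filter (fun b => 1 ≤ b ∧ b - 1 ∉ S), H' b +
        ∑ b ∈ S.filter (fun b => ¬ (1 ≤ b ∧ b - 1 ∉ S)), H' b :=
      (Finset.sum_filter_add_sum_filter_not S _ _).symm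
    have f3 : ∑ b ∈ S.filter (fun b => ¬ (1 ≤ b ∧ b - 1 ∉ S)), H' b =
        ∑ b ∈ S.filter (fun b => 1 ≤ b ∧ b - 1 ∈ S), H' b := by
      symm
      apply Finset.sum_subset
      · intro b hb
        obtain ⟨h1, h2, h3⟩ := mem_filter.1 hb
        exact mem_filter.2 ⟨h1, fun h => h.2 h3⟩
      · intro b hb hnb
        obtain ⟨h1, h2⟩ := mem_filter.1 hb
        have hb0 : b = 0 := by
          by_contra hne
          have hpos : 1 ≤ b := Nat.one_le_iff_ne_zero.2 hne
          have h3 : b - 1 ∈ S := by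
            by_contra h3
            exact h2 ⟨hpos, h3⟩
          exact hnb (mem_filter.2 ⟨h1, hpos, h3⟩)
        rw [hb0, hH']
        simp
    have f4 : ∑ b ∈ S.filter (fun b => 1 ≤ b ∧ b - 1 ∈ S), H' b =
        ∑ b ∈ S.filter (fun b => ¬ (b + 1 ∉ S)), H b := by
      apply Finset.sum_nbij' (fun b => b - 1) (fun b => b + 1)
      · intro b hb
        obtain ⟨h1, h2, h3⟩ := mem_filter.1 hb
        refine mem_filter.2 ⟨h3, ?_⟩
        rw [Nat.sub_add_cancel h2]
        exact fun h => h h1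
      · intro b hb
        obtain ⟨h1, h2⟩ := mem_filter.1 hb
        refine mem_filter.2 ⟨not_not.1 h2, by omega, ?_⟩
        rw [Nat.add_sub_cancel]
        exact h1
      · intro b hb
        obtain ⟨h1, h2, h3⟩ := mem_filter.1 hb
        exact Nat.sub_add_cancel h2
      · intro b hb
        exact Nat.add_sub_cancel b 1
      · intro b hb
        obtain ⟨h1, h2, h3⟩ := mem_filter.1 hb
        have hc : ((b - 1 : ℕ) : ℝ) = (b : ℝ) - 1 := by
          rw [Nat.cast_sub h2, Nat.cast_one]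
        simp only [hH, hH', hc]
        ring
    have f5 : ∑ b ∈ S, H b - ∑ b ∈ S, H' b =
        (m : ℝ) * ((m : ℝ) + n - 1) - 2 * ∑ b ∈ S, (b : ℝ) := by
      rw [← Finset.sum_sub_distrib]
      have : ∀ b ∈ S, H b - H' b = ((m : ℝ) + n - 1) - 2 * (b : ℝ) := by
        intro b _
        simp only [hH, hH']
        ring
      rw [Finset.sum_congr rfl this, Finset.sum_sub_distrib, Finset.sum_const, hS2,
        ← Finset.mul_sum, nsmul_eq_mul]
    have h6 := rkS_real hS
    rw [Nat.cast_mul]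
    linarith

end Pool.Agent.Helper30.SC
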