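import Pool.Agent.Helper30.SC.Defs

set_option autoImplicit false

/-!
# SC-12 SubB: the dual of the subset model, and the bound `out ≤ 3 μ`

`star S = S.image (fun b => m + n - 1 - b)`.
PROOF. `star` maps `Sub m n` to itself (injective on `range (m+n)`), is an involution,
`∑ star S = m (m + n - 1) - ∑ S`, so `rk (star S) = m n - rk S` (`m (m-1)/2 ≤ ∑ S`, see
`SubA.sum_ge`; prove it here again or use `Finset.sum_range_id` type bounds).
If `T = insert (b+1) (S.erase b)` then `star S = insert (b'+1) ((star T).erase b')` with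
`b' = m + n - 1 - (b + 1)`, and `h b' = h b`. For the weights note that for `S, T ∈ Sub m n` there
is at most one `b` with `T = insert (b+1) (S.erase b)`, `b ∈ S`, `b + 1 ∉ S`.
`outS_le`: `h b ≤ ((m+n)/2)^2`, at most `m` summands, and `m n (m+n+1)/6 ≥ m (m+n)^2/12` for
`m ≤ n`.
-/

namespace Pool.Agent.Helper30.SC

open Finset

private lemma subB_mem {m n : ℕ} {S : Finset ℕ} :
    S ∈ Sub m n ↔ (∀ b ∈ S, b < m + n) ∧ S.card = m := by
  unfold Sub
  rw [mem_powersetCard]
  constructor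
  · rintro ⟨h, hc⟩
    exact ⟨fun b hb => mem_range.1 (h hb), hc⟩
  · rintro ⟨h, hc⟩
    exact ⟨fun b hb => mem_range.2 (h b hb), hc⟩

private lemma subB_mem_star {M : ℕ} {S : Finset ℕ} (hS : ∀ b ∈ S, b < M) {c : ℕ} (hc : c < M) :
    c ∈ S.image (fun b => M - 1 - b) ↔ M - 1 - c ∈ S := by
  rw [mem_image]
  constructor
  · rintro ⟨b, hb, rfl⟩
    have := hS b hb
    have h1 : M - 1 - (M - 1 - b) = b := by omega
    rwa [h1]
  · intro h
    exact ⟨_, h, by omega⟩

private lemma subB_star_lt {M : ℕ} {S : Finset ℕ} (hS : ∀ b ∈ S, b < M) :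
    ∀ c ∈ S.image (fun b => M - 1 - b), c < M := by
  intro c hc
  obtain ⟨b, hb, rfl⟩ := mem_image.1 hc
  have := hS b hb
  omega

private lemma subB_star_star {M : ℕ} {S : Finset ℕ} (hS : ∀ b ∈ S, b < M) :
    (S.image (fun b => M - 1 - b)).image (fun b => M - 1 - b) = S := by
  ext c
  constructor
  · intro h
    have hc : c < M := subB_star_lt (subB_star_lt hS) c h
    rw [subB_mem_star (subB_star_lt hS) hc, subB_mem_star hS (by omega)] at h
    have h1 : M - 1 - (M - 1 - c) = c := by omega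
    rwa [h1] at h
  · intro h
    have hc := hS c h
    rw [subB_mem_star (subB_star_lt hS) hc, subB_mem_star hS (by omega)]
    have h1 : M - 1 - (M - 1 - c) = c := by omega
    rwa [h1]

private lemma subB_inj {M : ℕ} {S : Finset ℕ} (hS : ∀ b ∈ S, b < M) :
    Set.InjOn (fun b => M - 1 - b) (S : Set ℕ) := by
  intro a ha b hb h
  have h1 := hS a ha
  have h2 := hS b hb
  simp only at h
  omega

private lemma subB_sum {M : ℕ} {S : Finset ℕ} (hS : ∀ b ∈ S, b < M) :
    ∑ c ∈ S.image (fun b => M - 1 - b), c + ∑ b ∈ S, b = S.card * (M - 1) := by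
  rw [sum_image (subB_inj hS), ← sum_add_distrib, ← smul_eq_mul, ← sum_const]
  refine sum_congr rfl fun b hb => ?_
  have := hS b hb
  omega

private lemma subB_sum_ge' : ∀ (k : ℕ) (S : Finset ℕ), S.card = k →
    ∑ i ∈ range k, i ≤ ∑ b ∈ S, b := by
  intro k
  induction k with
  | zero => intro S _; simp
  | succ k ih =>
    intro S hS
    have hne : S.Nonempty := by
      rw [← card_pos, hS]; omega
    have ha := S.max'_mem hne
    have h1 : S ⊆ range (S.max' hne + 1) := by
      intro b hb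
      have := S.le_max' b hb
      exact mem_range.2 (by omega)
    have h2 := card_le_card h1
    rw [card_range, hS] at h2
    have h3 := ih (S.erase (S.max' hne)) (by rw [card_erase_of_mem ha, hS]; rfl)
    have h4 : ∑ b ∈ S.erase (S.max' hne), b + S.max' hne = ∑ b ∈ S, b :=
      sum_erase_add S (fun b => b) ha
    rw [sum_range_succ]
    omega

private lemma subB_sum_ge (S : Finset ℕ) : S.card * (S.card - 1) / 2 ≤ ∑ b ∈ S, b := by
  rw [← Finset.sum_range_id]
  exact subB_sum_ge' _ S rfl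

private lemma subB_move {M : ℕ} {S : Finset ℕ} (hS : ∀ b ∈ S, b < M) {b : ℕ} (hb : b ∈ S)
    (hb1 : b + 1 ∉ S) (hbM : b + 1 < M) :
    M - 2 - b ∈ (insert (b + 1) (S.erase b)).image (fun b => M - 1 - b) ∧
    M - 2 - b + 1 ∉ (insert (b + 1) (S.erase b)).image (fun b => M - 1 - b) ∧
    S.image (fun b => M - 1 - b) = insert (M - 2 - b + 1)
      (((insert (b + 1) (S.erase b)).image (fun b => M - 1 - b)).erase (M - 2 - b)) := by
  have hT : ∀ c ∈ insert (b + 1) (S.erase b), c < M := by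
    intro c hc
    rcases mem_insert.1 hc with rfl | hc
    · exact hbM
    · exact hS c (mem_of_mem_erase hc)
  refine ⟨?_, ?_, ?_⟩
  · rw [subB_mem_star hT (by omega)]
    have h1 : M - 1 - (M - 2 - b) = b + 1 := by omega
    rw [h1]
    exact mem_insert_self _ _
  · rw [subB_mem_star hT (by omega)]
    have h1 : M - 1 - (M - 2 - b + 1) = b := by omega
    rw [h1]
    simp
  · ext c
    by_cases hcM : c < M
    · rw [subB_mem_star hS hcM, mem_insert, mem_erase, subB_mem_star hT hcM, mem_insert, mem_erase]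
      by_cases h1 : c = M - 2 - b + 1
      · subst h1
        have h2 : M - 1 - (M - 2 - b + 1) = b := by omega
        simp [h2, hb]
      · by_cases h2 : c = M - 2 - b
        · subst h2
          have h3 : M - 1 - (M - 2 - b) = b + 1 := by omega
          simp [h3, hb1]
        · have h3 : M - 1 - c ≠ b := by omega
          have h4 : M - 1 - c ≠ b + 1 := by omega
          simp [h1, h2, h3, h4]
    · constructor
      · intro h
        exact absurd (subB_star_lt hS c h) hcM
      · intro h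
        rcases mem_insert.1 h with rfl | h
        · omega
        · exact absurd (subB_star_lt hT c (mem_of_mem_erase h)) hcM

private lemma subB_dual {M : ℕ} {S T : Finset ℕ} (hS : ∀ b ∈ S, b < M) (hT : ∀ b ∈ T, b < M)
    {b : ℕ} (hb : b ∈ S) (hb1 : b + 1 ∉ S) (h : T = insert (b + 1) (S.erase b)) :
    b + 1 < M ∧ M - 2 - b ∈ T.image (fun b => M - 1 - b) ∧
    M - 2 - b + 1 ∉ T.image (fun b => M - 1 - b) ∧
    S.image (fun b => M - 1 - b) = insert (M - 2 - b + 1)
      ((T.image (fun b => M - 1 - b)).erase (M - 2 - b)) := by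
  have hbM : b + 1 < M := hT _ (by rw [h]; exact mem_insert_self _ _)
  subst h
  exact ⟨hbM, subB_move hS hb hb1 hbM⟩

theorem dual_sub (m n : ℕ) :
    IsDual (Sub m n) (rkS m) covS (m * n) (wS m n)
      (fun S => S.image (fun b => m + n - 1 - b)) := by
  refine ⟨?_, ?_, ?_, ?_, ?_⟩
  · intro S hS
    obtain ⟨h1, h2⟩ := subB_mem.1 hS
    exact subB_mem.2 ⟨subB_star_lt h1, by rw [card_image_of_injOn (subB_inj h1), h2]⟩
  · intro S hS
    obtain ⟨h1, h2⟩ := subB_mem.1 hS
    exact subB_star_star h1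
  · intro S hS
    obtain ⟨h1, h2⟩ := subB_mem.1 hS
    have h3 := subB_sum h1
    have h4 := subB_sum_ge S
    rw [h2] at h3 h4
    unfold rkS
    simp only
    obtain ⟨k, hk⟩ : Even (m * (m - 1)) := by
      rcases m with _ | m
      · simp
      · rw [Nat.add_sub_cancel, mul_comm]
        exact Nat.even_mul_succ_self m
    have h5 : m * (m + n - 1) = m * n + m * (m - 1) := by
      rcases m with _ | m
      · simp
      · have : m + 1 + n - 1 = n + m := by omega
        rw [this, Nat.add_sub_cancel]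
        ring
    have h6 : m * (m - 1) / 2 = k := by omega
    rw [h6] at h4 ⊢
    rw [h5, hk] at h3
    omega
  · intro S hS T hT h
    obtain ⟨h1, h2⟩ := subB_mem.1 hS
    obtain ⟨h3, h4⟩ := subB_mem.1 hT
    obtain ⟨b, hb, hb1, hb2⟩ := h
    obtain ⟨h5, h6, h7, h8⟩ := subB_dual h1 h3 hb hb1 hb2
    exact ⟨_, h6, h7, h8⟩
  · intro S hS T hT
    obtain ⟨h1, h2⟩ := subB_mem.1 hS
    obtain ⟨h3, h4⟩ := subB_mem.1 hT
    have h1' := subB_star_lt h1
    have h3' := subB_star_lt h3
    unfold wS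
    rw [← sum_filter, ← sum_filter]
    refine Finset.sum_nbij' (fun b => m + n - 2 - b) (fun b => m + n - 2 - b) ?_ ?_ ?_ ?_ ?_
    · intro b hb
      simp only [mem_filter] at hb ⊢
      obtain ⟨⟨hb, hb1⟩, hb2⟩ := hb
      obtain ⟨h5, h6, h7, h8⟩ := subB_dual h3' h1' hb hb1 hb2
      rw [subB_star_star h1] at h6 h7 h8
      rw [subB_star_star h3] at h8
      exact ⟨⟨h6, h7⟩, h8⟩
    · intro b hb
      simp only [mem_filter] at hb ⊢
      obtain ⟨⟨hb, hb1⟩, hb2⟩ := hb
      obtain ⟨h5, h6, h7, h8⟩ := subB_dual h1 h3 hb hb1 hb2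
      exact ⟨⟨h6, h7⟩, h8⟩
    · intro b hb
      simp only [mem_filter] at hb
      obtain ⟨⟨hb, hb1⟩, hb2⟩ := hb
      obtain ⟨h5, -⟩ := subB_dual h3' h1' hb hb1 hb2
      omega
    · intro b hb
      simp only [mem_filter] at hb
      obtain ⟨⟨hb, hb1⟩, hb2⟩ := hb
      obtain ⟨h5, -⟩ := subB_dual h1 h3 hb hb1 hb2
      omega
    · intro b hb
      simp only [mem_filter] at hb
      obtain ⟨⟨hb, hb1⟩, hb2⟩ := hb
      obtain ⟨h5, -⟩ := subB_dual h3' h1' hb hb1 hb2
      have e1 : m + n - 2 - b + 1 = m + n - 1 - b := by omega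
      have e2 : m + n - 1 - (m + n - 2 - b) = b + 1 := by omega
      simp only [e1, e2]
      rw [mul_comm]

theorem outS_le {m n : ℕ} (hmn : m ≤ n) {S : Finset ℕ} (hS : S ∈ Sub m n) :
    outS m n S ≤ 3 * muS m n := by
  obtain ⟨h1, h2⟩ := subB_mem.1 hS
  have hb : ∀ b ∈ S.filter (fun b => b + 1 ∉ S),
      (((b + 1) * (m + n - 1 - b) : ℕ) : ℝ) ≤ ((m : ℝ) + n) ^ 2 / 4 := by
    intro b hb
    have h3 := h1 b (mem_filter.1 hb).1
    obtain ⟨c, hc⟩ : ∃ c, m + n - 1 - b = c := ⟨_, rfl⟩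
    have h4 : (b : ℝ) + 1 + c = m + n := by
      have : b + 1 + c = m + n := by omega
      exact_mod_cast this
    rw [hc, ← h4]
    push_cast
    nlinarith [sq_nonneg ((b : ℝ) + 1 - c)]
  have h3 : outS m n S ≤ (S.filter (fun b => b + 1 ∉ S)).card • (((m : ℝ) + n) ^ 2 / 4) :=
    sum_le_card_nsmul _ _ _ hb
  have h4 : ((S.filter (fun b => b + 1 ∉ S)).card : ℝ) ≤ m := by
    have := card_filter_le S (fun b => b + 1 ∉ S)
    rw [h2] at this
    exact_mod_cast this
  rw [nsmul_eq_mul] at h3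
  have h5 : (0 : ℝ) ≤ m := Nat.cast_nonneg m
  have h6 : (m : ℝ) ≤ n := by exact_mod_cast hmn
  have h7 : ((S.filter (fun b => b + 1 ∉ S)).card : ℝ) * (((m : ℝ) + n) ^ 2 / 4) ≤
      m * (((m : ℝ) + n) ^ 2 / 4) := mul_le_mul_of_nonneg_right h4 (by positivity)
  refine h3.trans (h7.trans ?_)
  unfold muS
  have h8 : (m : ℝ) * ((m : ℝ) + n) ^ 2 ≤ m * (2 * n * (m + n + 1)) := by
    refine mul_le_mul_of_nonneg_left ?_ h5
    nlinarith
  nlinarith

end Pool.Agent.Helper30.SC
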