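import Pool.Agent.Helper30.SC.Mgf

set_option autoImplicit false

/-!
# SC-14 Tail: `outS` is concentrated

`M = m + n`, `p = m / M`, `H = M^2 / 4`, `h b = (b+1)(M-1-b) ≤ H` for `b < M`,
`∑_{b < M - 1} h b = (M-1) M (M+1) / 6`, `p (1-p) = m n / M^2`,
`μ' = p (1-p) ∑ h = μ (M - 1) / M` with `μ = muS m n`, and `μ ≥ m M^2 / 12`.
PROOF of `mode`: the terms `t_k = C(M,k) p^k (1-p)^(M-k)` of the binomial expansion of
`(p + (1-p))^M = 1` are maximal at `k = m` (`t_{k+1} / t_k = (M-k) m / ((k+1) n)` is `≥ 1` for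
`k < m` and `≤ 1` for `k ≥ m`), so `(M + 1) t_m ≥ 1`.
PROOF of `tail_sub`. Upper tail: let `θ = λ / H`, `λ = δ/2`, `g b = θ h b` (for `b < M`, and
`0` beyond, say), `0 ≤ g ≤ λ ≤ 1/2`, `exp x - 1 ≤ x + x² ≤ x (1 + λ)` for `0 ≤ x ≤ λ`. By Markov
and `T_le` the weighted number of subsets of `range M` with `outS ≥ (1 + δ) μ` is
`≤ exp(-θ (1+δ) μ) T ≤ exp(-θ (1+δ) μ + (1+λ) θ μ') ≤ exp(-θ μ (δ - λ)) = exp(-δ² μ / M²)
≤ exp(-δ² m / 12)`. (For `S ∈ Sub m n` the exponent of `T` is `θ outS m n S`: the term with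
`b + 1 = M` has `h b = 0`.) Lower tail: `θ' = δ / H`, `g b = -θ' h b`,
`exp(-x) - 1 ≤ -x + x²/2 ≤ -x (1 - δ/2)` for `0 ≤ x ≤ δ`; weighted number of
`outS ≤ (1 - δ) μ` is `≤ exp(θ' (1-δ) μ - θ' (1 - δ/2) μ')
≤ exp(-θ' μ (δ/2 - 1/M)) ≤ exp(-θ' μ δ / 4) = exp(-δ² μ / M²) ≤ exp(-δ² m / 12)` because
`1/M ≤ δ/4`. Every `S ∈ Sub m n` has the weight `p^m (1-p)^n ≥ 1 / ((M+1) C(M,m))` (`mode`).
-/

namespace Pool.Agent.Helper30.SC

open Finset

namespace Tail

private theorem step_id (m n k : ℕ) (hk : k < m + n) :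
    (m + n).choose (k + 1) * m ^ (k + 1) * n ^ (m + n - (k + 1)) * ((k + 1) * n) =
      (m + n).choose k * m ^ k * n ^ (m + n - k) * ((m + n - k) * m) := by
  have h1 : (m + n).choose (k + 1) * (k + 1) = (m + n).choose k * (m + n - k) :=
    Nat.choose_succ_right_eq (m + n) k
  have h2 : n ^ (m + n - k) = n ^ (m + n - (k + 1)) * n := by
    rw [← pow_succ]
    congr 1
    omega
  calc (m + n).choose (k + 1) * m ^ (k + 1) * n ^ (m + n - (k + 1)) * ((k + 1) * n)
      = ((m + n).choose (k + 1) * (k + 1)) * m ^ (k + 1) * (n ^ (m + n - (k + 1)) * n) := by ring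
    _ = ((m + n).choose k * (m + n - k)) * m ^ (k + 1) * n ^ (m + n - k) := by rw [h1, ← h2]
    _ = _ := by rw [pow_succ]; ring

private theorem up {m n : ℕ} (hn : 1 ≤ n) (k : ℕ) (hk : k < m) :
    (m + n).choose k * m ^ k * n ^ (m + n - k) ≤
      (m + n).choose (k + 1) * m ^ (k + 1) * n ^ (m + n - (k + 1)) := by
  have h := step_id m n k (by omega)
  have h3 : (k + 1) * n ≤ (m + n - k) * m := by
    calc (k + 1) * n ≤ m * (m + n - k) := Nat.mul_le_mul (by omega) (by omega)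
      _ = _ := by ring
  have h4 : 0 < (k + 1) * n := by positivity
  refine Nat.le_of_mul_le_mul_right ?_ h4
  rw [h]
  exact Nat.mul_le_mul_left _ h3

private theorem down {m n : ℕ} (hn : 1 ≤ n) (k : ℕ) (hk : m ≤ k) (hk2 : k < m + n) :
    (m + n).choose (k + 1) * m ^ (k + 1) * n ^ (m + n - (k + 1)) ≤
      (m + n).choose k * m ^ k * n ^ (m + n - k) := by
  have h := step_id m n k hk2
  have h3 : (m + n - k) * m ≤ (k + 1) * n := by
    calc (m + n - k) * m ≤ n * (k + 1) := Nat.mul_le_mul (by omega) (by omega)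
      _ = _ := by ring
  have h4 : 0 < (k + 1) * n := by positivity
  refine Nat.le_of_mul_le_mul_right ?_ h4
  rw [h]
  exact Nat.mul_le_mul_left _ h3

private theorem le_mode {m n : ℕ} (hn : 1 ≤ n) (k : ℕ) (hk : k ≤ m + n) :
    (m + n).choose k * m ^ k * n ^ (m + n - k) ≤ (m + n).choose m * m ^ m * n ^ n := by
  have hmm : (m + n).choose m * m ^ m * n ^ n = (m + n).choose m * m ^ m * n ^ (m + n - m) := by
    rw [Nat.add_sub_cancel_left]
  rw [hmm]
  rcases le_total k m with h | h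
  · induction h using Nat.decreasingInduction with
    | self => exact le_rfl
    | of_succ j hj ih => exact (up hn j hj).trans (ih (by omega))
  · induction k, h using Nat.le_induction with
    | base => exact le_rfl
    | succ j hj ih => exact (down hn j hj (by omega)).trans (ih (by omega))

end Tail

open Tail in
theorem mode {m n : ℕ} (hm : 1 ≤ m) (hn : 1 ≤ n) :
    1 ≤ ((m : ℝ) + n + 1) * ((m + n).choose m : ℝ) * ((m : ℝ) / (m + n)) ^ m *
      ((n : ℝ) / (m + n)) ^ n := by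
  have hM : (0 : ℝ) < (m : ℝ) + n := by positivity
  have hsum : ((m : ℝ) + n) ^ (m + n) ≤ ((m : ℝ) + n + 1) *
      (((m + n).choose m : ℝ) * (m : ℝ) ^ m * (n : ℝ) ^ n) := by
    rw [add_pow]
    calc ∑ k ∈ range (m + n + 1), (m : ℝ) ^ k * (n : ℝ) ^ (m + n - k) * ((m + n).choose k : ℝ)
        ≤ ∑ _k ∈ range (m + n + 1), (((m + n).choose m : ℝ) * (m : ℝ) ^ m * (n : ℝ) ^ n) := by
          apply sum_le_sum
          intro k hk
          rw [mem_range] at hk
          have := le_mode (m := m) hn k (by omega)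
          have h2 : (((m + n).choose k * m ^ k * n ^ (m + n - k) : ℕ) : ℝ) ≤
              (((m + n).choose m * m ^ m * n ^ n : ℕ) : ℝ) := by exact_mod_cast this
          push_cast at h2
          linarith
      _ = _ := by
          rw [sum_const, card_range, nsmul_eq_mul]
          push_cast
          ring
  have hpos : (0 : ℝ) < ((m : ℝ) + n) ^ (m + n) := by positivity
  have h3 : ((m : ℝ) + n + 1) * ((m + n).choose m : ℝ) * ((m : ℝ) / (m + n)) ^ m *
      ((n : ℝ) / (m + n)) ^ n = ((m : ℝ) + n + 1) *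
      (((m + n).choose m : ℝ) * (m : ℝ) ^ m * (n : ℝ) ^ n) / ((m : ℝ) + n) ^ (m + n) := by
    rw [div_pow, div_pow, pow_add]
    field_simp
  rw [h3, le_div_iff₀ hpos, one_mul]
  exact hsum

namespace Tail

/-- `(b + 1) (M - 1 - b)` -/
private noncomputable def hh (M b : ℕ) : ℝ := (((b + 1) * (M - 1 - b) : ℕ) : ℝ)

private theorem hh_nonneg (M b : ℕ) : 0 ≤ hh M b := Nat.cast_nonneg _

private theorem hh_le (M b : ℕ) : hh M b ≤ (M : ℝ) ^ 2 / 4 := by
  unfold hh
  rcases le_or_gt (b + 1) M with h | h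
  · obtain ⟨c, rfl⟩ := Nat.exists_eq_add_of_le h
    have h1 : b + 1 + c - 1 - b = c := by omega
    rw [h1]
    push_cast
    nlinarith [sq_nonneg ((b : ℝ) + 1 - c)]
  · have h1 : M - 1 - b = 0 := by omega
    rw [h1, Nat.mul_zero]
    push_cast
    positivity

private theorem sum_aux (K : ℝ) (k : ℕ) :
    ∑ b ∈ range k, ((b : ℝ) + 1) * (K - b) =
      K * k * (k + 1) / 2 - ((k : ℝ) - 1) * k * (k + 1) / 3 := by
  induction k with
  | zero => simp
  | succ k ih =>
    rw [sum_range_succ, ih]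
    push_cast
    ring

private theorem sum_hh (M : ℕ) (hM : 1 ≤ M) :
    ∑ b ∈ range (M - 1), hh M b = ((M : ℝ) - 1) * M * (M + 1) / 6 := by
  obtain ⟨k, rfl⟩ : ∃ k, M = k + 1 := ⟨M - 1, by omega⟩
  rw [Nat.add_sub_cancel]
  have h1 : ∑ b ∈ range k, hh (k + 1) b = ∑ b ∈ range k, ((b : ℝ) + 1) * ((k : ℝ) - b) := by
    apply sum_congr rfl
    intro b hb
    rw [mem_range] at hb
    unfold hh
    rw [Nat.add_sub_cancel]
    push_cast [Nat.cast_sub hb.le]
    ring
  rw [h1, sum_aux]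
  push_cast
  ring

private theorem exponent (m n : ℕ) (θ : ℝ) (S : Finset ℕ) :
    ∑ b ∈ S.filter (fun b => b + 1 ∉ S ∧ b + 1 < m + n), θ * hh (m + n) b = θ * outS m n S := by
  rw [← mul_sum]
  congr 1
  unfold outS
  apply sum_subset
  · intro b hb
    rw [mem_filter] at hb ⊢
    exact ⟨hb.1, hb.2.1⟩
  · intro b hb hb2
    rw [mem_filter] at hb hb2
    have h1 : ¬ b + 1 < m + n := fun h => hb2 ⟨hb.1, hb.2, h⟩
    have h2 : m + n - 1 - b = 0 := by omega
    unfold hh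
    rw [h2, Nat.mul_zero, Nat.cast_zero]

private theorem markov (m n : ℕ) (θ c p : ℝ) (hp0 : 0 ≤ p) (hp1 : p ≤ 1)
    (B : Finset (Finset ℕ)) (hB : B ⊆ Sub m n) (hc : ∀ S ∈ B, c ≤ θ * outS m n S) :
    (B.card : ℝ) * (p ^ m * (1 - p) ^ n * Real.exp c) ≤
      T (fun b => θ * hh (m + n) b) p (m + n) := by
  have hq : 0 ≤ 1 - p := by linarith
  have hsub : B ⊆ (range (m + n)).powerset := by
    intro S hS
    exact mem_powerset.2 (mem_powersetCard.1 (hB hS)).1
  unfold T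
  calc (B.card : ℝ) * (p ^ m * (1 - p) ^ n * Real.exp c)
      = ∑ _S ∈ B, (p ^ m * (1 - p) ^ n * Real.exp c) := by rw [sum_const, nsmul_eq_mul]
    _ ≤ ∑ S ∈ B, p ^ S.card * (1 - p) ^ (m + n - S.card) *
        Real.exp (∑ b ∈ S.filter (fun b => b + 1 ∉ S ∧ b + 1 < m + n), θ * hh (m + n) b) := by
        apply sum_le_sum
        intro S hS
        have hcard : S.card = m := (mem_powersetCard.1 (hB hS)).2
        rw [hcard, Nat.add_sub_cancel_left, exponent]
        apply mul_le_mul_of_nonneg_left (Real.exp_le_exp.2 (hc S hS)) (by positivity)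
    _ ≤ _ := by
        apply sum_le_sum_of_subset_of_nonneg hsub
        intro S _ _
        positivity

private theorem exp_up {x l : ℝ} (h0 : 0 ≤ x) (h1 : x ≤ l) (hl : l ≤ 1) :
    Real.exp x - 1 ≤ (1 + l) * x := by
  have h2 := Real.abs_exp_sub_one_sub_id_le (x := x) (by rw [abs_of_nonneg h0]; linarith)
  have h3 := (abs_le.1 h2).2
  nlinarith

private theorem exp_down {x l : ℝ} (h0 : 0 ≤ x) (h1 : x ≤ l) :
    Real.exp (-x) - 1 ≤ -((1 - l / 2) * x) := by
  have h2 : 1 + x + x ^ 2 / 2 ≤ Real.exp x := Real.quadratic_le_exp_of_nonneg h0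
  have hpos : 0 < 1 + x + x ^ 2 / 2 := by positivity
  have h3 : Real.exp (-x) ≤ (1 + x + x ^ 2 / 2)⁻¹ := by
    rw [Real.exp_neg]
    exact inv_anti₀ hpos h2
  have h4 : (1 + x + x ^ 2 / 2)⁻¹ ≤ 1 - x + x ^ 2 / 2 := by
    rw [inv_le_iff_one_le_mul₀ hpos]
    nlinarith [sq_nonneg (x ^ 2)]
  nlinarith

private theorem muS_lower {m n : ℕ} (hm : 1 ≤ m) (hmn : m ≤ n) :
    (m : ℝ) / 12 * ((m : ℝ) + n) ^ 2 ≤ muS m n := by
  unfold muS
  have h1 : (1 : ℝ) ≤ m := by exact_mod_cast hm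
  have h2 : (m : ℝ) ≤ n := by exact_mod_cast hmn
  have h3 : (m : ℝ) / 12 * ((m : ℝ) + n) ^ 2 = (m : ℝ) / 6 * (((m : ℝ) + n) / 2 * ((m : ℝ) + n)) := by
    ring
  have h4 : (m : ℝ) * n * (m + n + 1) / 6 = (m : ℝ) / 6 * (n * ((m : ℝ) + n + 1)) := by ring
  rw [h3, h4]
  apply mul_le_mul_of_nonneg_left _ (by positivity)
  apply mul_le_mul <;> linarith

private theorem tail_core {m n : ℕ} {δ : ℝ} (hm : 1 ≤ m) (hmn : m ≤ n)
    (θ c e : ℝ) (B : Finset (Finset ℕ)) (hB : B ⊆ Sub m n)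
    (hc : ∀ S ∈ B, c ≤ θ * outS m n S)
    (hT : T (fun b => θ * hh (m + n) b) ((m : ℝ) / (m + n)) (m + n) ≤ Real.exp e)
    (he : e - c ≤ -(δ ^ 2 * muS m n / ((m : ℝ) + n) ^ 2)) :
    (B.card : ℝ) ≤ ((m : ℝ) + n + 1) * Real.exp (-(δ ^ 2 * m / 12)) * ((m + n).choose m : ℝ) := by
  have hM : (0 : ℝ) < (m : ℝ) + n := by positivity
  have hp0 : (0 : ℝ) ≤ (m : ℝ) / (m + n) := by positivity
  have hp1 : (m : ℝ) / (m + n) ≤ 1 := by
    rw [div_le_one hM]
    have : (0 : ℝ) ≤ n := Nat.cast_nonneg _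
    linarith
  have hq : 1 - (m : ℝ) / (m + n) = (n : ℝ) / (m + n) := by
    field_simp
    ring
  have h1 := (markov m n θ c ((m : ℝ) / (m + n)) hp0 hp1 B hB hc).trans hT
  rw [hq] at h1
  set w0 : ℝ := ((m : ℝ) / (m + n)) ^ m * ((n : ℝ) / (m + n)) ^ n with hw0
  have h2 : (B.card : ℝ) * w0 ≤ Real.exp (e - c) := by
    rw [Real.exp_sub, le_div_iff₀ (Real.exp_pos c)]
    linarith
  have h3 : Real.exp (e - c) ≤ Real.exp (-(δ ^ 2 * m / 12)) := by
    apply Real.exp_le_exp.2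
    refine he.trans ?_
    have h4 := muS_lower hm hmn
    have h5 : (m : ℝ) / 12 ≤ muS m n / ((m : ℝ) + n) ^ 2 := by
      rw [le_div_iff₀ (by positivity)]
      exact h4
    have h6 : δ ^ 2 * (m : ℝ) / 12 ≤ δ ^ 2 * muS m n / ((m : ℝ) + n) ^ 2 := by
      calc δ ^ 2 * (m : ℝ) / 12 = δ ^ 2 * ((m : ℝ) / 12) := by ring
        _ ≤ δ ^ 2 * (muS m n / ((m : ℝ) + n) ^ 2) :=
            mul_le_mul_of_nonneg_left h5 (sq_nonneg δ)
        _ = _ := by ring
    linarith
  have hmode := mode hm (le_trans hm hmn)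
  have hmode2 : 1 ≤ ((m : ℝ) + n + 1) * ((m + n).choose m : ℝ) * w0 := by
    rw [hw0, ← mul_assoc]
    exact hmode
  calc (B.card : ℝ) = (B.card : ℝ) * 1 := by ring
    _ ≤ (B.card : ℝ) * (((m : ℝ) + n + 1) * ((m + n).choose m : ℝ) * w0) :=
        mul_le_mul_of_nonneg_left hmode2 (Nat.cast_nonneg _)
    _ = (((m : ℝ) + n + 1) * ((m + n).choose m : ℝ)) * ((B.card : ℝ) * w0) := by ring
    _ ≤ (((m : ℝ) + n + 1) * ((m + n).choose m : ℝ)) * Real.exp (-(δ ^ 2 * m / 12)) :=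
        mul_le_mul_of_nonneg_left (h2.trans h3) (by positivity)
    _ = _ := by ring

private theorem mass_id {m n : ℕ} (hm : 1 ≤ m) :
    (m : ℝ) / (m + n) * (1 - (m : ℝ) / (m + n)) * ∑ b ∈ range (m + n - 1), hh (m + n) b =
      muS m n * (1 - 1 / ((m : ℝ) + n)) := by
  have hM : (0 : ℝ) < (m : ℝ) + n := by positivity
  rw [sum_hh (m + n) (by omega)]
  unfold muS
  push_cast
  field_simp
  ring

end Tail

open Tail in
theorem tail_sub {m n : ℕ} {δ : ℝ} (h0 : 0 < δ) (h1 : δ ≤ 1) (hm : 1 ≤ m) (hmn : m ≤ n)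
    (hM : 4 ≤ δ * ((m : ℝ) + n)) :
    (((Sub m n).filter (fun S => δ * muS m n < |outS m n S - muS m n|)).card : ℝ) ≤
      2 * ((m : ℝ) + n + 1) * Real.exp (-(δ ^ 2 * m / 12)) * ((m + n).choose m : ℝ) := by
  classical
  have hMp : (0 : ℝ) < (m : ℝ) + n := by positivity
  have hmu : 0 ≤ muS m n := by
    unfold muS
    positivity
  have hp0 : (0 : ℝ) ≤ (m : ℝ) / (m + n) := by positivity
  have hp1 : (m : ℝ) / (m + n) ≤ 1 := by
    rw [div_le_one hMp]
    have : (0 : ℝ) ≤ n := Nat.cast_nonneg _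
    linarith
  have hpq : 0 ≤ (m : ℝ) / (m + n) * (1 - (m : ℝ) / (m + n)) :=
    mul_nonneg hp0 (by linarith)
  have hsplit : (Sub m n).filter (fun S => δ * muS m n < |outS m n S - muS m n|) ⊆
      (Sub m n).filter (fun S => (1 + δ) * muS m n ≤ outS m n S) ∪
      (Sub m n).filter (fun S => outS m n S ≤ (1 - δ) * muS m n) := by
    intro S hS
    rw [mem_filter] at hS
    rw [mem_union, mem_filter, mem_filter]
    rcases lt_abs.1 hS.2 with h | h
    · left
      exact ⟨hS.1, by linarith⟩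
    · right
      exact ⟨hS.1, by linarith⟩
  -- upper tail
  have hup : ((((Sub m n).filter (fun S => (1 + δ) * muS m n ≤ outS m n S)).card : ℕ) : ℝ) ≤
      ((m : ℝ) + n + 1) * Real.exp (-(δ ^ 2 * m / 12)) * ((m + n).choose m : ℝ) := by
    have hθ : 0 ≤ 2 * δ / ((m : ℝ) + n) ^ 2 := by positivity
    have hg : ∀ b, 2 * δ / ((m : ℝ) + n) ^ 2 * hh (m + n) b ≤ δ / 2 := by
      intro b
      have h2 := hh_le (m + n) b
      push_cast at h2
      calc 2 * δ / ((m : ℝ) + n) ^ 2 * hh (m + n) b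
          ≤ 2 * δ / ((m : ℝ) + n) ^ 2 * (((m : ℝ) + n) ^ 2 / 4) :=
            mul_le_mul_of_nonneg_left h2 hθ
        _ = δ / 2 := by
            field_simp
            ring
    refine tail_core (δ := δ) hm hmn (2 * δ / ((m : ℝ) + n) ^ 2)
      (2 * δ / ((m : ℝ) + n) ^ 2 * ((1 + δ) * muS m n))
      ((1 + δ / 2) * (2 * δ / ((m : ℝ) + n) ^ 2) * (muS m n * (1 - 1 / ((m : ℝ) + n)))) _
      (filter_subset _ _) ?_ ?_ ?_
    · intro S hS
      rw [mem_filter] at hS
      exact mul_le_mul_of_nonneg_left hS.2 hθ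
    · refine (T_le _ hp0 hp1 (Or.inl fun b => mul_nonneg hθ (hh_nonneg _ _)) (m + n)).trans ?_
      apply Real.exp_le_exp.2
      calc (m : ℝ) / (m + n) * (1 - (m : ℝ) / (m + n)) *
            ∑ b ∈ range (m + n - 1), (Real.exp (2 * δ / ((m : ℝ) + n) ^ 2 * hh (m + n) b) - 1)
          ≤ (m : ℝ) / (m + n) * (1 - (m : ℝ) / (m + n)) *
            ∑ b ∈ range (m + n - 1), (1 + δ / 2) * (2 * δ / ((m : ℝ) + n) ^ 2 * hh (m + n) b) := by
            apply mul_le_mul_of_nonneg_left _ hpq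
            apply sum_le_sum
            intro b _
            exact exp_up (mul_nonneg hθ (hh_nonneg _ _)) (hg b) (by linarith)
        _ = (1 + δ / 2) * (2 * δ / ((m : ℝ) + n) ^ 2) *
            ((m : ℝ) / (m + n) * (1 - (m : ℝ) / (m + n)) *
              ∑ b ∈ range (m + n - 1), hh (m + n) b) := by
            rw [← mul_sum, ← mul_sum]
            ring
        _ = _ := by rw [mass_id hm]
    · have hinv : 0 ≤ 1 / ((m : ℝ) + n) := by positivity
      have h3 : (1 + δ / 2) * (2 * δ / ((m : ℝ) + n) ^ 2) * (muS m n * (1 - 1 / ((m : ℝ) + n))) ≤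
          (1 + δ / 2) * (2 * δ / ((m : ℝ) + n) ^ 2) * muS m n := by
        apply mul_le_mul_of_nonneg_left _ (by positivity)
        nlinarith
      have h4 : (1 + δ / 2) * (2 * δ / ((m : ℝ) + n) ^ 2) * muS m n -
          2 * δ / ((m : ℝ) + n) ^ 2 * ((1 + δ) * muS m n) =
          -(δ ^ 2 * muS m n / ((m : ℝ) + n) ^ 2) := by
        field_simp
        ring
      linarith
  -- lower tail
  have hlow : ((((Sub m n).filter (fun S => outS m n S ≤ (1 - δ) * muS m n)).card : ℕ) : ℝ) ≤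
      ((m : ℝ) + n + 1) * Real.exp (-(δ ^ 2 * m / 12)) * ((m + n).choose m : ℝ) := by
    have hθ : 0 ≤ 4 * δ / ((m : ℝ) + n) ^ 2 := by positivity
    have hg : ∀ b, 4 * δ / ((m : ℝ) + n) ^ 2 * hh (m + n) b ≤ δ := by
      intro b
      have h2 := hh_le (m + n) b
      push_cast at h2
      calc 4 * δ / ((m : ℝ) + n) ^ 2 * hh (m + n) b
          ≤ 4 * δ / ((m : ℝ) + n) ^ 2 * (((m : ℝ) + n) ^ 2 / 4) :=
            mul_le_mul_of_nonneg_left h2 hθ
        _ = δ := by field_simp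
    refine tail_core (δ := δ) hm hmn (-(4 * δ / ((m : ℝ) + n) ^ 2))
      (-(4 * δ / ((m : ℝ) + n) ^ 2) * ((1 - δ) * muS m n))
      (-((1 - δ / 2) * (4 * δ / ((m : ℝ) + n) ^ 2) * (muS m n * (1 - 1 / ((m : ℝ) + n))))) _
      (filter_subset _ _) ?_ ?_ ?_
    · intro S hS
      rw [mem_filter] at hS
      have := mul_le_mul_of_nonneg_left hS.2 hθ
      linarith
    · refine (T_le _ hp0 hp1 (Or.inr fun b => ?_) (m + n)).trans ?_
      · have := mul_nonneg hθ (hh_nonneg (m + n) b)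
        linarith
      apply Real.exp_le_exp.2
      calc (m : ℝ) / (m + n) * (1 - (m : ℝ) / (m + n)) *
            ∑ b ∈ range (m + n - 1), (Real.exp (-(4 * δ / ((m : ℝ) + n) ^ 2) * hh (m + n) b) - 1)
          ≤ (m : ℝ) / (m + n) * (1 - (m : ℝ) / (m + n)) *
            ∑ b ∈ range (m + n - 1),
              (-((1 - δ / 2) * (4 * δ / ((m : ℝ) + n) ^ 2)) * hh (m + n) b) := by
            apply mul_le_mul_of_nonneg_left _ hpq
            apply sum_le_sum
            intro b _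
            have h5 := exp_down (mul_nonneg hθ (hh_nonneg (m + n) b)) (hg b)
            rw [neg_mul]
            linarith
        _ = -((1 - δ / 2) * (4 * δ / ((m : ℝ) + n) ^ 2) *
            ((m : ℝ) / (m + n) * (1 - (m : ℝ) / (m + n)) *
              ∑ b ∈ range (m + n - 1), hh (m + n) b)) := by
            rw [← mul_sum]
            ring
        _ = _ := by rw [mass_id hm]
    · have hinv : 1 / ((m : ℝ) + n) ≤ δ / 4 := by
        rw [div_le_iff₀ hMp]
        linarith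
      have hinv0 : 0 ≤ 1 / ((m : ℝ) + n) := by positivity
      set t : ℝ := 4 * δ / ((m : ℝ) + n) ^ 2 with ht
      have h4 : δ ^ 2 * muS m n / ((m : ℝ) + n) ^ 2 = t * muS m n * (δ / 4) := by
        rw [ht]
        field_simp
      rw [h4]
      have h5 : 0 ≤ t * muS m n := mul_nonneg hθ hmu
      have h6 : -((1 - δ / 2) * t * (muS m n * (1 - 1 / ((m : ℝ) + n)))) -
          -t * ((1 - δ) * muS m n) =
          t * muS m n * ((1 - δ) - (1 - δ / 2) * (1 - 1 / ((m : ℝ) + n))) := by ring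
      rw [h6]
      have h7 : (1 - δ) - (1 - δ / 2) * (1 - 1 / ((m : ℝ) + n)) ≤ -(δ / 4) := by
        nlinarith
      nlinarith [mul_le_mul_of_nonneg_left h7 h5]
  calc (((Sub m n).filter (fun S => δ * muS m n < |outS m n S - muS m n|)).card : ℝ)
      ≤ ((((Sub m n).filter (fun S => (1 + δ) * muS m n ≤ outS m n S) ∪
        (Sub m n).filter (fun S => outS m n S ≤ (1 - δ) * muS m n)).card : ℕ) : ℝ) := by
        exact_mod_cast card_le_card hsplit
    _ ≤ ((((Sub m n).filter (fun S => (1 + δ) * muS m n ≤ outS m n S)).card +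
        ((Sub m n).filter (fun S => outS m n S ≤ (1 - δ) * muS m n)).card : ℕ) : ℝ) := by
        exact_mod_cast card_union_le _ _
    _ ≤ _ := by
        push_cast
        linarith

end Pool.Agent.Helper30.SC
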