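import Pool.Agent.Helper30.SC.AbsB
import Pool.Agent.Helper30.SC.SubA
import Pool.Agent.Helper30.SC.SubB
import Pool.Agent.Helper30.SC.Tail

set_option autoImplicit false

/-!
# SC-15 RegB: the range `n ≤ m^3`, `m ≤ n`

PROOF. `absB ε` gives `δ, ρ`. For `P = Sub m n`, `w = wS m n`, `μ = muS m n` use `flow_sub`,
`dual_sub`, `out_sub`, `outS_le`. `1 ≤ μ` for `n ≥ 6`, `m ≥ 1`. By `tail_sub` the number of bad
elements is `≤ 2 (m+n+1) exp(-δ² m/12) Φ`, `Φ = C(m+n, m)` (`card_powersetCard`), and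
`(√μ + 1) 2 (m+n+1) exp(-δ² m/12) ≤ ρ` for large `n`: `μ ≤ n^3`... (`m ≤ n`: `μ ≤ n^2 (2n+1)/6
≤ n^3`), `m + n + 1 ≤ 3 n`, `n ≤ m^3`, so the left side is `≤ 12 n^3 exp(-δ² m/12)
≤ 12 m^9 exp(-δ² m / 12) → 0` as `m ≥ n^(1/3) → ∞`.
-/

namespace Pool.Agent.Helper30.SC

open Finset

private theorem regB_lim {c ρ : ℝ} (hc : 0 < c) (hρ : 0 < ρ) :
    ∃ m0 : ℕ, ∀ m : ℕ, m0 ≤ m → 12 * (m : ℝ) ^ 12 * Real.exp (-(c * m)) ≤ ρ := by
  have h1 := Real.tendsto_pow_mul_exp_neg_atTop_nhds_zero 12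
  have h2 : Filter.Tendsto (fun m : ℕ => c * (m : ℝ)) Filter.atTop Filter.atTop :=
    tendsto_natCast_atTop_atTop.const_mul_atTop hc
  have h3 := h1.comp h2
  have hpos : 0 < ρ * c ^ 12 / 12 := by positivity
  have h4 := h3.eventually (gt_mem_nhds hpos)
  obtain ⟨m0, hm0⟩ := Filter.eventually_atTop.1 h4
  refine ⟨m0, fun m hm => ?_⟩
  have h5 := hm0 m hm
  simp only [Function.comp_apply] at h5
  have h6 : (c * (m : ℝ)) ^ 12 * Real.exp (-(c * m)) =
      c ^ 12 * ((m : ℝ) ^ 12 * Real.exp (-(c * m))) := by ring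
  rw [h6] at h5
  have hc12 : 0 < c ^ 12 := by positivity
  have h7 : c ^ 12 * (12 * (m : ℝ) ^ 12 * Real.exp (-(c * m))) < c ^ 12 * ρ := by
    linarith
  exact (lt_of_mul_lt_mul_left h7 hc12.le).le

theorem regB (ε : ℝ) (hε : 0 < ε) : ∃ n0 : ℕ, ∀ m n : ℕ, n0 ≤ n → m ≤ n → n ≤ m ^ 3 →
    Good (rkS m) covS (m * n) (Sub m n) ε := by
  obtain ⟨δ, hδ, hδ4, ρ, hρ, H⟩ := absB ε hε
  obtain ⟨m0, hm0⟩ := regB_lim (c := δ ^ 2 / 12) (by positivity) hρ
  obtain ⟨k0, hk0⟩ := exists_nat_ge (4 / δ)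
  refine ⟨m0 ^ 3 + k0 + 6, fun m n hn hmn hnm => ?_⟩
  have hmm0 : m0 ≤ m := by
    by_contra hlt
    have h1 : m ^ 3 ≤ m0 ^ 3 := Nat.pow_le_pow_left (by omega) 3
    omega
  have hm1 : 1 ≤ m := by
    rcases Nat.eq_zero_or_pos m with h | h
    · subst h
      simp at hnm
      omega
    · exact h
  have hmR : (1 : ℝ) ≤ (m : ℝ) := by exact_mod_cast hm1
  have hnR : (6 : ℝ) ≤ (n : ℝ) := by
    have : 6 ≤ n := by omega
    exact_mod_cast this
  have hmnR : (m : ℝ) ≤ (n : ℝ) := by exact_mod_cast hmn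
  have hnmR : (n : ℝ) ≤ (m : ℝ) ^ 3 := by exact_mod_cast hnm
  have hμ1 : 1 ≤ muS m n := by
    unfold muS
    have h1 : (6 : ℝ) ≤ (m : ℝ) * n := by nlinarith
    have h2 : (6 : ℝ) ≤ (m : ℝ) * n * (m + n + 1) := by nlinarith
    linarith
  have hμ3 : muS m n ≤ (n : ℝ) ^ 3 := by
    unfold muS
    have h1 : (m : ℝ) * n ≤ n * n := by nlinarith
    have h2 : (m : ℝ) + n + 1 ≤ 6 * n := by linarith
    have h3 : (m : ℝ) * n * (m + n + 1) ≤ (n * n) * (6 * n) :=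
      mul_le_mul h1 h2 (by positivity) (by positivity)
    have h4 : ((n : ℝ) * n) * (6 * n) = 6 * (n : ℝ) ^ 3 := by ring
    linarith
  have hsq : Real.sqrt (muS m n) ≤ muS m n := by
    rw [Real.sqrt_le_left (by linarith)]
    nlinarith
  have hn3 : (1 : ℝ) ≤ (n : ℝ) ^ 3 := one_le_pow₀ (by linarith)
  have hs2 : Real.sqrt (muS m n) + 1 ≤ 2 * (n : ℝ) ^ 3 := by linarith
  have hM : 4 ≤ δ * ((m : ℝ) + n) := by
    have h1 : (k0 : ℝ) ≤ (n : ℝ) := by
      have : k0 ≤ n := by omega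
      exact_mod_cast this
    have h2 : 4 / δ ≤ (m : ℝ) + n := by linarith
    rw [div_le_iff₀ hδ] at h2
    linarith
  have htail := tail_sub (m := m) (n := n) hδ (by linarith) hm1 hmn hM
  have hcard : ((Sub m n).card : ℝ) = ((m + n).choose m : ℝ) := by
    unfold Sub
    rw [card_powersetCard, card_range]
  have hchoose : (0 : ℝ) < ((m + n).choose m : ℝ) := by
    exact_mod_cast Nat.choose_pos (Nat.le_add_right m n)
  have hne : (Sub m n).Nonempty := by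
    rw [← Finset.card_pos]
    have : (0 : ℝ) < ((Sub m n).card : ℝ) := by rw [hcard]; exact hchoose
    exact_mod_cast this
  refine H (Finset ℕ) (Sub m n) (rkS m) covS (m * n) (wS m n)
    (fun S => S.image (fun b => m + n - 1 - b)) (muS m n) (flow_sub m n) (dual_sub m n) hμ1
    ?_ hne ?_
  · intro S hS
    rw [out_sub hS]
    exact outS_le hmn hS
  · have hfil : (Sub m n).filter (fun x => δ * muS m n < |out (Sub m n) (wS m n) x - muS m n|) =
        (Sub m n).filter (fun S => δ * muS m n < |outS m n S - muS m n|) := by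
      apply Finset.filter_congr
      intro S hS
      rw [out_sub hS]
    rw [hfil, hcard]
    have hexp : (0 : ℝ) < Real.exp (-(δ ^ 2 * m / 12)) := Real.exp_pos _
    have h1 : 2 * ((m : ℝ) + n + 1) ≤ 6 * n := by linarith
    have hlim := hm0 m hmm0
    have he : δ ^ 2 / 12 * (m : ℝ) = δ ^ 2 * m / 12 := by ring
    rw [he] at hlim
    have hn4 : (n : ℝ) ^ 4 ≤ (m : ℝ) ^ 12 := by
      calc (n : ℝ) ^ 4 ≤ ((m : ℝ) ^ 3) ^ 4 := pow_le_pow_left₀ (by linarith) hnmR 4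
        _ = (m : ℝ) ^ 12 := by ring
    have h2 : 2 * ((m : ℝ) + n + 1) * Real.exp (-(δ ^ 2 * m / 12)) * (2 * (n : ℝ) ^ 3) ≤ ρ := by
      calc 2 * ((m : ℝ) + n + 1) * Real.exp (-(δ ^ 2 * m / 12)) * (2 * (n : ℝ) ^ 3)
          ≤ 6 * n * Real.exp (-(δ ^ 2 * m / 12)) * (2 * (n : ℝ) ^ 3) := by gcongr
        _ = 12 * (n : ℝ) ^ 4 * Real.exp (-(δ ^ 2 * m / 12)) := by ring
        _ ≤ 12 * (m : ℝ) ^ 12 * Real.exp (-(δ ^ 2 * m / 12)) := by gcongr
        _ ≤ ρ := hlim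
    calc (((Sub m n).filter (fun S => δ * muS m n < |outS m n S - muS m n|)).card : ℝ) *
          (Real.sqrt (muS m n) + 1)
        ≤ (2 * ((m : ℝ) + n + 1) * Real.exp (-(δ ^ 2 * m / 12)) * ((m + n).choose m : ℝ)) *
          (2 * (n : ℝ) ^ 3) := by
          apply mul_le_mul htail hs2
          · have := Real.sqrt_nonneg (muS m n)
            linarith
          · positivity
      _ = (2 * ((m : ℝ) + n + 1) * Real.exp (-(δ ^ 2 * m / 12)) * (2 * (n : ℝ) ^ 3)) *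
          ((m + n).choose m : ℝ) := by ring
      _ ≤ ρ * ((m + n).choose m : ℝ) := mul_le_mul_of_nonneg_right h2 hchoose.le

end Pool.Agent.Helper30.SC
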