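import Pool.Agent.Helper30.SC.RegA
import Pool.Agent.Helper30.SC.RegB

set_option autoImplicit false

/-!
# SC-24 Final: the theorem

PROOF of `good_all`. `m ≤ n` (so `n` large): `m = 0`: one element, one chain (`d = 0`). If
`m^3 ≤ n`, `m ≥ 1`: `regA` gives `Good` for `Lset n m`, and `conj n m` transfers it to `Lset m n`
(`Good.map`, `conj_mem`, `conj_inj`, `conj_rk`, `conj_cov`, `card_Lset`, `Nat.choose_symm_add`).
If `n ≤ m^3`: `regB` and `sub_seq`. For `n < m` apply the case `m ≤ n` to `(n, m)` and transfer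
with `conj`.
PROOF of `final`: `P` = the sets `{c j r : d j ≤ r ≤ N - d j}`.
-/

namespace Pool.Agent.Helper30.SC

open Finset

private theorem mem_Q {m n : ℕ} {a : Fin m → ℕ} (h : a ∈ Lset m n) : a ∈ Qset m n :=
  (Finset.mem_filter.mp h).1

private theorem mem_le {m n : ℕ} {a : Fin m → ℕ} (h : a ∈ Lset m n) :
    Monotone a ∧ ∀ i, a i ≤ n := by
  have h1 := Finset.mem_filter.mp h
  refine ⟨h1.2, fun i => ?_⟩
  have h2 := Fintype.mem_piFinset.mp h1.1 i
  have h3 := Finset.mem_range.mp h2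
  omega

private theorem card_symm (m n : ℕ) : (Lset m n).card = (Lset n m).card := by
  rw [card_Lset, card_Lset, Nat.choose_symm_add, Nat.add_comm]

private theorem swap {m n : ℕ} {ε : ℝ} (h : Good rkF covF (n * m) (Lset n m) ε) :
    Good rkF covF (m * n) (Lset m n) ε := by
  rw [Nat.mul_comm m n]
  refine Good.map (conj n m) (fun x _ => conj_mem x) (fun x hx y hy hxy => conj_inj hx hy hxy)
    (fun x hx => conj_rk (mem_Q hx)) (fun x hx y hy hxy => conj_cov (mem_Q hx) (mem_Q hy) hxy)
    (card_symm m n) h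

private theorem zero_case (n : ℕ) (ε : ℝ) (hε : 0 < ε) :
    Good rkF covF (0 * n) (Lset 0 n) ε := by
  have hmem : (fun i : Fin 0 => i.elim0 : Fin 0 → ℕ) ∈ Lset 0 n := by
    unfold Lset
    rw [Finset.mem_filter]
    refine ⟨?_, fun i => i.elim0⟩
    unfold Qset
    rw [Fintype.mem_piFinset]
    exact fun i => i.elim0
  refine ⟨1, fun _ _ => (fun i => i.elim0), fun _ => 0, ⟨?_, ?_, ?_, ?_⟩, ?_⟩
  · intro j
    show 2 * 0 ≤ 0 * n
    omega
  · intro j r _ hr
    refine ⟨hmem, ?_⟩
    have hr0 : r + 0 ≤ 0 * n := hr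
    have : r = 0 := by
      rw [Nat.zero_mul] at hr0
      omega
    subst this
    simp [rkF]
  · intro j r _ hr
    have hr0 : r + 1 + 0 ≤ 0 * n := hr
    rw [Nat.zero_mul] at hr0
    omega
  · intro j j' r _ _ _ _ _
    exact Subsingleton.elim _ _
  · rw [card_Lset]
    simp [tot]
    linarith

private theorem core (ε : ℝ) (hε : 0 < ε) : ∃ n1 : ℕ, ∀ m n : ℕ, n1 ≤ n → m ≤ n →
    Good rkF covF (m * n) (Lset m n) ε := by
  obtain ⟨nA, hA⟩ := regA ε hε
  obtain ⟨nB, hB⟩ := regB ε hε
  refine ⟨max nA nB, fun m n hn hmn => ?_⟩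
  have hnA : nA ≤ n := le_trans (le_max_left _ _) hn
  have hnB : nB ≤ n := le_trans (le_max_right _ _) hn
  rcases Nat.eq_zero_or_pos m with h0 | h0
  · subst h0
    exact zero_case n ε hε
  · rcases le_total (m ^ 3) n with h3 | h3
    · exact swap (hA m n hnA h0 h3)
    · obtain ⟨f, hf1, hf2, hf3, hf4⟩ := sub_seq m n
      refine Good.map f hf1 hf2 hf3 hf4 ?_ (hB m n hnB hmn h3)
      rw [card_Lset, Sub, Finset.card_powersetCard, Finset.card_range]

theorem good_all (ε : ℝ) (hε : 0 < ε) : ∃ M0 : ℕ, ∀ m n : ℕ, M0 ≤ m + n →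
    Good rkF covF (m * n) (Lset m n) ε := by
  obtain ⟨n1, h⟩ := core ε hε
  refine ⟨2 * n1, fun m n hmn => ?_⟩
  rcases le_total m n with hle | hle
  · exact h m n (by omega) hle
  · exact swap (h n m (by omega) hle)

theorem final (ε : ℝ) (hε : 0 < ε) : ∃ M0 : ℕ, ∀ m n : ℕ, M0 ≤ m + n →
    ∃ P : Set (Set (Fin m → ℕ)),
      (∀ C ∈ P, C.Nonempty ∧
        C ⊆ {a : Fin m → ℕ | Monotone a ∧ ∀ i, a i ≤ n} ∧
        IsChain (· ≤ ·) C ∧
        Set.InjOn (fun a : Fin m → ℕ => ∑ i, a i) C ∧
        ∃ j : ℕ, (fun a : Fin m → ℕ => ∑ i, a i) '' C = Set.Icc j (m * n - j)) ∧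
      P.PairwiseDisjoint id ∧
      (1 - ε) * ((m + n).choose m : ℝ) ≤ ((⋃₀ P).ncard : ℝ) := by
  obtain ⟨M0, hM⟩ := good_all ε hε
  refine ⟨M0, fun m n hmn => ?_⟩
  obtain ⟨l, c, d, ⟨h1, h2, h3, h4⟩, htot⟩ := hM m n hmn
  set N := m * n with hN
  -- monotonicity along one chain
  have hle : ∀ (j : Fin l) (k r : ℕ), d j ≤ r → r + k + d j ≤ N → c j r ≤ c j (r + k) := by
    intro j k
    induction k with
    | zero => intro r _ _; exact le_refl _
    | succ k ih =>
      intro r hr hk
      refine le_trans (ih r hr (by omega)) ?_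
      exact (h3 j (r + k) (by omega) (by omega)).1
  have hrk : ∀ (j : Fin l) (r : ℕ), d j ≤ r → r + d j ≤ N → ∑ i, c j r i = r := by
    intro j r hr hr'
    exact (h2 j r hr hr').2
  let S : Fin l → Set (Fin m → ℕ) := fun j => {a | ∃ r, d j ≤ r ∧ r + d j ≤ N ∧ c j r = a}
  refine ⟨Set.range S, ?_, ?_, ?_⟩
  · rintro C ⟨j, rfl⟩
    have hdj := h1 j
    refine ⟨⟨c j (d j), d j, le_refl _, by omega, rfl⟩, ?_, ?_, ?_, d j, ?_⟩
    · rintro a ⟨r, hr, hr', rfl⟩
      exact mem_le (h2 j r hr hr').1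
    · rintro a ⟨r, hr, hr', rfl⟩ b ⟨s, hs, hs', rfl⟩ _
      rcases le_total r s with hrs | hrs
      · left
        obtain ⟨k, rfl⟩ := Nat.exists_eq_add_of_le hrs
        exact hle j k r hr hs'
      · right
        obtain ⟨k, rfl⟩ := Nat.exists_eq_add_of_le hrs
        exact hle j k s hs hr'
    · rintro a ⟨r, hr, hr', rfl⟩ b ⟨s, hs, hs', rfl⟩ hab
      simp only at hab
      rw [hrk j r hr hr', hrk j s hs hs'] at hab
      rw [hab]
    · ext t
      constructor
      · rintro ⟨a, ⟨r, hr, hr', rfl⟩, rfl⟩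
        simp only
        rw [hrk j r hr hr']
        exact ⟨hr, by omega⟩
      · rintro ⟨ht1, ht2⟩
        exact ⟨c j t, ⟨t, ht1, by omega, rfl⟩, hrk j t ht1 (by omega)⟩
  · rintro C ⟨j, rfl⟩ D ⟨j', rfl⟩ hne
    change Disjoint (S j) (S j')
    rw [Set.disjoint_left]
    rintro a ⟨r, hr, hr', rfl⟩ ⟨s, hs, hs', hEq⟩
    have e : s = r := by
      have e1 := hrk j r hr hr'
      have e2 := hrk j' s hs hs'
      rw [hEq, e1] at e2
      exact e2.symm
    subst e
    have := h4 j' j s hs hs' hr hr' hEq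
    exact hne (by rw [this])
  · classical
    let U : Finset (Fin m → ℕ) :=
      Finset.univ.biUnion (fun j : Fin l => (Finset.Icc (d j) (N - d j)).image (c j))
    have hU : (⋃₀ Set.range S) = (U : Set (Fin m → ℕ)) := by
      ext a
      simp only [Set.sUnion_range, Set.mem_iUnion, U, Finset.coe_biUnion, Finset.coe_univ,
        Set.mem_univ, Set.iUnion_true, Finset.coe_image, Finset.coe_Icc, Set.mem_image,
        Set.mem_Icc, S, Set.mem_ofPred_eq]
      constructor
      · rintro ⟨j, r, hr, hr', rfl⟩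
        exact ⟨j, r, ⟨hr, by omega⟩, rfl⟩
      · rintro ⟨j, r, ⟨hr, hr'⟩, rfl⟩
        have := h1 j
        exact ⟨j, r, hr, by omega, rfl⟩
    have hcard : U.card = tot N d := by
      rw [Finset.card_biUnion]
      · unfold tot
        refine Finset.sum_congr rfl (fun j _ => ?_)
        rw [Finset.card_image_of_injOn, Nat.card_Icc]
        · have := h1 j
          omega
        · intro r hr s hs hrs
          have h5 := h1 j
          rw [Finset.coe_Icc] at hr hs
          have hrs' : c j r = c j s := hrs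
          have e1 := hrk j r hr.1 (by have := hr.2; omega)
          have e2 := hrk j s hs.1 (by have := hs.2; omega)
          rw [← hrs', e1] at e2
          exact e2
      · intro j _ j' _ hne
        show Disjoint ((Finset.Icc (d j) (N - d j)).image (c j))
          ((Finset.Icc (d j') (N - d j')).image (c j'))
        rw [Finset.disjoint_left]
        intro a ha ha'
        obtain ⟨r, hr, rfl⟩ := Finset.mem_image.mp ha
        obtain ⟨s, hs, hEq⟩ := Finset.mem_image.mp ha'
        rw [Finset.mem_Icc] at hr hs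
        have h5 := h1 j
        have h6 := h1 j'
        have e : s = r := by
          have e1 := hrk j r hr.1 (by have := hr.2; omega)
          have e2 := hrk j' s hs.1 (by have := hs.2; omega)
          rw [hEq, e1] at e2
          exact e2.symm
        subst e
        exact hne (h4 j' j s hs.1 (by have := hs.2; omega) hr.1 (by have := hr.2; omega) hEq).symm
    rw [hU, Set.ncard_coe_finset, hcard, ← card_Lset]
    exact htot

end Pool.Agent.Helper30.SC
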