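import Pool.Agent.Helper30.SC.Defs

set_option autoImplicit false

/-!
# SC-6 FlowA: basic facts on flows

`F P rk w r` is the total weight between the levels `r` and `r + 1`.
PROOFS. `F_eq_inn`: both sides are the double sum of `w x y` over `x` in `P_r`, `y` in `P_{r+1}`
(`w x y ≠ 0` implies `rk y = rk x + 1`). `F_succ`: `F (r+1) - ∑_{P_{r+1}} inn
= ∑_{P_{r+1}} (N - 2 (r+1))` and `F_eq_inn`. `F_zero`: `inn = 0` on the level `0`.
`F_mono` from `F_succ`. `F_le_mid`: `F` increases up to `N/2` and decreases from `N/2` on (for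
`2 r ≥ N` the increment `(N - 2 r) |P_r|` is `≤ 0`). `sum_F`: every `x ∈ P` has rank `≤ N`.
`second_moment`: `∑_r (N - 2 r)^2 |P_r| = ∑_r (N - 2 r) (F r - F (r-1)) = ∑_r F r ((N - 2 r) -
(N - 2 r - 2)) = 2 ∑ F r` by Abel summation (`F N = 0` because `out = 0` on the level `N`), or
directly: `∑_x (N - 2 rk x)^2 = ∑_x (N - 2 rk x) (out x - inn x) =
∑_{x,y} w x y ((N - 2 rk x) - (N - 2 rk y)) = 2 ∑_{x,y} w x y`.
-/

namespace Pool.Agent.Helper30.SC

open Finset

variable {α : Type} {P : Finset α} {rk : α → ℕ} {cov : α → α → Prop} {N : ℕ} {w : α → α → ℝ}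

theorem F_nonneg (h : IsFlow P rk cov N w) (r : ℕ) : 0 ≤ F P rk w r := by
  unfold F out
  exact Finset.sum_nonneg fun x _ => Finset.sum_nonneg fun y _ => h.1 x y

theorem F_eq_inn (h : IsFlow P rk cov N w) (r : ℕ) :
    F P rk w r = ∑ y ∈ P.filter (fun y => rk y = r + 1), inn P w y := by
  obtain ⟨h0, h1, h2, h3, h4⟩ := h
  have e1 : F P rk w r = ∑ x ∈ P.filter (fun x => rk x = r),
      ∑ y ∈ P.filter (fun y => rk y = r + 1), w x y := by
    unfold F out
    refine Finset.sum_congr rfl fun x hx => ?_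
    rw [Finset.mem_filter] at hx
    refine (Finset.sum_filter_of_ne fun y hy hne => ?_).symm
    have := h2 x hx.1 y hy (h1 x hx.1 y hy hne)
    omega
  have e2 : ∑ y ∈ P.filter (fun y => rk y = r + 1), inn P w y
      = ∑ y ∈ P.filter (fun y => rk y = r + 1),
      ∑ x ∈ P.filter (fun x => rk x = r), w x y := by
    unfold inn
    refine Finset.sum_congr rfl fun y hy => ?_
    rw [Finset.mem_filter] at hy
    refine (Finset.sum_filter_of_ne fun x hx hne => ?_).symm
    have := h2 x hx y hy.1 (h1 x hx y hy.1 hne)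
    omega
  rw [e1, e2, Finset.sum_comm]

theorem F_zero (h : IsFlow P rk cov N w) :
    F P rk w 0 = (N : ℝ) * ((P.filter (fun x => rk x = 0)).card : ℝ) := by
  obtain ⟨h0, h1, h2, h3, h4⟩ := h
  unfold F
  have e : ∀ x ∈ P.filter (fun x => rk x = 0), out P w x = (N : ℝ) := by
    intro x hx
    rw [Finset.mem_filter] at hx
    have e1 : inn P w x = 0 := by
      unfold inn
      refine Finset.sum_eq_zero fun z hz => ?_
      by_contra hne
      have := h2 z hz x hx.1 (h1 z hz x hx.1 hne)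
      omega
    have e2 := h4 x hx.1
    rw [e1, hx.2] at e2
    simpa using e2
  rw [Finset.sum_congr rfl e, Finset.sum_const, nsmul_eq_mul, mul_comm]

theorem F_succ (h : IsFlow P rk cov N w) (r : ℕ) :
    F P rk w (r + 1) = F P rk w r +
      ((N : ℝ) - 2 * ((r : ℝ) + 1)) * ((P.filter (fun x => rk x = r + 1)).card : ℝ) := by
  rw [F_eq_inn h r]
  obtain ⟨h0, h1, h2, h3, h4⟩ := h
  unfold F
  have e : ∀ x ∈ P.filter (fun x => rk x = r + 1),
      out P w x = inn P w x + ((N : ℝ) - 2 * ((r : ℝ) + 1)) := by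
    intro x hx
    rw [Finset.mem_filter] at hx
    have e2 := h4 x hx.1
    rw [hx.2] at e2
    push_cast at e2
    linarith
  rw [Finset.sum_congr rfl e, Finset.sum_add_distrib, Finset.sum_const, nsmul_eq_mul,
    mul_comm ((N : ℝ) - 2 * ((r : ℝ) + 1))]

theorem F_mono (h : IsFlow P rk cov N w) {r r' : ℕ} (h1 : r ≤ r') (h2 : 2 * r' ≤ N) :
    F P rk w r ≤ F P rk w r' := by
  induction r', h1 using Nat.le_induction with
  | base => exact le_rfl
  | succ s hs ih =>
    have e := F_succ h s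
    have e1 : (0 : ℝ) ≤ (N : ℝ) - 2 * ((s : ℝ) + 1) := by
      have : (2 * (s + 1) : ℕ) ≤ N := h2
      have h' : ((2 * (s + 1) : ℕ) : ℝ) ≤ (N : ℝ) := by exact_mod_cast this
      push_cast at h'
      linarith
    have e2 : (0 : ℝ) ≤ ((P.filter (fun x => rk x = s + 1)).card : ℝ) := Nat.cast_nonneg _
    have e3 := mul_nonneg e1 e2
    have e4 := ih (by omega)
    linarith

theorem F_le_mid (h : IsFlow P rk cov N w) (r : ℕ) : F P rk w r ≤ F P rk w (N / 2) := by
  rcases le_total r (N / 2) with hr | hr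
  · exact F_mono h hr (by omega)
  · induction r, hr using Nat.le_induction with
    | base => exact le_rfl
    | succ s hs ih =>
      have e := F_succ h s
      have e1 : (N : ℝ) - 2 * ((s : ℝ) + 1) ≤ 0 := by
        have : N ≤ (2 * (s + 1) : ℕ) := by omega
        have h' : (N : ℝ) ≤ ((2 * (s + 1) : ℕ) : ℝ) := by exact_mod_cast this
        push_cast at h'
        linarith
      have e2 : (0 : ℝ) ≤ ((P.filter (fun x => rk x = s + 1)).card : ℝ) := Nat.cast_nonneg _
      have e3 := mul_nonpos_of_nonpos_of_nonneg e1 e2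
      linarith

theorem sum_F (h : IsFlow P rk cov N w) :
    ∑ r ∈ range (N + 1), F P rk w r = ∑ x ∈ P, out P w x := by
  unfold F
  refine Finset.sum_fiberwise_of_maps_to (fun x hx => ?_) _
  have := h.2.2.2.1 x hx
  exact Finset.mem_range.2 (by omega)

theorem second_moment (h : IsFlow P rk cov N w) :
    ∑ x ∈ P, ((N : ℝ) - 2 * (rk x : ℝ)) ^ 2 = 2 * ∑ x ∈ P, out P w x := by
  obtain ⟨h0, h1, h2, h3, h4⟩ := h
  have e1 : ∀ x ∈ P, ((N : ℝ) - 2 * (rk x : ℝ)) ^ 2 =
      ∑ y ∈ P, ((N : ℝ) - 2 * (rk x : ℝ)) * w x y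
        - ∑ y ∈ P, ((N : ℝ) - 2 * (rk x : ℝ)) * w y x := by
    intro x hx
    have e2 := h4 x hx
    rw [← Finset.mul_sum, ← Finset.mul_sum, ← mul_sub]
    have e3 : ∑ y ∈ P, w x y - ∑ y ∈ P, w y x = (N : ℝ) - 2 * (rk x : ℝ) := e2
    rw [e3, pow_two]
  rw [Finset.sum_congr rfl e1, Finset.sum_sub_distrib]
  rw [Finset.sum_comm (s := P) (t := P) (f := fun x y => ((N : ℝ) - 2 * (rk x : ℝ)) * w y x)]
  rw [← Finset.sum_sub_distrib, Finset.mul_sum]
  refine Finset.sum_congr rfl fun x hx => ?_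
  unfold out
  rw [← Finset.sum_sub_distrib, Finset.mul_sum]
  refine Finset.sum_congr rfl fun y hy => ?_
  by_cases hne : w x y = 0
  · rw [hne]; ring
  · have e := h2 x hx y hy (h1 x hx y hy hne)
    rw [e]
    push_cast
    ring

/-- `F` as a truncated first moment -/
theorem F_mid_le (h : IsFlow P rk cov N w) :
    F P rk w (N / 2) ≤ ∑ x ∈ P, |(N : ℝ) - 2 * (rk x : ℝ)| := by
  have key : ∀ r : ℕ, F P rk w r
      = ∑ x ∈ P.filter (fun x => rk x ≤ r), ((N : ℝ) - 2 * (rk x : ℝ)) := by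
    intro r
    induction r with
    | zero =>
      rw [F_zero h]
      have e1 : P.filter (fun x => rk x ≤ 0) = P.filter (fun x => rk x = 0) := by
        refine Finset.filter_congr fun x _ => ?_
        omega
      rw [e1]
      have e : ∀ x ∈ P.filter (fun x => rk x = 0), ((N : ℝ) - 2 * (rk x : ℝ)) = (N : ℝ) := by
        intro x hx
        rw [Finset.mem_filter] at hx
        rw [hx.2]
        simp
      rw [Finset.sum_congr rfl e, Finset.sum_const, nsmul_eq_mul, mul_comm]
    | succ s ih =>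
      rw [F_succ h s, ih]
      classical
      have e1 : P.filter (fun x => rk x ≤ s + 1)
          = (P.filter (fun x => rk x ≤ s)) ∪ (P.filter (fun x => rk x = s + 1)) := by
        ext x
        simp only [Finset.mem_filter, Finset.mem_union]
        constructor
        · rintro ⟨hx, h1⟩
          rcases Nat.lt_or_ge (rk x) (s + 1) with h2 | h2
          · exact Or.inl ⟨hx, by omega⟩
          · exact Or.inr ⟨hx, by omega⟩
        · rintro (⟨hx, h1⟩ | ⟨hx, h1⟩)
          · exact ⟨hx, by omega⟩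
          · exact ⟨hx, by omega⟩
      have e2 : Disjoint (P.filter (fun x => rk x ≤ s)) (P.filter (fun x => rk x = s + 1)) := by
        rw [Finset.disjoint_left]
        intro x hx hx'
        rw [Finset.mem_filter] at hx hx'
        omega
      rw [e1, Finset.sum_union e2]
      have e : ∀ x ∈ P.filter (fun x => rk x = s + 1), ((N : ℝ) - 2 * (rk x : ℝ))
          = (N : ℝ) - 2 * ((s : ℝ) + 1) := by
        intro x hx
        rw [Finset.mem_filter] at hx
        rw [hx.2]
        push_cast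
        ring
      rw [Finset.sum_congr rfl e, Finset.sum_const, nsmul_eq_mul]
      ring
  rw [key]
  calc ∑ x ∈ P.filter (fun x => rk x ≤ N / 2), ((N : ℝ) - 2 * (rk x : ℝ))
      ≤ ∑ x ∈ P.filter (fun x => rk x ≤ N / 2), |(N : ℝ) - 2 * (rk x : ℝ)| :=
        Finset.sum_le_sum fun x _ => le_abs_self _
    _ ≤ ∑ x ∈ P, |(N : ℝ) - 2 * (rk x : ℝ)| :=
        Finset.sum_le_sum_of_subset_of_nonneg (Finset.filter_subset _ _)
          fun x _ _ => abs_nonneg _

/-- the part of the flow between two sets of consecutive levels -/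
theorem out_le_inn [DecidableEq α] (h : IsFlow P rk cov N w) {A B : Finset α} (hA : A ⊆ P)
    (hB : B ⊆ P) (hAB : ∀ x ∈ A, ∀ y ∈ P, w x y ≠ 0 → y ∈ B) :
    ∑ x ∈ A, out P w x ≤ ∑ y ∈ B, inn P w y := by
  have e1 : ∀ x ∈ A, out P w x = ∑ y ∈ B, w x y := by
    intro x hx
    unfold out
    refine (Finset.sum_subset hB fun y hy hyB => ?_).symm
    by_contra hne
    exact hyB (hAB x hx y hy hne)
  rw [Finset.sum_congr rfl e1, Finset.sum_comm]
  refine Finset.sum_le_sum fun y _ => ?_
  unfold inn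
  exact Finset.sum_le_sum_of_subset_of_nonneg hA fun x _ _ => h.1 x y

end Pool.Agent.Helper30.SC
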