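import Pool.Agent.Helper30.SC.FlowA

set_option autoImplicit false

/-!
# SC-7 FlowB: the cut inequality of a flow in the lower half

Notation `O S = ∑_{S} out`, `I S = ∑_{S} inn`, `B` the exceptional set, `X_r`, `W_r`, `B_r` the
parts of rank `r`.
PROOF. Claim by induction on `r` from `s0` to `s1`:
`F s0 - κ (F r - F s0) - ∑_{x ∈ B, s0 ≤ rk x ≤ r} out x ≤ a |X ∩ [s0, r]| + O(W_r) F s0 / F r`.
`r = s0`: `F s0 = O(P_{s0}) ≤ O(W_{s0}) + O(X_{s0}) + O(B_{s0})`, `out ≤ a` on `X`.
Step `r → r + 1 ≤ s1`: by closedness and `out_le_inn`,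
`O(W_r) ≤ I(W_{r+1}) + I(X_{r+1}) + I(B_{r+1})`, in the lower half `inn x = out x - (N - 2 rk x)
≤ out x`, so `I(X_{r+1}) ≤ a |X_{r+1}|`, `I(B_{r+1}) ≤ O(B_{r+1})` and
`I(W_{r+1}) = O(W_{r+1}) - (N - 2 r - 2) |W_{r+1}|`. Hence, with `g = F s0 / F r ≤ 1`,
`O(W_r) g ≤ g O(W_{r+1}) - g (N - 2 r - 2) |W_{r+1}| + a |X_{r+1}| + O(B_{r+1})`, and
`g O(W_{r+1}) = O(W_{r+1}) F s0 / F (r+1) + g O(W_{r+1}) (F (r+1) - F r) / F (r+1)` where
`F (r+1) - F r = (N - 2 r - 2) |P_{r+1}|` (`F_succ`) and `O(W_{r+1}) |P_{r+1}| / F (r+1) ≤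
a |W_{r+1}| |P_{r+1}| / F (r+1) ≤ (1 + κ) |W_{r+1}|` (hypothesis `hκ`). So the error of the step is
`≤ g κ (N - 2 r - 2) |W_{r+1}| ≤ κ (N - 2 r - 2) |P_{r+1}| = κ (F (r+1) - F r)`.
At the end `O(W_{s1}) ≤ a |W_{s1}|`.
-/

namespace Pool.Agent.Helper30.SC

open Finset

private theorem out_nonneg' {α : Type} {P : Finset α} {rk : α → ℕ} {cov : α → α → Prop}
    {N : ℕ} {w : α → α → ℝ} (h : IsFlow P rk cov N w) (x : α) : 0 ≤ out P w x :=
  sum_nonneg fun y _ => h.1 x y

private theorem inn_nonneg' {α : Type} {P : Finset α} {rk : α → ℕ} {cov : α → α → Prop}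
    {N : ℕ} {w : α → α → ℝ} (h : IsFlow P rk cov N w) (y : α) : 0 ≤ inn P w y :=
  sum_nonneg fun x _ => h.1 x y

private theorem filter_succ' {α : Type} [DecidableEq α] (S : Finset α) (rk : α → ℕ) (s0 r : ℕ)
    (h : s0 ≤ r) : S.filter (fun x => s0 ≤ rk x ∧ rk x ≤ r + 1) =
      S.filter (fun x => s0 ≤ rk x ∧ rk x ≤ r) ∪ S.filter (fun x => rk x = r + 1) := by
  ext x
  simp only [mem_filter, mem_union]
  constructor
  · rintro ⟨hx, h1, h2⟩
    rcases Nat.lt_or_ge (rk x) (r + 1) with h3 | h3
    · exact Or.inl ⟨hx, h1, by omega⟩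
    · exact Or.inr ⟨hx, by omega⟩
  · rintro (⟨hx, h1, h2⟩ | ⟨hx, h1⟩)
    · exact ⟨hx, h1, by omega⟩
    · exact ⟨hx, by omega, by omega⟩

private theorem filter_disj' {α : Type} [DecidableEq α] (S : Finset α) (rk : α → ℕ) (s0 r : ℕ) :
    Disjoint (S.filter (fun x => s0 ≤ rk x ∧ rk x ≤ r)) (S.filter (fun x => rk x = r + 1)) := by
  rw [disjoint_left]
  intro x hx hx'
  rw [mem_filter] at hx hx'
  omega

private theorem sum_union_le' {α : Type} [DecidableEq α] (f : α → ℝ) (hf : ∀ x, 0 ≤ f x)
    (S T : Finset α) : ∑ x ∈ S ∪ T, f x ≤ ∑ x ∈ S, f x + ∑ x ∈ T, f x := by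
  have := sum_union_inter (s₁ := S) (s₂ := T) (f := f)
  have h2 : 0 ≤ ∑ x ∈ S ∩ T, f x := sum_nonneg fun x _ => hf x
  linarith

/-- the arithmetic of one step -/
private theorem step_arith' {F0 F1 F2 κ a nn cw cp cx oW oW' oB g : ℝ} (hF0 : 0 < F0)
    (hF1 : 0 < F1) (h01 : F0 ≤ F1) (hF2 : F2 = F1 + nn * cp) (hnn : 0 ≤ nn) (hcp : 0 ≤ cp)
    (hκ0 : 0 ≤ κ) (ha : 0 ≤ a) (hcw : 0 ≤ cw) (hcwp : cw ≤ cp) (hcx : 0 ≤ cx) (hoB : 0 ≤ oB)
    (hoW' : oW' ≤ a * cw) (hκ : a * cp ≤ (1 + κ) * F2) (hg : g = F0 / F1)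
    (hflow : oW ≤ (oW' - nn * cw) + a * cx + oB) :
    oW * g ≤ κ * (F2 - F1) + oB + a * cx + oW' * (F0 / F2) := by
  have hF2pos : 0 < F2 := by
    rw [hF2]
    have := mul_nonneg hnn hcp
    linarith
  have hg0 : 0 ≤ g := by
    rw [hg]
    positivity
  have hg1 : g ≤ 1 := by
    rw [hg]
    exact (div_le_one hF1).2 h01
  have h1 : oW * g ≤ ((oW' - nn * cw) + a * cx + oB) * g := mul_le_mul_of_nonneg_right hflow hg0
  have h2 : a * cx * g ≤ a * cx := by
    have := mul_nonneg ha hcx
    nlinarith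
  have h3 : oB * g ≤ oB := by nlinarith
  have h4 : oW' * g = oW' * (F0 / F2) + g * (oW' * (nn * cp) / F2) := by
    rw [hg]
    have e1 : F2 - F1 = nn * cp := by rw [hF2]; ring
    rw [← e1]
    field_simp
    ring
  have h5 : oW' * (nn * cp) / F2 ≤ (1 + κ) * (nn * cw) := by
    rw [div_le_iff₀ hF2pos]
    have hncp : 0 ≤ nn * cp := mul_nonneg hnn hcp
    have hncw : 0 ≤ nn * cw := mul_nonneg hnn hcw
    calc oW' * (nn * cp) ≤ (a * cw) * (nn * cp) := mul_le_mul_of_nonneg_right hoW' hncp
      _ = (nn * cw) * (a * cp) := by ring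
      _ ≤ (nn * cw) * ((1 + κ) * F2) := mul_le_mul_of_nonneg_left hκ hncw
      _ = (1 + κ) * (nn * cw) * F2 := by ring
  have h6 : g * (oW' * (nn * cp) / F2) ≤ g * ((1 + κ) * (nn * cw)) :=
    mul_le_mul_of_nonneg_left h5 hg0
  have h7 : g * (κ * (nn * cw)) ≤ κ * (nn * cp) := by
    have e1 : κ * (nn * cw) ≤ κ * (nn * cp) :=
      mul_le_mul_of_nonneg_left (mul_le_mul_of_nonneg_left hcwp hnn) hκ0
    have e2 : 0 ≤ κ * (nn * cw) := mul_nonneg hκ0 (mul_nonneg hnn hcw)
    nlinarith
  have h8 : κ * (F2 - F1) = κ * (nn * cp) := by rw [hF2]; ring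
  have h9 : ((oW' - nn * cw) + a * cx + oB) * g =
      oW' * g - g * (nn * cw) + a * cx * g + oB * g := by ring
  have h10 : g * ((1 + κ) * (nn * cw)) = g * (nn * cw) + g * (κ * (nn * cw)) := by ring
  rw [h8]
  linarith

theorem cut_low {α : Type} [DecidableEq α] {P : Finset α} {rk : α → ℕ} {cov : α → α → Prop}
    {N : ℕ} {w : α → α → ℝ} (h : IsFlow P rk cov N w) {B : Finset α} {a κ e : ℝ} (ha : 0 ≤ a)
    (hκ0 : 0 ≤ κ) {s0 s1 : ℕ} (hs : s0 < s1) (hs1 : 2 * s1 ≤ N) (hF : 0 < F P rk w s0)
    (hout : ∀ x ∈ P \ B, 2 * rk x ≤ N → out P w x ≤ a)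
    (he : ∑ x ∈ P ∩ B, out P w x ≤ e)
    (hκ : ∀ r, s0 < r → r ≤ s1 →
      a * ((P.filter (fun x => rk x = r)).card : ℝ) ≤ (1 + κ) * F P rk w r)
    (W X : Finset α) (hW : W ⊆ P \ B) (hX : X ⊆ P \ B)
    (h0 : ∀ x ∈ P \ B, rk x = s0 → x ∈ W ∪ X)
    (hcl : ∀ x ∈ W, s0 ≤ rk x → rk x < s1 → ∀ y ∈ P \ B, cov x y → y ∈ W ∪ X) :
    F P rk w s0 - κ * (F P rk w s1 - F P rk w s0) - e ≤
      a * (X.card : ℝ) +
        a * ((W.filter (fun x => rk x = s1)).card : ℝ) * (F P rk w s0 / F P rk w s1) := by
  have hWP : W ⊆ P := fun x hx => (mem_sdiff.1 (hW hx)).1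
  have hXP : X ⊆ P := fun x hx => (mem_sdiff.1 (hX hx)).1
  have hFpos : ∀ r, s0 ≤ r → r ≤ s1 → F P rk w s0 ≤ F P rk w r := fun r h1 h2 =>
    F_mono h h1 (by omega)
  have key : ∀ r, s0 ≤ r → r ≤ s1 →
      F P rk w s0 - κ * (F P rk w r - F P rk w s0) -
        ∑ x ∈ (P ∩ B).filter (fun x => s0 ≤ rk x ∧ rk x ≤ r), out P w x ≤
      a * ((X.filter (fun x => s0 ≤ rk x ∧ rk x ≤ r)).card : ℝ) +
        (∑ x ∈ W.filter (fun x => rk x = r), out P w x) * (F P rk w s0 / F P rk w r) := by
    intro r hr
    induction r, hr using Nat.le_induction with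
    | base =>
      intro _
      have hf : ∀ S : Finset α, S.filter (fun x => s0 ≤ rk x ∧ rk x ≤ s0) =
          S.filter (fun x => rk x = s0) := by
        intro S
        apply filter_congr
        intro x _
        constructor
        · rintro ⟨h1, h2⟩
          omega
        · intro h1
          omega
      rw [hf, hf, div_self hF.ne']
      have h1 : F P rk w s0 ≤ ∑ x ∈ (W.filter (fun x => rk x = s0) ∪
          X.filter (fun x => rk x = s0)) ∪ (P ∩ B).filter (fun x => rk x = s0), out P w x := by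
        unfold F
        apply sum_le_sum_of_subset_of_nonneg
        · intro x hx
          rw [mem_filter] at hx
          simp only [mem_union, mem_filter, mem_inter]
          by_cases hxB : x ∈ B
          · exact Or.inr ⟨⟨hx.1, hxB⟩, hx.2⟩
          · have := h0 x (mem_sdiff.2 ⟨hx.1, hxB⟩) hx.2
            rw [mem_union] at this
            rcases this with h3 | h3
            · exact Or.inl (Or.inl ⟨h3, hx.2⟩)
            · exact Or.inl (Or.inr ⟨h3, hx.2⟩)
        · intro x _ _
          exact out_nonneg' h x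
      have h2 := sum_union_le' (out P w) (out_nonneg' h) (W.filter (fun x => rk x = s0) ∪
          X.filter (fun x => rk x = s0)) ((P ∩ B).filter (fun x => rk x = s0))
      have h3 := sum_union_le' (out P w) (out_nonneg' h) (W.filter (fun x => rk x = s0))
          (X.filter (fun x => rk x = s0))
      have h4 : ∑ x ∈ X.filter (fun x => rk x = s0), out P w x ≤
          a * ((X.filter (fun x => rk x = s0)).card : ℝ) := by
        have : ∑ x ∈ X.filter (fun x => rk x = s0), out P w x ≤
            ∑ _x ∈ X.filter (fun x => rk x = s0), a := by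
          apply sum_le_sum
          intro x hx
          rw [mem_filter] at hx
          exact hout x (hX hx.1) (by omega)
        rw [sum_const, nsmul_eq_mul, mul_comm] at this
        exact this
      have h5 : κ * (F P rk w s0 - F P rk w s0) = 0 := by ring
      rw [h5, mul_one]
      linarith
    | succ r hr ih =>
      intro hr1
      have ih' := ih (by omega)
      rw [filter_succ' (P ∩ B) rk s0 r hr, filter_succ' X rk s0 r hr,
        sum_union (filter_disj' (P ∩ B) rk s0 r), card_union_of_disjoint (filter_disj' X rk s0 r)]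
      have hflow : ∑ x ∈ W.filter (fun x => rk x = r), out P w x ≤
          ((∑ x ∈ W.filter (fun x => rk x = r + 1), out P w x) -
            ((N : ℝ) - 2 * ((r : ℝ) + 1)) * ((W.filter (fun x => rk x = r + 1)).card : ℝ)) +
          a * ((X.filter (fun x => rk x = r + 1)).card : ℝ) +
          ∑ x ∈ (P ∩ B).filter (fun x => rk x = r + 1), out P w x := by
        have h1 : ∑ x ∈ W.filter (fun x => rk x = r), out P w x ≤
            ∑ y ∈ (W.filter (fun x => rk x = r + 1) ∪ X.filter (fun x => rk x = r + 1)) ∪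
              (P ∩ B).filter (fun x => rk x = r + 1), inn P w y := by
          apply out_le_inn h
          · exact (filter_subset _ _).trans hWP
          · intro x hx
            simp only [mem_union, mem_filter, mem_inter] at hx
            rcases hx with (⟨h3, _⟩ | ⟨h3, _⟩) | ⟨⟨h3, _⟩, _⟩
            · exact hWP h3
            · exact hXP h3
            · exact h3
          · intro x hx y hy hxy
            rw [mem_filter] at hx
            have hc := h.2.1 x (hWP hx.1) y hy hxy
            have hrk := h.2.2.1 x (hWP hx.1) y hy hc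
            simp only [mem_union, mem_filter, mem_inter]
            by_cases hyB : y ∈ B
            · exact Or.inr ⟨⟨hy, hyB⟩, by omega⟩
            · have := hcl x hx.1 (by omega) (by omega) y (mem_sdiff.2 ⟨hy, hyB⟩) hc
              rw [mem_union] at this
              rcases this with h3 | h3
              · exact Or.inl (Or.inl ⟨h3, by omega⟩)
              · exact Or.inl (Or.inr ⟨h3, by omega⟩)
        have h2 := sum_union_le' (inn P w) (inn_nonneg' h)
          (W.filter (fun x => rk x = r + 1) ∪ X.filter (fun x => rk x = r + 1))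
          ((P ∩ B).filter (fun x => rk x = r + 1))
        have h3 := sum_union_le' (inn P w) (inn_nonneg' h) (W.filter (fun x => rk x = r + 1))
          (X.filter (fun x => rk x = r + 1))
        have hinn : ∀ x ∈ P, rk x = r + 1 →
            inn P w x = out P w x - ((N : ℝ) - 2 * ((r : ℝ) + 1)) := by
          intro x hx hxr
          have := h.2.2.2.2 x hx
          rw [hxr] at this
          push_cast at this
          linarith
        have hnn : (0 : ℝ) ≤ (N : ℝ) - 2 * ((r : ℝ) + 1) := by
          have : 2 * (r + 1) ≤ N := by omega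
          have h' : ((2 * (r + 1) : ℕ) : ℝ) ≤ (N : ℝ) := by exact_mod_cast this
          push_cast at h'
          linarith
        have h4 : ∑ y ∈ W.filter (fun x => rk x = r + 1), inn P w y =
            (∑ x ∈ W.filter (fun x => rk x = r + 1), out P w x) -
            ((N : ℝ) - 2 * ((r : ℝ) + 1)) * ((W.filter (fun x => rk x = r + 1)).card : ℝ) := by
          have : ∑ y ∈ W.filter (fun x => rk x = r + 1), inn P w y =
              ∑ y ∈ W.filter (fun x => rk x = r + 1),
                (out P w y - ((N : ℝ) - 2 * ((r : ℝ) + 1))) := by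
            apply sum_congr rfl
            intro x hx
            rw [mem_filter] at hx
            exact hinn x (hWP hx.1) hx.2
          rw [this, sum_sub_distrib, sum_const, nsmul_eq_mul, mul_comm]
        have h5 : ∑ y ∈ X.filter (fun x => rk x = r + 1), inn P w y ≤
            a * ((X.filter (fun x => rk x = r + 1)).card : ℝ) := by
          have : ∑ y ∈ X.filter (fun x => rk x = r + 1), inn P w y ≤
              ∑ _y ∈ X.filter (fun x => rk x = r + 1), a := by
            apply sum_le_sum
            intro x hx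
            rw [mem_filter] at hx
            have e1 := hinn x (hXP hx.1) hx.2
            have e2 := hout x (hX hx.1) (by omega)
            linarith
          rw [sum_const, nsmul_eq_mul, mul_comm] at this
          exact this
        have h6 : ∑ y ∈ (P ∩ B).filter (fun x => rk x = r + 1), inn P w y ≤
            ∑ y ∈ (P ∩ B).filter (fun x => rk x = r + 1), out P w y := by
          apply sum_le_sum
          intro x hx
          rw [mem_filter, mem_inter] at hx
          have e1 := hinn x hx.1.1 hx.2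
          linarith
        linarith
      have hnn : (0 : ℝ) ≤ (N : ℝ) - 2 * ((r : ℝ) + 1) := by
        have : 2 * (r + 1) ≤ N := by omega
        have h' : ((2 * (r + 1) : ℕ) : ℝ) ≤ (N : ℝ) := by exact_mod_cast this
        push_cast at h'
        linarith
      have hoW' : ∑ x ∈ W.filter (fun x => rk x = r + 1), out P w x ≤
          a * ((W.filter (fun x => rk x = r + 1)).card : ℝ) := by
        have : ∑ x ∈ W.filter (fun x => rk x = r + 1), out P w x ≤
            ∑ _x ∈ W.filter (fun x => rk x = r + 1), a := by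
          apply sum_le_sum
          intro x hx
          rw [mem_filter] at hx
          exact hout x (hW hx.1) (by omega)
        rw [sum_const, nsmul_eq_mul, mul_comm] at this
        exact this
      have hcwp : ((W.filter (fun x => rk x = r + 1)).card : ℝ) ≤
          ((P.filter (fun x => rk x = r + 1)).card : ℝ) := by
        exact_mod_cast card_le_card (filter_subset_filter _ hWP)
      have hoB : 0 ≤ ∑ x ∈ (P ∩ B).filter (fun x => rk x = r + 1), out P w x :=
        sum_nonneg fun x _ => out_nonneg' h x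
      have hstep := step_arith' (F0 := F P rk w s0) (F1 := F P rk w r) (F2 := F P rk w (r + 1))
        (κ := κ) (a := a) (nn := (N : ℝ) - 2 * ((r : ℝ) + 1))
        (cw := ((W.filter (fun x => rk x = r + 1)).card : ℝ))
        (cp := ((P.filter (fun x => rk x = r + 1)).card : ℝ))
        (cx := ((X.filter (fun x => rk x = r + 1)).card : ℝ))
        (oW := ∑ x ∈ W.filter (fun x => rk x = r), out P w x)
        (oW' := ∑ x ∈ W.filter (fun x => rk x = r + 1), out P w x)
        (oB := ∑ x ∈ (P ∩ B).filter (fun x => rk x = r + 1), out P w x)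
        (g := F P rk w s0 / F P rk w r)
        hF (lt_of_lt_of_le hF (hFpos r hr (by omega))) (hFpos r hr (by omega)) (F_succ h r) hnn
        (Nat.cast_nonneg _) hκ0 ha (Nat.cast_nonneg _) hcwp (Nat.cast_nonneg _) hoB hoW'
        (hκ (r + 1) (by omega) hr1) rfl hflow
      push_cast
      have e1 : κ * (F P rk w (r + 1) - F P rk w s0) =
          κ * (F P rk w (r + 1) - F P rk w r) + κ * (F P rk w r - F P rk w s0) := by ring
      rw [e1, mul_add]
      linarith
  have hkey := key s1 hs.le le_rfl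
  have h1 : ∑ x ∈ (P ∩ B).filter (fun x => s0 ≤ rk x ∧ rk x ≤ s1), out P w x ≤ e :=
    (sum_le_sum_of_subset_of_nonneg (filter_subset _ _) fun x _ _ => out_nonneg' h x).trans he
  have h2 : a * ((X.filter (fun x => s0 ≤ rk x ∧ rk x ≤ s1)).card : ℝ) ≤ a * (X.card : ℝ) := by
    apply mul_le_mul_of_nonneg_left _ ha
    exact_mod_cast card_le_card (filter_subset _ _)
  have h3 : ∑ x ∈ W.filter (fun x => rk x = s1), out P w x ≤
      a * ((W.filter (fun x => rk x = s1)).card : ℝ) := by
    have : ∑ x ∈ W.filter (fun x => rk x = s1), out P w x ≤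
        ∑ _x ∈ W.filter (fun x => rk x = s1), a := by
      apply sum_le_sum
      intro x hx
      rw [mem_filter] at hx
      exact hout x (hW hx.1) (by omega)
    rw [sum_const, nsmul_eq_mul, mul_comm] at this
    exact this
  have h4 : 0 ≤ F P rk w s0 / F P rk w s1 :=
    div_nonneg hF.le (hF.le.trans (hFpos s1 hs.le le_rfl))
  have h5 := mul_le_mul_of_nonneg_right h3 h4
  linarith

end Pool.Agent.Helper30.SC
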