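import Pool.Agent.Helper30.SC.FlowB

set_option autoImplicit false

/-!
# SC-8 FlowC: the cut inequalities `CutLow`, `CutUp`, `CutMid` of a self-dual flow

`q r = F r / a`, `P' = P \ B`, `B` closed under `star`.
PROOF. `cutLow_flow`: `cut_low` divided by `F s0`:
`1 - (κ (F s1 - F s0) + e) / F s0 ≤ |X| / q s0 + |W_{s1}| / q s1`, and
`(κ (F s1 - F s0) + e) / F s0 ≤ δ` by `hδ` (`F s1 ≤ F (N/2)`).
`cutUp_flow`: apply `cutLow_flow` to `W.image star`, `X.image star` (`star` is an involution of `P`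
preserving `B`, `rk (star x) = N - rk x`, `rk ≤ N`, `cov x y → cov (star y) (star x)`).
`cutMid_flow` (`r0 = N / 2`). `N` even: `r0 = N - r0`, so `W` has no element of rank `r0` and
`P'_{r0} ⊆ X`; `F r0 = O(P_{r0}) ≤ a |X| + e`. `N` odd, `r0 = (N-1)/2`, `N - r0 = r0 + 1`:
`F r0 ≤ O(X_{r0}) + O(B_{r0}) + O(W_{r0})` and by `out_le_inn` (`W` has no element of rank
`r0 + 1`) `O(W_{r0}) ≤ I(X_{r0+1}) + I(B_{r0+1})`; `inn x = out (star x)` (duality; `star x` has
rank `r0`), so `I(X_{r0+1}) ≤ a |X_{r0+1}|` and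
`O(B_{r0}) + I(B_{r0+1}) ≤ 2 ∑_{P ∩ B} out ≤ 2 e`. In both cases `F r0 ≤ a |X| + 2 e`.
`card_dual`: `star` is a bijection between the two levels.
-/

namespace Pool.Agent.Helper30.SC

open Finset

variable {α : Type} [DecidableEq α] {P : Finset α} {rk : α → ℕ} {cov : α → α → Prop} {N : ℕ}
  {w : α → α → ℝ} {star : α → α}

theorem inn_eq_out_star (h : IsFlow P rk cov N w) (hs : IsDual P rk cov N w star) {x : α}
    (hx : x ∈ P) : inn P w x = out P w (star x) := by
  obtain ⟨hs1, hs2, -, -, hs5⟩ := hs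
  unfold inn out
  refine Finset.sum_nbij' (i := star) (j := star) (fun y hy => hs1 y hy) (fun y hy => hs1 y hy)
    (fun y hy => hs2 y hy) (fun y hy => hs2 y hy) ?_
  intro y hy
  exact (hs5 y hy x hx).symm

theorem card_dual (h : IsFlow P rk cov N w) (hs : IsDual P rk cov N w star) {B : Finset α}
    (hB : ∀ x ∈ P, x ∈ B → star x ∈ B) {r : ℕ} (hr : r ≤ N) :
    ((P \ B).filter (fun x => rk x = N - r)).card = ((P \ B).filter (fun x => rk x = r)).card := by
  obtain ⟨hs1, hs2, hs3, -, -⟩ := hs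
  have hrk : ∀ x ∈ P, rk x ≤ N := h.2.2.2.1
  have hnb : ∀ x ∈ P, x ∉ B → star x ∉ B := by
    intro x hx hxB hsB
    exact hxB (by simpa [hs2 x hx] using hB (star x) (hs1 x hx) hsB)
  refine Finset.card_nbij' star star ?_ ?_ ?_ ?_
  · intro x hx
    simp only [coe_filter, mem_sdiff, Set.mem_setOf_eq] at hx ⊢
    obtain ⟨⟨hxP, hxB⟩, hxr⟩ := hx
    refine ⟨⟨hs1 x hxP, hnb x hxP hxB⟩, ?_⟩
    rw [hs3 x hxP, hxr]
    omega
  · intro x hx
    simp only [coe_filter, mem_sdiff, Set.mem_setOf_eq] at hx ⊢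
    obtain ⟨⟨hxP, hxB⟩, hxr⟩ := hx
    refine ⟨⟨hs1 x hxP, hnb x hxP hxB⟩, ?_⟩
    rw [hs3 x hxP, hxr]
  · intro x hx
    simp only [coe_filter, mem_sdiff, Set.mem_setOf_eq] at hx
    exact hs2 x hx.1.1
  · intro x hx
    simp only [coe_filter, mem_sdiff, Set.mem_setOf_eq] at hx
    exact hs2 x hx.1.1

theorem cutLow_flow (h : IsFlow P rk cov N w) {B : Finset α} {a κ e δ η : ℝ} (ha : 0 < a)
    (hκ0 : 0 ≤ κ) (hη : 0 < η) (he0 : 0 ≤ e)
    (hout : ∀ x ∈ P \ B, 2 * rk x ≤ N → out P w x ≤ a)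
    (he : ∑ x ∈ P ∩ B, out P w x ≤ e) (hmid : 0 < F P rk w (N / 2))
    (hκ : ∀ r, 2 * r ≤ N → η * F P rk w (N / 2) ≤ F P rk w r →
      a * ((P.filter (fun x => rk x = r)).card : ℝ) ≤ (1 + κ) * F P rk w r)
    (hδ : κ / η + e / (η * F P rk w (N / 2)) ≤ δ)
    {s0 s1 : ℕ} (hs : s0 < s1) (hs1 : 2 * s1 ≤ N) (hF : η * F P rk w (N / 2) ≤ F P rk w s0) :
    CutLow rk cov (P \ B) (fun r => F P rk w r / a) δ s0 s1 := by
  intro W X hW hX h0 hcl
  have hFs0 : 0 < F P rk w s0 := lt_of_lt_of_le (mul_pos hη hmid) hF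
  have hFs1 : F P rk w s0 ≤ F P rk w s1 := F_mono h hs.le hs1
  have hFs1' : 0 < F P rk w s1 := lt_of_lt_of_le hFs0 hFs1
  have hFm : F P rk w s1 ≤ F P rk w (N / 2) := F_le_mid h s1
  have key := cut_low h ha.le hκ0 hs hs1 hFs0 hout he
    (fun r hr1 hr2 => hκ r (by omega) (hF.trans (F_mono h hr1.le (by omega)))) W X hW hX h0 hcl
  have hm' : 0 < η * F P rk w (N / 2) := mul_pos hη hmid
  have e1 : κ * (F P rk w s1 - F P rk w s0) / F P rk w s0 ≤ κ / η := by
    rw [div_le_div_iff₀ hFs0 hη]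
    have h1 : κ * (F P rk w s1 - F P rk w s0) ≤ κ * F P rk w (N / 2) :=
      mul_le_mul_of_nonneg_left (by linarith) hκ0
    calc κ * (F P rk w s1 - F P rk w s0) * η ≤ κ * F P rk w (N / 2) * η :=
          mul_le_mul_of_nonneg_right h1 hη.le
      _ = κ * (η * F P rk w (N / 2)) := by ring
      _ ≤ κ * F P rk w s0 := mul_le_mul_of_nonneg_left hF hκ0
  have e2 : e / F P rk w s0 ≤ e / (η * F P rk w (N / 2)) :=
    div_le_div_of_nonneg_left he0 hm' hF
  have key2 : (F P rk w s0 - κ * (F P rk w s1 - F P rk w s0) - e) / F P rk w s0 ≤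
      (a * (X.card : ℝ) + a * ((W.filter (fun x => rk x = s1)).card : ℝ) *
        (F P rk w s0 / F P rk w s1)) / F P rk w s0 :=
    div_le_div_of_nonneg_right key hFs0.le
  have e3 : (F P rk w s0 - κ * (F P rk w s1 - F P rk w s0) - e) / F P rk w s0 =
      1 - κ * (F P rk w s1 - F P rk w s0) / F P rk w s0 - e / F P rk w s0 := by
    field_simp
  have e4 : (a * (X.card : ℝ) + a * ((W.filter (fun x => rk x = s1)).card : ℝ) *
        (F P rk w s0 / F P rk w s1)) / F P rk w s0 =
      (X.card : ℝ) / (F P rk w s0 / a) +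
        ((W.filter (fun x => rk x = s1)).card : ℝ) / (F P rk w s1 / a) := by
    field_simp
  rw [e3, e4] at key2
  show 1 - δ ≤ (X.card : ℝ) / (F P rk w s0 / a) +
        ((W.filter (fun x => rk x = s1)).card : ℝ) / (F P rk w s1 / a)
  linarith

theorem cutUp_flow (h : IsFlow P rk cov N w) (hs : IsDual P rk cov N w star) {B : Finset α}
    (hB : ∀ x ∈ P, x ∈ B → star x ∈ B) {a κ e δ η : ℝ} (ha : 0 < a)
    (hκ0 : 0 ≤ κ) (hη : 0 < η) (he0 : 0 ≤ e)
    (hout : ∀ x ∈ P \ B, 2 * rk x ≤ N → out P w x ≤ a)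
    (he : ∑ x ∈ P ∩ B, out P w x ≤ e) (hmid : 0 < F P rk w (N / 2))
    (hκ : ∀ r, 2 * r ≤ N → η * F P rk w (N / 2) ≤ F P rk w r →
      a * ((P.filter (fun x => rk x = r)).card : ℝ) ≤ (1 + κ) * F P rk w r)
    (hδ : κ / η + e / (η * F P rk w (N / 2)) ≤ δ)
    {s0 s1 : ℕ} (hs' : s0 < s1) (hs1 : 2 * s1 ≤ N) (hF : η * F P rk w (N / 2) ≤ F P rk w s0) :
    CutUp rk cov N (P \ B) (fun r => F P rk w r / a) δ s0 s1 := by
  have hlow := cutLow_flow h ha hκ0 hη he0 hout he hmid hκ hδ hs' hs1 hF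
  obtain ⟨hst1, hst2, hst3, hst4, -⟩ := hs
  have hrk : ∀ x ∈ P, rk x ≤ N := h.2.2.2.1
  have hnb : ∀ x ∈ P \ B, star x ∈ P \ B := by
    intro x hx
    rw [mem_sdiff] at hx ⊢
    refine ⟨hst1 x hx.1, fun hsB => hx.2 ?_⟩
    simpa [hst2 x hx.1] using hB (star x) (hst1 x hx.1) hsB
  have hPd : ∀ x ∈ P \ B, x ∈ P := fun x hx => (mem_sdiff.mp hx).1
  intro W X hW hX h0 hcl
  have hmem : ∀ x ∈ P \ B, star x ∈ W ∪ X → x ∈ W.image star ∪ X.image star := by
    intro x hx hsx
    have hxx : star (star x) = x := hst2 x (hPd x hx)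
    rcases mem_union.mp hsx with h1 | h1
    · exact mem_union_left _ (mem_image.mpr ⟨star x, h1, hxx⟩)
    · exact mem_union_right _ (mem_image.mpr ⟨star x, h1, hxx⟩)
  have main := hlow (W.image star) (X.image star)
    (by
      intro x hx
      obtain ⟨z, hz, rfl⟩ := mem_image.mp hx
      exact hnb z (hW hz))
    (by
      intro x hx
      obtain ⟨z, hz, rfl⟩ := mem_image.mp hx
      exact hnb z (hX hz))
    (by
      intro x hx hxr
      refine hmem x hx (h0 (star x) (hnb x hx) ?_)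
      rw [hst3 x (hPd x hx), hxr])
    (by
      intro x hx hx1 hx2 y hy hxy
      obtain ⟨z, hz, rfl⟩ := mem_image.mp hx
      have hzP : z ∈ P := hPd z (hW hz)
      have hzz : star (star z) = z := hst2 z hzP
      have hzr : rk (star z) = N - rk z := hst3 z hzP
      have hzN := hrk z hzP
      refine hmem y hy (hcl z hz (by omega) (by omega) (star y) (hnb y hy) ?_)
      have := hst4 (star z) (hst1 z hzP) y (hPd y hy) hxy
      rwa [hzz] at this)
  have c1 : ((X.image star).card : ℝ) ≤ (X.card : ℝ) := by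
    exact_mod_cast card_image_le
  have c2 : (((W.image star).filter (fun x => rk x = s1)).card : ℝ) ≤
      ((W.filter (fun x => rk x = N - s1)).card : ℝ) := by
    have : (W.image star).filter (fun x => rk x = s1) ⊆
        (W.filter (fun x => rk x = N - s1)).image star := by
      intro x hx
      obtain ⟨hx1, hx2⟩ := mem_filter.mp hx
      obtain ⟨z, hz, rfl⟩ := mem_image.mp hx1
      have hzP : z ∈ P := hPd z (hW hz)
      have hzr : rk (star z) = N - rk z := hst3 z hzP
      have hzN := hrk z hzP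
      exact mem_image.mpr ⟨z, mem_filter.mpr ⟨hz, by omega⟩, rfl⟩
    exact_mod_cast (card_le_card this).trans card_image_le
  have hq0 : 0 ≤ F P rk w s0 / a := div_nonneg (F_nonneg h s0) ha.le
  have hq1 : 0 ≤ F P rk w s1 / a := div_nonneg (F_nonneg h s1) ha.le
  have main' : 1 - δ ≤ ((X.image star).card : ℝ) / (F P rk w s0 / a) +
      (((W.image star).filter (fun x => rk x = s1)).card : ℝ) / (F P rk w s1 / a) := main
  refine main'.trans ?_
  exact add_le_add (div_le_div_of_nonneg_right c1 hq0) (div_le_div_of_nonneg_right c2 hq1)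

theorem cutMid_flow (h : IsFlow P rk cov N w) (hs : IsDual P rk cov N w star) {B : Finset α}
    (hB : ∀ x ∈ P, x ∈ B → star x ∈ B) {a e δ : ℝ} (ha : 0 < a) (he0 : 0 ≤ e)
    (hout : ∀ x ∈ P \ B, 2 * rk x ≤ N → out P w x ≤ a)
    (he : ∑ x ∈ P ∩ B, out P w x ≤ e) (hmid : 0 < F P rk w (N / 2))
    (hδ : 2 * e / F P rk w (N / 2) ≤ δ) :
    CutMid rk cov N (P \ B) (fun r => F P rk w r / a) δ (N / 2) := by
  intro W X hW hX h0 hcl hWN
  have hs' := hs
  obtain ⟨hst1, hst2, hst3, hst4, -⟩ := hs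
  have hrk : ∀ x ∈ P, rk x ≤ N := h.2.2.2.1
  have hw0 : ∀ x y, 0 ≤ w x y := h.1
  have hout0 : ∀ x, 0 ≤ out P w x := fun x => sum_nonneg (fun y _ => hw0 x y)
  have hinn0 : ∀ x, 0 ≤ inn P w x := fun x => sum_nonneg (fun y _ => hw0 y x)
  have hPd : ∀ x ∈ P \ B, x ∈ P := fun x hx => (mem_sdiff.mp hx).1
  have hnb : ∀ x ∈ P \ B, star x ∈ P \ B := by
    intro x hx
    rw [mem_sdiff] at hx ⊢
    refine ⟨hst1 x hx.1, fun hsB => hx.2 ?_⟩
    simpa [hst2 x hx.1] using hB (star x) (hst1 x hx.1) hsB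
  have h2e : 2 * e ≤ δ * F P rk w (N / 2) := (div_le_iff₀ hmid).mp hδ
  -- the part of the exceptional set in the level `N / 2`
  have hBr : ∑ x ∈ (P ∩ B).filter (fun x => rk x = N / 2), out P w x ≤ e :=
    (sum_le_sum_of_subset_of_nonneg (filter_subset _ _) (fun x _ _ => hout0 x)).trans he
  have hXr : ∑ x ∈ X.filter (fun x => rk x = N / 2), out P w x ≤
      a * ((X.filter (fun x => rk x = N / 2)).card : ℝ) := by
    have : ∑ x ∈ X.filter (fun x => rk x = N / 2), out P w x ≤
        (X.filter (fun x => rk x = N / 2)).card • a := by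
      refine sum_le_card_nsmul _ _ _ ?_
      intro x hx
      obtain ⟨hx1, hx2⟩ := mem_filter.mp hx
      exact hout x (hX hx1) (by omega)
    rw [nsmul_eq_mul] at this
    linarith
  have hFdec : F P rk w (N / 2) ≤ ∑ x ∈ X.filter (fun x => rk x = N / 2), out P w x +
      ∑ x ∈ W.filter (fun x => rk x = N / 2), out P w x +
      ∑ x ∈ (P ∩ B).filter (fun x => rk x = N / 2), out P w x := by
    unfold F
    have hsub : P.filter (fun x => rk x = N / 2) ⊆
        (X.filter (fun x => rk x = N / 2) ∪ W.filter (fun x => rk x = N / 2)) ∪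
          (P ∩ B).filter (fun x => rk x = N / 2) := by
      intro x hx
      obtain ⟨hx1, hx2⟩ := mem_filter.mp hx
      by_cases hxB : x ∈ B
      · exact mem_union_right _ (mem_filter.mpr ⟨mem_inter.mpr ⟨hx1, hxB⟩, hx2⟩)
      · rcases mem_union.mp (h0 x (mem_sdiff.mpr ⟨hx1, hxB⟩) hx2) with h1 | h1
        · exact mem_union_left _ (mem_union_right _ (mem_filter.mpr ⟨h1, hx2⟩))
        · exact mem_union_left _ (mem_union_left _ (mem_filter.mpr ⟨h1, hx2⟩))
    refine (sum_le_sum_of_subset_of_nonneg hsub (fun x _ _ => hout0 x)).trans ?_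
    have u1 := sum_union_inter (s₁ := X.filter (fun x => rk x = N / 2) ∪
      W.filter (fun x => rk x = N / 2)) (s₂ := (P ∩ B).filter (fun x => rk x = N / 2))
      (f := fun x => out P w x)
    have u2 := sum_union_inter (s₁ := X.filter (fun x => rk x = N / 2))
      (s₂ := W.filter (fun x => rk x = N / 2)) (f := fun x => out P w x)
    have n1 : 0 ≤ ∑ x ∈ (X.filter (fun x => rk x = N / 2) ∪
      W.filter (fun x => rk x = N / 2)) ∩ (P ∩ B).filter (fun x => rk x = N / 2), out P w x :=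
      sum_nonneg (fun x _ => hout0 x)
    have n2 : 0 ≤ ∑ x ∈ X.filter (fun x => rk x = N / 2) ∩
      W.filter (fun x => rk x = N / 2), out P w x := sum_nonneg (fun x _ => hout0 x)
    linarith
  have hfin : F P rk w (N / 2) ≤ a * (X.card : ℝ) + 2 * e := by
    rcases Nat.even_or_odd N with hN | hN
    · have hNr : N - N / 2 = N / 2 := by
        obtain ⟨k, hk⟩ := hN
        omega
      have hW0 : W.filter (fun x => rk x = N / 2) = ∅ := by
        rw [filter_eq_empty_iff]
        intro x hx hxr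
        exact hWN x hx (by rw [hNr, hxr])
      rw [hW0, sum_empty] at hFdec
      have c1 : ((X.filter (fun x => rk x = N / 2)).card : ℝ) ≤ (X.card : ℝ) := by
        exact_mod_cast card_le_card (filter_subset _ _)
      have c2 : a * ((X.filter (fun x => rk x = N / 2)).card : ℝ) ≤ a * (X.card : ℝ) :=
        mul_le_mul_of_nonneg_left c1 ha.le
      linarith
    · have hNr : N - N / 2 = N / 2 + 1 := by
        obtain ⟨k, hk⟩ := hN
        omega
      have hWle : ∑ x ∈ W.filter (fun x => rk x = N / 2), out P w x ≤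
          ∑ y ∈ X.filter (fun x => rk x = N / 2 + 1) ∪
            (P ∩ B).filter (fun x => rk x = N / 2 + 1), inn P w y := by
        refine out_le_inn h ?_ ?_ ?_
        · intro x hx
          exact hPd x (hW (mem_filter.mp hx).1)
        · intro x hx
          rcases mem_union.mp hx with h1 | h1
          · exact hPd x (hX (mem_filter.mp h1).1)
          · exact (mem_inter.mp (mem_filter.mp h1).1).1
        · intro x hx y hy hxy
          obtain ⟨hx1, hx2⟩ := mem_filter.mp hx
          have hxP : x ∈ P := hPd x (hW hx1)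
          have hc : cov x y := h.2.1 x hxP y hy hxy
          have hyr : rk y = N / 2 + 1 := by rw [h.2.2.1 x hxP y hy hc, hx2]
          by_cases hyB : y ∈ B
          · exact mem_union_right _ (mem_filter.mpr ⟨mem_inter.mpr ⟨hy, hyB⟩, hyr⟩)
          · rcases mem_union.mp (hcl x hx1 (by omega) (by omega) y
              (mem_sdiff.mpr ⟨hy, hyB⟩) hc) with h1 | h1
            · exact absurd (by rw [hNr, hyr]) (hWN y h1)
            · exact mem_union_left _ (mem_filter.mpr ⟨h1, hyr⟩)
      have u1 := sum_union_inter (s₁ := X.filter (fun x => rk x = N / 2 + 1))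
        (s₂ := (P ∩ B).filter (fun x => rk x = N / 2 + 1)) (f := fun x => inn P w x)
      have n1 : 0 ≤ ∑ x ∈ X.filter (fun x => rk x = N / 2 + 1) ∩
        (P ∩ B).filter (fun x => rk x = N / 2 + 1), inn P w x :=
        sum_nonneg (fun x _ => hinn0 x)
      have hX1 : ∑ x ∈ X.filter (fun x => rk x = N / 2 + 1), inn P w x ≤
          a * ((X.filter (fun x => rk x = N / 2 + 1)).card : ℝ) := by
        have : ∑ x ∈ X.filter (fun x => rk x = N / 2 + 1), inn P w x ≤
            (X.filter (fun x => rk x = N / 2 + 1)).card • a := by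
          refine sum_le_card_nsmul _ _ _ ?_
          intro x hx
          obtain ⟨hx1, hx2⟩ := mem_filter.mp hx
          have hxP : x ∈ P := hPd x (hX hx1)
          rw [inn_eq_out_star h hs' hxP]
          refine hout (star x) (hnb x (hX hx1)) ?_
          rw [hst3 x hxP]
          omega
        rw [nsmul_eq_mul] at this
        linarith
      have hB1 : ∑ x ∈ (P ∩ B).filter (fun x => rk x = N / 2 + 1), inn P w x ≤ e := by
        have hinj : ∀ x ∈ (P ∩ B).filter (fun x => rk x = N / 2 + 1),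
            ∀ y ∈ (P ∩ B).filter (fun x => rk x = N / 2 + 1), star x = star y → x = y := by
          intro x hx y hy hxy
          have hxP : x ∈ P := (mem_inter.mp (mem_filter.mp hx).1).1
          have hyP : y ∈ P := (mem_inter.mp (mem_filter.mp hy).1).1
          rw [← hst2 x hxP, ← hst2 y hyP, hxy]
        calc ∑ x ∈ (P ∩ B).filter (fun x => rk x = N / 2 + 1), inn P w x
            = ∑ x ∈ (P ∩ B).filter (fun x => rk x = N / 2 + 1), out P w (star x) := by
              refine sum_congr rfl (fun x hx => ?_)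
              exact inn_eq_out_star h hs' (mem_inter.mp (mem_filter.mp hx).1).1
          _ = ∑ z ∈ ((P ∩ B).filter (fun x => rk x = N / 2 + 1)).image star, out P w z := by
              rw [sum_image hinj]
          _ ≤ ∑ z ∈ P ∩ B, out P w z := by
              refine sum_le_sum_of_subset_of_nonneg ?_ (fun x _ _ => hout0 x)
              intro z hz
              obtain ⟨x, hx, rfl⟩ := mem_image.mp hz
              obtain ⟨hxP, hxB⟩ := mem_inter.mp (mem_filter.mp hx).1
              exact mem_inter.mpr ⟨hst1 x hxP, hB x hxP hxB⟩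
          _ ≤ e := he
      have hcard : ((X.filter (fun x => rk x = N / 2)).card : ℝ) +
          ((X.filter (fun x => rk x = N / 2 + 1)).card : ℝ) ≤ (X.card : ℝ) := by
        have hdisj : Disjoint (X.filter (fun x => rk x = N / 2))
            (X.filter (fun x => rk x = N / 2 + 1)) := by
          rw [disjoint_left]
          intro x hx hx'
          have e1 := (mem_filter.mp hx).2
          have e2 := (mem_filter.mp hx').2
          omega
        have : (X.filter (fun x => rk x = N / 2)).card +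
            (X.filter (fun x => rk x = N / 2 + 1)).card ≤ X.card := by
          rw [← card_union_of_disjoint hdisj]
          exact card_le_card (union_subset (filter_subset _ _) (filter_subset _ _))
        exact_mod_cast this
      have c2 := mul_le_mul_of_nonneg_left hcard ha.le
      rw [mul_add] at c2
      linarith
  show (1 - δ) * (F P rk w (N / 2) / a) ≤ (X.card : ℝ)
  rw [← mul_div_assoc, div_le_iff₀ ha]
  nlinarith

end Pool.Agent.Helper30.SC
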