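import Pool.Agent.Helper30.SC.Defs

set_option autoImplicit false

/-!
# SC-1 Layer: disjoint paths in a layered digraph (Menger via Hall)

PROOF. Let `A` be the layer `0`. For `W = ∅` the hypothesis gives `k ≤ |A|`. Let `Lft` be the
subtype of the vertices `v` with `lay v < L` and apply Hall's marriage theorem
(`Finset.all_card_le_biUnion_card_iff_exists_injective`) to
`t v = {inl v, if lay v ≥ 1} ∪ {inl w : E v w} ∪ {inr i : i : Fin (|A| - k)}` in `V ⊕ Fin (|A| - k)`.
Hall's condition for a nonempty `s` (put `W = s`): `⋃ t` has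
`|s_{≥1} ∪ N(s)| + (|A| - k) = |s_{≥1}| + |N(s) \ s| + |A| - k` elements (`N(s)` lies in layers
`≥ 1`), and `|A \ s| + |N(s) \ s| ≥ k` gives `|s_0| ≤ |N(s) \ s| + |A| - k`.
Let `φ` be the injection. For `a ∈ A` follow `φ`: `v_0 = a`, `v_{i+1} = w` if `φ v_i = inl w`. By
injectivity `φ v_i = inl v_i` is impossible (for `i = 0` because `lay a = 0`, for `i ≥ 1` because
`inl v_i = φ v_{i-1}` already and `v_{i-1} ≠ v_i` are in different layers), so `E v_i v_{i+1}` and
`lay v_i = i`. The path of `a` may stop before the layer `L` only with a value `inr d`; different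
`a` have different `v_i` (induction, injectivity), so different stopped `a` have different `d`
(the stopping vertices are different: same layer by injectivity, different layers trivially). So
at most `|A| - k` paths stop, at least `k` reach the layer `L`; take `k` of them.
-/

namespace Pool.Agent.Helper30.SC

open Finset

theorem layered {V : Type} [Fintype V] [DecidableEq V] (lay : V → ℕ) (L : ℕ)
    (E : V → V → Prop) [DecidableRel E] (hE : ∀ v w, E v w → lay w = lay v + 1) (k : ℕ)
    (hall : ∀ W : Finset V, (∀ v ∈ W, lay v < L) →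
      k ≤ ((univ.filter (fun v => lay v = 0)) \ W).card +
        ((univ.filter (fun w => ∃ v ∈ W, E v w)) \ W).card) :
    ∃ p : Fin k → ℕ → V, (∀ j i, i ≤ L → lay (p j i) = i) ∧
      (∀ j i, i < L → E (p j i) (p j (i + 1))) ∧
      (∀ j j' i, i ≤ L → p j i = p j' i → j = j') := by
  classical
  -- abbreviations
  set A : Finset V := univ.filter (fun v => lay v = 0) with hA
  set d : ℕ := A.card - k with hd
  have hkA : k ≤ A.card := by
    have h := hall ∅ (by simp)
    simpa using h
  let t : {v : V // lay v < L} → Finset (V ⊕ Fin d) := fun v =>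
    (univ.filter (fun w => (w = v.1 ∧ 1 ≤ lay v.1) ∨ E v.1 w)).disjSum univ
  have hHall : ∀ s : Finset {v : V // lay v < L}, s.card ≤ (s.biUnion t).card := by
    intro s
    rcases s.eq_empty_or_nonempty with rfl | hs
    · simp
    set W : Finset V := s.map ⟨Subtype.val, Subtype.val_injective⟩ with hW
    have hWs : W.card = s.card := by simp [hW]
    have hWmem : ∀ v, v ∈ W ↔ ∃ h : lay v < L, (⟨v, h⟩ : {v : V // lay v < L}) ∈ s := by
      intro v
      simp only [hW, Finset.mem_map, Function.Embedding.coeFn_mk, Subtype.exists,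
        exists_and_right, exists_eq_right]
    have h1 := hall W (fun v hv => by
      obtain ⟨h, _⟩ := (hWmem v).1 hv
      exact h)
    set N : Finset V := univ.filter (fun w => ∃ v ∈ W, E v w) with hN
    set W1 : Finset V := W.filter (fun v => 1 ≤ lay v) with hW1
    set W0 : Finset V := W.filter (fun v => lay v = 0) with hW0
    have hsplit : W.card = W0.card + W1.card := by
      rw [← Finset.card_union_of_disjoint]
      · congr 1
        ext v
        simp only [hW0, hW1, Finset.mem_union, Finset.mem_filter]
        constructor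
        · intro hv
          rcases Nat.eq_zero_or_pos (lay v) with h0 | h0
          · exact Or.inl ⟨hv, h0⟩
          · exact Or.inr ⟨hv, h0⟩
        · rintro (h | h)
          · exact h.1
          · exact h.1
      · rw [Finset.disjoint_left]
        intro v hv hv'
        simp only [hW0, hW1, Finset.mem_filter] at hv hv'
        omega
    have hAW : (A \ W).card + W0.card = A.card := by
      have h2 : W0 = A ∩ W := by
        ext v
        simp only [hW0, hA, Finset.mem_inter, Finset.mem_filter, Finset.mem_univ, true_and]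
        tauto
      rw [h2]
      exact Finset.card_sdiff_add_card_inter A W
    have hsub : (W1 ∪ (N \ W)).disjSum (univ : Finset (Fin d)) ⊆ s.biUnion t := by
      intro x hx
      rw [Finset.mem_biUnion]
      rcases x with w | i
      · rw [Finset.inl_mem_disjSum, Finset.mem_union] at hx
        rcases hx with hx | hx
        · simp only [hW1, Finset.mem_filter] at hx
          obtain ⟨h, hs'⟩ := (hWmem w).1 hx.1
          refine ⟨⟨w, h⟩, hs', ?_⟩
          rw [Finset.inl_mem_disjSum]
          simp only [Finset.mem_filter, Finset.mem_univ, true_and]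
          exact Or.inl hx.2
        · rw [Finset.mem_sdiff] at hx
          simp only [hN, Finset.mem_filter, Finset.mem_univ, true_and] at hx
          obtain ⟨⟨v, hv, hvw⟩, _⟩ := hx
          obtain ⟨h, hs'⟩ := (hWmem v).1 hv
          refine ⟨⟨v, h⟩, hs', ?_⟩
          rw [Finset.inl_mem_disjSum]
          simp only [Finset.mem_filter, Finset.mem_univ, true_and]
          exact Or.inr hvw
      · obtain ⟨v, hv⟩ := hs
        refine ⟨v, hv, ?_⟩
        rw [Finset.inr_mem_disjSum]
        exact Finset.mem_univ _
    have hcard := Finset.card_le_card hsub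
    rw [Finset.card_disjSum, Finset.card_univ, Fintype.card_fin,
      Finset.card_union_of_disjoint] at hcard
    · have h3 : k ≤ (A \ W).card + (N \ W).card := h1
      omega
    · rw [Finset.disjoint_left]
      intro v hv hv'
      rw [Finset.mem_sdiff] at hv'
      exact hv'.2 (Finset.mem_filter.1 hv).1
  obtain ⟨φ, hφ, hφt⟩ := (Finset.all_card_le_biUnion_card_iff_exists_injective t).1 hHall
  let f : V → V := fun v => if h : lay v < L then Sum.elim id (fun _ => v) (φ ⟨v, h⟩) else v
  have hfl : ∀ v (h : lay v < L) w, φ ⟨v, h⟩ = Sum.inl w → f v = w := by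
    intro v h w hw
    simp only [f, h, dif_pos, hw, Sum.elim_inl, id]
  let Al : V → ℕ → Prop := fun a i => (∀ i' ≤ i, lay (f^[i'] a) = i') ∧
    ∀ i' < i, ∃ h : lay (f^[i'] a) < L, φ ⟨f^[i'] a, h⟩ = Sum.inl (f^[i' + 1] a)
  have hAl0 : ∀ a ∈ A, Al a 0 := by
    intro a ha
    simp only [hA, Finset.mem_filter, Finset.mem_univ, true_and] at ha
    refine ⟨fun i' hi' => ?_, fun i' hi' => absurd hi' (Nat.not_lt_zero _)⟩
    obtain rfl : i' = 0 := by omega
    simpa using ha
  have hstep : ∀ a i, i < L → Al a i →
      Al a (i + 1) ∨ ∃ (h : lay (f^[i] a) < L) (e : Fin d), φ ⟨f^[i] a, h⟩ = Sum.inr e := by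
    intro a i hi ha
    have hl : lay (f^[i] a) = i := ha.1 i le_rfl
    have h : lay (f^[i] a) < L := by rw [hl]; exact hi
    rcases hw : φ ⟨f^[i] a, h⟩ with w | e
    · left
      have hf : f^[i + 1] a = w := by
        rw [Function.iterate_succ_apply']
        exact hfl _ h w hw
      have hmem := hφt ⟨f^[i] a, h⟩
      rw [hw, Finset.inl_mem_disjSum] at hmem
      simp only [Finset.mem_filter, Finset.mem_univ, true_and] at hmem
      have hEw : E (f^[i] a) w := by
        rcases hmem with hmem | hmem
        · exfalso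
          obtain ⟨hwv, h1⟩ := hmem
          rw [hl] at h1
          obtain ⟨i0, rfl⟩ : ∃ i0, i = i0 + 1 := ⟨i - 1, by omega⟩
          obtain ⟨h', he⟩ := ha.2 i0 (Nat.lt_succ_self i0)
          have h3 : (⟨f^[i0] a, h'⟩ : {v : V // lay v < L}) = ⟨f^[i0 + 1] a, h⟩ := by
            apply hφ
            rw [he, hw, hwv]
          have h4 : f^[i0] a = f^[i0 + 1] a := congrArg Subtype.val h3
          have h5 := ha.1 i0 (Nat.le_succ i0)
          rw [h4, hl] at h5
          omega
        · exact hmem
      have hlw : lay w = i + 1 := by rw [hE _ _ hEw, hl]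
      refine ⟨fun i' hi' => ?_, fun i' hi' => ?_⟩
      · rcases Nat.lt_or_ge i i' with h6 | h6
        · obtain rfl : i' = i + 1 := by omega
          rw [hf, hlw]
        · exact ha.1 i' h6
      · rcases Nat.lt_or_ge i' i with h6 | h6
        · exact ha.2 i' h6
        · obtain rfl : i' = i := by omega
          exact ⟨h, by rw [hf]; exact hw⟩
    · right
      exact ⟨h, e, hw⟩
  have hall2 : ∀ a ∈ A, ∀ i ≤ L, Al a i ∨
      ∃ i' < L, Al a i' ∧ ∃ (h : lay (f^[i'] a) < L) (e : Fin d), φ ⟨f^[i'] a, h⟩ = Sum.inr e := by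
    intro a ha i
    induction i with
    | zero => intro _; exact Or.inl (hAl0 a ha)
    | succ i ih =>
      intro hi
      rcases ih (by omega) with h | h
      · rcases hstep a i (by omega) h with h' | h'
        · exact Or.inl h'
        · exact Or.inr ⟨i, by omega, h, h'⟩
      · exact Or.inr h
  have hinj : ∀ i a a', Al a i → Al a' i → f^[i] a = f^[i] a' → a = a' := by
    intro i
    induction i with
    | zero => intro a a' _ _ h; simpa using h
    | succ i ih =>
      intro a a' ha ha' h
      obtain ⟨h1, e1⟩ := ha.2 i (Nat.lt_succ_self i)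
      obtain ⟨h2, e2⟩ := ha'.2 i (Nat.lt_succ_self i)
      have h3 : (⟨f^[i] a, h1⟩ : {v : V // lay v < L}) = ⟨f^[i] a', h2⟩ := by
        apply hφ
        rw [e1, e2, h]
      have h4 : f^[i] a = f^[i] a' := congrArg Subtype.val h3
      exact ih a a' ⟨fun i' hi' => ha.1 i' (by omega), fun i' hi' => ha.2 i' (by omega)⟩
        ⟨fun i' hi' => ha'.1 i' (by omega), fun i' hi' => ha'.2 i' (by omega)⟩ h4
  have hEst : ∀ a, Al a L → ∀ i < L, E (f^[i] a) (f^[i + 1] a) := by
    intro a ha i hi
    obtain ⟨h, e⟩ := ha.2 i hi
    have hmem := hφt ⟨f^[i] a, h⟩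
    rw [e, Finset.inl_mem_disjSum] at hmem
    simp only [Finset.mem_filter, Finset.mem_univ, true_and] at hmem
    rcases hmem with hmem | hmem
    · exfalso
      have h1 := ha.1 i (by omega)
      have h2 := ha.1 (i + 1) (by omega)
      rw [hmem.1] at h2
      omega
    · exact hmem
  -- the stopped vertices
  set B : Finset V := A.filter (fun a => Al a L) with hB
  have hst : ∀ a : {a : V // a ∈ A.filter (fun a => ¬ Al a L)}, ∃ (i : ℕ) (h : lay (f^[i] a.1) < L)
      (e : Fin d), Al a.1 i ∧ φ ⟨f^[i] a.1, h⟩ = Sum.inr e := by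
    intro a
    have ha := Finset.mem_filter.1 a.2
    rcases hall2 a.1 ha.1 L le_rfl with h | ⟨i', _, h1, h2, e, h3⟩
    · exact absurd h ha.2
    · exact ⟨i', h2, e, h1, h3⟩
  choose ii hh ee hst1 hst2 using hst
  have hee : Function.Injective ee := by
    intro a a' h
    have h1 : (⟨f^[ii a] a.1, hh a⟩ : {v : V // lay v < L}) = ⟨f^[ii a'] a'.1, hh a'⟩ := by
      apply hφ
      rw [hst2 a, hst2 a', h]
    have h2 : f^[ii a] a.1 = f^[ii a'] a'.1 := congrArg Subtype.val h1
    have h3 : ii a = ii a' := by
      have h4 := (hst1 a).1 _ le_rfl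
      have h5 := (hst1 a').1 _ le_rfl
      rw [← h4, ← h5, h2]
    have h6 := hst1 a'
    rw [← h3] at h2 h6
    exact Subtype.ext (hinj _ _ _ (hst1 a) h6 h2)
  have hcst : (A.filter (fun a => ¬ Al a L)).card ≤ d := by
    have h := Fintype.card_le_of_injective ee hee
    rw [Fintype.card_coe, Fintype.card_fin] at h
    exact h
  have hBk : k ≤ B.card := by
    have h : B.card + (A.filter (fun a => ¬ Al a L)).card = A.card :=
      Finset.card_filter_add_card_filter_not (s := A) (fun a => Al a L)
    omega
  let em : Fin k → V := fun j => (B.equivFin.symm (Fin.castLE hBk j)).1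
  have hem : ∀ j, em j ∈ B := fun j => (B.equivFin.symm (Fin.castLE hBk j)).2
  have hemi : Function.Injective em := by
    intro j j' h
    have h1 : B.equivFin.symm (Fin.castLE hBk j) = B.equivFin.symm (Fin.castLE hBk j') :=
      Subtype.ext h
    exact Fin.castLE_injective hBk (B.equivFin.symm.injective h1)
  refine ⟨fun j i => f^[i] (em j), ?_, ?_, ?_⟩
  · intro j i hi
    exact ((Finset.mem_filter.1 (hem j)).2).1 i hi
  · intro j i hi
    exact hEst _ (Finset.mem_filter.1 (hem j)).2 i hi
  · intro j j' i hi h
    apply hemi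
    have h1 := (Finset.mem_filter.1 (hem j)).2
    have h2 := (Finset.mem_filter.1 (hem j')).2
    exact hinj i _ _ ⟨fun i' hi' => h1.1 i' (by omega), fun i' hi' => h1.2 i' (by omega)⟩
      ⟨fun i' hi' => h2.1 i' (by omega), fun i' hi' => h2.2 i' (by omega)⟩ h

end Pool.Agent.Helper30.SC
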