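import Pool.Agent.Helper30.SC.Defs

set_option autoImplicit false

/-!
# SC-16 Lev: the level numbers of `{0,...,n}^m`

`a r = lev m n r`. PROOFS. `lev_succ`: split off one coordinate (`Fin.consEquiv` /
`Fin.cons`, `Fin.sum_univ_succ`).
`lev_pf2` by induction on `m`: let `b = lev m n`, extended by `0` to negative arguments (work over
`ℤ` or with the convention `if i ≤ r then b (r - i) else 0`), `W r = ∑_{i=0}^n b (r - i)`. The
induction hypothesis gives `b i b j ≥ b i' b j'` whenever `i + j = i' + j'` and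
`i' ≤ min i j` (iterate). For `i ≤ j`:
`W (i+1) W j - W i W (j+1) = ∑_{t=0}^n [b (i+1) b (j-t) - b (i-t) b (j+1)]
+ ∑_{t=0}^n [b (i-t) b (j-n) - b (i-n) b (j-t)] ≥ 0`
(from `W (i+1) = W i + b (i+1) - b (i-n)`, `W (j+1) = W j + b (j+1) - b (j-n)`), each bracket is
`≥ 0` by the spread inequality.
`lev_symm`: `x ↦ n - x`. `lev_mono`: `lev_pf2` with `i = r`, `j = m n - r - 1` and `lev_symm` give
`a r ^ 2 ≤ a (r+1) ^ 2`. `lev_le`: the first `m - 1` coordinates determine the last one.
`lev_pos`: induction (or an explicit sequence). `lev_sum`: every element has a rank `≤ m n`.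
`lev_moment`: `∑_x (∑_j (n - 2 x_j))^2`: the mixed terms vanish (involution `x_j ↦ n - x_j`), the
diagonal terms are `≤ n^2`.
-/

namespace Pool.Agent.Helper30.SC

open Finset

namespace Lev

lemma mem_Qset {m n : ℕ} {a : Fin m → ℕ} : a ∈ Qset m n ↔ ∀ i, a i ≤ n := by
  simp only [Qset, Fintype.mem_piFinset, mem_range]
  exact forall_congr' fun i => Nat.lt_succ_iff

lemma rkF_le {m n : ℕ} {a : Fin m → ℕ} (ha : a ∈ Qset m n) : rkF a ≤ m * n := by
  have h := mem_Qset.1 ha
  calc rkF a = ∑ i, a i := rfl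
    _ ≤ ∑ _i : Fin m, n := sum_le_sum fun i _ => h i
    _ = m * n := by simp

lemma card_Qset (m n : ℕ) : (Qset m n).card = (n + 1) ^ m := by
  simp [Qset, Fintype.card_piFinset]

/-- iterated form of the log-concavity inequality -/
lemma spread (b : ℤ → ℤ) (hb : ∀ i j : ℤ, i ≤ j → b i * b (j + 1) ≤ b (i + 1) * b j) :
    ∀ (k : ℕ) (i j : ℤ), i + k ≤ j - k → b i * b j ≤ b (i + k) * b (j - k) := by
  intro k
  induction k with
  | zero => intro i j _; simp
  | succ k ih =>
    intro i j h
    have h1 : b i * b j ≤ b (i + k) * b (j - k) := ih i j (by push_cast at h; linarith)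
    have h2 := hb (i + k) (j - k - 1) (by push_cast at h; linarith)
    have e1 : j - (k : ℤ) - 1 + 1 = j - k := by ring
    have e2 : i + ((k + 1 : ℕ) : ℤ) = i + k + 1 := by push_cast; ring
    have e3 : j - ((k + 1 : ℕ) : ℤ) = j - k - 1 := by push_cast; ring
    rw [e1] at h2
    rw [e2, e3]
    exact h1.trans h2

/-- the spread inequality: pairs with the same sum, `i' ≤ min i j` -/
lemma spread' (b : ℤ → ℤ) (hb : ∀ i j : ℤ, i ≤ j → b i * b (j + 1) ≤ b (i + 1) * b j)
    (i' j' i j : ℤ) (hs : i' + j' = i + j) (h1 : i' ≤ i) (h2 : i' ≤ j) :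
    b i' * b j' ≤ b i * b j := by
  rcases le_total i j with hij | hij
  · obtain ⟨k, hk⟩ := Int.eq_ofNat_of_zero_le (sub_nonneg.2 h1)
    have e1 : i' + (k : ℤ) = i := by linarith
    have e2 : j' - (k : ℤ) = j := by linarith
    have h := spread b hb k i' j' (by rw [e1, e2]; exact hij)
    rwa [e1, e2] at h
  · obtain ⟨k, hk⟩ := Int.eq_ofNat_of_zero_le (sub_nonneg.2 h2)
    have e1 : i' + (k : ℤ) = j := by linarith
    have e2 : j' - (k : ℤ) = i := by linarith
    have h := spread b hb k i' j' (by rw [e1, e2]; exact hij)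
    rw [e1, e2] at h
    linarith [mul_comm (b i) (b j)]

/-- window sums -/
def W (b : ℤ → ℤ) (n : ℕ) (k : ℤ) : ℤ := ∑ t ∈ range (n + 1), b (k - t)

lemma W_succ (b : ℤ → ℤ) (n : ℕ) (k : ℤ) : W b n (k + 1) = W b n k + b (k + 1) - b (k - n) := by
  unfold W
  rw [sum_range_succ' (fun t : ℕ => b (k + 1 - t)), sum_range_succ (fun t : ℕ => b (k - t))]
  have : ∀ t ∈ range n, b (k + 1 - ((t + 1 : ℕ) : ℤ)) = b (k - t) := by
    intro t _
    congr 1
    push_cast
    ring
  rw [sum_congr rfl this]
  simp only [Nat.cast_zero, sub_zero]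
  ring

lemma W_pf2 (b : ℤ → ℤ) (n : ℕ)
    (hb : ∀ i j : ℤ, i ≤ j → b i * b (j + 1) ≤ b (i + 1) * b j) :
    ∀ i j : ℤ, i ≤ j → W b n i * W b n (j + 1) ≤ W b n (i + 1) * W b n j := by
  intro i j hij
  have h1 : W b n i * b (j + 1) ≤ b (i + 1) * W b n j := by
    unfold W
    rw [sum_mul, mul_sum]
    refine sum_le_sum fun t _ => ?_
    exact spread' b hb _ _ _ _ (by ring) (by have : (0 : ℤ) ≤ t := by positivity
                                             linarith) (by linarith)
  have h2 : b (i - n) * W b n j ≤ W b n i * b (j - n) := by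
    unfold W
    rw [sum_mul, mul_sum]
    refine sum_le_sum fun t ht => ?_
    have ht' : t ≤ n := Nat.lt_succ_iff.1 (mem_range.1 ht)
    have ht'' : (t : ℤ) ≤ n := by exact_mod_cast ht'
    exact spread' b hb _ _ _ _ (by ring) (by linarith) (by linarith)
  rw [W_succ, W_succ]
  nlinarith [h1, h2]

/-- the level numbers extended to the integers -/
def ext (m n : ℕ) (k : ℤ) : ℤ := if 0 ≤ k then (lev m n k.toNat : ℤ) else 0

lemma ext_natCast (m n r : ℕ) : ext m n (r : ℤ) = (lev m n r : ℤ) := by
  simp [ext]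

end Lev

open Lev

theorem lev_zero (n r : ℕ) : lev 0 n r = if r = 0 then 1 else 0 := by
  have h : Qset 0 n = {fun i => i.elim0} := by
    ext a
    simp only [mem_Qset, mem_singleton]
    constructor
    · intro _
      funext i
      exact i.elim0
    · intro _ i
      exact i.elim0
  unfold lev
  rw [h, filter_singleton]
  by_cases hr : r = 0
  · simp [hr, rkF]
  · have : ¬ (rkF (fun i : Fin 0 => (i.elim0 : ℕ)) = r) := by
      simp only [rkF, univ_eq_empty, sum_empty]
      exact fun h => hr h.symm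
    simp [hr, this]

theorem lev_succ (m n r : ℕ) :
    lev (m + 1) n r = ∑ i ∈ range (n + 1), if i ≤ r then lev m n (r - i) else 0 := by
  unfold lev
  rw [card_eq_sum_card_fiberwise (f := fun a : Fin (m + 1) → ℕ => a 0) (t := range (n + 1))
    (by
      intro a ha
      have := mem_Qset.1 (mem_filter.1 (mem_coe.1 ha)).1 0
      exact mem_coe.2 (mem_range.2 (Nat.lt_succ_iff.2 this)))]
  refine sum_congr rfl fun i hi => ?_
  have hi' : i ≤ n := Nat.lt_succ_iff.1 (mem_range.1 hi)
  split_ifs with hir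
  · refine card_nbij' (fun a => Fin.tail a) (fun b => Fin.cons i b) ?_ ?_ ?_ ?_
    · intro a ha
      simp only [coe_filter, mem_filter, Set.mem_ofPred_eq] at ha ⊢
      obtain ⟨⟨h1, h2⟩, h3⟩ := ha
      refine ⟨mem_Qset.2 fun j => mem_Qset.1 h1 j.succ, ?_⟩
      have : rkF a = a 0 + rkF (Fin.tail a) := by
        unfold rkF
        rw [Fin.sum_univ_succ]
        rfl
      omega
    · intro b hb
      simp only [coe_filter, mem_filter, Set.mem_ofPred_eq] at hb ⊢
      obtain ⟨h1, h2⟩ := hb
      refine ⟨⟨mem_Qset.2 fun j => ?_, ?_⟩, ?_⟩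
      · refine Fin.cases ?_ (fun j => ?_) j
        · simpa using hi'
        · simpa using mem_Qset.1 h1 j
      · unfold rkF at h2 ⊢
        rw [Fin.sum_univ_succ]
        simp only [Fin.cons_zero, Fin.cons_succ]
        omega
      · simp
    · intro a ha
      simp only [coe_filter, mem_filter, Set.mem_ofPred_eq] at ha
      obtain ⟨_, h3⟩ := ha
      show Fin.cons i (Fin.tail a) = a
      rw [← h3]
      exact Fin.cons_self_tail a
    · intro b _
      exact Fin.tail_cons (α := fun _ => ℕ) i b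
  · rw [card_eq_zero, filter_eq_empty_iff]
    intro a ha h0
    have h2 := (mem_filter.1 ha).2
    have : rkF a = a 0 + rkF (Fin.tail a) := by
      unfold rkF
      rw [Fin.sum_univ_succ]
      rfl
    omega

namespace Lev

lemma ext_succ (m n : ℕ) (k : ℤ) : ext (m + 1) n k = W (ext m n) n k := by
  unfold W
  by_cases hk : 0 ≤ k
  · obtain ⟨r, rfl⟩ := Int.eq_ofNat_of_zero_le hk
    rw [ext_natCast, lev_succ]
    push_cast
    refine sum_congr rfl fun i _ => ?_
    split_ifs with h
    · have : ((r : ℤ) - (i : ℤ)) = ((r - i : ℕ) : ℤ) := by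
        rw [Nat.cast_sub h]
      rw [this, ext_natCast]
    · have : ¬ (0 : ℤ) ≤ (r : ℤ) - i := by
        push Not at h ⊢
        have : (r : ℤ) < i := by exact_mod_cast h
        linarith
      rw [ext, if_neg this]
  · have h0 : ext (m + 1) n k = 0 := by simp [ext, hk]
    rw [h0]
    symm
    refine sum_eq_zero fun i _ => ?_
    have : ¬ (0 : ℤ) ≤ k - i := by
      have : (0 : ℤ) ≤ i := by positivity
      linarith
    rw [ext, if_neg this]

lemma ext_pf2 (n : ℕ) : ∀ (m : ℕ) (i j : ℤ), i ≤ j →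
    ext m n i * ext m n (j + 1) ≤ ext m n (i + 1) * ext m n j := by
  intro m
  induction m with
  | zero =>
    intro i j hij
    have hnn : ∀ k : ℤ, 0 ≤ ext 0 n k := by
      intro k
      unfold ext
      split_ifs
      · positivity
      · exact le_rfl
    have h0 : ∀ k : ℤ, k ≠ 0 → ext 0 n k = 0 := by
      intro k hk
      unfold ext
      split_ifs with h
      · rw [lev_zero]
        have : k.toNat ≠ 0 := by omega
        simp [this]
      · rfl
    have : ext 0 n i * ext 0 n (j + 1) = 0 := by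
      by_cases hi : i = 0
      · rw [h0 (j + 1) (by omega), mul_zero]
      · rw [h0 i hi, zero_mul]
    rw [this]
    exact mul_nonneg (hnn _) (hnn _)
  | succ m ih =>
    intro i j hij
    simp only [ext_succ]
    exact W_pf2 _ n ih i j hij

end Lev

theorem lev_pf2 (m n : ℕ) {i j : ℕ} (hij : i ≤ j) :
    lev m n i * lev m n (j + 1) ≤ lev m n (i + 1) * lev m n j := by
  have h := ext_pf2 n m (i : ℤ) (j : ℤ) (by exact_mod_cast hij)
  have e1 : ((j : ℤ) + 1) = ((j + 1 : ℕ) : ℤ) := by push_cast; ring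
  have e2 : ((i : ℤ) + 1) = ((i + 1 : ℕ) : ℤ) := by push_cast; ring
  rw [e1, e2] at h
  simp only [ext_natCast] at h
  exact_mod_cast h

theorem lev_symm {m n r : ℕ} (hr : r ≤ m * n) : lev m n (m * n - r) = lev m n r := by
  have key : ∀ a ∈ Qset m n, rkF (fun i => n - a i) + rkF a = m * n := by
    intro a ha
    have h := mem_Qset.1 ha
    unfold rkF
    rw [← sum_add_distrib]
    rw [sum_congr rfl (fun i _ => Nat.sub_add_cancel (h i))]
    simp
  unfold lev
  refine card_nbij' (fun a i => n - a i) (fun a i => n - a i) ?_ ?_ ?_ ?_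
  · intro a ha
    simp only [coe_filter, Set.mem_ofPred_eq] at ha ⊢
    refine ⟨mem_Qset.2 fun i => Nat.sub_le _ _, ?_⟩
    have := key a ha.1
    omega
  · intro a ha
    simp only [coe_filter, Set.mem_ofPred_eq] at ha ⊢
    refine ⟨mem_Qset.2 fun i => Nat.sub_le _ _, ?_⟩
    have := key a ha.1
    omega
  · intro a ha
    simp only [coe_filter, Set.mem_ofPred_eq] at ha
    funext i
    exact Nat.sub_sub_self (mem_Qset.1 ha.1 i)
  · intro a ha
    simp only [coe_filter, Set.mem_ofPred_eq] at ha
    funext i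
    exact Nat.sub_sub_self (mem_Qset.1 ha.1 i)

theorem lev_eq_zero {m n r : ℕ} (hr : m * n < r) : lev m n r = 0 := by
  unfold lev
  rw [card_eq_zero, filter_eq_empty_iff]
  intro a ha h
  have := rkF_le ha
  omega

theorem lev_mono {m n r r' : ℕ} (h1 : r ≤ r') (h2 : 2 * r' ≤ m * n) :
    lev m n r ≤ lev m n r' := by
  induction r', h1 using Nat.le_induction with
  | base => exact le_rfl
  | succ s hs ih =>
    refine (ih (by omega)).trans ?_
    have h := lev_pf2 m n (i := s) (j := m * n - s - 1) (by omega)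
    have e1 : m * n - s - 1 + 1 = m * n - s := by omega
    have e2 : m * n - s - 1 = m * n - (s + 1) := by omega
    rw [e1, e2, lev_symm (by omega), lev_symm (by omega)] at h
    exact Nat.mul_self_le_mul_self_iff.1 h

theorem lev_pos {m n r : ℕ} (hr : r ≤ m * n) : 0 < lev m n r := by
  induction m generalizing r with
  | zero =>
    have : r = 0 := by omega
    rw [lev_zero, this]
    simp
  | succ m ih =>
    rw [lev_succ]
    have hmem : min r n ∈ range (n + 1) := by
      rw [mem_range]
      omega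
    refine lt_of_lt_of_le ?_ (single_le_sum (f := fun i => if i ≤ r then lev m n (r - i) else 0)
      (fun i _ => Nat.zero_le _) hmem)
    simp only [min_le_left, if_true]
    refine ih ?_
    rw [Nat.succ_mul] at hr
    omega

theorem lev_le {m n : ℕ} (hm : 1 ≤ m) (r : ℕ) : lev m n r ≤ (n + 1) ^ (m - 1) := by
  obtain ⟨k, rfl⟩ := Nat.exists_eq_add_of_le' hm
  rw [Nat.add_sub_cancel, ← card_Qset k n]
  unfold lev
  refine card_le_card_of_injOn (fun a => Fin.tail a) ?_ ?_
  · intro a ha
    have := (mem_filter.1 (mem_coe.1 ha)).1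
    exact mem_coe.2 (mem_Qset.2 fun j => mem_Qset.1 this j.succ)
  · intro a ha b hb hab
    have ha' := (mem_filter.1 (mem_coe.1 ha)).2
    have hb' := (mem_filter.1 (mem_coe.1 hb)).2
    have hr : ∀ a : Fin (k + 1) → ℕ, rkF a = a 0 + rkF (Fin.tail a) := by
      intro a
      unfold rkF
      rw [Fin.sum_univ_succ]
      rfl
    have hab' : Fin.tail a = Fin.tail b := hab
    have h0 : a 0 = b 0 := by
      have h1 := hr a
      have h2 := hr b
      rw [hab'] at h1
      omega
    rw [← Fin.cons_self_tail a, ← Fin.cons_self_tail b, h0, hab']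

theorem lev_sum (m n : ℕ) : ∑ r ∈ range (m * n + 1), lev m n r = (n + 1) ^ m := by
  rw [← card_Qset m n]
  unfold lev
  symm
  refine card_eq_sum_card_fiberwise ?_
  intro a ha
  exact mem_coe.2 (mem_range.2 (Nat.lt_succ_iff.2 (rkF_le (mem_coe.1 ha))))

end Pool.Agent.Helper30.SC
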