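import Pool.Agent.Helper30.SC.Defs

set_option autoImplicit false

/-!
# SC-17 LevM: second moment of the rank of `{0,...,n}^m`

PROOF. `∑_r (m n - 2 r)^2 lev m n r = ∑_{x ∈ Qset m n} (∑_j (n - 2 x_j))^2`
(fibrewise sum over the rank; all ranks are `≤ m n`). Expand the square:
`∑_j ∑_k ∑_x (n - 2 x_j) (n - 2 x_k)`; for `j ≠ k` the involution `x_j ↦ n - x_j` of `Qset m n`
changes the sign of the summand, so the sum over `x` is `0`; for `j = k` each summand is `≤ n^2`
and there are `(n+1)^m` of them.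
-/

namespace Pool.Agent.Helper30.SC

open Finset

private lemma levM_mem {m n : ℕ} {x : Fin m → ℕ} (hx : x ∈ Qset m n) (j : Fin m) : x j ≤ n := by
  have := (Fintype.mem_piFinset.1 hx) j
  rw [mem_range] at this
  omega

private lemma levM_cross {m n : ℕ} {j k : Fin m} (hjk : j ≠ k) :
    ∑ x ∈ Qset m n, ((n : ℝ) - 2 * (x j : ℝ)) * ((n : ℝ) - 2 * (x k : ℝ)) = 0 := by
  refine Finset.sum_involution (fun x _ => Function.update x j (n - x j)) ?_ ?_ ?_ ?_
  · intro x hx
    have h1 := levM_mem hx j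
    have h2 : (Function.update x j (n - x j)) k = x k := by
      rw [Function.update_of_ne (Ne.symm hjk)]
    simp only [Function.update_self, h2]
    rw [Nat.cast_sub h1]
    ring
  · intro x hx hne heq
    apply hne
    have h1 := levM_mem hx j
    have h2 : n - x j = x j := by
      have := congrFun heq j
      simpa using this
    have h3 : (n : ℝ) - 2 * (x j : ℝ) = 0 := by
      have h4 : n = 2 * x j := by omega
      rw [h4]; push_cast; ring
    rw [h3, zero_mul]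
  · intro x hx
    unfold Qset
    rw [Fintype.mem_piFinset]
    intro i
    by_cases hi : i = j
    · subst hi
      simp only [Function.update_self, mem_range]
      omega
    · rw [Function.update_of_ne hi]
      exact (Fintype.mem_piFinset.1 hx) i
  · intro x hx
    have h1 := levM_mem hx j
    simp only [Function.update_self, Function.update_idem]
    have h2 : n - (n - x j) = x j := by omega
    rw [h2, Function.update_eq_self]

private lemma levM_diag {m n : ℕ} (j : Fin m) :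
    ∑ x ∈ Qset m n, ((n : ℝ) - 2 * (x j : ℝ)) * ((n : ℝ) - 2 * (x j : ℝ)) ≤
      (n : ℝ) ^ 2 * ((n : ℝ) + 1) ^ m := by
  have hcard : ((Qset m n).card : ℝ) = ((n : ℝ) + 1) ^ m := by
    unfold Qset
    rw [Fintype.card_piFinset]
    simp
  have h : ∀ x ∈ Qset m n, ((n : ℝ) - 2 * (x j : ℝ)) * ((n : ℝ) - 2 * (x j : ℝ)) ≤
      (n : ℝ) ^ 2 := by
    intro x hx
    have h1 : (x j : ℝ) ≤ n := by exact_mod_cast levM_mem hx j
    have h0 : (0 : ℝ) ≤ x j := by positivity
    nlinarith [mul_nonneg h0 (sub_nonneg.2 h1)]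
  calc _ ≤ ∑ _x ∈ Qset m n, (n : ℝ) ^ 2 := Finset.sum_le_sum h
    _ = (n : ℝ) ^ 2 * ((n : ℝ) + 1) ^ m := by
      rw [Finset.sum_const, nsmul_eq_mul, hcard]
      ring

theorem lev_moment (m n : ℕ) :
    ∑ r ∈ range (m * n + 1), (((m : ℝ) * n) - 2 * (r : ℝ)) ^ 2 * (lev m n r : ℝ) ≤
      (m : ℝ) * (n : ℝ) ^ 2 * ((n : ℝ) + 1) ^ m := by
  have hmaps : ∀ x ∈ Qset m n, rkF x ∈ range (m * n + 1) := by
    intro x hx
    rw [mem_range]
    have : rkF x ≤ m * n := by
      unfold rkF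
      calc ∑ i, x i ≤ ∑ _i : Fin m, n := Finset.sum_le_sum (fun i _ => levM_mem hx i)
        _ = m * n := by simp
    omega
  have h1 : ∑ r ∈ range (m * n + 1), (((m : ℝ) * n) - 2 * (r : ℝ)) ^ 2 * (lev m n r : ℝ) =
      ∑ x ∈ Qset m n, (((m : ℝ) * n) - 2 * (rkF x : ℝ)) ^ 2 := by
    rw [← Finset.sum_fiberwise_of_maps_to hmaps]
    refine Finset.sum_congr rfl ?_
    intro r _
    have : ∑ x ∈ (Qset m n).filter (fun a => rkF a = r), (((m : ℝ) * n) - 2 * (rkF x : ℝ)) ^ 2 =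
        ∑ _x ∈ (Qset m n).filter (fun a => rkF a = r), (((m : ℝ) * n) - 2 * (r : ℝ)) ^ 2 := by
      refine Finset.sum_congr rfl ?_
      intro x hx
      rw [(mem_filter.1 hx).2]
    rw [this, Finset.sum_const, nsmul_eq_mul]
    unfold lev
    ring
  have h2 : ∀ x : Fin m → ℕ, (((m : ℝ) * n) - 2 * (rkF x : ℝ)) ^ 2 =
      ∑ j, ∑ k, ((n : ℝ) - 2 * (x j : ℝ)) * ((n : ℝ) - 2 * (x k : ℝ)) := by
    intro x
    have h3 : ((m : ℝ) * n) - 2 * (rkF x : ℝ) = ∑ j, ((n : ℝ) - 2 * (x j : ℝ)) := by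
      unfold rkF
      rw [Finset.sum_sub_distrib, ← Finset.mul_sum]
      push_cast
      simp
    rw [h3, sq, Finset.sum_mul_sum]
  rw [h1]
  calc ∑ x ∈ Qset m n, (((m : ℝ) * n) - 2 * (rkF x : ℝ)) ^ 2
      = ∑ x ∈ Qset m n, ∑ j, ∑ k, ((n : ℝ) - 2 * (x j : ℝ)) * ((n : ℝ) - 2 * (x k : ℝ)) :=
        Finset.sum_congr rfl (fun x _ => h2 x)
    _ = ∑ j, ∑ k, ∑ x ∈ Qset m n, ((n : ℝ) - 2 * (x j : ℝ)) * ((n : ℝ) - 2 * (x k : ℝ)) := by
        rw [Finset.sum_comm]
        refine Finset.sum_congr rfl ?_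
        intro j _
        rw [Finset.sum_comm]
    _ = ∑ j, ∑ x ∈ Qset m n, ((n : ℝ) - 2 * (x j : ℝ)) * ((n : ℝ) - 2 * (x j : ℝ)) := by
        refine Finset.sum_congr rfl ?_
        intro j _
        refine Finset.sum_eq_single j ?_ ?_
        · intro k _ hk
          exact levM_cross (Ne.symm hk)
        · intro h
          exact absurd (mem_univ j) h
    _ ≤ ∑ _j : Fin m, (n : ℝ) ^ 2 * ((n : ℝ) + 1) ^ m :=
        Finset.sum_le_sum (fun j _ => levM_diag j)
    _ = (m : ℝ) * (n : ℝ) ^ 2 * ((n : ℝ) + 1) ^ m := by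
        rw [Finset.sum_const, nsmul_eq_mul]
        simp
        ring

end Pool.Agent.Helper30.SC
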