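import Pool.Agent.Helper30.SC.Defs

set_option autoImplicit false

/-!
# SC-21 SubSeq: from the subset model to sequences

`seqOf m S i = (i-th smallest element of S) - i`.
PROOF. `Good.map` is a reindexing of the family: `c' j r = f (c j r)`, same `d`.
For `S ∈ Sub m n` let `S_0 < ... < S_{m-1}` be its elements (`S.orderEmbOfFin`), `i ≤ S_i ≤ n + i`,
`a_i = S_i - i` is monotone, `≤ n`, `∑ a_i = ∑ S - m (m-1)/2 = rkS m S`; `S` is determined by `a`.
If `T = insert (b+1) (S.erase b)` then `S_i ≤ T_i` for all `i`: `T_i` is the `i`-th element of the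
strictly increasing family obtained from `S_i` by replacing `b` by `b + 1`
(`Finset.orderEmbOfFin_unique`), or count elements `≤ t`.
`card_Lset`: `a ↦ {a_i + i}` is injective from `Lset m n` to `Sub m n`, together with the
injectivity of `S ↦ a` this gives the equality of the cardinals, `card_powersetCard`.
-/

namespace Pool.Agent.Helper30.SC

open Finset

theorem Good.map {α β : Type} {rk : α → ℕ} {cov : α → α → Prop} {N : ℕ} {P : Finset α}
    {rk' : β → ℕ} {cov' : β → β → Prop} {P' : Finset β} {e : ℝ} (f : α → β)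
    (hP : ∀ x ∈ P, f x ∈ P') (hinj : ∀ x ∈ P, ∀ y ∈ P, f x = f y → x = y)
    (hrk : ∀ x ∈ P, rk' (f x) = rk x)
    (hcov : ∀ x ∈ P, ∀ y ∈ P, cov x y → cov' (f x) (f y)) (hcard : P'.card = P.card)
    (h : Good rk cov N P e) : Good rk' cov' N P' e := by
  obtain ⟨l, c, d, ⟨h1, h2, h3, h4⟩, h5⟩ := h
  refine ⟨l, fun j r => f (c j r), d, ⟨h1, ?_, ?_, ?_⟩, ?_⟩
  · intro j r hr1 hr2
    obtain ⟨hm, hrk'⟩ := h2 j r hr1 hr2
    exact ⟨hP _ hm, by rw [hrk _ hm, hrk']⟩
  · intro j r hr1 hr2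
    exact hcov _ (h2 j r hr1 (by omega)).1 _ (h2 j (r + 1) (by omega) hr2).1 (h3 j r hr1 hr2)
  · intro j j' r hr1 hr2 hr3 hr4 heq
    exact h4 j j' r hr1 hr2 hr3 hr4
      (hinj _ (h2 j r hr1 hr2).1 _ (h2 j' r hr3 hr4).1 heq)
  · rw [hcard]
    exact h5

namespace SubSeq

theorem strict_gap {m : ℕ} {s : Fin m → ℕ} (hs : StrictMono s) (i j : Fin m) (hij : i ≤ j) :
    s i + ((j : ℕ) - (i : ℕ)) ≤ s j := by
  obtain ⟨i, hi⟩ := i
  obtain ⟨j, hj⟩ := j
  simp only [Fin.mk_le_mk] at hij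
  induction j, hij using Nat.le_induction with
  | base => simp
  | succ k hk ih =>
    have h1 := ih (by omega)
    have h2 : s ⟨k, by omega⟩ < s ⟨k + 1, hj⟩ := hs (by simp)
    simp only at h1 ⊢
    omega

theorem strict_ge {m : ℕ} {s : Fin m → ℕ} (hs : StrictMono s) (i : Fin m) : (i : ℕ) ≤ s i := by
  have h0 : 0 < m := i.pos
  have := strict_gap hs ⟨0, h0⟩ i (by simp [Fin.le_def])
  simp only at this
  omega

/-- the sequence of a set -/
noncomputable def seqOf (m : ℕ) (S : Finset ℕ) : Fin m → ℕ :=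
  open Classical in
  if h : S.card = m then fun i => S.orderEmbOfFin h i - (i : ℕ) else fun _ => 0

theorem seqOf_apply {m : ℕ} {S : Finset ℕ} (h : S.card = m) (i : Fin m) :
    seqOf m S i = S.orderEmbOfFin h i - (i : ℕ) := by
  unfold seqOf
  rw [dif_pos h]

theorem seqOf_add {m : ℕ} {S : Finset ℕ} (h : S.card = m) (i : Fin m) :
    seqOf m S i + (i : ℕ) = S.orderEmbOfFin h i := by
  rw [seqOf_apply h]
  have := strict_ge (S.orderEmbOfFin h).strictMono i
  omega

theorem sum_val (m : ℕ) : ∑ i : Fin m, (i : ℕ) = m * (m - 1) / 2 := by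
  rw [Fin.sum_univ_eq_sum_range (fun i => i) m]
  exact Finset.sum_range_id m

theorem sum_orderEmb {m : ℕ} {S : Finset ℕ} (h : S.card = m) :
    ∑ i : Fin m, S.orderEmbOfFin h i = ∑ b ∈ S, b := by
  conv_rhs => rw [← Finset.map_orderEmbOfFin_univ S h]
  rw [Finset.sum_map]
  rfl

theorem sum_seqOf {m : ℕ} {S : Finset ℕ} (h : S.card = m) :
    ∑ i : Fin m, seqOf m S i + m * (m - 1) / 2 = ∑ b ∈ S, b := by
  rw [← sum_val, ← Finset.sum_add_distrib, ← sum_orderEmb h]
  exact Finset.sum_congr rfl (fun i _ => seqOf_add h i)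

theorem eq_of_seqOf {m : ℕ} {S T : Finset ℕ} (hS : S.card = m) (hT : T.card = m)
    (h : seqOf m S = seqOf m T) : S = T := by
  have h1 : ∀ i, S.orderEmbOfFin hS i = T.orderEmbOfFin hT i := by
    intro i
    rw [← seqOf_add hS, ← seqOf_add hT, h]
  have h2 : (S.orderEmbOfFin hS : Fin m ↪o ℕ) = T.orderEmbOfFin hT := by
    ext i
    exact h1 i
  rw [← Finset.map_orderEmbOfFin_univ S hS, ← Finset.map_orderEmbOfFin_univ T hT, h2]

theorem mem_Sub {m n : ℕ} {S : Finset ℕ} : S ∈ Sub m n ↔ S ⊆ range (m + n) ∧ S.card = m := by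
  unfold Sub
  exact Finset.mem_powersetCard

theorem mem_Lset {m n : ℕ} {a : Fin m → ℕ} : a ∈ Lset m n ↔ (∀ i, a i ≤ n) ∧ Monotone a := by
  classical
  unfold Lset Qset
  simp only [Finset.mem_filter, Fintype.mem_piFinset, Finset.mem_range, Nat.lt_succ_iff]

theorem seqOf_mem {m n : ℕ} {S : Finset ℕ} (h : S ∈ Sub m n) : seqOf m S ∈ Lset m n := by
  obtain ⟨hsub, hc⟩ := mem_Sub.1 h
  have hst := (S.orderEmbOfFin hc).strictMono
  rw [mem_Lset]
  constructor
  · intro i
    have hm : 0 < m := i.pos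
    have h1 := strict_gap hst i ⟨m - 1, by omega⟩ (by
      rw [Fin.le_def]
      simp only
      omega)
    have h2 : S.orderEmbOfFin hc ⟨m - 1, by omega⟩ < m + n :=
      Finset.mem_range.1 (hsub (Finset.orderEmbOfFin_mem S hc _))
    have h3 := seqOf_add hc i
    have h4 := i.isLt
    simp only at h1
    omega
  · intro i j hij
    have h1 := strict_gap hst i j hij
    have h2 := seqOf_add hc i
    have h3 := seqOf_add hc j
    have h4 : (i : ℕ) ≤ (j : ℕ) := hij
    omega

/-- the set of a sequence -/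
def setOf' {m : ℕ} (a : Fin m → ℕ) : Finset ℕ := univ.image (fun i : Fin m => a i + (i : ℕ))

theorem strictMono_add {m : ℕ} {a : Fin m → ℕ} (ha : Monotone a) :
    StrictMono (fun i : Fin m => a i + (i : ℕ)) := by
  intro i j hij
  have h1 := ha hij.le
  have h2 : (i : ℕ) < (j : ℕ) := hij
  simp only
  omega

theorem card_setOf' {m : ℕ} {a : Fin m → ℕ} (ha : Monotone a) : (setOf' a).card = m := by
  unfold setOf'
  rw [Finset.card_image_of_injective _ (strictMono_add ha).injective, Finset.card_univ,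
    Fintype.card_fin]

theorem seqOf_setOf' {m : ℕ} {a : Fin m → ℕ} (ha : Monotone a) : seqOf m (setOf' a) = a := by
  have h1 : (fun i : Fin m => a i + (i : ℕ)) = (setOf' a).orderEmbOfFin (card_setOf' ha) :=
    Finset.orderEmbOfFin_unique (card_setOf' ha)
      (fun x => Finset.mem_image_of_mem _ (Finset.mem_univ x)) (strictMono_add ha)
  funext i
  have h2 := congrFun h1 i
  have h3 := seqOf_add (card_setOf' ha) i
  omega

theorem setOf'_mem {m n : ℕ} {a : Fin m → ℕ} (ha : a ∈ Lset m n) : setOf' a ∈ Sub m n := by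
  rw [mem_Lset] at ha
  rw [mem_Sub]
  refine ⟨?_, card_setOf' ha.2⟩
  intro x hx
  unfold setOf' at hx
  rw [Finset.mem_image] at hx
  obtain ⟨i, -, rfl⟩ := hx
  rw [Finset.mem_range]
  have h1 := ha.1 i
  have h2 := i.isLt
  omega

theorem orderEmb_le {m : ℕ} {S T : Finset ℕ} (hS : S.card = m) (hT : T.card = m)
    {b : ℕ} (hb1 : b + 1 ∉ S) (h : T = insert (b + 1) (S.erase b)) (i : Fin m) :
    S.orderEmbOfFin hS i ≤ T.orderEmbOfFin hT i := by
  classical
  have hst := (S.orderEmbOfFin hS).strictMono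
  have hmem : ∀ i, S.orderEmbOfFin hS i ∈ S := fun i => Finset.orderEmbOfFin_mem S hS i
  have hg : (fun i : Fin m => if S.orderEmbOfFin hS i = b then b + 1 else S.orderEmbOfFin hS i)
      = T.orderEmbOfFin hT := by
    refine Finset.orderEmbOfFin_unique hT ?_ ?_
    · intro x
      rw [h]
      split_ifs with hx
      · exact Finset.mem_insert_self _ _
      · exact Finset.mem_insert_of_mem (Finset.mem_erase.2 ⟨hx, hmem x⟩)
    · intro x y hxy
      have h1 := hst hxy
      have h2 : S.orderEmbOfFin hS y ≠ b + 1 := fun h' => hb1 (h' ▸ hmem y)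
      simp only
      split_ifs with hx hy hy
      · omega
      · omega
      · omega
      · exact h1
  have h3 := congrFun hg i
  rw [← h3]
  split_ifs with hx
  · omega
  · exact le_rfl

theorem sum_cov {S T : Finset ℕ} {b : ℕ} (hb : b ∈ S) (hb1 : b + 1 ∉ S)
    (h : T = insert (b + 1) (S.erase b)) : ∑ x ∈ T, x = ∑ x ∈ S, x + 1 := by
  rw [h, Finset.sum_insert (fun h' => hb1 (Finset.mem_of_mem_erase h'))]
  have := Finset.add_sum_erase S (fun x => x) hb
  omega

end SubSeq

theorem card_Lset (m n : ℕ) : (Lset m n).card = (m + n).choose m := by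
  have hsub : (Sub m n).card = (m + n).choose m := by
    unfold Sub
    rw [Finset.card_powersetCard, Finset.card_range]
  rw [← hsub]
  refine le_antisymm ?_ ?_
  · refine Finset.card_le_card_of_injOn (fun a => SubSeq.setOf' a) ?_ ?_
    · intro a ha
      exact SubSeq.setOf'_mem ha
    · intro a ha a' ha' h
      have h1 := (SubSeq.mem_Lset.1 ha).2
      have h2 := (SubSeq.mem_Lset.1 ha').2
      rw [← SubSeq.seqOf_setOf' h1, ← SubSeq.seqOf_setOf' h2]
      exact congrArg (SubSeq.seqOf m) h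
  · refine Finset.card_le_card_of_injOn (fun S => SubSeq.seqOf m S) ?_ ?_
    · intro S hS
      exact SubSeq.seqOf_mem hS
    · intro S hS T hT h
      exact SubSeq.eq_of_seqOf (SubSeq.mem_Sub.1 hS).2 (SubSeq.mem_Sub.1 hT).2 h

theorem sub_seq (m n : ℕ) : ∃ f : Finset ℕ → (Fin m → ℕ),
    (∀ S ∈ Sub m n, f S ∈ Lset m n) ∧
    (∀ S ∈ Sub m n, ∀ T ∈ Sub m n, f S = f T → S = T) ∧
    (∀ S ∈ Sub m n, rkF (f S) = rkS m S) ∧
    (∀ S ∈ Sub m n, ∀ T ∈ Sub m n, covS S T → covF (f S) (f T)) := by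
  refine ⟨fun S => SubSeq.seqOf m S, fun S hS => SubSeq.seqOf_mem hS, fun S hS T hT h =>
    SubSeq.eq_of_seqOf (SubSeq.mem_Sub.1 hS).2 (SubSeq.mem_Sub.1 hT).2 h, ?_, ?_⟩
  · intro S hS
    have h1 := SubSeq.sum_seqOf (SubSeq.mem_Sub.1 hS).2
    unfold rkF rkS
    simp only
    omega
  · rintro S hS T hT ⟨b, hb, hb1, hTe⟩
    have hSc := (SubSeq.mem_Sub.1 hS).2
    have hTc := (SubSeq.mem_Sub.1 hT).2
    constructor
    · intro i
      have h1 := SubSeq.orderEmb_le hSc hTc hb1 hTe i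
      have h2 := SubSeq.seqOf_add hSc i
      have h3 := SubSeq.seqOf_add hTc i
      simp only
      omega
    · have h1 := SubSeq.sum_seqOf hSc
      have h2 := SubSeq.sum_seqOf hTc
      have h3 := SubSeq.sum_cov hb hb1 hTe
      unfold rkF
      simp only
      omega

end Pool.Agent.Helper30.SC
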