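import Pool.Agent.Helper30.SC.CutA
import Pool.Agent.Helper30.SC.LevM
import Pool.Agent.Helper30.SC.SubSeq

set_option autoImplicit false

/-!
# SC-22 MassA: the good levels carry almost everything (range `m^2 ≤ n + 1`)

`Φ = C(m+n, m) = |Lset n m|`, `p r = |{a ∈ Lset n m : rk a = r}|`, `q r = lev m n r / m!`,
`D = m^2 / (n+1)`, `N = m n`.
PROOF of `count_A`: `m! Φ = ∏_{i=1}^m (n + i)`, `(n+1) / (n+i) ≥ 1 - (i-1)/(n+1)`, and
`∏ (1 - x_i) ≥ 1 - ∑ x_i`, `∑_{i≤m} (i-1) ≤ m^2`.
PROOF of `mass_A`. `p r ≥ q r` (`lev_le_card`), `∑_r q r = (n+1)^m / m! ≥ (1 - D) Φ` (`lev_sum`),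
`∑ p r = Φ` (`card_Lset`, `rkF_le`), so `∑_r (p r - q r) ≤ D Φ`. A level is bad if
`p r > (1 + √D) q r`; then `p r ≤ (1 + 1/√D) (p r - q r)`, so the bad levels have
`∑ p r ≤ (1 + 1/√D) D Φ ≤ 2 √D Φ` (`D ≤ 1`). The levels with `q r < η'`,
`η' = κ (n+1)^m / (m! (√(m/κ) n + 1))`: `∑ q r ≤ ∑_{|N - 2r| > D'} q r + (D' + 1) η'` with
`D' = √(m/κ) n`, and the first sum is `≤ m n^2 (n+1)^m / (m! D'^2) = κ (n+1)^m / m!` (`lev_moment`);
so `∑ q r ≤ 2 κ (n+1)^m / m! ≤ 2 κ Φ` and `∑ p r ≤ ∑ q r + D Φ`. The elements whose level is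
neither bad nor small: at least `(1 - 2 √D - 2 κ - D) Φ`.
-/

namespace Pool.Agent.Helper30.SC

open Finset

/-- the threshold of the small levels -/
noncomputable def etaA (m n : ℕ) (κ : ℝ) : ℝ :=
  κ * ((n : ℝ) + 1) ^ m / ((m.factorial : ℝ) * (Real.sqrt ((m : ℝ) / κ) * n + 1))

theorem count_A (m n : ℕ) :
    (1 - (m : ℝ) ^ 2 / ((n : ℝ) + 1)) * ((m + n).choose m : ℝ) ≤
      ((n : ℝ) + 1) ^ m / (m.factorial : ℝ) := by
  have hn : (0 : ℝ) < (n : ℝ) + 1 := by positivity
  have hf : (0 : ℝ) < (m.factorial : ℝ) := by exact_mod_cast m.factorial_pos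
  have key : ∀ k : ℕ, (1 - (k : ℝ) ^ 2 / ((n : ℝ) + 1)) * ((n + 1).ascFactorial k : ℝ) ≤
      ((n : ℝ) + 1) ^ k := by
    intro k
    induction k with
    | zero => simp
    | succ k ih =>
      have hP : (0 : ℝ) ≤ ((n + 1).ascFactorial k : ℝ) := by positivity
      rw [Nat.ascFactorial_succ]
      push_cast
      have h1 : (1 - ((k : ℝ) + 1) ^ 2 / ((n : ℝ) + 1)) * ((n : ℝ) + 1 + k) ≤
          ((n : ℝ) + 1) * (1 - (k : ℝ) ^ 2 / ((n : ℝ) + 1)) := by
        have e1 : ((n : ℝ) + 1) * (1 - (k : ℝ) ^ 2 / ((n : ℝ) + 1)) = (n : ℝ) + 1 - (k : ℝ) ^ 2 := by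
          field_simp
        have e2 : (1 - ((k : ℝ) + 1) ^ 2 / ((n : ℝ) + 1)) * ((n : ℝ) + 1 + k) =
            (n : ℝ) + 1 + k - ((k : ℝ) + 1) ^ 2 - k * (((k : ℝ) + 1) ^ 2 / ((n : ℝ) + 1)) := by
          field_simp
          ring
        rw [e1, e2]
        have : 0 ≤ (k : ℝ) * (((k : ℝ) + 1) ^ 2 / ((n : ℝ) + 1)) := by positivity
        have hk : (0 : ℝ) ≤ (k : ℝ) := by positivity
        nlinarith
      calc (1 - ((k : ℝ) + 1) ^ 2 / ((n : ℝ) + 1)) *
            (((n : ℝ) + 1 + k) * ((n + 1).ascFactorial k : ℝ))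
          = ((1 - ((k : ℝ) + 1) ^ 2 / ((n : ℝ) + 1)) * ((n : ℝ) + 1 + k)) *
            ((n + 1).ascFactorial k : ℝ) := by ring
        _ ≤ (((n : ℝ) + 1) * (1 - (k : ℝ) ^ 2 / ((n : ℝ) + 1))) *
            ((n + 1).ascFactorial k : ℝ) := mul_le_mul_of_nonneg_right h1 hP
        _ = ((n : ℝ) + 1) * ((1 - (k : ℝ) ^ 2 / ((n : ℝ) + 1)) *
            ((n + 1).ascFactorial k : ℝ)) := by ring
        _ ≤ ((n : ℝ) + 1) * ((n : ℝ) + 1) ^ k := mul_le_mul_of_nonneg_left ih hn.le
        _ = ((n : ℝ) + 1) ^ (k + 1) := by ring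
  rw [le_div_iff₀ hf]
  have h2 := key m
  rw [Nat.ascFactorial_eq_factorial_mul_choose, Nat.add_comm n m] at h2
  push_cast at h2
  calc _ = (1 - (m : ℝ) ^ 2 / ((n : ℝ) + 1)) * ((m.factorial : ℝ) * ((m + n).choose m : ℝ)) := by
        ring
    _ ≤ _ := h2

namespace MassA

/-- the number of elements of rank `r` of `L(n,m)` -/
noncomputable def pp (m n r : ℕ) : ℝ := (((Lset n m).filter (fun b => rkF b = r)).card : ℝ)

/-- the normalized level number -/
noncomputable def qq (m n r : ℕ) : ℝ := (lev m n r : ℝ) / (m.factorial : ℝ)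

theorem qq_nonneg (m n r : ℕ) : 0 ≤ qq m n r := by unfold qq; positivity

theorem qq_le_pp (m n r : ℕ) : qq m n r ≤ pp m n r := by
  have hf : (0 : ℝ) < (m.factorial : ℝ) := by exact_mod_cast m.factorial_pos
  unfold qq pp
  rw [div_le_iff₀ hf]
  have h : lev m n r ≤ m.factorial * ((Lset n m).filter (fun b => rkF b = r)).card := by
    unfold lev
    refine Finset.card_le_mul_card_image_of_maps_to (f := conj m n) ?_ _ ?_
    · intro x hx
      rw [mem_filter] at hx ⊢
      exact ⟨conj_mem x, by rw [conj_rk hx.1, hx.2]⟩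
    · intro z _
      refine le_trans (card_le_card ?_) (conj_fiber (m := m) (n := n) z)
      intro x hx
      simp only [mem_filter] at hx ⊢
      exact ⟨hx.1.1, hx.2⟩
  calc (lev m n r : ℝ) ≤ ((m.factorial * ((Lset n m).filter (fun b => rkF b = r)).card : ℕ) : ℝ) := by
        exact_mod_cast h
    _ = _ := by push_cast; ring

theorem sum_pp (m n : ℕ) (Q : ℕ → Prop) [DecidablePred Q] :
    (((Lset n m).filter (fun a => Q (rkF a))).card : ℝ) =
      ∑ r ∈ (range (m * n + 1)).filter Q, pp m n r := by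
  have h := Finset.card_eq_sum_card_fiberwise (s := (Lset n m).filter (fun a => Q (rkF a)))
    (t := (range (m * n + 1)).filter Q) (f := fun a => rkF a) (by
      intro a ha
      simp only [coe_filter, Set.mem_setOf_eq] at ha
      simp only [coe_filter, Set.mem_setOf_eq, mem_range]
      refine ⟨?_, ha.2⟩
      have := rkF_le ha.1
      rw [Nat.mul_comm n m] at this
      omega)
  rw [h]
  push_cast
  refine Finset.sum_congr rfl ?_
  intro r hr
  unfold pp
  congr 2
  ext a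
  simp only [mem_filter] at hr ⊢
  constructor
  · rintro ⟨⟨h1, _⟩, h3⟩
    exact ⟨h1, h3⟩
  · rintro ⟨h1, h3⟩
    exact ⟨⟨h1, by rw [h3]; exact hr.2⟩, h3⟩

theorem card_L (m n : ℕ) : (((Lset n m).card : ℕ) : ℝ) = ∑ r ∈ range (m * n + 1), pp m n r := by
  have h := sum_pp m n (fun _ => True)
  simpa using h

theorem card_L' (m n : ℕ) : (((Lset n m).card : ℕ) : ℝ) = ((m + n).choose m : ℝ) := by
  rw [card_Lset]
  congr 1
  rw [Nat.add_comm n m]
  exact (Nat.choose_symm_add).symm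

theorem sum_qq (m n : ℕ) :
    ∑ r ∈ range (m * n + 1), qq m n r = ((n : ℝ) + 1) ^ m / (m.factorial : ℝ) := by
  unfold qq
  rw [← Finset.sum_div]
  congr 1
  have := lev_sum m n
  calc ∑ r ∈ range (m * n + 1), (lev m n r : ℝ) = ((∑ r ∈ range (m * n + 1), lev m n r : ℕ) : ℝ) := by
        push_cast; rfl
    _ = _ := by rw [this]; push_cast; ring

/-- number of levels near the middle -/
theorem card_near (N : ℕ) (D : ℝ) (hD : 0 ≤ D) :
    (((range (N + 1)).filter (fun r : ℕ => |(N : ℝ) - 2 * (r : ℝ)| ≤ D)).card : ℝ) ≤ D + 1 := by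
  set T := (range (N + 1)).filter (fun r : ℕ => |(N : ℝ) - 2 * (r : ℝ)| ≤ D) with hT
  rcases T.eq_empty_or_nonempty with h0 | h0
  · rw [h0]; simp; linarith
  · have h1 : T ⊆ Icc (T.min' h0) (T.max' h0) := by
      intro x hx
      rw [mem_Icc]
      exact ⟨T.min'_le x hx, T.le_max' x hx⟩
    have h2 := card_le_card h1
    rw [Nat.card_Icc] at h2
    have h3 := T.min'_mem h0
    have h4 := T.max'_mem h0
    have h5 : T.min' h0 ≤ T.max' h0 := T.min'_le _ h4
    set a := T.min' h0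
    set b := T.max' h0
    rw [hT, mem_filter] at h3 h4
    have h6 := (abs_le.mp h3.2)
    have h7 := (abs_le.mp h4.2)
    have h8 : (T.card : ℝ) ≤ (b : ℝ) + 1 - a := by
      have : T.card + a ≤ b + 1 := by omega
      have : ((T.card + a : ℕ) : ℝ) ≤ ((b + 1 : ℕ) : ℝ) := by exact_mod_cast this
      push_cast at this
      linarith
    linarith [h6.1, h6.2, h7.1, h7.2]

end MassA

open MassA in
theorem mass_A {m n : ℕ} {κ : ℝ} (hm : 1 ≤ m) (hn : 1 ≤ n) (hmn : m ^ 2 ≤ n + 1) (hκ : 0 < κ) :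
    (1 - 2 * Real.sqrt ((m : ℝ) ^ 2 / ((n : ℝ) + 1)) - 2 * κ - (m : ℝ) ^ 2 / ((n : ℝ) + 1)) *
        ((Lset n m).card : ℝ) ≤
      (((Lset n m).filter (fun a =>
        (((Lset n m).filter (fun b => rkF b = rkF a)).card : ℝ) ≤
          (1 + Real.sqrt ((m : ℝ) ^ 2 / ((n : ℝ) + 1))) *
            ((lev m n (rkF a) : ℝ) / (m.factorial : ℝ)) ∧
        etaA m n κ ≤ (lev m n (rkF a) : ℝ) / (m.factorial : ℝ))).card : ℝ) := by
  classical
  set D : ℝ := (m : ℝ) ^ 2 / ((n : ℝ) + 1) with hDdef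
  set s : ℝ := Real.sqrt D with hs
  have hn1 : (0 : ℝ) < (n : ℝ) + 1 := by positivity
  have hm0 : (0 : ℝ) < (m : ℝ) := by exact_mod_cast hm
  have hn0 : (0 : ℝ) < (n : ℝ) := by exact_mod_cast hn
  have hD0 : 0 < D := by positivity
  have hD1 : D ≤ 1 := by
    rw [hDdef, div_le_one hn1]
    exact_mod_cast hmn
  have hs0 : 0 < s := Real.sqrt_pos.mpr hD0
  have hss : s * s = D := Real.mul_self_sqrt hD0.le
  have hs1 : s ≤ 1 := by
    rw [hs]; exact Real.sqrt_le_one.mpr hD1
  have hDs : D ≤ s := by nlinarith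
  set Φ : ℝ := ((Lset n m).card : ℝ) with hΦ
  have hΦ0 : 0 ≤ Φ := by positivity
  have hf : (0 : ℝ) < (m.factorial : ℝ) := by exact_mod_cast m.factorial_pos
  -- total of `p - q`
  have hpq : ∑ r ∈ range (m * n + 1), (pp m n r - qq m n r) ≤ D * Φ := by
    rw [Finset.sum_sub_distrib, ← card_L, sum_qq]
    have h := count_A m n
    rw [← card_L'] at h
    have h' : (1 - D) * Φ ≤ ((n : ℝ) + 1) ^ m / (m.factorial : ℝ) := h
    linarith
  have hqΦ : ((n : ℝ) + 1) ^ m / (m.factorial : ℝ) ≤ Φ := by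
    rw [← sum_qq, hΦ, card_L]
    exact Finset.sum_le_sum (fun r _ => qq_le_pp m n r)
  -- the bad levels
  have hbad1 : ∑ r ∈ (range (m * n + 1)).filter (fun r => ¬ pp m n r ≤ (1 + s) * qq m n r),
      pp m n r ≤ 2 * s * Φ := by
    have h1 : ∀ r ∈ (range (m * n + 1)).filter (fun r => ¬ pp m n r ≤ (1 + s) * qq m n r),
        pp m n r ≤ (1 + 1 / s) * (pp m n r - qq m n r) := by
      intro r hr
      rw [mem_filter] at hr
      have h2 := hr.2
      push Not at h2
      have e : (1 + 1 / s) * (pp m n r - qq m n r) =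
          pp m n r + (pp m n r - (1 + s) * qq m n r) / s := by
        field_simp
        ring
      rw [e]
      have : 0 ≤ (pp m n r - (1 + s) * qq m n r) / s := by
        apply div_nonneg _ hs0.le
        linarith
      linarith
    have h3 : ∑ r ∈ (range (m * n + 1)).filter (fun r => ¬ pp m n r ≤ (1 + s) * qq m n r),
        (pp m n r - qq m n r) ≤ D * Φ := by
      refine le_trans ?_ hpq
      refine Finset.sum_le_sum_of_subset_of_nonneg (filter_subset _ _) ?_
      intro r _ _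
      have := qq_le_pp m n r
      linarith
    have h4 := Finset.sum_le_sum h1
    rw [← Finset.mul_sum] at h4
    have h5 : (1 + 1 / s) * (D * Φ) = (D + s) * Φ := by
      rw [← hss]; field_simp
    have h6 : (0 : ℝ) ≤ 1 + 1 / s := by positivity
    calc _ ≤ _ := h4
      _ ≤ (1 + 1 / s) * (D * Φ) := mul_le_mul_of_nonneg_left h3 h6
      _ = (D + s) * Φ := h5
      _ ≤ 2 * s * Φ := by
          apply mul_le_mul_of_nonneg_right _ hΦ0
          linarith
  -- the small levels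
  set D' : ℝ := Real.sqrt ((m : ℝ) / κ) * n with hD'
  have hD'0 : 0 < D' := by
    rw [hD']
    have : 0 < Real.sqrt ((m : ℝ) / κ) := Real.sqrt_pos.mpr (by positivity)
    positivity
  have hD'2 : D' ^ 2 = (m : ℝ) / κ * (n : ℝ) ^ 2 := by
    rw [hD', mul_pow, Real.sq_sqrt (by positivity)]
  set A : ℝ := ((n : ℝ) + 1) ^ m / (m.factorial : ℝ) with hA
  have hA0 : 0 < A := by positivity
  have heta : etaA m n κ = κ * A / (D' + 1) := by
    unfold etaA
    rw [hA, hD']
    field_simp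
  have hsmall : ∑ r ∈ (range (m * n + 1)).filter (fun r => ¬ etaA m n κ ≤ qq m n r),
      qq m n r ≤ 2 * κ * A := by
    have hsplit : ∑ r ∈ (range (m * n + 1)).filter (fun r => ¬ etaA m n κ ≤ qq m n r),
        qq m n r ≤ (∑ r ∈ range (m * n + 1),
          ((((m : ℝ) * n) - 2 * (r : ℝ)) ^ 2 / D' ^ 2) * qq m n r) +
          ∑ r ∈ (range (m * n + 1)).filter
            (fun r : ℕ => |((m * n : ℕ) : ℝ) - 2 * (r : ℝ)| ≤ D'), etaA m n κ := by
      have e1 : ∀ r ∈ (range (m * n + 1)).filter (fun r => ¬ etaA m n κ ≤ qq m n r),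
          qq m n r ≤ ((((m : ℝ) * n) - 2 * (r : ℝ)) ^ 2 / D' ^ 2) * qq m n r +
            (if |((m * n : ℕ) : ℝ) - 2 * (r : ℝ)| ≤ D' then etaA m n κ else 0) := by
        intro r hr
        rw [mem_filter] at hr
        have h2 := hr.2
        push Not at h2
        have hq := qq_nonneg m n r
        split_ifs with hc
        · have : 0 ≤ ((((m : ℝ) * n) - 2 * (r : ℝ)) ^ 2 / D' ^ 2) * qq m n r := by positivity
          linarith
        · push Not at hc
          push_cast at hc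
          have h3 : D' ^ 2 ≤ (((m : ℝ) * n) - 2 * (r : ℝ)) ^ 2 := by
            rw [← sq_abs (((m : ℝ) * n) - 2 * (r : ℝ))]
            exact pow_le_pow_left₀ hD'0.le hc.le 2
          have h4 : 1 ≤ (((m : ℝ) * n) - 2 * (r : ℝ)) ^ 2 / D' ^ 2 := by
            rw [le_div_iff₀ (by positivity)]
            linarith
          nlinarith
      refine le_trans (Finset.sum_le_sum e1) ?_
      refine le_trans (Finset.sum_le_sum_of_subset_of_nonneg (filter_subset _ _) ?_) ?_
      · intro r _ _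
        have hq := qq_nonneg m n r
        have he : 0 ≤ etaA m n κ := by rw [heta]; positivity
        split_ifs <;> positivity
      · rw [Finset.sum_add_distrib, ← Finset.sum_filter]
    have hfirst : ∑ r ∈ range (m * n + 1),
        ((((m : ℝ) * n) - 2 * (r : ℝ)) ^ 2 / D' ^ 2) * qq m n r ≤ κ * A := by
      have e : ∑ r ∈ range (m * n + 1),
          ((((m : ℝ) * n) - 2 * (r : ℝ)) ^ 2 / D' ^ 2) * qq m n r =
          (∑ r ∈ range (m * n + 1), (((m : ℝ) * n) - 2 * (r : ℝ)) ^ 2 * (lev m n r : ℝ)) /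
            (D' ^ 2 * (m.factorial : ℝ)) := by
        rw [Finset.sum_div]
        refine Finset.sum_congr rfl ?_
        intro r _
        unfold qq
        field_simp
      rw [e, div_le_iff₀ (by positivity)]
      refine le_trans (lev_moment m n) ?_
      rw [hD'2, hA]
      apply le_of_eq
      field_simp
    have hsecond : ∑ r ∈ (range (m * n + 1)).filter
        (fun r : ℕ => |((m * n : ℕ) : ℝ) - 2 * (r : ℝ)| ≤ D'), etaA m n κ ≤ κ * A := by
      rw [Finset.sum_const, nsmul_eq_mul]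
      have h := card_near (m * n) D' hD'0.le
      have he : 0 ≤ etaA m n κ := by rw [heta]; positivity
      refine le_trans (mul_le_mul_of_nonneg_right h he) ?_
      rw [heta]
      apply le_of_eq
      field_simp
    linarith
  have hbad2 : ∑ r ∈ (range (m * n + 1)).filter (fun r => ¬ etaA m n κ ≤ qq m n r),
      pp m n r ≤ 2 * κ * Φ + D * Φ := by
    have h1 : ∑ r ∈ (range (m * n + 1)).filter (fun r => ¬ etaA m n κ ≤ qq m n r),
        (pp m n r - qq m n r) ≤ D * Φ := by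
      refine le_trans ?_ hpq
      refine Finset.sum_le_sum_of_subset_of_nonneg (filter_subset _ _) ?_
      intro r _ _
      have := qq_le_pp m n r
      linarith
    rw [Finset.sum_sub_distrib] at h1
    have h2 : 2 * κ * A ≤ 2 * κ * Φ := mul_le_mul_of_nonneg_left hqΦ (by positivity)
    linarith
  -- the good levels
  have hgood : (((Lset n m).filter (fun a =>
        (((Lset n m).filter (fun b => rkF b = rkF a)).card : ℝ) ≤
          (1 + s) * ((lev m n (rkF a) : ℝ) / (m.factorial : ℝ)) ∧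
        etaA m n κ ≤ (lev m n (rkF a) : ℝ) / (m.factorial : ℝ))).card : ℝ) =
      ∑ r ∈ (range (m * n + 1)).filter (fun r => pp m n r ≤ (1 + s) * qq m n r ∧
        etaA m n κ ≤ qq m n r), pp m n r := by
    rw [← sum_pp m n (fun r => pp m n r ≤ (1 + s) * qq m n r ∧ etaA m n κ ≤ qq m n r)]
    rfl
  rw [hgood]
  have htot : Φ = ∑ r ∈ range (m * n + 1), pp m n r := card_L m n
  have hpp0 : ∀ r, 0 ≤ pp m n r := fun r => by unfold pp; positivity
  have hcover : Φ ≤ (∑ r ∈ (range (m * n + 1)).filter (fun r => pp m n r ≤ (1 + s) * qq m n r ∧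
        etaA m n κ ≤ qq m n r), pp m n r) +
      (∑ r ∈ (range (m * n + 1)).filter (fun r => ¬ pp m n r ≤ (1 + s) * qq m n r), pp m n r) +
      (∑ r ∈ (range (m * n + 1)).filter (fun r => ¬ etaA m n κ ≤ qq m n r), pp m n r) := by
    rw [htot, Finset.sum_filter, Finset.sum_filter, Finset.sum_filter, ← Finset.sum_add_distrib,
      ← Finset.sum_add_distrib]
    refine Finset.sum_le_sum ?_
    intro r _
    have := hpp0 r
    by_cases h1 : pp m n r ≤ (1 + s) * qq m n r <;> by_cases h2 : etaA m n κ ≤ qq m n r <;>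
      simp [h1, h2] <;> linarith
  nlinarith

end Pool.Agent.Helper30.SC
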