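import Pool.Agent.Helper30.SC.Defs

set_option autoImplicit false

/-!
# SC-13 Mgf: the moment generating function of a pattern statistic

`T g p k = ∑_{S ⊆ {0..k-1}} p^|S| (1-p)^(k-|S|) exp (∑_{b ∈ S, b+1 ∉ S, b + 1 < k} g b)`.
PROOF of `T_rec`. Split the subsets of `range (k+2)` by whether `k`, `k+1` belong to `S`
(`Finset.sum_powerset_insert` twice). If `k ∈ S`, `k+1 ∉ S` the exponent is that of
`S ∩ range k`... more precisely: let `S' = S ∩ range (k+1)`. If `k + 1 ∈ S` the exponent of `S` is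
`A(S')` where `A(S')` is the exponent of `S'` for `k+1` (pairs `b, b+1 < k+1`), total contribution
`p T(k+1)`. If `k + 1 ∉ S`, the exponent is `A(S') + g k · 1[k ∈ S']`: contribution
`(1-p) T(k+1) + (1-p) (exp (g k) - 1) ∑_{S' ∋ k} weight(S') exp A(S')`, and for `k ∈ S'`,
`A(S') = A(S' ∩ range k)` (the pair `(k-1, k)` does not count), so the last sum is `p T(k)`.
`T_le`: let `c_b = p (1-p) (exp (g b) - 1)`. If `g ≥ 0` then `T` is increasing (`c ≥ 0`, `T ≥ 0`)
and `T(k+2) ≤ (1 + c_k) T(k+1) ≤ exp(c_k) T(k+1)`. If `g ≤ 0` then `c ≤ 0`, `T` is decreasing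
(all `T ≥ 0` by definition) and `T(k+2) = T(k+1) + c_k T(k) ≤ (1 + c_k) T(k+1)`.
-/

namespace Pool.Agent.Helper30.SC

open Finset

/-- the moment generating function -/
noncomputable def T (g : ℕ → ℝ) (p : ℝ) (k : ℕ) : ℝ :=
  ∑ S ∈ (range k).powerset, p ^ S.card * (1 - p) ^ (k - S.card) *
    Real.exp (∑ b ∈ S.filter (fun b => b + 1 ∉ S ∧ b + 1 < k), g b)

private noncomputable def ee (g : ℕ → ℝ) (k : ℕ) (S : Finset ℕ) : ℝ :=
  ∑ b ∈ S.filter (fun b => b + 1 ∉ S ∧ b + 1 < k), g b

private noncomputable def ww (p : ℝ) (k : ℕ) (S : Finset ℕ) : ℝ :=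
  p ^ S.card * (1 - p) ^ (k - S.card)

private theorem T_eq (g : ℕ → ℝ) (p : ℝ) (k : ℕ) :
    T g p k = ∑ S ∈ (range k).powerset, ww p k S * Real.exp (ee g k S) := rfl

private theorem ee_top (g : ℕ → ℝ) {k : ℕ} {S : Finset ℕ} (hS : S ⊆ range (k + 1)) :
    ee g (k + 2) (insert (k + 1) S) = ee g (k + 1) S := by
  unfold ee
  congr 1
  ext b
  simp only [mem_filter, mem_insert, not_or]
  constructor
  · rintro ⟨h1, ⟨h2, h3⟩, h4⟩
    rcases h1 with h1 | h1
    · omega
    · exact ⟨h1, h3, by omega⟩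
  · rintro ⟨h1, h2, h3⟩
    exact ⟨Or.inr h1, ⟨by omega, h2⟩, by omega⟩

private theorem ee_no (g : ℕ → ℝ) {k : ℕ} {S : Finset ℕ} (hS : S ⊆ range (k + 1)) :
    ee g (k + 2) S = ee g (k + 1) S + if k ∈ S then g k else 0 := by
  unfold ee
  have hlt : ∀ b ∈ S, b < k + 1 := fun b hb => mem_range.1 (hS hb)
  split_ifs with hk
  · have h1 : S.filter (fun b => b + 1 ∉ S ∧ b + 1 < k + 2) =
        insert k (S.filter (fun b => b + 1 ∉ S ∧ b + 1 < k + 1)) := by
      ext b
      simp only [mem_filter, mem_insert]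
      constructor
      · rintro ⟨h1, h2, h3⟩
        by_cases hb : b = k
        · exact Or.inl hb
        · exact Or.inr ⟨h1, h2, by have := hlt b h1; omega⟩
      · rintro (h | ⟨h1, h2, h3⟩)
        · subst h
          exact ⟨hk, fun h => by have := hlt _ h; omega, by omega⟩
        · exact ⟨h1, h2, by omega⟩
    rw [h1, sum_insert, add_comm]
    simp
  · rw [add_zero]
    congr 1
    ext b
    simp only [mem_filter]
    constructor
    · rintro ⟨h1, h2, h3⟩
      have hb : b ≠ k := fun h => hk (h ▸ h1)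
      exact ⟨h1, h2, by have := hlt b h1; omega⟩
    · rintro ⟨h1, h2, h3⟩
      exact ⟨h1, h2, by omega⟩

private theorem ee_ins (g : ℕ → ℝ) {k : ℕ} {R : Finset ℕ} (hR : R ⊆ range k) :
    ee g (k + 1) (insert k R) = ee g k R := by
  unfold ee
  congr 1
  ext b
  simp only [mem_filter, mem_insert, not_or]
  constructor
  · rintro ⟨h1, ⟨h2, h3⟩, h4⟩
    rcases h1 with h1 | h1
    · omega
    · exact ⟨h1, h3, by omega⟩
  · rintro ⟨h1, h2, h3⟩
    exact ⟨Or.inr h1, ⟨by omega, h2⟩, by omega⟩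

private theorem card_le_of_mem {k : ℕ} {S : Finset ℕ} (hS : S ∈ (range k).powerset) :
    S.card ≤ k := by
  have := card_le_card (mem_powerset.1 hS)
  rwa [card_range] at this

private theorem sum_powerset_succ (k : ℕ) (f : Finset ℕ → ℝ) :
    ∑ S ∈ (range (k + 1)).powerset, f S =
      ∑ S ∈ (range k).powerset, f S + ∑ S ∈ (range k).powerset, f (insert k S) := by
  rw [range_add_one, sum_powerset_insert (by simp)]

theorem T_zero (g : ℕ → ℝ) (p : ℝ) : T g p 0 = 1 := by
  simp [T]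

theorem T_one (g : ℕ → ℝ) (p : ℝ) : T g p 1 = 1 := by
  rw [T_eq, show (1 : ℕ) = 0 + 1 from rfl, sum_powerset_succ]
  simp [ww, ee]

theorem T_rec (g : ℕ → ℝ) (p : ℝ) (k : ℕ) :
    T g p (k + 2) = T g p (k + 1) + p * (1 - p) * (Real.exp (g k) - 1) * T g p k := by
  rw [T_eq g p (k + 2), show k + 2 = (k + 1) + 1 from rfl, sum_powerset_succ (k + 1)]
  have h2 : ∑ S ∈ (range (k + 1)).powerset,
      ww p (k + 1 + 1) (insert (k + 1) S) * Real.exp (ee g (k + 1 + 1) (insert (k + 1) S)) =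
      p * T g p (k + 1) := by
    rw [T_eq, mul_sum]
    refine sum_congr rfl fun S hS => ?_
    have hS' := mem_powerset.1 hS
    have hn : k + 1 ∉ S := fun h => by have := mem_range.1 (hS' h); omega
    rw [show k + 1 + 1 = k + 2 from rfl, ee_top g hS', ww, ww, card_insert_of_notMem hn,
      show k + 2 - (S.card + 1) = k + 1 - S.card by omega, pow_succ]
    ring
  have h1 : ∑ S ∈ (range (k + 1)).powerset,
      ww p (k + 1 + 1) S * Real.exp (ee g (k + 1 + 1) S) =
      (1 - p) * T g p (k + 1) + (1 - p) * (Real.exp (g k) - 1) *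
        ∑ S ∈ (range (k + 1)).powerset,
          (if k ∈ S then ww p (k + 1) S * Real.exp (ee g (k + 1) S) else 0) := by
    rw [T_eq, mul_sum, mul_sum, ← sum_add_distrib]
    refine sum_congr rfl fun S hS => ?_
    have hS' := mem_powerset.1 hS
    have hc := card_le_of_mem hS
    rw [show k + 1 + 1 = k + 2 from rfl, ee_no g hS', ww, ww,
      show k + 2 - S.card = (k + 1 - S.card) + 1 by omega, pow_succ, Real.exp_add]
    split_ifs with hk
    · ring
    · rw [Real.exp_zero]; ring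
  have h3 : ∑ S ∈ (range (k + 1)).powerset,
      (if k ∈ S then ww p (k + 1) S * Real.exp (ee g (k + 1) S) else 0) = p * T g p k := by
    rw [sum_powerset_succ k, T_eq, mul_sum]
    have h4 : ∑ S ∈ (range k).powerset,
        (if k ∈ S then ww p (k + 1) S * Real.exp (ee g (k + 1) S) else 0) = 0 := by
      refine sum_eq_zero fun S hS => ?_
      have hn : k ∉ S := fun h => by have := mem_range.1 (mem_powerset.1 hS h); omega
      rw [if_neg hn]
    rw [h4, zero_add]
    refine sum_congr rfl fun S hS => ?_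
    have hS' := mem_powerset.1 hS
    have hn : k ∉ S := fun h => by have := mem_range.1 (hS' h); omega
    rw [if_pos (mem_insert_self k S), ee_ins g hS', ww, ww, card_insert_of_notMem hn,
      show k + 1 - (S.card + 1) = k - S.card by omega, pow_succ]
    ring
  rw [h1, h2, h3]
  ring

private theorem T_nonneg (g : ℕ → ℝ) {p : ℝ} (hp0 : 0 ≤ p) (hp1 : p ≤ 1) (k : ℕ) :
    0 ≤ T g p k := by
  refine sum_nonneg fun S _ => ?_
  have : 0 ≤ 1 - p := by linarith
  positivity

private theorem T_step (g : ℕ → ℝ) {p : ℝ} (hp0 : 0 ≤ p) (hp1 : p ≤ 1)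
    (hg : (∀ b, 0 ≤ g b) ∨ (∀ b, g b ≤ 0)) (k : ℕ) :
    T g p (k + 2) ≤ Real.exp (p * (1 - p) * (Real.exp (g k) - 1)) * T g p (k + 1) := by
  have hpp : 0 ≤ p * (1 - p) := mul_nonneg hp0 (by linarith)
  have hT := T_nonneg g hp0 hp1
  have key : p * (1 - p) * (Real.exp (g k) - 1) * T g p k ≤
      p * (1 - p) * (Real.exp (g k) - 1) * T g p (k + 1) := by
    rcases hg with hg | hg
    · have hmono : ∀ j, T g p j ≤ T g p (j + 1) := by
        intro j
        rcases j with _ | j
        · rw [T_zero, zero_add, T_one]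
        · rw [show j + 1 + 1 = j + 2 from rfl, T_rec]
          have h1 : 0 ≤ Real.exp (g j) - 1 := by
            have := Real.one_le_exp (hg j); linarith
          have := mul_nonneg (mul_nonneg hpp h1) (hT j)
          linarith
      have h1 : 0 ≤ Real.exp (g k) - 1 := by
        have := Real.one_le_exp (hg k); linarith
      exact mul_le_mul_of_nonneg_left (hmono k) (mul_nonneg hpp h1)
    · have hmono : ∀ j, T g p (j + 1) ≤ T g p j := by
        intro j
        rcases j with _ | j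
        · rw [T_zero, zero_add, T_one]
        · rw [show j + 1 + 1 = j + 2 from rfl, T_rec]
          have h1 : Real.exp (g j) - 1 ≤ 0 := by
            have := Real.exp_le_one_iff.2 (hg j); linarith
          have := mul_nonpos_of_nonpos_of_nonneg (mul_nonpos_of_nonneg_of_nonpos hpp h1) (hT j)
          linarith
      have h1 : Real.exp (g k) - 1 ≤ 0 := by
        have := Real.exp_le_one_iff.2 (hg k); linarith
      exact mul_le_mul_of_nonpos_left (hmono k) (mul_nonpos_of_nonneg_of_nonpos hpp h1)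
  rw [T_rec]
  have h2 := Real.add_one_le_exp (p * (1 - p) * (Real.exp (g k) - 1))
  have h3 := mul_le_mul_of_nonneg_right h2 (hT (k + 1))
  linarith

private theorem T_le_succ (g : ℕ → ℝ) {p : ℝ} (hp0 : 0 ≤ p) (hp1 : p ≤ 1)
    (hg : (∀ b, 0 ≤ g b) ∨ (∀ b, g b ≤ 0)) (k : ℕ) :
    T g p (k + 1) ≤ Real.exp (p * (1 - p) * ∑ b ∈ range k, (Real.exp (g b) - 1)) := by
  induction k with
  | zero => simp [T_one]
  | succ k ih =>
    refine (T_step g hp0 hp1 hg k).trans ?_
    rw [sum_range_succ, mul_add, Real.exp_add, mul_comm]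
    exact mul_le_mul_of_nonneg_right ih (Real.exp_pos _).le

theorem T_le (g : ℕ → ℝ) {p : ℝ} (hp0 : 0 ≤ p) (hp1 : p ≤ 1)
    (hg : (∀ b, 0 ≤ g b) ∨ (∀ b, g b ≤ 0)) (k : ℕ) :
    T g p k ≤ Real.exp (p * (1 - p) * ∑ b ∈ range (k - 1), (Real.exp (g b) - 1)) := by
  rcases k with _ | k
  · simp [T_zero]
  · exact T_le_succ g hp0 hp1 hg k

end Pool.Agent.Helper30.SC
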