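import Pool.Agent.Helper30.SC.Lev

set_option autoImplicit false

/-!
# SC-18 Nmp: the normalized matching property of `{0,...,n}^m`

PROOF. By induction on `m` there is for every `r` with `lev m n r`, `lev m n (r+1) > 0` a weight
`g ≥ 0` on the pairs `x` (rank `r`), `y` (rank `r+1`) with `g x y ≠ 0 → covF x y`,
`∑_y g x y = 1 / lev m n r`, `∑_x g x y = 1 / lev m n (r+1)` (`nmp_flow`). `m = 0`: nothing
(`lev 0 n (r+1) = 0`). Step `m → m + 1`: write `x = (x', i)` (last or first coordinate `i`), `x'` of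
rank `r - i`; `a = lev m n` (with `a k = 0` for negative `k`), `A = lev (m+1) n`,
`A r = ∑_{i=0}^n a (r - i)`. Let
`β i = ∑_{k=0}^i (a (r-k) / A r - a (r+1-k) / A (r+1))`, `α i = a (r-i) / A r - β i`
`= ∑_{k=0}^{i} a (r+1-k) / A (r+1) - ∑_{k=0}^{i-1} a (r-k) / A r`, for `0 ≤ i ≤ n`; `β n = 0`.
`β i ≥ 0`: the ratio `a (r+1-k) / a (r-k)` is increasing in `k` (`lev_pf2`), i.e.
`a (r+1-k) a (r-l) ≤ a (r-k) a (r+1-l)` for `k ≤ l`; sum over `k ≤ i < l ≤ n` and add the symmetric
part. `α i ≥ 0`: with `x = ∑_{k<i} a (r-k)`, `y = A r`, `u = a (r+1)`, `v = a (r-n)`: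
`∑_{k≤i} a (r+1-k) = x + u`, `A (r+1) = y + u - v`, and `(x + u) / (y + u - v) ≥ x / y`.
Put `g (x', i) (y', i) = α i · g' x' y'` (`g'` the weight between the levels `r - i`, `r - i + 1`
of `{0..n}^m`; if one of these levels is empty then `α i = 0`: `α i ≤ a (r-i) / A r` and
`α i + β (i-1) = a (r+1-i) / A (r+1)`), `g (x', i) (x', i+1) = β i / a (r-i)`.
`nmp`: sum `g x y` over `x ∈ S`: `|S| / lev r ≤ ∑_{y ∈ N(S)} 1 / lev (r+1)`. If
`lev m n (r+1) = 0` the claim is trivial, if `lev m n r = 0` then `S` is empty.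
`nmp_down`: apply `nmp` to the image under `x ↦ n - x` (`lev_symm`), or use `g` again.
-/

namespace Pool.Agent.Helper30.SC

open Finset

theorem Nmp_sum_succ (m n : ℕ) (f : (Fin (m + 1) → ℕ) → ℝ) :
    ∑ y ∈ Qset (m + 1) n, f y
      = ∑ j ∈ range (n + 1), ∑ y' ∈ Qset m n, f (Fin.cons j y') := by
  rw [← Finset.sum_product']
  refine Finset.sum_bij' (fun y _ => (y 0, Fin.tail y))
    (fun p _ => (Fin.cons p.1 p.2 : Fin (m + 1) → ℕ)) ?_ ?_ ?_ ?_ ?_
  · intro y hy
    simp only [Qset, Fintype.mem_piFinset] at hy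
    simp only [Finset.mem_product, Qset, Fintype.mem_piFinset]
    exact ⟨hy 0, fun i => hy i.succ⟩
  · intro p hp
    simp only [Finset.mem_product, Qset, Fintype.mem_piFinset] at hp
    simp only [Qset, Fintype.mem_piFinset]
    intro i
    refine Fin.cases ?_ ?_ i
    · simpa using hp.1
    · intro i
      simpa using hp.2 i
  · intro y _
    exact Fin.cons_self_tail y
  · intro p _
    simp [Fin.tail_cons]
  · intro y _
    rw [Fin.cons_self_tail]

theorem Nmp_rk_cons {m : ℕ} (i : ℕ) (x : Fin m → ℕ) :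
    rkF (Fin.cons i x : Fin (m + 1) → ℕ) = i + rkF x := by
  unfold rkF
  rw [Fin.sum_univ_succ]
  simp

theorem Nmp_lev_pos {m n : ℕ} {x : Fin m → ℕ} (hx : x ∈ Qset m n) : 0 < lev m n (rkF x) := by
  unfold lev
  exact Finset.card_pos.mpr ⟨x, Finset.mem_filter.mpr ⟨hx, rfl⟩⟩

/-- `a (r - i)` extended by zero -/
noncomputable def NmpaR (m n r i : ℕ) : ℝ := if i ≤ r then (lev m n (r - i) : ℝ) else 0

theorem NmpaR_nonneg (m n r i : ℕ) : 0 ≤ NmpaR m n r i := by
  unfold NmpaR
  split_ifs
  · positivity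
  · exact le_rfl

theorem NmpaR_shift (m n r i : ℕ) : NmpaR m n (r + 1) (i + 1) = NmpaR m n r i := by
  unfold NmpaR
  by_cases h : i ≤ r
  · rw [if_pos h, if_pos (by omega)]
    congr 2
    omega
  · rw [if_neg h, if_neg (by omega)]

theorem Nmp_lev_succ (m n r : ℕ) :
    (lev (m + 1) n r : ℝ) = ∑ i ∈ range (n + 1), NmpaR m n r i := by
  rw [lev_succ]
  push_cast
  refine Finset.sum_congr rfl fun i _ => ?_
  unfold NmpaR
  rfl

theorem Nmp_cross (m n r : ℕ) {k l : ℕ} (hkl : k ≤ l) :
    NmpaR m n (r + 1) k * NmpaR m n r l ≤ NmpaR m n r k * NmpaR m n (r + 1) l := by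
  by_cases h : l ≤ r
  · have hk : k ≤ r := hkl.trans h
    unfold NmpaR
    rw [if_pos (by omega), if_pos h, if_pos hk, if_pos (by omega)]
    have := lev_pf2 m n (i := r - l) (j := r - k) (by omega)
    have e1 : r - k + 1 = r + 1 - k := by omega
    have e2 : r - l + 1 = r + 1 - l := by omega
    rw [e1, e2] at this
    have h2 : ((lev m n (r - l) * lev m n (r + 1 - k) : ℕ) : ℝ)
        ≤ ((lev m n (r + 1 - l) * lev m n (r - k) : ℕ) : ℝ) := by exact_mod_cast this
    push_cast at h2
    linarith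
  · have h0 : NmpaR m n r l = 0 := by
      unfold NmpaR
      rw [if_neg h]
    rw [h0, mul_zero]
    exact mul_nonneg (NmpaR_nonneg _ _ _ _) (NmpaR_nonneg _ _ _ _)

/-- the part of the flow which raises the split coordinate -/
noncomputable def NmpBeta (m n r i : ℕ) : ℝ :=
  (∑ k ∈ range (i + 1), NmpaR m n r k) / (lev (m + 1) n r : ℝ)
    - (∑ k ∈ range (i + 1), NmpaR m n (r + 1) k) / (lev (m + 1) n (r + 1) : ℝ)

/-- the part of the flow which fixes the split coordinate -/
noncomputable def NmpAlpha (m n r i : ℕ) : ℝ :=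
  NmpaR m n r i / (lev (m + 1) n r : ℝ) - NmpBeta m n r i

theorem NmpBeta_last (m n r : ℕ) (h0 : 0 < lev (m + 1) n r) (h1 : 0 < lev (m + 1) n (r + 1)) :
    NmpBeta m n r n = 0 := by
  unfold NmpBeta
  rw [← Nmp_lev_succ, ← Nmp_lev_succ, div_self (by positivity), div_self (by positivity), sub_self]

theorem NmpBeta_nonneg (m n r i : ℕ) (hi : i ≤ n) (h0 : 0 < lev (m + 1) n r)
    (h1 : 0 < lev (m + 1) n (r + 1)) : 0 ≤ NmpBeta m n r i := by
  unfold NmpBeta
  have hA0 : (0 : ℝ) < (lev (m + 1) n r : ℝ) := by exact_mod_cast h0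
  have hA1 : (0 : ℝ) < (lev (m + 1) n (r + 1) : ℝ) := by exact_mod_cast h1
  rw [sub_nonneg, div_le_div_iff₀ hA1 hA0, Nmp_lev_succ, Nmp_lev_succ]
  have hsplit : ∀ f : ℕ → ℝ, ∑ k ∈ range (n + 1), f k
      = ∑ k ∈ range (i + 1), f k + ∑ k ∈ Ico (i + 1) (n + 1), f k := fun f =>
    (Finset.sum_range_add_sum_Ico f (by omega)).symm
  rw [hsplit (NmpaR m n r), hsplit (NmpaR m n (r + 1))]
  have key : (∑ k ∈ range (i + 1), NmpaR m n (r + 1) k) * (∑ k ∈ Ico (i + 1) (n + 1), NmpaR m n r k)
      ≤ (∑ k ∈ range (i + 1), NmpaR m n r k) * (∑ k ∈ Ico (i + 1) (n + 1), NmpaR m n (r + 1) k) := by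
    rw [Finset.sum_mul_sum, Finset.sum_mul_sum]
    refine Finset.sum_le_sum fun k hk => Finset.sum_le_sum fun l hl => ?_
    refine Nmp_cross m n r ?_
    have := Finset.mem_range.mp hk
    have := Finset.mem_Ico.mp hl
    omega
  nlinarith [key]

theorem Nmp_sum_shift (m n r i : ℕ) :
    ∑ k ∈ range (i + 1), NmpaR m n (r + 1) k
      = NmpaR m n (r + 1) 0 + ∑ k ∈ range i, NmpaR m n r k := by
  rw [Finset.sum_range_succ', add_comm]
  congr 1
  exact Finset.sum_congr rfl fun k _ => NmpaR_shift m n r k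

theorem NmpAlpha_zero (m n r : ℕ) :
    NmpAlpha m n r 0 = NmpaR m n (r + 1) 0 / (lev (m + 1) n (r + 1) : ℝ) := by
  unfold NmpAlpha NmpBeta
  simp

theorem NmpAlpha_succ (m n r i : ℕ) :
    NmpAlpha m n r (i + 1) + NmpBeta m n r i
      = NmpaR m n (r + 1) (i + 1) / (lev (m + 1) n (r + 1) : ℝ) := by
  unfold NmpAlpha NmpBeta
  rw [Finset.sum_range_succ (n := i + 1), Finset.sum_range_succ (n := i + 1)]
  ring

theorem NmpAlpha_nonneg (m n r i : ℕ) (hi : i ≤ n) (h0 : 0 < lev (m + 1) n r)
    (h1 : 0 < lev (m + 1) n (r + 1)) : 0 ≤ NmpAlpha m n r i := by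
  have hA0 : (0 : ℝ) < (lev (m + 1) n r : ℝ) := by exact_mod_cast h0
  have hA1 : (0 : ℝ) < (lev (m + 1) n (r + 1) : ℝ) := by exact_mod_cast h1
  have e : NmpAlpha m n r i
      = (∑ k ∈ range (i + 1), NmpaR m n (r + 1) k) / (lev (m + 1) n (r + 1) : ℝ)
        - (∑ k ∈ range i, NmpaR m n r k) / (lev (m + 1) n r : ℝ) := by
    unfold NmpAlpha NmpBeta
    rw [Finset.sum_range_succ (n := i) (f := NmpaR m n r)]
    ring
  rw [e, sub_nonneg, div_le_div_iff₀ hA0 hA1, Nmp_sum_shift]
  have hA0e := Nmp_lev_succ m n r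
  have hA1e := Nmp_lev_succ m n (r + 1)
  rw [Nmp_sum_shift] at hA1e
  rw [Finset.sum_range_succ] at hA0e
  have hx : 0 ≤ ∑ k ∈ range i, NmpaR m n r k :=
    Finset.sum_nonneg fun k _ => NmpaR_nonneg m n r k
  have hxy : ∑ k ∈ range i, NmpaR m n r k ≤ ∑ k ∈ range n, NmpaR m n r k :=
    Finset.sum_le_sum_of_subset_of_nonneg (Finset.range_mono hi)
      fun k _ _ => NmpaR_nonneg m n r k
  have hu := NmpaR_nonneg m n (r + 1) 0
  have hv := NmpaR_nonneg m n r n
  rw [hA0e, hA1e]
  nlinarith [mul_nonneg hu hv, mul_nonneg hx hv,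
    mul_nonneg hu (sub_nonneg.mpr hxy)]

theorem nmp_flow (m n r : ℕ) (h0 : 0 < lev m n r) (h1 : 0 < lev m n (r + 1)) :
    ∃ g : (Fin m → ℕ) → (Fin m → ℕ) → ℝ, (∀ x y, 0 ≤ g x y) ∧
      (∀ x ∈ Qset m n, ∀ y ∈ Qset m n, g x y ≠ 0 → covF x y) ∧
      (∀ x ∈ Qset m n, rkF x = r → ∑ y ∈ Qset m n, g x y = 1 / (lev m n r : ℝ)) ∧
      (∀ y ∈ Qset m n, rkF y = r + 1 → ∑ x ∈ Qset m n, g x y = 1 / (lev m n (r + 1) : ℝ)) := by
  induction m generalizing r with
  | zero =>
    rw [lev_zero] at h1
    simp at h1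
  | succ m ih =>
    classical
    have hG : ∃ G : ℕ → (Fin m → ℕ) → (Fin m → ℕ) → ℝ, (∀ i x y, 0 ≤ G i x y) ∧
        (∀ i, ∀ x ∈ Qset m n, ∀ y ∈ Qset m n, G i x y ≠ 0 → covF x y) ∧
        (∀ i, i ≤ r → 0 < lev m n (r - i) → 0 < lev m n (r - i + 1) →
          ∀ x ∈ Qset m n, rkF x = r - i → ∑ y ∈ Qset m n, G i x y = 1 / (lev m n (r - i) : ℝ)) ∧
        (∀ i, i ≤ r → 0 < lev m n (r - i) → 0 < lev m n (r - i + 1) →
          ∀ y ∈ Qset m n, rkF y = r - i + 1 →
            ∑ x ∈ Qset m n, G i x y = 1 / (lev m n (r - i + 1) : ℝ)) := by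
      have : ∀ i : ℕ, ∃ g : (Fin m → ℕ) → (Fin m → ℕ) → ℝ, (∀ x y, 0 ≤ g x y) ∧
          (∀ x ∈ Qset m n, ∀ y ∈ Qset m n, g x y ≠ 0 → covF x y) ∧
          (i ≤ r → 0 < lev m n (r - i) → 0 < lev m n (r - i + 1) →
            ∀ x ∈ Qset m n, rkF x = r - i → ∑ y ∈ Qset m n, g x y = 1 / (lev m n (r - i) : ℝ)) ∧
          (i ≤ r → 0 < lev m n (r - i) → 0 < lev m n (r - i + 1) →
            ∀ y ∈ Qset m n, rkF y = r - i + 1 →
              ∑ x ∈ Qset m n, g x y = 1 / (lev m n (r - i + 1) : ℝ)) := by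
        intro i
        by_cases h : 0 < lev m n (r - i) ∧ 0 < lev m n (r - i + 1)
        · obtain ⟨g, g1, g2, g3, g4⟩ := ih (r - i) h.1 h.2
          exact ⟨g, g1, g2, fun _ _ _ => g3, fun _ _ _ => g4⟩
        · exact ⟨fun _ _ => 0, fun _ _ => le_rfl, fun _ _ _ _ hh => absurd rfl hh,
            fun _ a b => absurd ⟨a, b⟩ h, fun _ a b => absurd ⟨a, b⟩ h⟩
      choose G g1 g2 g3 g4 using this
      exact ⟨G, g1, g2, g3, g4⟩
    obtain ⟨G, g1, g2, g3, g4⟩ := hG
    have hb : ∀ i, i ≤ n → 0 ≤ NmpBeta m n r i := fun i hi => NmpBeta_nonneg m n r i hi h0 h1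
    have ha : ∀ i, i ≤ n → 0 ≤ NmpAlpha m n r i := fun i hi => NmpAlpha_nonneg m n r i hi h0 h1
    have hlast := NmpBeta_last m n r h0 h1
    have hA0 : (0 : ℝ) < (lev (m + 1) n r : ℝ) := by exact_mod_cast h0
    have hA1 : (0 : ℝ) < (lev (m + 1) n (r + 1) : ℝ) := by exact_mod_cast h1
    -- vanishing of alpha
    have hα1 : ∀ i, i ≤ n → NmpaR m n r i = 0 → NmpAlpha m n r i = 0 := by
      intro i hi h
      have h2 : NmpAlpha m n r i = - NmpBeta m n r i := by
        unfold NmpAlpha
        rw [h]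
        simp
      have := ha i hi
      have := hb i hi
      linarith
    have hα2 : ∀ i, i ≤ n → NmpaR m n (r + 1) i = 0 → NmpAlpha m n r i = 0 := by
      intro i hi h
      cases i with
      | zero => rw [NmpAlpha_zero, h, zero_div]
      | succ i =>
        have h2 := NmpAlpha_succ m n r i
        rw [h, zero_div] at h2
        have := ha (i + 1) hi
        have := hb i (by omega)
        linarith
    -- row sums of the recursive part
    have hrow : ∀ i, i ≤ n → i ≤ r → ∀ x ∈ Qset m n, rkF x = r - i →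
        NmpAlpha m n r i * ∑ y ∈ Qset m n, G i x y = NmpAlpha m n r i / NmpaR m n r i := by
      intro i hin hi x hx hrk
      have hpos : 0 < lev m n (r - i) := hrk ▸ Nmp_lev_pos hx
      by_cases h : 0 < lev m n (r - i + 1)
      · rw [g3 i hi hpos h x hx hrk]
        unfold NmpaR
        rw [if_pos hi]
        ring
      · have hz : NmpaR m n (r + 1) i = 0 := by
          unfold NmpaR
          rw [if_pos (by omega)]
          have e : r + 1 - i = r - i + 1 := by omega
          rw [e]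
          have : lev m n (r - i + 1) = 0 := by omega
          rw [this]
          simp
        rw [hα2 i hin hz]
        simp
    have hcol : ∀ j, j ≤ n → j ≤ r + 1 → ∀ y ∈ Qset m n, rkF y = r + 1 - j →
        NmpAlpha m n r j * ∑ x ∈ Qset m n, G j x y = NmpAlpha m n r j / NmpaR m n (r + 1) j := by
      intro j hjn hj y hy hrk
      have hpos : 0 < lev m n (r + 1 - j) := hrk ▸ Nmp_lev_pos hy
      by_cases h : j ≤ r ∧ 0 < lev m n (r - j)
      · have e : r + 1 - j = r - j + 1 := by omega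
        rw [e] at hpos hrk
        rw [g4 j h.1 h.2 hpos y hy hrk]
        unfold NmpaR
        rw [if_pos hj, e]
        ring
      · have hz : NmpaR m n r j = 0 := by
          unfold NmpaR
          by_cases h' : j ≤ r
          · rw [if_pos h']
            have : lev m n (r - j) = 0 := by
              by_contra hne
              exact h ⟨h', Nat.pos_of_ne_zero hne⟩
            rw [this]
            simp
          · rw [if_neg h']
        rw [hα1 j hjn hz]
        simp
    -- the flow
    let g : (Fin (m + 1) → ℕ) → (Fin (m + 1) → ℕ) → ℝ := fun x y =>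
      if x 0 ≤ n then
        (if x 0 = y 0 then NmpAlpha m n r (x 0) * G (x 0) (Fin.tail x) (Fin.tail y) else 0)
        + (if y 0 = x 0 + 1 then
            (if Fin.tail x = Fin.tail y then NmpBeta m n r (x 0) / NmpaR m n r (x 0) else 0)
          else 0)
      else 0
    refine ⟨g, ?_, ?_, ?_, ?_⟩
    · intro x y
      show 0 ≤ ite _ _ _
      split_ifs with h1 h2 h3 h4 h5 h6
      · exact add_nonneg (mul_nonneg (ha _ h1) (g1 _ _ _))
          (div_nonneg (hb _ h1) (NmpaR_nonneg _ _ _ _))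
      · exact add_nonneg (mul_nonneg (ha _ h1) (g1 _ _ _)) le_rfl
      · exact add_nonneg (mul_nonneg (ha _ h1) (g1 _ _ _)) le_rfl
      · exact add_nonneg le_rfl (div_nonneg (hb _ h1) (NmpaR_nonneg _ _ _ _))
      · exact add_nonneg le_rfl le_rfl
      · exact add_nonneg le_rfl le_rfl
      · exact le_rfl
    · intro x hx y hy hne
      have htx : Fin.tail x ∈ Qset m n := by
        simp only [Qset, Fintype.mem_piFinset] at hx ⊢
        exact fun i => hx i.succ
      have hty : Fin.tail y ∈ Qset m n := by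
        simp only [Qset, Fintype.mem_piFinset] at hy ⊢
        exact fun i => hy i.succ
      have hx0 : x 0 ≤ n := by
        simp only [Qset, Fintype.mem_piFinset, Finset.mem_range] at hx
        have := hx 0
        omega
      have hrx : rkF x = x 0 + rkF (Fin.tail x) := by
        rw [← Nmp_rk_cons, Fin.cons_self_tail]
      have hry : rkF y = y 0 + rkF (Fin.tail y) := by
        rw [← Nmp_rk_cons, Fin.cons_self_tail]
      have hle : ∀ (_ : x 0 ≤ y 0) (_ : Fin.tail x ≤ Fin.tail y), x ≤ y := by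
        intro a b i
        refine Fin.cases a ?_ i
        intro i
        exact b i
      simp only [g, if_pos hx0] at hne
      by_cases h2 : x 0 = y 0
      · have h3 : ¬ (y 0 = x 0 + 1) := by omega
        rw [if_pos h2, if_neg h3, add_zero] at hne
        have hGne : G (x 0) (Fin.tail x) (Fin.tail y) ≠ 0 := fun h => hne (by rw [h, mul_zero])
        obtain ⟨c1, c2⟩ := g2 _ _ htx _ hty hGne
        refine ⟨hle (by omega) c1, ?_⟩
        rw [hrx, hry, c2]
        omega
      · rw [if_neg h2, zero_add] at hne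
        by_cases h3 : y 0 = x 0 + 1
        · rw [if_pos h3] at hne
          by_cases h4 : Fin.tail x = Fin.tail y
          · refine ⟨hle (by omega) h4.le, ?_⟩
            rw [hrx, hry, h4]
            omega
          · rw [if_neg h4] at hne
            exact absurd rfl hne
        · rw [if_neg h3] at hne
          exact absurd rfl hne
    · intro x hx hrk
      have htx : Fin.tail x ∈ Qset m n := by
        simp only [Qset, Fintype.mem_piFinset] at hx ⊢
        exact fun i => hx i.succ
      have hx0 : x 0 ≤ n := by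
        simp only [Qset, Fintype.mem_piFinset, Finset.mem_range] at hx
        have := hx 0
        omega
      have hrx : rkF x = x 0 + rkF (Fin.tail x) := by
        rw [← Nmp_rk_cons, Fin.cons_self_tail]
      have hir : x 0 ≤ r := by omega
      have hrt : rkF (Fin.tail x) = r - x 0 := by omega
      have hposn : 0 < lev m n (r - x 0) := hrt ▸ Nmp_lev_pos htx
      have hpos : 0 < NmpaR m n r (x 0) := by
        unfold NmpaR
        rw [if_pos hir]
        exact_mod_cast hposn
      rw [Nmp_sum_succ]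
      have e1 : ∀ j ∈ range (n + 1), ∑ y' ∈ Qset m n, g x (Fin.cons j y')
          = (if x 0 = j then NmpAlpha m n r (x 0) / NmpaR m n r (x 0) else 0)
            + (if j = x 0 + 1 then NmpBeta m n r (x 0) / NmpaR m n r (x 0) else 0) := by
        intro j _
        simp only [g, if_pos hx0, Fin.cons_zero, Fin.tail_cons]
        rw [Finset.sum_add_distrib]
        congr 1
        · split_ifs with h
          · rw [← Finset.mul_sum, hrow _ hx0 hir _ htx hrt]
          · simp
        · split_ifs with h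
          · rw [Finset.sum_ite_eq, if_pos htx]
          · simp
      rw [Finset.sum_congr rfl e1, Finset.sum_add_distrib, Finset.sum_ite_eq,
        if_pos (Finset.mem_range.mpr (by omega)), Finset.sum_ite_eq']
      have e2 : (if x 0 + 1 ∈ range (n + 1) then NmpBeta m n r (x 0) / NmpaR m n r (x 0) else 0)
          = NmpBeta m n r (x 0) / NmpaR m n r (x 0) := by
        by_cases h : x 0 + 1 ∈ range (n + 1)
        · rw [if_pos h]
        · rw [if_neg h]
          have : x 0 = n := by
            rw [Finset.mem_range] at h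
            omega
          rw [this, hlast, zero_div]
      rw [e2, ← add_div]
      unfold NmpAlpha
      field_simp
      ring
    · intro y hy hrk
      have hty : Fin.tail y ∈ Qset m n := by
        simp only [Qset, Fintype.mem_piFinset] at hy ⊢
        exact fun i => hy i.succ
      have hy0 : y 0 ≤ n := by
        simp only [Qset, Fintype.mem_piFinset, Finset.mem_range] at hy
        have := hy 0
        omega
      have hry : rkF y = y 0 + rkF (Fin.tail y) := by
        rw [← Nmp_rk_cons, Fin.cons_self_tail]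
      have hjr : y 0 ≤ r + 1 := by omega
      have hrt : rkF (Fin.tail y) = r + 1 - y 0 := by omega
      have hposn : 0 < lev m n (r + 1 - y 0) := hrt ▸ Nmp_lev_pos hty
      have hpos : 0 < NmpaR m n (r + 1) (y 0) := by
        unfold NmpaR
        rw [if_pos hjr]
        exact_mod_cast hposn
      rw [Nmp_sum_succ]
      have e1 : ∀ i ∈ range (n + 1), ∑ x' ∈ Qset m n, g (Fin.cons i x') y
          = (if i = y 0 then NmpAlpha m n r i / NmpaR m n (r + 1) i else 0)
            + (if y 0 = i + 1 then NmpBeta m n r i / NmpaR m n r i else 0) := by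
        intro i hi
        have hin : i ≤ n := by
          have := Finset.mem_range.mp hi
          omega
        simp only [g, Fin.cons_zero, Fin.tail_cons, if_pos hin]
        rw [Finset.sum_add_distrib]
        congr 1
        · split_ifs with h
          · rw [← Finset.mul_sum]
            subst h
            exact hcol _ hin hjr _ hty hrt
          · simp
        · split_ifs with h
          · rw [Finset.sum_ite_eq', if_pos hty]
          · simp
      rw [Finset.sum_congr rfl e1, Finset.sum_add_distrib, Finset.sum_ite_eq',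
        if_pos (Finset.mem_range.mpr (by omega))]
      by_cases h : y 0 = 0
      · have e2 : ∑ i ∈ range (n + 1), (if y 0 = i + 1 then NmpBeta m n r i / NmpaR m n r i else 0)
            = 0 := by
          refine Finset.sum_eq_zero fun i _ => ?_
          rw [if_neg (by omega)]
        rw [e2, add_zero, h, NmpAlpha_zero]
        rw [h] at hpos
        field_simp
      · obtain ⟨j, hj⟩ := Nat.exists_eq_succ_of_ne_zero h
        rw [Nat.succ_eq_add_one] at hj
        have e2 : ∑ i ∈ range (n + 1), (if y 0 = i + 1 then NmpBeta m n r i / NmpaR m n r i else 0)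
            = NmpBeta m n r j / NmpaR m n r j := by
          rw [Finset.sum_eq_single j]
          · rw [if_pos hj]
          · intro i _ hne
            rw [if_neg (by omega)]
          · intro hni
            exact absurd (Finset.mem_range.mpr (by omega)) hni
        rw [e2, hj]
        rw [hj] at hpos
        have h3 := NmpAlpha_succ m n r j
        rw [← NmpaR_shift m n r j, ← add_div, h3]
        field_simp

theorem nmp (m n r : ℕ) (S S' : Finset (Fin m → ℕ)) (hS : ∀ x ∈ S, x ∈ Qset m n ∧ rkF x = r)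
    (hS' : ∀ x ∈ S, ∀ y ∈ Qset m n, covF x y → y ∈ S') :
    S.card * lev m n (r + 1) ≤ S'.card * lev m n r := by
  classical
  rcases Nat.eq_zero_or_pos (lev m n (r + 1)) with h1 | h1
  · rw [h1]
    simp
  rcases Nat.eq_zero_or_pos (lev m n r) with h0 | h0
  · have : S = ∅ := by
      rw [Finset.eq_empty_iff_forall_notMem]
      intro x hx
      obtain ⟨a, b⟩ := hS x hx
      have := Nmp_lev_pos a
      rw [b] at this
      omega
    rw [this]
    simp
  obtain ⟨g, g1, g2, g3, g4⟩ := nmp_flow m n r h0 h1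
  have hA0 : (0 : ℝ) < (lev m n r : ℝ) := by exact_mod_cast h0
  have hA1 : (0 : ℝ) < (lev m n (r + 1) : ℝ) := by exact_mod_cast h1
  let T := (Qset m n).filter (fun y => y ∈ S' ∧ rkF y = r + 1)
  have hT : T ⊆ S' := by
    intro y hy
    exact (Finset.mem_filter.mp hy).2.1
  have e1 : (S.card : ℝ) * (1 / (lev m n r : ℝ)) = ∑ x ∈ S, ∑ y ∈ T, g x y := by
    rw [← nsmul_eq_mul, ← Finset.sum_const]
    refine Finset.sum_congr rfl fun x hx => ?_
    obtain ⟨a, b⟩ := hS x hx
    rw [← g3 x a b]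
    symm
    refine Finset.sum_subset (Finset.filter_subset _ _) fun y hy hyT => ?_
    by_contra hne
    have hc := g2 x a y hy hne
    exact hyT (Finset.mem_filter.mpr ⟨hy, hS' x hx y hy hc, by rw [hc.2, b]⟩)
  have e2 : ∑ x ∈ S, ∑ y ∈ T, g x y ≤ (T.card : ℝ) * (1 / (lev m n (r + 1) : ℝ)) := by
    rw [Finset.sum_comm, ← nsmul_eq_mul, ← Finset.sum_const]
    refine Finset.sum_le_sum fun y hy => ?_
    obtain ⟨a, _, b⟩ := Finset.mem_filter.mp hy
    rw [← g4 y a b]
    exact Finset.sum_le_sum_of_subset_of_nonneg (fun x hx => (hS x hx).1) fun x _ _ => g1 x y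
  have e3 : (T.card : ℝ) ≤ (S'.card : ℝ) := by exact_mod_cast Finset.card_le_card hT
  have e4 : (S.card : ℝ) * (1 / (lev m n r : ℝ)) ≤ (S'.card : ℝ) * (1 / (lev m n (r + 1) : ℝ)) := by
    rw [e1]
    exact e2.trans (mul_le_mul_of_nonneg_right e3 (by positivity))
  have e5 : (S.card : ℝ) * (lev m n (r + 1) : ℝ) ≤ (S'.card : ℝ) * (lev m n r : ℝ) := by
    rw [mul_one_div, mul_one_div, div_le_div_iff₀ hA0 hA1] at e4
    exact e4
  exact_mod_cast e5

theorem nmp_down (m n r : ℕ) (S S' : Finset (Fin m → ℕ))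
    (hS : ∀ x ∈ S, x ∈ Qset m n ∧ rkF x = r + 1)
    (hS' : ∀ y ∈ S, ∀ x ∈ Qset m n, covF x y → x ∈ S') :
    S.card * lev m n r ≤ S'.card * lev m n (r + 1) := by
  classical
  rcases Nat.eq_zero_or_pos (lev m n r) with h0 | h0
  · rw [h0]
    simp
  rcases Nat.eq_zero_or_pos (lev m n (r + 1)) with h1 | h1
  · have : S = ∅ := by
      rw [Finset.eq_empty_iff_forall_notMem]
      intro x hx
      obtain ⟨a, b⟩ := hS x hx
      have := Nmp_lev_pos a
      rw [b] at this
      omega
    rw [this]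
    simp
  obtain ⟨g, g1, g2, g3, g4⟩ := nmp_flow m n r h0 h1
  have hA0 : (0 : ℝ) < (lev m n r : ℝ) := by exact_mod_cast h0
  have hA1 : (0 : ℝ) < (lev m n (r + 1) : ℝ) := by exact_mod_cast h1
  let T := (Qset m n).filter (fun x => x ∈ S' ∧ rkF x = r)
  have hT : T ⊆ S' := by
    intro y hy
    exact (Finset.mem_filter.mp hy).2.1
  have e1 : (S.card : ℝ) * (1 / (lev m n (r + 1) : ℝ)) = ∑ y ∈ S, ∑ x ∈ T, g x y := by
    rw [← nsmul_eq_mul, ← Finset.sum_const]
    refine Finset.sum_congr rfl fun y hy => ?_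
    obtain ⟨a, b⟩ := hS y hy
    rw [← g4 y a b]
    symm
    refine Finset.sum_subset (Finset.filter_subset _ _) fun x hx hxT => ?_
    by_contra hne
    have hc := g2 x hx y a hne
    have hc2 := hc.2
    rw [b] at hc2
    exact hxT (Finset.mem_filter.mpr ⟨hx, hS' y hy x hx hc, by omega⟩)
  have e2 : ∑ y ∈ S, ∑ x ∈ T, g x y ≤ (T.card : ℝ) * (1 / (lev m n r : ℝ)) := by
    rw [Finset.sum_comm, ← nsmul_eq_mul, ← Finset.sum_const]
    refine Finset.sum_le_sum fun x hx => ?_
    obtain ⟨a, _, b⟩ := Finset.mem_filter.mp hx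
    rw [← g3 x a b]
    exact Finset.sum_le_sum_of_subset_of_nonneg (fun y hy => (hS y hy).1) fun y _ _ => g1 x y
  have e3 : (T.card : ℝ) ≤ (S'.card : ℝ) := by exact_mod_cast Finset.card_le_card hT
  have e4 : (S.card : ℝ) * (1 / (lev m n (r + 1) : ℝ)) ≤ (S'.card : ℝ) * (1 / (lev m n r : ℝ)) := by
    rw [e1]
    exact e2.trans (mul_le_mul_of_nonneg_right e3 (by positivity))
  have e5 : (S.card : ℝ) * (lev m n r : ℝ) ≤ (S'.card : ℝ) * (lev m n (r + 1) : ℝ) := by
    rw [mul_one_div, mul_one_div, div_le_div_iff₀ hA1 hA0] at e4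
    exact e4
  exact_mod_cast e5

end Pool.Agent.Helper30.SC
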