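import Pool.Agent.Helper30.SC.MassA
import Pool.Agent.Helper30.SC.AT

set_option autoImplicit false

/-!
# SC-23 RegA: the range `m^3 ≤ n`

PROOF. `ε < 1` without loss of generality. `κ = ε / 16`, `θ = ε / 8`, `N = n m`, `P = Lset n m`,
`p r = |P_r|`, `q r = lev m n r / m!`, `D = m^2 / (n+1)`, `δ1 = √D`. For `n` large (uniformly in
`m^3 ≤ n`): `D ≤ n^(2/3) / n = n^(-1/3)`, so `D`, `δ1 ≤ n^(-1/6)` are small. `G` = the finset of the
`r ≤ N` with `p r ≤ (1 + δ1) q r`; by `card_star` and `lev_symm` `r ∈ G ↔ N - r ∈ G`.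
`η' = etaA m n κ`. By `mass_A` the number of the `a ∈ P` with `rk a ∈ G` and `η' ≤ q (rk a)` is
`≥ (1 - 2 δ1 - 2 κ - D) Φ > 0`. Let `t(a) = min (rk a) (N - rk a)`; `t(a) ∈ G`, `η' ≤ q (t a)`.
Let `sst` be the least `r ≤ N/2` with `η' ≤ q r` (exists), `r0` the largest `r ∈ G` with `r ≤ N/2`
and `η' ≤ q r` (exists). For `r ≤ N/2`: `η' ≤ q r ↔ sst ≤ r` (`lev_mono`). So
`t(a) ∈ G`, `sst ≤ t(a) ≤ r0` for these `a`. `AT` with `δ = δ1` (`cutA_low`, `cutA_up`,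
`cutA_mid` have error `0 ≤ δ1`; `CutLow` is monotone in `δ`, and `(1 - δ1) q ≤ (1 - 0) q`).
`K`: `q r0 ≤ (n+1)^(m-1) / m!` (`lev_le`) and `q sst ≥ η'`, so `hK` holds if
`(1-θ)^K ≤ κ (n+1) / (√(m/κ) n + 1)`, and the right side is `≥ κ / √(m/κ)`
(`√(m/κ) ≥ 1`) `= κ √κ / √m`; as `(1-θ)^K ≤ exp(-θ K)` take
`K = ⌈(1/θ) log (√m / (κ √κ))⌉₊ + 1 ≤ (1/θ) (log n + log (1/(κ √κ))) + 2`. Then
`(4 K + 1) δ1 ≤ (C log n + C) n^(-1/6) → 0` for `n → ∞` (`C = C(ε)`), `≤ ε/16` for large `n`.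
Conclusion: `(1-θ) (1 - ε/16) (1 - 2 δ1 - 2 κ - D) Φ ≤ (1 + δ1) tot`, so `(1-ε) Φ ≤ tot` if
`2 δ1 + D ≤ ε/16`, `δ1 ≤ ε/16`.
-/

namespace Pool.Agent.Helper30.SC

open Finset

open Filter Topology in
private theorem regA_asym (θ c η : ℝ) (hη : 0 < η) :
    ∃ n0 : ℕ, ∀ n : ℕ, n0 ≤ n →
      (4 * ((Real.log (n : ℝ) + c) / θ + 2) + 1) * (n : ℝ) ^ (-(1 / 6) : ℝ) ≤ η ∧
        (n : ℝ) ^ (-(1 / 6) : ℝ) ≤ η := by
  have h2 : Tendsto (fun x : ℝ => x ^ (-(1 / 6) : ℝ)) atTop (𝓝 0) :=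
    tendsto_rpow_neg_atTop (by norm_num)
  have h3 : Tendsto (fun x : ℝ => Real.log x / x ^ ((1 / 6) : ℝ)) atTop (𝓝 0) :=
    (isLittleO_log_rpow_atTop (by norm_num : (0 : ℝ) < 1 / 6)).tendsto_div_nhds_zero
  have h1 : Tendsto (fun x : ℝ => (4 * ((Real.log x + c) / θ + 2) + 1) * x ^ (-(1 / 6) : ℝ))
      atTop (𝓝 0) := by
    have h4 : Tendsto (fun x : ℝ => (4 / θ) * (Real.log x / x ^ ((1 / 6) : ℝ)) +
        (4 * c / θ + 9) * x ^ (-(1 / 6) : ℝ)) atTop (𝓝 ((4 / θ) * 0 + (4 * c / θ + 9) * 0)) :=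
      (h3.const_mul _).add (h2.const_mul _)
    simp only [mul_zero, add_zero] at h4
    refine h4.congr' ?_
    filter_upwards [eventually_gt_atTop (0 : ℝ)] with x hx
    rw [Real.rpow_neg hx.le]
    ring
  have h5 := (h1.comp tendsto_natCast_atTop_atTop).eventually (ge_mem_nhds hη)
  have h6 := (h2.comp tendsto_natCast_atTop_atTop).eventually (ge_mem_nhds hη)
  obtain ⟨n0, hn0⟩ := eventually_atTop.mp (h5.and h6)
  exact ⟨n0, fun n hn => hn0 n hn⟩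

private theorem regA_sqrt {m n : ℕ} (hn : 1 ≤ n) (h : m ^ 3 ≤ n) :
    Real.sqrt ((m : ℝ) ^ 2 / ((n : ℝ) + 1)) ≤ (n : ℝ) ^ (-(1 / 6) : ℝ) := by
  have hn0 : (0 : ℝ) < n := by exact_mod_cast hn
  have hm3 : (m : ℝ) ^ 3 ≤ n := by exact_mod_cast h
  have hm : (m : ℝ) ≤ (n : ℝ) ^ ((1 / 3) : ℝ) := by
    have h1 : ((m : ℝ) ^ 3) ^ ((1 / 3) : ℝ) ≤ (n : ℝ) ^ ((1 / 3) : ℝ) :=
      Real.rpow_le_rpow (by positivity) hm3 (by norm_num)
    have h2 : ((m : ℝ) ^ 3) ^ ((1 / 3) : ℝ) = m := by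
      rw [← Real.rpow_natCast, ← Real.rpow_mul (Nat.cast_nonneg _)]
      norm_num
    rwa [h2] at h1
  have h3 : (m : ℝ) ^ 2 / ((n : ℝ) + 1) ≤ ((n : ℝ) ^ (-(1 / 6) : ℝ)) ^ 2 := by
    rw [div_le_iff₀ (by linarith)]
    have h4 : (m : ℝ) ^ 2 ≤ ((n : ℝ) ^ ((1 / 3) : ℝ)) ^ 2 :=
      pow_le_pow_left₀ (Nat.cast_nonneg _) hm 2
    have h5 : ((n : ℝ) ^ (-(1 / 6) : ℝ)) ^ 2 * n = ((n : ℝ) ^ ((1 / 3) : ℝ)) ^ 2 := by
      rw [← Real.rpow_natCast, ← Real.rpow_natCast, ← Real.rpow_mul hn0.le,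
        ← Real.rpow_mul hn0.le]
      nth_rewrite 2 [← Real.rpow_one (n : ℝ)]
      rw [← Real.rpow_add hn0]
      norm_num
    have h6 : (0 : ℝ) ≤ ((n : ℝ) ^ (-(1 / 6) : ℝ)) ^ 2 := by positivity
    nlinarith
  calc Real.sqrt ((m : ℝ) ^ 2 / ((n : ℝ) + 1)) ≤ Real.sqrt (((n : ℝ) ^ (-(1 / 6) : ℝ)) ^ 2) :=
        Real.sqrt_le_sqrt h3
    _ = (n : ℝ) ^ (-(1 / 6) : ℝ) := Real.sqrt_sq (by positivity)

/-- the choice of the number of shells -/
private theorem regA_K {m n : ℕ} {κ θ : ℝ} (hm : 1 ≤ m) (hmn : m ≤ n) (hκ : 0 < κ) (hκ1 : κ ≤ 1)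
    (hθ : 0 < θ) (hθ1 : θ < 1) :
    ∃ K : ℕ, 1 ≤ K ∧ (K : ℝ) ≤ (Real.log (n : ℝ) + 2 * Real.log (1 / κ)) / θ + 2 ∧
      (1 - θ) ^ K * (((n : ℝ) + 1) ^ (m - 1) / (m.factorial : ℝ)) ≤ etaA m n κ := by
  have hn1 : (1 : ℝ) ≤ n := by exact_mod_cast hm.trans hmn
  have hn0 : (0 : ℝ) < n := by linarith
  have hm1 : (1 : ℝ) ≤ m := by exact_mod_cast hm
  have hmn' : (m : ℝ) ≤ n := by exact_mod_cast hmn
  have hlog : 0 ≤ (Real.log (n : ℝ) + 2 * Real.log (1 / κ)) / θ := by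
    have h1 : 0 ≤ Real.log (n : ℝ) := Real.log_nonneg hn1
    have h2 : 0 ≤ Real.log (1 / κ) := Real.log_nonneg (by rw [le_div_iff₀ hκ]; linarith)
    positivity
  refine ⟨⌈(Real.log (n : ℝ) + 2 * Real.log (1 / κ)) / θ⌉₊ + 1, by omega, ?_, ?_⟩
  · push_cast
    have := Nat.ceil_lt_add_one hlog
    linarith
  · set K := ⌈(Real.log (n : ℝ) + 2 * Real.log (1 / κ)) / θ⌉₊ + 1 with hKdef
    have hK : (Real.log (n : ℝ) + 2 * Real.log (1 / κ)) / θ ≤ (K : ℝ) := by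
      rw [hKdef]; push_cast
      have := Nat.le_ceil ((Real.log (n : ℝ) + 2 * Real.log (1 / κ)) / θ)
      linarith
    have hK2 : Real.log (n : ℝ) + 2 * Real.log (1 / κ) ≤ θ * K := by
      rw [div_le_iff₀ hθ] at hK
      linarith
    have h1 : (1 - θ) ^ K ≤ κ ^ 2 / n := by
      have h2 : (1 - θ) ≤ Real.exp (-θ) := by
        have := Real.add_one_le_exp (-θ)
        linarith
      have h3 : (1 - θ) ^ K ≤ Real.exp (-θ) ^ K := pow_le_pow_left₀ (by linarith) h2 K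
      have h4 : Real.exp (-θ) ^ K = Real.exp (-(θ * K)) := by
        rw [← Real.exp_nat_mul]; ring_nf
      have h5 : Real.exp (-(θ * K)) ≤ Real.exp (-(Real.log (n : ℝ) + 2 * Real.log (1 / κ))) :=
        Real.exp_le_exp.mpr (by linarith)
      have h6 : Real.exp (-(Real.log (n : ℝ) + 2 * Real.log (1 / κ))) = κ ^ 2 / n := by
        rw [one_div, Real.log_inv]
        have : -(Real.log (n : ℝ) + 2 * -Real.log κ) = Real.log (κ ^ 2 / n) := by
          rw [Real.log_div (by positivity) hn0.ne', Real.log_pow]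
          push_cast
          ring
        rw [this, Real.exp_log (by positivity)]
      rw [h6] at h5
      rw [h4] at h3
      exact h3.trans h5
    have hs1 : 1 ≤ (m : ℝ) / κ := by rw [le_div_iff₀ hκ]; linarith
    have hs : Real.sqrt ((m : ℝ) / κ) ≤ (m : ℝ) / κ := by
      rw [Real.sqrt_le_left (by positivity)]
      nlinarith
    have hs0 : 0 ≤ Real.sqrt ((m : ℝ) / κ) := Real.sqrt_nonneg _
    have hfac : (0 : ℝ) < (m.factorial : ℝ) := by exact_mod_cast m.factorial_pos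
    unfold etaA
    have hden : 0 < Real.sqrt ((m : ℝ) / κ) * n + 1 := by positivity
    have h7 : (1 - θ) ^ K * (Real.sqrt ((m : ℝ) / κ) * n + 1) ≤ κ * ((n : ℝ) + 1) := by
      have h8 : Real.sqrt ((m : ℝ) / κ) * n + 1 ≤ ((n : ℝ) / κ) * (n + 1) := by
        have h9 : Real.sqrt ((m : ℝ) / κ) ≤ (n : ℝ) / κ :=
          hs.trans (by gcongr)
        have h10 : 1 ≤ (n : ℝ) / κ := by rw [le_div_iff₀ hκ]; linarith
        nlinarith
      calc (1 - θ) ^ K * (Real.sqrt ((m : ℝ) / κ) * n + 1)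
          ≤ (κ ^ 2 / n) * (((n : ℝ) / κ) * (n + 1)) :=
            mul_le_mul h1 h8 hden.le (by positivity)
        _ = κ * ((n : ℝ) + 1) := by field_simp
    have hpow : ((n : ℝ) + 1) ^ m = ((n : ℝ) + 1) ^ (m - 1) * ((n : ℝ) + 1) := by
      rw [← pow_succ]; congr 1; omega
    rw [hpow, ← mul_div_assoc, div_le_div_iff₀ hfac (by positivity)]
    have hp : 0 ≤ ((n : ℝ) + 1) ^ (m - 1) := by positivity
    calc (1 - θ) ^ K * ((n : ℝ) + 1) ^ (m - 1) *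
          ((m.factorial : ℝ) * (Real.sqrt ((m : ℝ) / κ) * n + 1))
        = ((n : ℝ) + 1) ^ (m - 1) * (m.factorial : ℝ) *
          ((1 - θ) ^ K * (Real.sqrt ((m : ℝ) / κ) * n + 1)) := by ring
      _ ≤ ((n : ℝ) + 1) ^ (m - 1) * (m.factorial : ℝ) * (κ * ((n : ℝ) + 1)) :=
          mul_le_mul_of_nonneg_left h7 (by positivity)
      _ = κ * (((n : ℝ) + 1) ^ (m - 1) * ((n : ℝ) + 1)) * (m.factorial : ℝ) := by ring

theorem regA (ε : ℝ) (hε : 0 < ε) : ∃ n0 : ℕ, ∀ m n : ℕ, n0 ≤ n → 1 ≤ m → m ^ 3 ≤ n →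
    Good rkF covF (n * m) (Lset n m) ε := by
  rcases le_or_gt 1 ε with hε1 | hε1
  · refine ⟨0, fun m n _ _ _ => ⟨0, fun j => j.elim0, fun j => j.elim0,
      ⟨fun j => j.elim0, fun j => j.elim0, fun j => j.elim0, fun j => j.elim0⟩, ?_⟩⟩
    have h1 : (0 : ℝ) ≤ ((Lset n m).card : ℝ) := Nat.cast_nonneg _
    have h2 : (0 : ℝ) ≤ (tot (n * m) (fun j : Fin 0 => (j.elim0 : ℕ)) : ℝ) := Nat.cast_nonneg _
    nlinarith
  -- parameters
  set κ : ℝ := ε / 16 with hκdef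
  set θ : ℝ := ε / 8 with hθdef
  have hκ : 0 < κ := by positivity
  have hκ1 : κ ≤ 1 := by rw [hκdef]; linarith
  have hθ : 0 < θ := by positivity
  have hθ1 : θ < 1 := by rw [hθdef]; linarith
  obtain ⟨n0, hn0⟩ := regA_asym θ (2 * Real.log (1 / κ)) (ε / 64) (by positivity)
  refine ⟨max n0 1, fun m n hn hm hmn => ?_⟩
  have hn1 : 1 ≤ n := (le_max_right _ _).trans hn
  obtain ⟨hA1, hA2⟩ := hn0 n ((le_max_left _ _).trans hn)
  have hmn1 : m ≤ n := by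
    calc m = m ^ 1 := (pow_one m).symm
      _ ≤ m ^ 3 := Nat.pow_le_pow_right hm (by norm_num)
      _ ≤ n := hmn
  have hmn2 : m ^ 2 ≤ n + 1 := by
    calc m ^ 2 ≤ m ^ 3 := Nat.pow_le_pow_right hm (by norm_num)
      _ ≤ n := hmn
      _ ≤ n + 1 := Nat.le_succ n
  obtain ⟨K, hK1, hK2, hK3⟩ := regA_K hm hmn1 hκ hκ1 hθ hθ1
  set D : ℝ := (m : ℝ) ^ 2 / ((n : ℝ) + 1) with hDdef
  set δ : ℝ := Real.sqrt D with hδdef
  have hD0 : 0 ≤ D := by positivity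
  have hδ0 : 0 ≤ δ := Real.sqrt_nonneg _
  have hδn : δ ≤ (n : ℝ) ^ (-(1 / 6) : ℝ) := regA_sqrt hn1 hmn
  have hδε : δ ≤ ε / 64 := hδn.trans hA2
  have hDδ : D = δ ^ 2 := (Real.sq_sqrt hD0).symm
  have hDε : D ≤ ε / 64 := by
    rw [hDδ]; nlinarith
  have hKδ : (4 * (K : ℝ) + 1) * δ ≤ ε / 64 := by
    have h1 : (4 * (K : ℝ) + 1) ≤ 4 * ((Real.log (n : ℝ) + 2 * Real.log (1 / κ)) / θ + 2) + 1 := by
      linarith
    calc (4 * (K : ℝ) + 1) * δ
        ≤ (4 * ((Real.log (n : ℝ) + 2 * Real.log (1 / κ)) / θ + 2) + 1) *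
          (n : ℝ) ^ (-(1 / 6) : ℝ) :=
          mul_le_mul h1 hδn hδ0 (le_trans (by positivity) h1)
      _ ≤ ε / 64 := hA1
  -- the objects
  set N : ℕ := n * m with hNdef
  have hNc : m * n = N := by rw [hNdef, Nat.mul_comm]
  set P := Lset n m with hPdef
  set q : ℕ → ℝ := fun r => (lev m n r : ℝ) / (m.factorial : ℝ) with hqdef
  have hfac : (0 : ℝ) < (m.factorial : ℝ) := by exact_mod_cast m.factorial_pos
  have hrkN : ∀ x ∈ P, rkF x ≤ N := fun x hx => rkF_le hx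
  set η : ℝ := etaA m n κ with hηdef
  classical
  set G : Finset ℕ := (range (N + 1)).filter
    (fun r => ((P.filter (fun b => rkF b = r)).card : ℝ) ≤ (1 + δ) * q r) with hGdef
  have hqsymm : ∀ r, r ≤ N → q (N - r) = q r := by
    intro r hr
    simp only [hqdef]
    rw [← hNc, lev_symm (by rw [hNc]; exact hr)]
  have hpsymm : ∀ r, r ≤ N → (P.filter (fun b => rkF b = N - r)).card =
      (P.filter (fun b => rkF b = r)).card := by
    intro r hr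
    exact card_star (m := n) (n := m) hr
  have hmem : ∀ r, r ∈ G ↔ r ≤ N ∧ ((P.filter (fun b => rkF b = r)).card : ℝ) ≤ (1 + δ) * q r := by
    intro r
    simp only [hGdef, mem_filter, mem_range, Nat.lt_succ_iff]
  have hGsymm : ∀ r, r ≤ N → r ∈ G → N - r ∈ G := by
    intro r hr h
    rw [hmem] at h ⊢
    refine ⟨Nat.sub_le _ _, ?_⟩
    rw [hpsymm r hr, hqsymm r hr]
    exact h.2
  have hqmono : ∀ r r', r ≤ r' → 2 * r' ≤ N → q r ≤ q r' := by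
    intro r r' h1 h2
    simp only [hqdef]
    have := lev_mono (m := m) (n := n) h1 (by rw [hNc]; exact h2)
    gcongr
  have hqpos : ∀ r, r ≤ N → 0 < q r := by
    intro r hr
    simp only [hqdef]
    have : 0 < lev m n r := lev_pos (by rw [hNc]; exact hr)
    positivity
  -- the mass
  have hmass := mass_A (m := m) (n := n) (κ := κ) hm hn1 hmn2 hκ
  rw [← hDdef, ← hδdef, ← hPdef, ← hηdef] at hmass
  set A := P.filter (fun a => ((P.filter (fun b => rkF b = rkF a)).card : ℝ) ≤ (1 + δ) *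
    ((lev m n (rkF a) : ℝ) / (m.factorial : ℝ)) ∧
      η ≤ (lev m n (rkF a) : ℝ) / (m.factorial : ℝ)) with hAdef
  have hPpos : 0 < (P.card : ℝ) := by
    have : (fun _ => 0 : Fin n → ℕ) ∈ P := by
      simp only [hPdef, Lset, Qset, mem_filter, Fintype.mem_piFinset, mem_range]
      exact ⟨fun _ => Nat.succ_pos _, fun _ _ _ => le_rfl⟩
    exact_mod_cast card_pos.mpr ⟨_, this⟩
  have hAcard : (1 - ε / 4) * (P.card : ℝ) ≤ (A.card : ℝ) := by
    refine le_trans ?_ hmass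
    apply mul_le_mul_of_nonneg_right _ hPpos.le
    rw [hκdef]; linarith
  have hA : ∀ a ∈ A, a ∈ P ∧ rkF a ∈ G ∧ η ≤ q (rkF a) := by
    intro a ha
    rw [hAdef, mem_filter] at ha
    exact ⟨ha.1, (hmem _).mpr ⟨hrkN a ha.1, ha.2.1⟩, ha.2.2⟩
  have ht : ∀ a ∈ A, min (rkF a) (N - rkF a) ∈ G ∧ η ≤ q (min (rkF a) (N - rkF a)) ∧
      2 * min (rkF a) (N - rkF a) ≤ N := by
    intro a ha
    obtain ⟨h1, h2, h3⟩ := hA a ha
    have h4 := hrkN a h1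
    refine ⟨?_, ?_, by omega⟩
    · rcases min_choice (rkF a) (N - rkF a) with h | h
      · rw [h]; exact h2
      · rw [h]; exact hGsymm _ h4 h2
    · rcases min_choice (rkF a) (N - rkF a) with h | h
      · rw [h]; exact h3
      · rw [h, hqsymm _ h4]; exact h3
  have hAne : A.Nonempty := by
    rw [← card_pos]
    have : (0 : ℝ) < (A.card : ℝ) := lt_of_lt_of_le (mul_pos (by linarith) hPpos) hAcard
    exact_mod_cast this
  obtain ⟨a0, ha0⟩ := hAne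
  obtain ⟨hb1, hb2, hb3⟩ := ht a0 ha0
  -- `r0`
  set S : Finset ℕ := G.filter (fun r => 2 * r ≤ N ∧ η ≤ q r) with hSdef
  have hSne : S.Nonempty := ⟨min (rkF a0) (N - rkF a0), by
    rw [hSdef, mem_filter]; exact ⟨hb1, hb3, hb2⟩⟩
  set r0 : ℕ := S.max' hSne with hr0def
  have hr0S : r0 ∈ S := S.max'_mem hSne
  have hr0max : ∀ r ∈ S, r ≤ r0 := fun r hr => S.le_max' r hr
  have hr0' := hr0S
  rw [hSdef, mem_filter] at hr0'
  obtain ⟨hr0G, hr0N, hr0η⟩ := hr0'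
  -- `sst`
  have hex : ∃ r, 2 * r ≤ N ∧ η ≤ q r := ⟨r0, hr0N, hr0η⟩
  set sst : ℕ := Nat.find hex with hsstdef
  have hsst : 2 * sst ≤ N ∧ η ≤ q sst := Nat.find_spec hex
  have hsstmin : ∀ r, 2 * r ≤ N → η ≤ q r → sst ≤ r := fun r h1 h2 => Nat.find_min' hex ⟨h1, h2⟩
  have hlevle : q r0 ≤ ((n : ℝ) + 1) ^ (m - 1) / (m.factorial : ℝ) := by
    simp only [hqdef]
    have h1 : lev m n r0 ≤ (n + 1) ^ (m - 1) := lev_le hm r0
    have h2 : (lev m n r0 : ℝ) ≤ ((n : ℝ) + 1) ^ (m - 1) := by exact_mod_cast h1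
    gcongr
  obtain ⟨l, c, d, hfam, hcount⟩ := AT (rk := rkF) (cov := covF) (N := N) (P := P)
    (q := q) (G := G) (sst := sst) (r0 := r0) (K := K) (δ := δ) (θ := θ)
    (fun x _ y _ h => h.2) hrkN hr0N hr0G (hsstmin r0 hr0N hr0η) hδ0 hθ hθ1
    (hqpos sst (by omega)) (fun r r' _ h2 h3 => hqmono r r' h2 (by omega)) hK1
    (by
      calc (1 - θ) ^ K * q r0
          ≤ (1 - θ) ^ K * (((n : ℝ) + 1) ^ (m - 1) / (m.factorial : ℝ)) :=
            mul_le_mul_of_nonneg_left hlevle (pow_nonneg (by linarith) _)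
        _ ≤ η := hK3
        _ ≤ q sst := hsst.2)
    (by
      intro r hr _ hr2
      have hrN : r ≤ N := ((hmem r).mp hr).1
      refine ⟨((hmem r).mp hr).2, ?_⟩
      rw [hpsymm r hrN]
      exact ((hmem r).mp hr).2)
    (by
      intro s0 _ s1 _ _ hs hs1 W X hW hX h1 h2
      have := cutA_low (m := m) (n := n) hs (by rw [hNc]; omega) W X hW hX h1 h2
      linarith)
    (by
      intro s0 _ s1 _ _ hs hs1 W X hW hX h1 h2
      have := cutA_up (m := m) (n := n) hs (by rw [hNc]; omega) W X hW hX h1 h2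
      linarith)
    (by
      intro W X hW hX h1 h2 h3
      have := cutA_mid (m := m) (n := n) (r0 := r0) (by rw [hNc]; omega) W X hW hX h1 h2 h3
      have h4 : 0 < q r0 := hqpos r0 (by omega)
      have h5 : (1 - δ) * q r0 ≤ (1 - 0) * q r0 := by nlinarith
      exact h5.trans this)
  refine ⟨l, c, d, hfam, ?_⟩
  set B := P.filter (fun x => min (rkF x) (N - rkF x) ∈ G ∧ sst ≤ min (rkF x) (N - rkF x) ∧
          min (rkF x) (N - rkF x) ≤ r0) with hBdef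
  have hAB : A ⊆ B := by
    intro a ha
    obtain ⟨h1, h2, h3⟩ := ht a ha
    rw [hBdef, mem_filter]
    refine ⟨(hA a ha).1, h1, hsstmin _ h3 h2, hr0max _ ?_⟩
    rw [hSdef, mem_filter]
    exact ⟨h1, h3, h2⟩
  have hABc : (A.card : ℝ) ≤ (B.card : ℝ) := by exact_mod_cast card_le_card hAB
  have hT0 : (0 : ℝ) ≤ (tot N d : ℝ) := Nat.cast_nonneg _
  have h10 : (1 - ε / 8) * (1 - ε / 64) * ((1 - ε / 4) * (P.card : ℝ)) ≤
      (1 + ε / 64) * (tot N d : ℝ) := by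
    calc (1 - ε / 8) * (1 - ε / 64) * ((1 - ε / 4) * (P.card : ℝ))
        ≤ (1 - θ) * (1 - (4 * (K : ℝ) + 1) * δ) * (B.card : ℝ) := by
          apply mul_le_mul
          · apply mul_le_mul_of_nonneg_left (by linarith) (by linarith)
          · exact hAcard.trans hABc
          · exact mul_nonneg (by linarith) hPpos.le
          · exact mul_nonneg (by linarith) (by linarith)
      _ ≤ (1 + δ) * (tot N d : ℝ) := hcount
      _ ≤ (1 + ε / 64) * (tot N d : ℝ) := mul_le_mul_of_nonneg_right (by linarith) hT0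
  have h11 : (1 - ε) * (1 + ε / 64) ≤ (1 - ε / 8) * (1 - ε / 64) * (1 - ε / 4) := by
    nlinarith [mul_pos hε hε, mul_pos (mul_pos hε hε) hε]
  have h12 : (1 + ε / 64) * ((1 - ε) * (P.card : ℝ)) ≤ (1 + ε / 64) * (tot N d : ℝ) := by
    calc (1 + ε / 64) * ((1 - ε) * (P.card : ℝ))
        = ((1 - ε) * (1 + ε / 64)) * (P.card : ℝ) := by ring
      _ ≤ ((1 - ε / 8) * (1 - ε / 64) * (1 - ε / 4)) * (P.card : ℝ) :=
          mul_le_mul_of_nonneg_right h11 hPpos.le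
      _ = (1 - ε / 8) * (1 - ε / 64) * ((1 - ε / 4) * (P.card : ℝ)) := by ring
      _ ≤ _ := h10
  exact le_of_mul_le_mul_left h12 (by linarith)

end Pool.Agent.Helper30.SC
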