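import Pool.Agent.Helper30.SC.Layer

set_option autoImplicit false

/-!
# SC-3 Step: extending chains through a shell

PROOF. `layered` for the network whose vertices are `inl x`, `x ∈ P`, `s0 ≤ rk x ≤ s1` (lower
shell) and `inr y`, `y ∈ P`, `N - s1 ≤ rk y ≤ N - s0` (upper shell) (as a sum of subtypes), with
`lay (inl x) = rk x - s0`, `lay (inr y) = (s1 - s0) + 1 + (rk y - (N - s1))`,
`L = 2 (s1 - s0) + 1`; edges: `inl x → inl y` if `cov x y`; `inr x → inr y` if `cov x y`;
`inl x → inr y` if there is `j` with `d j = s1`, `c j s1 = x`, `c j (N - s1) = y`.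
Hall condition for a set `W'` of vertices of layers `< L`: let `W` be its lower part,
`X = (P_{s0} \ W) ∪ (N(W') \ W')_low`, `Y = (N(W') \ W')_up` and
`U = {y ∈ P : N - s1 ≤ rk y ≤ N - s0} \ (W'_up ∪ Y)`. The hypotheses of `hcut` hold: if `y ∈ U`,
`N - s1 < rk y` and `cov x y` then `x ∉ W'_up` (else `y ∈ W'_up ∪ Y`), so `x ∈ U ∪ Y`; `W'` has no
element in the last layer, i.e. of rank `N - s0`; the link condition because a link from `W` ends
in `W'_up ∪ Y`. And `|X| + |Y| = |A \ W'| + |N(W') \ W'|` (`A` = layer 0; the two parts of `X` are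
disjoint because `N(W')` has layers `≥ 1`).
The `k` paths `p i` obtained have exactly one vertex in every layer, `p i` has the lower part
`x_{s0}, ..., x_{s1}`, then a link of some chain `σ i` with `d (σ i) = s1`,
`c (σ i) s1 = x_{s1}`, `c (σ i) (N - s1) = y_{N-s1}`, then `y_{N-s1}, ..., y_{N-s0}`. `σ` is
injective because the vertices `x_{s1}` are different. New family: for `j = σ i` put
`d' j = s0`, `c' j r = x_r` for `r < s1`, `c j r` for `s1 ≤ r ≤ N - s1`, `y_r` for `r > N - s1`;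
for `j` not in the image `d' j = d j`, `c' j = c j`. Injectivity on a level `r`: for
`s1 ≤ r ≤ N - s1` it is the old one (`c' j r = c j r` for all `j`, and `d j ≥ s1`), for `r < s1` or
`r > N - s1` only the chains in the image of `σ` are present (the others have `d j ≥ s1`).
-/

namespace Pool.Agent.Helper30.SC

open Finset

namespace Step

/-- the projection of the network to the poset -/
def prj {α : Type} {A B : Finset α} : ({x // x ∈ A} ⊕ {x // x ∈ B}) → α :=
  Sum.elim Subtype.val Subtype.val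

/-- the layer of a vertex of the network -/
def lay {α : Type} {A B : Finset α} (rk : α → ℕ) (N s0 s1 : ℕ) :
    ({x // x ∈ A} ⊕ {x // x ∈ B}) → ℕ :=
  Sum.elim (fun x => rk x.1 - s0) (fun y => (s1 - s0) + 1 + (rk y.1 - (N - s1)))

/-- the edges of the network -/
def Edge {α : Type} {A B : Finset α} (cov : α → α → Prop) (N s1 : ℕ) {l : ℕ}
    (c : Fin l → ℕ → α) (d : Fin l → ℕ) :
    ({x // x ∈ A} ⊕ {x // x ∈ B}) → ({x // x ∈ A} ⊕ {x // x ∈ B}) → Prop
  | Sum.inl x, Sum.inl y => cov x.1 y.1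
  | Sum.inr x, Sum.inr y => cov x.1 y.1
  | Sum.inl x, Sum.inr y => ∃ j, d j = s1 ∧ c j s1 = x.1 ∧ c j (N - s1) = y.1
  | Sum.inr _, Sum.inl _ => False

theorem paths {α : Type} [DecidableEq α] {rk : α → ℕ} {cov : α → α → Prop} {N : ℕ}
    {P : Finset α} (hcov : ∀ x ∈ P, ∀ y ∈ P, cov x y → rk y = rk x + 1)
    {l : ℕ} {c : Fin l → ℕ → α} {d : Fin l → ℕ} (h : IsFam rk cov N P l c d)
    {s0 s1 k : ℕ} (hs : s0 < s1) (hs1 : 2 * s1 ≤ N)
    (hcut : ∀ W X U Y : Finset α, W ⊆ P → X ⊆ P → U ⊆ P → Y ⊆ P →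
      (∀ x ∈ P, rk x = s0 → x ∈ W ∪ X) →
      (∀ x ∈ W, s0 ≤ rk x → rk x < s1 → ∀ y ∈ P, cov x y → y ∈ W ∪ X) →
      (∀ x ∈ P, rk x = N - s0 → x ∈ U ∪ Y) →
      (∀ y ∈ U, N - s1 < rk y → rk y ≤ N - s0 → ∀ x ∈ P, cov x y → x ∈ U ∪ Y) →
      (∀ j, d j = s1 → c j s1 ∈ W → c j (N - s1) ∉ U) → k ≤ X.card + Y.card) :
    ∃ p : Fin k → ℕ → ({x // x ∈ P.filter (fun x => s0 ≤ rk x ∧ rk x ≤ s1)} ⊕
        {x // x ∈ P.filter (fun x => N - s1 ≤ rk x ∧ rk x ≤ N - s0)}),
      (∀ j i, i ≤ 2 * (s1 - s0) + 1 → lay rk N s0 s1 (p j i) = i) ∧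
      (∀ j i, i < 2 * (s1 - s0) + 1 → Edge cov N s1 c d (p j i) (p j (i + 1))) ∧
      (∀ j j' i, i ≤ 2 * (s1 - s0) + 1 → p j i = p j' i → j = j') := by
  classical
  set Lo := P.filter (fun x => s0 ≤ rk x ∧ rk x ≤ s1) with hLo
  set Up := P.filter (fun x => N - s1 ≤ rk x ∧ rk x ≤ N - s0) with hUp
  apply layered (V := {x // x ∈ Lo} ⊕ {x // x ∈ Up}) (lay rk N s0 s1) (2 * (s1 - s0) + 1)
    (Edge cov N s1 c d)
  · rintro (⟨x, hx⟩ | ⟨x, hx⟩) (⟨y, hy⟩ | ⟨y, hy⟩) hxy
    · simp only [Edge] at hxy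
      simp only [hLo, mem_filter] at hx hy
      have := hcov x hx.1 y hy.1 hxy
      simp only [lay, Sum.elim_inl]
      omega
    · simp only [Edge] at hxy
      obtain ⟨j, hj, h1, h2⟩ := hxy
      simp only [hLo, mem_filter] at hx
      simp only [hUp, mem_filter] at hy
      have e1 := (h.2.1 j s1 hj.le (by omega)).2
      have e2 := (h.2.1 j (N - s1) (by omega) (by omega)).2
      rw [h1] at e1
      rw [h2] at e2
      simp only [lay, Sum.elim_inl, Sum.elim_inr]
      omega
    · exact absurd hxy (by simp [Edge])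
    · simp only [Edge] at hxy
      simp only [hUp, mem_filter] at hx hy
      have := hcov x hx.1 y hy.1 hxy
      simp only [lay, Sum.elim_inr]
      omega
  · intro W' hW'
    set NW : Finset ({x // x ∈ Lo} ⊕ {x // x ∈ Up}) :=
      univ.filter (fun w => ∃ v ∈ W', Edge cov N s1 c d v w) with hNW
    set A0 : Finset ({x // x ∈ Lo} ⊕ {x // x ∈ Up}) :=
      univ.filter (fun v => lay rk N s0 s1 v = 0) with hA0
    set W : Finset α := P.filter (fun x => ∃ hx : x ∈ Lo, Sum.inl ⟨x, hx⟩ ∈ W') with hW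
    set NL : Finset α := P.filter (fun x => ∃ hx : x ∈ Lo, Sum.inl ⟨x, hx⟩ ∈ NW) with hNL
    set Wu : Finset α := P.filter (fun x => ∃ hx : x ∈ Up, Sum.inr ⟨x, hx⟩ ∈ W') with hWu
    set NU : Finset α := P.filter (fun x => ∃ hx : x ∈ Up, Sum.inr ⟨x, hx⟩ ∈ NW) with hNU
    have hk := hcut W ((P.filter (fun x => rk x = s0) \ W) ∪ (NL \ W)) (Up \ (Wu ∪ NU)) (NU \ Wu)
      (filter_subset _ _)
      (union_subset (sdiff_subset.trans (filter_subset _ _)) (sdiff_subset.trans (filter_subset _ _)))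
      (sdiff_subset.trans (filter_subset _ _)) (sdiff_subset.trans (filter_subset _ _))
      (by
        intro x hx hr
        by_cases hxW : x ∈ W
        · exact mem_union_left _ hxW
        · refine mem_union_right _ (mem_union_left _ ?_)
          simp only [mem_sdiff, mem_filter]
          exact ⟨⟨hx, hr⟩, hxW⟩)
      (by
        intro x hx h0 h1 y hy hxy
        by_cases hyW : y ∈ W
        · exact mem_union_left _ hyW
        · refine mem_union_right _ (mem_union_right _ ?_)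
          rw [hW, mem_filter] at hx
          obtain ⟨hxP, hxL, hxW⟩ := hx
          have hr := hcov x hxP y hy hxy
          have hyL : y ∈ Lo := by
            rw [hLo, mem_filter]
            exact ⟨hy, by omega, by omega⟩
          rw [mem_sdiff]
          refine ⟨?_, hyW⟩
          rw [hNL, mem_filter]
          refine ⟨hy, hyL, ?_⟩
          rw [hNW, mem_filter]
          exact ⟨mem_univ _, _, hxW, hxy⟩)
      (by
        intro x hx hr
        have hxU : x ∈ Up := by
          rw [hUp, mem_filter]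
          exact ⟨hx, by omega, by omega⟩
        have hxW : x ∉ Wu := by
          intro hxW
          rw [hWu, mem_filter] at hxW
          obtain ⟨_, hxU', hxW⟩ := hxW
          have := hW' _ hxW
          simp only [lay, Sum.elim_inr] at this
          omega
        by_cases hxN : x ∈ NU
        · exact mem_union_right _ (mem_sdiff.2 ⟨hxN, hxW⟩)
        · refine mem_union_left _ (mem_sdiff.2 ⟨hxU, ?_⟩)
          rw [mem_union]
          exact fun hh => hh.elim hxW hxN)
      (by
        intro y hy h0 h1 x hx hxy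
        rw [mem_sdiff, mem_union] at hy
        obtain ⟨hyU, hyn⟩ := hy
        have hyU' := hyU
        rw [hUp, mem_filter] at hyU'
        have hr := hcov x hx y hyU'.1 hxy
        have hxU : x ∈ Up := by
          rw [hUp, mem_filter]
          exact ⟨hx, by omega, by omega⟩
        have hxW : x ∉ Wu := by
          intro hxW
          rw [hWu, mem_filter] at hxW
          obtain ⟨_, hxU', hxW⟩ := hxW
          apply hyn
          right
          rw [hNU, mem_filter]
          refine ⟨hyU'.1, hyU, ?_⟩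
          rw [hNW, mem_filter]
          exact ⟨mem_univ _, _, hxW, hxy⟩
        by_cases hxN : x ∈ NU
        · exact mem_union_right _ (mem_sdiff.2 ⟨hxN, hxW⟩)
        · refine mem_union_left _ (mem_sdiff.2 ⟨hxU, ?_⟩)
          rw [mem_union]
          exact fun hh => hh.elim hxW hxN)
      (by
        intro j hj hjW hjU
        rw [mem_sdiff, mem_union] at hjU
        obtain ⟨hyU, hyn⟩ := hjU
        have hyU' := hyU
        rw [hUp, mem_filter] at hyU'
        rw [hW, mem_filter] at hjW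
        obtain ⟨_, hxL, hxW⟩ := hjW
        apply hyn
        right
        rw [hNU, mem_filter]
        refine ⟨hyU'.1, hyU, ?_⟩
        rw [hNW, mem_filter]
        exact ⟨mem_univ _, _, hxW, j, hj, rfl, rfl⟩)
    have c1 : (P.filter (fun x => rk x = s0) \ W).card ≤ (A0 \ W').card := by
      refine (card_le_card (t := (A0 \ W').image prj) ?_).trans card_image_le
      intro x hx
      rw [mem_sdiff, mem_filter] at hx
      obtain ⟨⟨hxP, hr⟩, hxW⟩ := hx
      have hxL : x ∈ Lo := by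
        rw [hLo, mem_filter]
        exact ⟨hxP, by omega, by omega⟩
      rw [mem_image]
      refine ⟨Sum.inl ⟨x, hxL⟩, ?_, rfl⟩
      rw [mem_sdiff, hA0, mem_filter]
      refine ⟨⟨mem_univ _, ?_⟩, ?_⟩
      · simp only [lay, Sum.elim_inl]
        omega
      · intro hh
        apply hxW
        rw [hW, mem_filter]
        exact ⟨hxP, hxL, hh⟩
    have c2 : (NL \ W).card ≤ ((NW \ W').filter (fun v => v.isLeft = true)).card := by
      refine (card_le_card (t := ((NW \ W').filter (fun v => v.isLeft = true)).image prj) ?_).trans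
        card_image_le
      intro x hx
      rw [mem_sdiff, hNL, mem_filter] at hx
      obtain ⟨⟨hxP, hxL, hxN⟩, hxW⟩ := hx
      rw [mem_image]
      refine ⟨Sum.inl ⟨x, hxL⟩, ?_, rfl⟩
      rw [mem_filter, mem_sdiff]
      refine ⟨⟨hxN, ?_⟩, rfl⟩
      intro hh
      apply hxW
      rw [hW, mem_filter]
      exact ⟨hxP, hxL, hh⟩
    have c3 : (NU \ Wu).card ≤ ((NW \ W').filter (fun v => ¬ v.isLeft = true)).card := by
      refine (card_le_card (t := ((NW \ W').filter (fun v => ¬ v.isLeft = true)).image prj)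
        ?_).trans card_image_le
      intro x hx
      rw [mem_sdiff, hNU, mem_filter] at hx
      obtain ⟨⟨hxP, hxL, hxN⟩, hxW⟩ := hx
      rw [mem_image]
      refine ⟨Sum.inr ⟨x, hxL⟩, ?_, rfl⟩
      rw [mem_filter, mem_sdiff]
      refine ⟨⟨hxN, ?_⟩, by simp⟩
      intro hh
      apply hxW
      rw [hWu, mem_filter]
      exact ⟨hxP, hxL, hh⟩
    have c4 := card_filter_add_card_filter_not (s := NW \ W') (fun v => v.isLeft = true)
    have c5 := card_union_le (P.filter (fun x => rk x = s0) \ W) (NL \ W)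
    omega

end Step

theorem step {α : Type} [DecidableEq α] {rk : α → ℕ} {cov : α → α → Prop} {N : ℕ}
    {P : Finset α} (hcov : ∀ x ∈ P, ∀ y ∈ P, cov x y → rk y = rk x + 1)
    {l : ℕ} {c : Fin l → ℕ → α} {d : Fin l → ℕ} (h : IsFam rk cov N P l c d)
    {s0 s1 k : ℕ} (hs : s0 < s1) (hs1 : 2 * s1 ≤ N) (hd : ∀ j, s1 ≤ d j)
    (hcut : ∀ W X U Y : Finset α, W ⊆ P → X ⊆ P → U ⊆ P → Y ⊆ P →
      (∀ x ∈ P, rk x = s0 → x ∈ W ∪ X) →
      (∀ x ∈ W, s0 ≤ rk x → rk x < s1 → ∀ y ∈ P, cov x y → y ∈ W ∪ X) →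
      (∀ x ∈ P, rk x = N - s0 → x ∈ U ∪ Y) →
      (∀ y ∈ U, N - s1 < rk y → rk y ≤ N - s0 → ∀ x ∈ P, cov x y → x ∈ U ∪ Y) →
      (∀ j, d j = s1 → c j s1 ∈ W → c j (N - s1) ∉ U) → k ≤ X.card + Y.card) :
    ∃ (c' : Fin l → ℕ → α) (d' : Fin l → ℕ), IsFam rk cov N P l c' d' ∧ (∀ j, d' j ≤ d j) ∧
      (∀ j, s0 ≤ d' j) ∧ k ≤ (univ.filter (fun j => d' j = s0)).card := by
  classical
  obtain ⟨p, hp1, hp2, hp3⟩ := Step.paths hcov h hs hs1 hcut
  have hlow : ∀ i t, t ≤ s1 - s0 → ∃ x, ∃ hx, p i t = Sum.inl ⟨x, hx⟩ ∧ x ∈ P ∧ rk x = s0 + t := by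
    intro i t ht
    have h1 := hp1 i t (by omega)
    rcases hpt : p i t with ⟨x, hx⟩ | ⟨x, hx⟩
    · refine ⟨x, hx, rfl, ?_, ?_⟩
      · exact (mem_filter.1 hx).1
      · rw [hpt] at h1
        simp only [Step.lay, Sum.elim_inl] at h1
        have := (mem_filter.1 hx).2
        omega
    · rw [hpt] at h1
      simp only [Step.lay, Sum.elim_inr] at h1
      omega
  have hupp : ∀ i t, t ≤ s1 - s0 → ∃ x, ∃ hx, p i (s1 - s0 + 1 + t) = Sum.inr ⟨x, hx⟩ ∧ x ∈ P ∧
      rk x = N - s1 + t := by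
    intro i t ht
    have h1 := hp1 i (s1 - s0 + 1 + t) (by omega)
    rcases hpt : p i (s1 - s0 + 1 + t) with ⟨x, hx⟩ | ⟨x, hx⟩
    · rw [hpt] at h1
      simp only [Step.lay, Sum.elim_inl] at h1
      have := (mem_filter.1 hx).2
      omega
    · refine ⟨x, hx, rfl, ?_, ?_⟩
      · exact (mem_filter.1 hx).1
      · rw [hpt] at h1
        simp only [Step.lay, Sum.elim_inr] at h1
        have := (mem_filter.1 hx).2
        omega
  have hlink : ∀ i, ∃ j, d j = s1 ∧ c j s1 = Step.prj (p i (s1 - s0)) ∧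
      c j (N - s1) = Step.prj (p i (s1 - s0 + 1)) := by
    intro i
    obtain ⟨x, hx, hpx, _, _⟩ := hlow i (s1 - s0) le_rfl
    obtain ⟨y, hy, hpy, _, _⟩ := hupp i 0 (Nat.zero_le _)
    have h2 := hp2 i (s1 - s0) (by omega)
    rw [Nat.add_zero] at hpy
    rw [hpx, hpy] at h2 ⊢
    exact h2
  choose σ hσ1 hσ2 hσ3 using hlink
  have hinj : Function.Injective σ := by
    intro i i' hii
    obtain ⟨x, hx, hpx, _, _⟩ := hlow i (s1 - s0) le_rfl
    obtain ⟨x', hx', hpx', _, _⟩ := hlow i' (s1 - s0) le_rfl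
    apply hp3 i i' (s1 - s0) (by omega)
    have h1 := hσ2 i
    have h2 := hσ2 i'
    rw [hii, h2, hpx, hpx'] at h1
    simp only [Step.prj, Sum.elim_inl] at h1
    subst h1
    rw [hpx, hpx']
  let cn : Fin k → ℕ → α := fun i r =>
    if r < s1 then Step.prj (p i (r - s0)) else
      if N - s1 < r then Step.prj (p i (s1 - s0 + 1 + (r - (N - s1)))) else c (σ i) r
  have cn1 : ∀ i r, r ≤ s1 → cn i r = Step.prj (p i (r - s0)) := by
    intro i r hr
    simp only [cn]
    by_cases h1 : r < s1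
    · rw [if_pos h1]
    · have h2 : r = s1 := by omega
      subst h2
      rw [if_neg h1, if_neg (by omega), hσ2 i]
  have cn2 : ∀ i r, N - s1 ≤ r → cn i r = Step.prj (p i (s1 - s0 + 1 + (r - (N - s1)))) := by
    intro i r hr
    by_cases h1 : r < s1
    · omega
    · simp only [cn]
      rw [if_neg h1]
      by_cases h2 : N - s1 < r
      · rw [if_pos h2]
      · have h3 : r = N - s1 := by omega
        rw [if_neg h2, h3, Nat.sub_self, Nat.add_zero, hσ3 i]
  have cn3 : ∀ i r, s1 ≤ r → r ≤ N - s1 → cn i r = c (σ i) r := by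
    intro i r h1 h2
    simp only [cn]
    rw [if_neg (by omega), if_neg (by omega)]
  have e1 : ∀ i, Function.extend σ cn c (σ i) = cn i := fun i => hinj.extend_apply _ _ _
  have e2 : ∀ j, (¬ ∃ i, σ i = j) → Function.extend σ cn c j = c j :=
    fun j hj => Function.extend_apply' _ _ _ hj
  have f1 : ∀ i, Function.extend σ (fun _ => s0) d (σ i) = s0 := fun i => hinj.extend_apply _ _ _
  have f2 : ∀ j, (¬ ∃ i, σ i = j) → Function.extend σ (fun _ => s0) d j = d j :=
    fun j hj => Function.extend_apply' _ _ _ hj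
  refine ⟨Function.extend σ cn c, Function.extend σ (fun _ => s0) d, ⟨?_, ?_, ?_, ?_⟩, ?_, ?_, ?_⟩
  · intro j
    by_cases hj : ∃ i, σ i = j
    · obtain ⟨i, rfl⟩ := hj
      rw [f1]
      omega
    · rw [f2 j hj]
      exact h.1 j
  · intro j r h1 h2
    by_cases hj : ∃ i, σ i = j
    · obtain ⟨i, rfl⟩ := hj
      rw [f1] at h1 h2
      rw [e1]
      by_cases h3 : r ≤ s1
      · rw [cn1 i r h3]
        obtain ⟨x, hx, hpx, hxP, hr⟩ := hlow i (r - s0) (by omega)
        rw [hpx]
        exact ⟨hxP, by simp only [Step.prj, Sum.elim_inl]; omega⟩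
      · by_cases h4 : N - s1 ≤ r
        · rw [cn2 i r h4]
          obtain ⟨x, hx, hpx, hxP, hr⟩ := hupp i (r - (N - s1)) (by omega)
          rw [hpx]
          exact ⟨hxP, by simp only [Step.prj, Sum.elim_inr]; omega⟩
        · rw [cn3 i r (by omega) (by omega)]
          exact h.2.1 (σ i) r (by rw [hσ1]; omega) (by rw [hσ1]; omega)
    · rw [f2 j hj] at h1 h2
      rw [e2 j hj]
      exact h.2.1 j r h1 h2
  · intro j r h1 h2
    by_cases hj : ∃ i, σ i = j
    · obtain ⟨i, rfl⟩ := hj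
      rw [f1] at h1 h2
      rw [e1]
      by_cases h3 : r + 1 ≤ s1
      · rw [cn1 i r (by omega), cn1 i (r + 1) h3]
        obtain ⟨x, hx, hpx, hxP, hr⟩ := hlow i (r - s0) (by omega)
        obtain ⟨y, hy, hpy, hyP, hr'⟩ := hlow i (r + 1 - s0) (by omega)
        have h5 := hp2 i (r - s0) (by omega)
        rw [show r - s0 + 1 = r + 1 - s0 by omega, hpx, hpy] at h5
        rw [hpx, hpy]
        exact h5
      · by_cases h4 : N - s1 ≤ r
        · rw [cn2 i r h4, cn2 i (r + 1) (by omega)]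
          obtain ⟨x, hx, hpx, hxP, hr⟩ := hupp i (r - (N - s1)) (by omega)
          obtain ⟨y, hy, hpy, hyP, hr'⟩ := hupp i (r + 1 - (N - s1)) (by omega)
          have h5 := hp2 i (s1 - s0 + 1 + (r - (N - s1))) (by omega)
          rw [show s1 - s0 + 1 + (r - (N - s1)) + 1 = s1 - s0 + 1 + (r + 1 - (N - s1)) by omega,
            hpx, hpy] at h5
          rw [hpx, hpy]
          exact h5
        · rw [cn3 i r (by omega) (by omega), cn3 i (r + 1) (by omega) (by omega)]
          exact h.2.2.1 (σ i) r (by rw [hσ1]; omega) (by rw [hσ1]; omega)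
    · rw [f2 j hj] at h1 h2
      rw [e2 j hj]
      exact h.2.2.1 j r h1 h2
  · intro j j' r h1 h2 h3 h4 heq
    by_cases hj : ∃ i, σ i = j <;> by_cases hj' : ∃ i, σ i = j'
    · obtain ⟨i, rfl⟩ := hj
      obtain ⟨i', rfl⟩ := hj'
      rw [f1] at h1 h2 h3 h4
      rw [e1, e1] at heq
      congr 1
      by_cases h5 : r ≤ s1
      · rw [cn1 i r h5, cn1 i' r h5] at heq
        apply hp3 i i' (r - s0) (by omega)
        obtain ⟨x, hx, hpx, _, _⟩ := hlow i (r - s0) (by omega)
        obtain ⟨y, hy, hpy, _, _⟩ := hlow i' (r - s0) (by omega)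
        rw [hpx, hpy] at heq ⊢
        simp only [Step.prj, Sum.elim_inl] at heq
        subst heq
        rfl
      · by_cases h6 : N - s1 ≤ r
        · rw [cn2 i r h6, cn2 i' r h6] at heq
          apply hp3 i i' (s1 - s0 + 1 + (r - (N - s1))) (by omega)
          obtain ⟨x, hx, hpx, _, _⟩ := hupp i (r - (N - s1)) (by omega)
          obtain ⟨y, hy, hpy, _, _⟩ := hupp i' (r - (N - s1)) (by omega)
          rw [hpx, hpy] at heq ⊢
          simp only [Step.prj, Sum.elim_inr] at heq
          subst heq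
          rfl
        · rw [cn3 i r (by omega) (by omega), cn3 i' r (by omega) (by omega)] at heq
          exact hinj (h.2.2.2 (σ i) (σ i') r (by rw [hσ1]; omega) (by rw [hσ1]; omega)
            (by rw [hσ1]; omega) (by rw [hσ1]; omega) heq)
    · obtain ⟨i, rfl⟩ := hj
      rw [f1] at h1 h2
      rw [f2 j' hj'] at h3 h4
      have h7 := hd j'
      rw [e1, e2 j' hj', cn3 i r (by omega) (by omega)] at heq
      exact h.2.2.2 (σ i) j' r (by rw [hσ1]; omega) (by rw [hσ1]; omega) h3 h4 heq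
    · obtain ⟨i, rfl⟩ := hj'
      rw [f1] at h3 h4
      rw [f2 j hj] at h1 h2
      have h7 := hd j
      rw [e1, e2 j hj, cn3 i r (by omega) (by omega)] at heq
      exact h.2.2.2 j (σ i) r h1 h2 (by rw [hσ1]; omega) (by rw [hσ1]; omega) heq
    · rw [f2 j hj] at h1 h2
      rw [f2 j' hj'] at h3 h4
      rw [e2 j hj, e2 j' hj'] at heq
      exact h.2.2.2 j j' r h1 h2 h3 h4 heq
  · intro j
    by_cases hj : ∃ i, σ i = j
    · obtain ⟨i, rfl⟩ := hj
      rw [f1, hσ1]
      exact hs.le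
    · rw [f2 j hj]
  · intro j
    by_cases hj : ∃ i, σ i = j
    · obtain ⟨i, rfl⟩ := hj
      rw [f1]
    · rw [f2 j hj]
      exact hs.le.trans (hd j)
  · have h1 : (univ.image σ).card = k := by
      rw [card_image_of_injective _ hinj, card_univ, Fintype.card_fin]
    refine h1.symm.le.trans (card_le_card ?_)
    intro j hj
    obtain ⟨i, _, rfl⟩ := mem_image.1 hj
    rw [mem_filter]
    exact ⟨mem_univ _, f1 i⟩

end Pool.Agent.Helper30.SC
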